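import Pool.Agent.P.MP_a0f0ad_al.Fi.H.Iface
import Pool.Agent.P.MP_a0f0ad_al.Fi.S.Der
import Pool.Agent.P.MP_a0f0ad_al.Fi.V.Iface

/-! Step DEFN of the filiform project. -/

namespace Pool.Agent.P.MP_a0f0ad_al.Fi

open Finset MeasureTheory

namespace DefnA

variable {d : ℕ} {X : Type} [NormedAddCommGroup X] [NormedSpace ℝ X]

@[fun_prop] theorem pm_ev {q : X → Fin d → ℝ} {x : X → ℝ} (hq : IsPM q) (hx : IsPM x) (k : ℕ) :
    IsPM fun z => ev (q z) k (x z) := by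
  unfold ev dot Vd
  fun_prop

theorem pm_Vd {x : X → ℝ} (hx : IsPM x) (k : ℕ) (j : Fin d) : IsPM fun z => Vd k (x z) j := by
  unfold Vd
  fun_prop

theorem sa_idx (D : LD d) {φ : X → ℝ} (hφ : IsPM φ) (k : ℕ) : SA {z | D.idx (φ z) = k} := by
  refine SA.of_atoms (ι := Fin D.n) (A := fun l => {z | D.th l < φ z})
    (fun l => SA.lt (IsPM.const _) hφ) fun x y h hx => ?_
  refine Eq.trans (congrArg card (filter_congr fun l hl => ?_)) hx
  exact (h ⟨l, mem_range.1 hl⟩).symm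

theorem meas_idx (D : LD d) : Measurable D.idx := by
  refine Monotone.measurable fun u v h => card_le_card fun k hk => ?_
  exact mem_filter.2 ⟨(mem_filter.1 hk).1, (mem_filter.1 hk).2.trans_le h⟩

omit [NormedAddCommGroup X] [NormedSpace ℝ X] in
theorem split (D : LD d) (φ : X → ℝ) (F : ℕ → X → ℝ) (z : X) :
    F (D.idx (φ z)) z = ∑ k ∈ range (D.n + 1), {z | D.idx (φ z) = k}.indicator (F k) z := by
  have h : D.idx (φ z) ≤ D.n := (card_filter_le _ _).trans (card_range _).le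
  rw [sum_eq_single (D.idx (φ z)), Set.indicator_of_mem (by exact rfl)]
  · exact fun k _ e => Set.indicator_of_notMem (s := {z | D.idx (φ z) = k})
      (fun e' => e (Eq.symm e')) _
  · exact fun e => absurd (mem_range.2 (Nat.lt_succ_of_le h)) e

theorem ii_ind (D : LD d) {φ F : X × ℝ → ℝ} (hφ : IsPM φ) (hF : IsPM F) (k : ℕ) (x : X)
    (s t : ℝ) :
    IntervalIntegrable (fun y => {z | D.idx (φ z) = k}.indicator F (x, y)) volume s t := by
  have h1 : Continuous fun y => φ (x, y) := hφ.isP.continuous.comp (by fun_prop)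
  have h2 : Continuous fun y => F (x, y) := hF.isP.continuous.comp (by fun_prop)
  have h3 : MeasurableSet {y | D.idx (φ (x, y)) = k} :=
    ((meas_idx D).comp h1.measurable) (measurableSet_singleton k)
  exact ⟨(h2.intervalIntegrable s t).1.indicator h3, (h2.intervalIntegrable s t).2.indicator h3⟩

theorem ii (D : LD d) {φ : X × ℝ → ℝ} {F : ℕ → X × ℝ → ℝ} (hφ : IsPM φ) (hF : ∀ k, IsPM (F k))
    (x : X) (s t : ℝ) :
    IntervalIntegrable (fun y => F (D.idx (φ (x, y))) (x, y)) volume s t := by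
  have := IntervalIntegrable.sum (range (D.n + 1)) fun k _ => ii_ind D hφ (hF k) k x s t
  refine this.congr fun y _ => ?_
  rw [Finset.sum_apply, split D φ F]

variable [Fact S_PROJ] [FiniteDimensional ℝ X]

@[fun_prop] theorem df_ev {q : X → Fin d → ℝ} {x : X → ℝ} (hq : DF q) (hx : DF x) (k : ℕ) :
    DF fun z => ev (q z) k (x z) :=
  (IsPM.df (f := fun p : (Fin d → ℝ) × ℝ => ev p.1 k p.2) (by fun_prop)).comp (hq.prodMk hx)

@[fun_prop] theorem dp_feas (D : LD d) {q : X → Fin d → ℝ} {m M : X → ℝ} (hq : DF q) (hm : DF m)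
    (hM : DF M) : DP fun z => D.Feas (q z) (m z) (M z) := by
  unfold LD.Feas
  fun_prop

variable [hI : Fact S_INTG]

theorem integ (D : LD d) {φ : X × ℝ → ℝ} {F : ℕ → X × ℝ → ℝ} (hφ : IsPM φ)
    (hF : ∀ k, IsPM (F k)) :
    DF fun p : X × ℝ × ℝ => ∫ y in p.2.1..p.2.2, F (D.idx (φ (p.1, y))) (p.1, y) := by
  refine (DF.sum (range (D.n + 1)) fun k =>
    saf_univ.1 (hI.out X _ _ (sa_idx D hφ k) (hF k).isP)).congr fun p => ?_
  rw [← intervalIntegral.integral_finsetSum fun k _ => ii_ind D hφ (hF k) k p.1 _ _]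
  exact intervalIntegral.integral_congr fun y _ => split D φ F _

theorem int_lp (D : LD d) {φ : (Fin d → ℝ) × ℝ → ℝ} (hφ : IsPM φ) {q : X → Fin d → ℝ}
    {s t : X → ℝ} (hq : DF q) (hs : DF s) (ht : DF t) :
    DF fun z => ∫ y in s z..t z, D.lp (φ (q z, y)) := by
  have h := (integ D (F := fun k p => (1 - ((D.A k).b : ℝ) * φ p) / ((D.A k).a : ℝ)) hφ
    fun k => by fun_prop).comp (hq.prodMk (hs.prodMk ht))
  exact h.congr fun z => by simp only [LD.lp]

theorem int_kp (D : LD d) {Y : Type} [NormedAddCommGroup Y] [NormedSpace ℝ Y]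
    [FiniteDimensional ℝ Y] {φ f : Y × ℝ → ℝ} (hφ : IsPM φ) (hf : IsPM f) {q : X → Y}
    {s t : X → ℝ} (hq : DF q) (hs : DF s) (ht : DF t) :
    DF fun z => ∫ y in s z..t z, D.kp (φ (q z, y)) * f (q z, y) := by
  have h := (integ D (F := fun k p => D.kap k * f p) hφ fun k => by fun_prop).comp
    (hq.prodMk (hs.prodMk ht))
  exact h.congr fun z => by simp only [LD.kp]

@[fun_prop] theorem df_Bf (D : LD d) {q : X → Fin d → ℝ} {m M : X → ℝ} {u : X → E d} (hq : DF q)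
    (hm : DF m) (hM : DF M) (hu : DF u) : DF fun z => D.Bf (q z) (m z) (M z) (u z) := by
  have h0 : DF fun z => dot (q z) (u z).2 := by
    unfold dot
    fun_prop
  exact ((h0.add (int_lp D (φ := fun p => ev p.1 0 p.2) (by fun_prop) hq hm hM)).add
    (int_lp D (φ := fun p => -ev p.1 0 p.2) (by fun_prop) hq hm (DF.const 0))).add
    (int_lp D (φ := fun p => -ev p.1 0 p.2) (by fun_prop) hq hu.fst hM)

theorem df_Yq (D : LD d) {q : X → Fin d → ℝ} {m M a : X → ℝ} (hq : DF q)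
    (hm : DF m) (hM : DF M) (ha : DF a) : DF fun z => D.Yq (q z) (m z) (M z) (a z) := by
  refine DF.pi fun j => ?_
  have hV : IsPM fun p : (Fin d → ℝ) × ℝ => Vd 0 p.2 j := pm_Vd IsPM.id.snd 0 j
  exact ((int_kp D (φ := fun p => ev p.1 0 p.2) (by fun_prop) hV hq hm hM).sub
    (int_kp D (φ := fun p => -ev p.1 0 p.2) (by fun_prop) hV hq hm (DF.const 0))).sub
    (int_kp D (φ := fun p => -ev p.1 0 p.2) (by fun_prop) hV hq ha hM)

theorem df_Ib (D : LD d) {q f : X → Fin d → ℝ} {s t : X → ℝ} (hq : DF q)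
    (hf : DF f) (hs : DF s) (ht : DF t) : DF fun z => D.Ib (q z) (f z) (s z) (t z) := by
  have h1 : IsPM fun p : ((Fin d → ℝ) × (Fin d → ℝ)) × ℝ => ev p.1.1 0 p.2 := by fun_prop
  have h2 : IsPM fun p : ((Fin d → ℝ) × (Fin d → ℝ)) × ℝ => ev p.1.2 0 p.2 := by fun_prop
  refine ((int_kp D h1 h2 (hq.prodMk hf) hs ht).sub
    (int_kp D h1.neg h2 (hq.prodMk hf) hs ht)).congr fun z => ?_
  unfold LD.kp
  rw [← intervalIntegral.integral_sub
    (ii D (F := fun k p => D.kap k * ev p.1.2 0 p.2) h1 (fun k => by fun_prop) (q z, f z) _ _)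
    (ii D (F := fun k p => D.kap k * ev p.1.2 0 p.2) h1.neg (fun k => by fun_prop) (q z, f z) _ _)]
  exact intervalIntegral.integral_congr fun y _ => sub_mul _ _ _

theorem saf_NN (hPEN : S_PEN) (hHOM : S_HOM) (hATT : S_ATT) {S : Finset (G d)} {D : LD d}
    (hD : D.Spec S) : SAF {u : E d | 0 < u.1} D.NN := by
  have h : DP fun p : E d × ℝ => 0 < p.1.1 ∧
      (∃ m M : ℝ, m ≤ 0 ∧ p.1.1 ≤ M ∧ ∀ q, D.Feas q m M → D.Bf q m M p.1 ≤ p.2) ∧
        ∀ m M : ℝ, m ≤ 0 → p.1.1 ≤ M → ∃ q, D.Feas q m M ∧ p.2 ≤ D.Bf q m M p.1 := by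
    fun_prop
  refine h.congr fun ⟨u, r⟩ => and_congr_right fun (hu : 0 < u.1) => ?_
  have key : ∀ m M : ℝ, m ≤ 0 → u.1 ≤ M → (∀ q, D.Feas q m M → D.Bf q m M u ≤ D.Psi m M u) ∧
      ∃ q, D.Feas q m M ∧ D.Bf q m M u = D.Psi m M u ∧ D.NN u ≤ D.Psi m M u := by
    intro m M hm hM
    have hmM : m < M := by linarith
    obtain ⟨h1, h2⟩ := hPEN d S D hD m M u hm hu.le hM hmM
    obtain ⟨q, h3, h4⟩ := h2 0 0 le_rfl
    rw [zero_smul, sub_zero] at h4
    exact ⟨h1, q, h3, h4, ((hHOM d S D hD).2.2.1 u m M hm hu.le hM hmM).1⟩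
  obtain ⟨m, M, hm, hM, -, e⟩ := hATT d S D hD u hu.le
    (lt_max_of_lt_left (abs_pos.2 hu.ne'))
  constructor
  · rintro (rfl : r = D.NN u)
    refine ⟨⟨m, M, hm, hM, fun q hq => ((key m M hm hM).1 q hq).trans e.le⟩, fun m' M' h1 h2 => ?_⟩
    obtain ⟨q, h3, h4, h5⟩ := (key m' M' h1 h2).2
    exact ⟨q, h3, h5.trans h4.ge⟩
  · rintro ⟨⟨m', M', h1, h2, h3⟩, h4⟩
    obtain ⟨q, h5, h6⟩ := h4 m M hm hM
    obtain ⟨q', h7, h8, h9⟩ := (key m' M' h1 h2).2
    exact le_antisymm ((h6.trans ((key m M hm hM).1 q h5)).trans e.le)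
      ((h9.trans h8.ge).trans (h3 q' h7))

omit hI in
theorem sa_grad {N : E d → ℝ} (hN : SAF {u : E d | 0 < u.1} N) :
    SA {x : E d × E d | 0 < x.1.1 ∧ Grad N x.2 x.1} := by
  have h : DP fun x : E d × E d => 0 < x.1.1 ∧ ∃ L : E d →L[ℝ] ℝ,
      HasFDerivAt ({u : E d | 0 < u.1}.indicator N) L x.1 ∧ ∀ h, L h = pair x.2 h := by
    refine DP.and (by fun_prop) (DP.ex (DP.and (hN.df.hasFDerivAt.pm
      (f := fun p : (E d × E d) × (E d →L[ℝ] ℝ) => (p.1.1, p.2)) (by fun_prop)) ?_))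
    unfold pair dot
    fun_prop
  refine h.congr fun x => and_congr_right fun hx => exists_congr fun L => and_congr_left fun _ => ?_
  refine Filter.EventuallyEq.hasFDerivAt_iff ?_
  filter_upwards [(isOpen_lt continuous_const continuous_fst).mem_nhds hx] with y hy
  exact (Set.indicator_of_mem (s := {u : E d | 0 < u.1}) hy N).symm

end DefnA

open DefnA in
theorem p_DEFN (hPROJ : S_PROJ) (hINTG : S_INTG) (hPEN : S_PEN) (hHOM : S_HOM) (hATT : S_ATT) :
    S_DEFN := by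
  intro d S D hD
  have : Fact S_PROJ := ⟨hPROJ⟩
  have : Fact S_INTG := ⟨hINTG⟩
  have hN := saf_NN hPEN hHOM hATT hD
  exact ⟨saf_univ.2 (by fun_prop),
    saf_univ.2 (df_Yq D (by fun_prop) (by fun_prop) (by fun_prop) (by fun_prop)),
    saf_univ.2 (df_Ib D (by fun_prop) (by fun_prop) (by fun_prop) (by fun_prop)), hN, sa_grad hN⟩

end Pool.Agent.P.MP_a0f0ad_al.Fi
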