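import Pool.Agent.P.MP_a0f0ad_al.Fi.H.Iface
import Pool.Agent.P.MP_a0f0ad_al.Fi.S.Basic
import Pool.Agent.P.MP_a0f0ad_al.Fi.Z.Bq

/-! Chapter H: charts of optimal representations, tangent data, stage predicates. -/

namespace Pool.Agent.P.MP_a0f0ad_al.Fi

open Finset MeasureTheory Polynomial Filter Topology
open scoped Classical

noncomputable section

variable {d : ℕ}

/-- a weighted norm on polynomials -/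
def nr {K : Type} [NormedField K] (R : ℝ) (P : K[X]) : ℝ := P.sum fun i c => ‖c‖ * R ^ i

/-- the monic polynomial with the simple roots `A` -/
def wA (A : Finset ℝ) : ℝ[X] := ∏ z ∈ A, (X - C z)

/-- the coefficients of `X ^ k * wA A` -/
def fA (d : ℕ) (A : Finset ℝ) (k : ℕ) : Fin d → ℝ := cf d (X ^ k * wA A)

/-- the product of the distances from `y` to the other points of `A` -/
def pd (A : Finset ℝ) (y : ℝ) : ℝ := ∏ z ∈ A.erase y, |y - z|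

namespace LD

variable (D : LD d)

/-- marked points: `0`, `a`, levels, critical points, inflection points -/
def Pts (q : Fin d → ℝ) (a : ℝ) : Set ℝ :=
  {y | |y| < 2 * D.Lam ∧ (y = 0 ∨ y = a ∨ ev q 0 y ∈ D.ThA ∨ ev q 1 y = 0 ∨
    (ev q 2 y = 0 ∧ ∃ x, ev q 2 x ≠ 0))}

/-- `L` is the set of levels strictly between `s` and `t` -/
def IsLv (q : Fin d → ℝ) (s t : ℝ) (L : Finset ℝ) : Prop :=
  ∀ x, x ∈ L ↔ s < x ∧ x < t ∧ ∃ l < D.n, ev q 0 x = D.th l ∨ ev q 0 x = -D.th l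

/-- the competition between the intervals `[α, m]` and `[z, M]` -/
def Phi (q f : Fin d → ℝ) (α m z M : ℝ) : ℝ := D.Ib q f α m - D.Ib q f z M

/-- four marked points where the dual polynomial is extremal -/
def Cfg (q : Fin d → ℝ) (α m z M : ℝ) : Prop :=
  α < m ∧ z < M ∧ ∀ y, y = α ∨ y = m ∨ y = z ∨ y = M → |y| < 2 * D.Lam ∧ |ev q 0 y| = D.Q

end LD

namespace RD

variable (ρ : RD d) (D : LD d)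

/-- the height component of the covector -/
def pa (u : E d) : ℝ := -D.lp (-ev ρ.q 0 u.1) + ρ.DM D

/-- the same representation with zero mass off the atoms -/
def nrm : RD d := ⟨ρ.q, ρ.m, ρ.M, ρ.Z, ρ.muAt⟩

/-- the nodes: levels, free ends, atoms -/
def N (a : ℝ) : Finset ℝ :=
  if h : (ρ.lev D a ∪ (ρ.Z : Set ℝ)).Finite then h.toFinset else ∅

/-- the atoms whose mass is a free parameter -/
def TF (a : ℝ) : Finset ℝ := ρ.Z.filter fun z => ρ.Pin a z ∨ ev ρ.q 1 z = 0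

/-- the touching atoms -/
def TT (a : ℝ) : Finset ℝ := ρ.Z.filter fun z => ρ.IsT a z

/-- the density of the deposit -/
def dens (a x : ℝ) : ℝ :=
  (if ρ.m < x ∧ x < ρ.M then D.kp (ev ρ.q 0 x) else 0) -
    if (ρ.m < x ∧ x < 0) ∨ (a < x ∧ x < ρ.M) then D.kp (-ev ρ.q 0 x) else 0

/-- the jump of the density -/
def J (a y : ℝ) : ℝ := Function.leftLim (ρ.dens D a) y - Function.rightLim (ρ.dens D a) y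

/-- levels of the same kind -/
def Cls (a y y' : ℝ) : Prop :=
  ev ρ.q 0 y = ev ρ.q 0 y' ∧ (0 < ev ρ.q 1 y ↔ 0 < ev ρ.q 1 y') ∧
    ((0 < y ∧ y < a) ↔ (0 < y' ∧ y' < a))

/-- the quantity that decides the competition of two ranges -/
def GG (σ : ℝ) (f : Fin d → ℝ) (α m z M : ℝ) : ℝ :=
  σ * D.Phi ρ.q f α m z M + ∑ x ∈ ρ.Z, ρ.mu x * ev f 0 x

/-- the standing hypotheses -/
structure Bas (u : E d) : Prop where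
  ha : 0 < u.1
  hN : D.NN u ≤ 1
  hq : Nonconst ρ.q
  opt : ρ.Opt D u (ρ.pa D u)

/-- elementary consequences of the standing hypotheses -/
structure Fac (u : E d) : Prop where
  lo : -(D.Lam / 3) ≤ ρ.m
  hi : ρ.M ≤ D.Lam / 3
  memN : ∀ y, y ∈ ρ.N D u.1 ↔ y ∈ ρ.lev D u.1 ∨ y ∈ ρ.Z
  rng : ∀ y ∈ ρ.N D u.1, ρ.m ≤ y ∧ y ≤ ρ.M ∧ ev ρ.q 0 y ∈ D.ThA
  lvl : ∀ y ∈ ρ.N D u.1, |ev ρ.q 0 y| < D.Q → ρ.m < y ∧ y < ρ.M ∧ y ∉ ρ.Z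
  top : ∀ y ∈ ρ.N D u.1, ¬ |ev ρ.q 0 y| < D.Q →
    |ev ρ.q 0 y| = D.Q ∧ (y ∈ ρ.TF u.1 ∨ y = ρ.m ∨ y = ρ.M)
  mass : ∀ z ∈ ρ.Z, D.Q * |ρ.mu z| ≤ 1 ∧ ρ.mu z ≠ 0
  inner : ∀ z ∈ ρ.Z, ρ.m < z → z < ρ.M → ev ρ.q 1 z = 0
  endm : ρ.m < 0 → |ev ρ.q 0 ρ.m| = D.Q ∧ ρ.m ∈ ρ.N D u.1
  endM : u.1 < ρ.M → |ev ρ.q 0 ρ.M| = D.Q ∧ ρ.M ∈ ρ.N D u.1
  cardZ : ρ.Z.card ≤ d
  cardT : (ρ.TT u.1).card + 2 ≤ d
  pinned : ∀ z ∈ ρ.Z, ρ.Pin u.1 z → |ρ.mu z| * |ev ρ.q 1 z| ≤ D.om D.Q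
  wait : ∀ z ∈ ρ.Z, ¬ ρ.Pin u.1 z → ev ρ.q 1 z ≠ 0 →
    ((z = ρ.m ∧ ρ.m < 0) ∨ (z = ρ.M ∧ u.1 < ρ.M)) ∧ |ρ.mu z| * |ev ρ.q 1 z| = D.om D.Q
  eN : ρ.eN D u.1 = (ρ.N D u.1).card + (ρ.Z.filter fun z => ¬ ρ.Pin u.1 z).card

end RD

/-- derivatives of the dual polynomial, of the marked points and of the masses -/
structure Tan (d : ℕ) where
  Dq : E d →L[ℝ] (Fin d → ℝ)
  Dx : ℝ → E d →L[ℝ] ℝ
  Dm : ℝ → E d →L[ℝ] ℝ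

namespace Tan

variable (T : Tan d) (ρ : RD d) (D : LD d)

/-- the derivative of `ev q k y` -/
def Dev (k : ℕ) (y : ℝ) (h : E d) : ℝ := ev (T.Dq h) k y + ev ρ.q (k + 1) y * T.Dx y h

/-- the derivative of `mu z * ev q 1 z` -/
def Dmq (z : ℝ) (h : E d) : ℝ := T.Dm z h * ev ρ.q 1 z + ρ.mu z * T.Dev ρ 1 z h

/-- the derivative of `fA d A k` -/
def dfA (A : Finset ℝ) (k : ℕ) (h : E d) : Fin d → ℝ :=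
  -∑ z ∈ A, T.Dx z h • fA d (A.erase z) k

/-- the derivative of `Ib q (fA d A k) s t` when `s`, `t` are extremal points -/
def DI (A : Finset ℝ) (k : ℕ) (s t : ℝ) (L : Finset ℝ) (h : E d) : ℝ :=
  D.Ib ρ.q (T.dfA A k h) s t + D.be (ev ρ.q 0 t) * ev (fA d A k) 0 t * T.Dx t h -
    D.be (ev ρ.q 0 s) * ev (fA d A k) 0 s * T.Dx s h -
    ∑ y ∈ L, D.Jb (ev ρ.q 0 y) * (|ev ρ.q 1 y| / ev ρ.q 1 y) * ev (fA d A k) 0 y * T.Dx y h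

/-- the derivative of `GG` -/
def DG (σ : ℝ) (A : Finset ℝ) (k : ℕ) (α m z M : ℝ) (L1 L2 : Finset ℝ) (h : E d) : ℝ :=
  σ * (T.DI ρ D A k α m L1 h - T.DI ρ D A k z M L2 h) +
    ∑ x ∈ ρ.Z, (T.Dm x h * ev (fA d A k) 0 x +
      ρ.mu x * (ev (T.dfA A k h) 0 x + ev (fA d A k) 1 x * T.Dx x h))

end Tan

/-- the functional `L` has norm at least `l` and is not zero -/
def Big (L : E d → ℝ) (l : ℝ) : Prop := ∃ h, l * ‖h‖ ≤ |L h| ∧ L h ≠ 0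

/-- the differentiated identities at a generic point -/
structure CtxW (D : LD d) (ρ : RD d) (u : E d) (T : Tan d) : Prop extends ρ.Bas D u where
  dy : ∀ h : E d, h.2 =
    ∑ y ∈ insert u.1 (ρ.N D u.1), (ρ.J D u.1 y * T.Dx y h) • Vd 0 y +
      ∑ z ∈ ρ.Z, (T.Dm z h • Vd 0 z + (ρ.mu z * T.Dx z h) • Vd 1 z)
  d0 : ∀ h, T.Dx 0 h = 0
  da : ∀ h, T.Dx u.1 h = h.1
  dval : ∀ y, |y| < 2 * D.Lam → ev ρ.q 0 y ∈ D.ThA → ∀ h, T.Dev ρ 0 y h = 0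
  dk : ∀ y ∈ D.Pts ρ.q u.1, ∀ k, 1 ≤ k → ev ρ.q k y = 0 → ∀ h, T.Dev ρ k y h = 0
  dW : ∀ z ∈ ρ.Z, ¬ ρ.Pin u.1 z → ev ρ.q 1 z ≠ 0 → ∀ h, T.Dmq ρ z h = 0

/-- every admissible variation occurs, and nothing is degenerate -/
structure Ctx (D : LD d) (ρ : RD d) (u : E d) (T : Tan d) : Prop extends CtxW D ρ u T where
  fac : ρ.Fac D u
  surj : ∀ (g : Fin d → ℝ) (da : ℝ) (ν : ℝ → ℝ),
    (∀ z ∈ ρ.TF u.1, ev g 0 z + (if z = u.1 then ev ρ.q 1 z * da else 0) = 0) →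
    ∃ h : E d, T.Dq h = g ∧ h.1 = da ∧ ∀ z ∈ ρ.TF u.1, T.Dm z h = ν z
  nd1 : ∀ y, |y| < 2 * D.Lam → ev ρ.q 0 y ∈ D.ThA → ev ρ.q 1 y = 0 → ρ.IsT u.1 y
  nd2 : ∀ z, ρ.IsT u.1 z → ev ρ.q 2 z ≠ 0 ∧ z ≠ 0 ∧ z ≠ u.1
  nd3 : ∀ y, y = 0 ∨ y = u.1 → ev ρ.q 0 y ∈ D.ThA → y ∈ ρ.Z ∧ ρ.Pin u.1 y

/-- a distance, a value or a mass is within `t` of a critical value and moves with speed `l` -/
def Hit1 (D : LD d) (ρ : RD d) (u : E d) (T : Tan d) (t l : ℝ) : Prop :=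
  (∃ y ∈ D.Pts ρ.q u.1, ∃ y' ∈ D.Pts ρ.q u.1, |y - y'| ≤ t ∧
    Big (fun h => T.Dx y h - T.Dx y' h) l) ∨
  (∃ y ∈ D.Pts ρ.q u.1, ∃ k ≤ 2, ∃ w, (w ∈ D.ThA ∨ w = 0) ∧ |ev ρ.q k y - w| ≤ t ∧
    Big (T.Dev ρ k y) l) ∨
  (∃ z ∈ ρ.Z, |ρ.mu z| ≤ t ∧ Big (fun h => T.Dm z h) l) ∨
  (∃ z ∈ ρ.Z, ∃ w, (w = D.om D.Q ∨ w = -D.om D.Q) ∧ |ρ.mu z * ev ρ.q 1 z - w| ≤ t ∧
    Big (T.Dmq ρ z) l)

/-- the same for the competition of two ranges -/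
def Hit2 (D : LD d) (ρ : RD d) (_u : E d) (T : Tan d) (t l : ℝ) : Prop :=
  ∃ (σ : ℝ) (A : Finset ℝ) (k : ℕ) (α m z M : ℝ) (L1 L2 : Finset ℝ), (σ = 1 ∨ σ = -1) ∧
    A ⊆ ρ.Z ∧ A.card + k < d ∧ D.Cfg ρ.q α m z M ∧ D.IsLv ρ.q α m L1 ∧ D.IsLv ρ.q z M L2 ∧
    |ρ.GG D σ (fA d A k) α m z M| ≤ t ∧ Big (T.DG ρ D σ A k α m z M L1 L2) l

/-- families of predicates with a size parameter -/
abbrev Prd : Type := ∀ d : ℕ, LD d → RD d → E d → Tan d → ℝ → Prop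

def Prd.and (P Q : Prd) : Prd := fun d D ρ u T v => P d D ρ u T v ∧ Q d D ρ u T v

/-- the predicate gets weaker when the parameter decreases -/
def Mono (P : Prd) : Prop :=
  ∀ d D ρ u T (v v' : ℝ), 0 < v' → v' ≤ v → P d D ρ u T v → P d D ρ u T v'

/-- `P` at size `v` gives `Q` at size `t`, unless some observable is hit -/
def Imp (P Q : Prd) : Prop :=
  ∃ j : ℕ, ∀ (d : ℕ) (S : Finset (G d)) (D : LD d), 6 ≤ d → Even d → D.Spec S →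
    ∃ c : ℝ, 0 < c ∧ ∀ (ρ : RD d) (u : E d) (T : Tan d) (v t : ℝ), Ctx D ρ u T → 0 < v → v ≤ 1 →
      0 < t → t ≤ c * v ^ j → P d D ρ u T v →
      Q d D ρ u T t ∨ Hit1 D ρ u T t (c * v ^ j) ∨ Hit2 D ρ u T t (c * v ^ j)

def pS0 : Prd := fun d _ ρ u _ v =>
  v ≤ u.1 ∧ v ≤ ell u ^ d ∧ v ≤ (ρ.M - ρ.m) ^ d ∧ v * ‖ρ.q‖ ≤ 1

def pBG : Prd := fun _ D ρ u T v =>
  (∀ y ∈ ρ.N D u.1, ∀ h, v * |T.Dx y h| ≤ ‖h‖) ∧ ∀ z ∈ ρ.Z, ∀ h, v * |T.Dm z h| ≤ ‖h‖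

def pDEN : Prd := fun _ D ρ u _ v => ρ.DEN D u.1 v

def pQL : Prd := fun _ D ρ _ _ v =>
  ∀ s, -(2 * D.Lam) ≤ s → s ≤ D.Lam → ∃ x ∈ Set.Icc s (s + D.Lam), v ≤ |ev ρ.q 1 x|

def pP0 : Prd := fun _ _ ρ u _ v => ∀ z ∈ ρ.TF u.1, v ≤ pd (ρ.TF u.1) z

def pMD : Prd := fun _ D ρ u _ v =>
  ∀ y ∈ ρ.N D u.1, ∀ y' ∈ ρ.N D u.1, y ≠ y' → v ≤ |y - y'|

def pPC : Prd := fun _ D ρ u _ v =>
  ∀ y ∈ ρ.N D u.1, |ev ρ.q 0 y| < D.Q → v ≤ pd ((ρ.N D u.1).filter (ρ.Cls u.1 y)) y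

def pPR : Prd := fun _ D ρ u _ v =>
  ∀ y ∈ ρ.N D u.1, v ≤ pd ((ρ.N D u.1).filter fun y' => ev ρ.q 0 y' = ev ρ.q 0 y) y

def pTH : Prd := fun _ D ρ u _ v =>
  (∀ y ∈ ρ.N D u.1, ¬ ρ.IsT u.1 y → v ≤ |ev ρ.q 1 y|) ∧ ∀ z, ρ.IsT u.1 z → v ≤ |ev ρ.q 2 z|

def pTV : Prd := fun _ D ρ u _ v =>
  (∀ c, |c| < 2 * D.Lam → ev ρ.q 1 c = 0 → ¬ ρ.IsT u.1 c → ∀ w ∈ D.ThA, v ≤ |ev ρ.q 0 c - w|) ∧
    ∀ x, |x| < 2 * D.Lam → ev ρ.q 2 x = 0 → v ≤ |ev ρ.q 1 x|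

def pMU : Prd := fun _ D ρ u _ v =>
  (∀ z ∈ ρ.TF u.1, v ≤ |ρ.mu z|) ∧ (∀ z, ρ.IsT u.1 z → v ≤ |z| ∧ v ≤ |z - u.1|) ∧
    ∀ z ∈ ρ.Z, ρ.Pin u.1 z → |ρ.mu z| * |ev ρ.q 1 z| + v ≤ D.om D.Q

def pR12 : Prd := fun _ D ρ u _ v =>
  (∀ z, ρ.IsT u.1 z → v ≤ |ρ.mu z| ∧ 2 * v ≤ |z| ∧ 2 * v ≤ |z - u.1| ∧
    ∀ x, |x - z| ≤ v → v ≤ |ev ρ.q 2 x|) ∧
  ∀ x, |x| ≤ D.Lam → ∀ w ∈ D.ThA, |ev ρ.q 0 x - w| ≤ v →
    v ^ 2 ≤ |ev ρ.q 1 x| ∨ ∃ z, ρ.IsT u.1 z ∧ |x - z| ≤ v ∧ ev ρ.q 0 z = w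

def pR3 : Prd := fun _ D ρ u _ v =>
  ∀ x, x = 0 ∨ x = u.1 →
    (x ∈ ρ.Z ∧ ρ.Pin u.1 x ∧ v ≤ |ρ.mu x| ∧ |ρ.mu x| * |ev ρ.q 1 x| + v ≤ D.om D.Q) ∨
      ∀ w ∈ D.ThA, v ≤ |ev ρ.q 0 x - w|

def pG1 : Prd := fun d D ρ u _ v =>
  (∀ x ∈ ρ.Z, ρ.IsT u.1 x) → ∀ σ α m z M : ℝ, σ = 1 ∨ σ = -1 → D.Cfg ρ.q α m z M →
    ∀ x ∈ ρ.Z, v ≤ |ρ.GG D σ (fA d (ρ.Z.erase x) 0) α m z M|

def pG2 : Prd := fun d D ρ u _ v =>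
  D.om D.Q = 0 → ∀ α m z M : ℝ, -D.Lam ≤ α → α < m → m < z → z < M → M ≤ D.Lam →
    D.Feas ρ.q α M → |ev ρ.q 0 α| = D.Q → |ev ρ.q 0 M| = D.Q → m ∈ ρ.Z → z ∈ ρ.Z →
    (∀ x ∈ ρ.Z, ρ.IsT u.1 x ∧ m ≤ x ∧ x ≤ z) → ρ.M - ρ.m ≤ M - α → ρ.Z.card + 2 < d →
    ∃ k, ρ.Z.card + k < d ∧ v ≤ |D.Phi ρ.q (fA d ρ.Z k) α m z M|

def pG6L : Prd := fun _ D ρ u _ v => ρ.G6L D u (ρ.pa D u) v

def pG6R : Prd := fun _ D ρ u _ v => ρ.G6R D u (ρ.pa D u) v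

/-! ### charts -/

/-- the representation with marked points `x` and masses `μ` -/
def mkrd {n : ℕ} (jm jM : Fin n) (Zs : Finset (Fin n)) (q : Fin d → ℝ) (x μ : Fin n → ℝ) : RD d :=
  ⟨q, x jm, x jM, Zs.image x, fun y => ∑ j, if x j = y then μ j else 0⟩

/-- the data encode an optimal representation at `u` -/
def Enc (D : LD d) (u : E d) {n : ℕ} (jm jM : Fin n) (Zs : Finset (Fin n)) (q : Fin d → ℝ)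
    (x μ : Fin n → ℝ) : Prop :=
  StrictMono x ∧ (∀ y, y ∈ D.Pts q u.1 ↔ ∃ j, x j = y) ∧ (∀ j, j ∉ Zs → μ j = 0) ∧
    (mkrd jm jM Zs q x μ).Bas D u

/-- a family of representations over an open set -/
structure Ch (d n : ℕ) where
  jm : Fin n
  jM : Fin n
  Zs : Finset (Fin n)
  U : Set (E d)
  q : E d → Fin d → ℝ
  x : E d → Fin n → ℝ
  μ : E d → Fin n → ℝ

namespace Ch

variable {n : ℕ} (c : Ch d n)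

def rd (u : E d) : RD d := mkrd c.jm c.jM c.Zs (c.q u) (c.x u) (c.μ u)

def tan (u : E d) : Tan d :=
  ⟨fderiv ℝ c.q u, fun y => ∑ j, if c.x u j = y then fderiv ℝ (fun u' => c.x u' j) u else 0,
    fun y => ∑ j, if c.x u j = y then fderiv ℝ (fun u' => c.μ u' j) u else 0⟩

structure OK (D : LD d) : Prop where
  isOpen : IsOpen c.U
  sa : SA c.U
  bdd : Bornology.IsBounded c.U
  dfq : DF c.q
  dfx : DF c.x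
  dfm : DF c.μ
  diffq : ∀ u ∈ c.U, DifferentiableAt ℝ c.q u
  diffx : ∀ u ∈ c.U, DifferentiableAt ℝ c.x u
  diffm : ∀ u ∈ c.U, DifferentiableAt ℝ c.μ u
  enc : ∀ u ∈ c.U, Enc D u c.jm c.jM c.Zs (c.q u) (c.x u) (c.μ u)

/-- coincidences at `u` persist near `u` -/
def Gen (D : LD d) (u : E d) : Prop :=
  ∀ (j : Fin n) (k : ℕ) (w : ℝ), w ∈ D.ThA ∨ w = 0 → ev (c.q u) k (c.x u j) = w →
    ∀ᶠ u' in 𝓝 u, ev (c.q u') k (c.x u' j) = w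

end Ch

/-- on every chart the predicate fails at size `s ^ k` only on a set of measure `O(s)` -/
def Sm (P : Prd) : Prop :=
  ∃ k : ℕ, 0 < k ∧ ∀ (d : ℕ) (S : Finset (G d)) (D : LD d), 6 ≤ d → Even d → D.Spec S →
    ∀ (n : ℕ) (c : Ch d n), c.OK D → ∃ C : ℝ, ∀ s : ℝ, 0 < s → s ≤ 1 →
      volume {u | u ∈ c.U ∧ ¬ P d D (c.rd u) u (c.tan u) (s ^ k)} ≤ ENNReal.ofReal (C * s)

end

end Pool.Agent.P.MP_a0f0ad_al.Fi
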