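import Pool.Agent.P.MP_a0f0ad_al.Fi.H.Iface2

/-! Step HALL of the filiform project. -/

namespace Pool.Agent.P.MP_a0f0ad_al.Fi

open Finset MeasureTheory Polynomial Filter Topology
open scoped Classical

theorem p_HALL (hHNRM : S_HNRM) (hHCOV : S_HCOV) (hHSTEP : S_HSTEP) (hHMONO : S_HMONO) (hHS0 : S_HS0) (hHBG : S_HBG) (hHNRC : S_HNRC) (hHDEN : S_HDEN) (hHQL : S_HQL) (hHP0 : S_HP0) (hHMD : S_HMD) (hHPC : S_HPC) (hHPR : S_HPR) (hHTH : S_HTH) (hHTV : S_HTV) (hHMU : S_HMU) (hHR12 : S_HR12) (hHR3 : S_HR3) (hHG1 : S_HG1) (hHG2 : S_HG2) (hHG6L : S_HG6L) (hHG6R : S_HG6R) :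
    S_HALL := by
  obtain ⟨st, cj⟩ := hHSTEP
  obtain ⟨ma, mS0, mBG, mDEN, mQL, mP0, mMD, mPC, mPR, mTH, mTV, mMU, mR12, mR3, mG1, mG2, mL,
    mR⟩ := hHMONO
  have sS0 : Sm pS0 := hHS0
  have sBG : Sm pBG := hHBG
  have sDEN := st _ _ sBG hHDEN
  have sQL := st _ _ sDEN hHQL
  have sP0 := st _ _ sBG hHP0
  have sMD := st _ _ sS0 hHMD
  have sPC := st _ _ (cj _ _ mS0 (ma _ _ mBG mQL) sS0 (cj _ _ mBG mQL sBG sQL)) hHPC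
  have sPR := st _ _ (cj _ _ mMD (ma _ _ mP0 mPC) sMD (cj _ _ mP0 mPC sP0 sPC)) hHPR
  have sTH := st _ _ (cj _ _ mS0 (ma _ _ mQL mPR) sS0 (cj _ _ mQL mPR sQL sPR)) hHTH
  have s1 := cj _ _ mP0 mTH sP0 sTH
  have m1 := ma _ _ mP0 mTH
  have sTV := st _ _ (cj _ _ mS0 (ma _ _ mQL m1) sS0 (cj _ _ mQL m1 sQL s1)) hHTV
  have sMU := st _ _ (cj _ _ mS0 m1 sS0 s1) hHMU
  have m2 := ma _ _ mTV mMU
  have m3 := ma _ _ mTH m2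
  have sR12 := st _ _ (cj _ _ mS0 (ma _ _ mQL m3) sS0
    (cj _ _ mQL m3 sQL (cj _ _ mTH m2 sTH (cj _ _ mTV mMU sTV sMU)))) hHR12
  have sR3 := st _ _ (cj _ _ mS0 (ma _ _ mMU mR12) sS0 (cj _ _ mMU mR12 sMU sR12)) hHR3
  have sG1 := st _ _ sP0 hHG1
  have sG2 := st _ _ (cj _ _ mS0 (ma _ _ mTH mR12) sS0 (cj _ _ mTH mR12 sTH sR12)) hHG2
  have s4 := cj _ _ mG1 mG2 sG1 sG2
  have sL := st _ _ s4 hHG6L
  have sR := st _ _ s4 hHG6R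
  have m5 := ma _ _ mL mR
  have m6 := ma _ _ mDEN m5
  have m7 := ma _ _ mR3 m6
  obtain ⟨k, hk, H⟩ := cj _ _ mS0 (ma _ _ mR12 m7) sS0 (cj _ _ mR12 m7 sR12
    (cj _ _ mR3 m6 sR3 (cj _ _ mDEN m5 sDEN (cj _ _ mL mR sL sR))))
  refine ⟨k, hk, fun d S D hd he hS => ?_⟩
  obtain ⟨ι, _, n, c, hc, hcov⟩ := hHCOV d S D hS
  choose C hC using fun i => H d S D hd he hS (n i) (c i) (hc i)
  have hnr := ae_all_iff.2 fun i => hHNRC d S D hS (n i) (c i) (hc i)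
  refine ⟨∑ i, max (C i) 0, fun s hs hs1 => ?_⟩
  refine (measure_mono_ae (t := ⋃ i, {u | u ∈ (c i).U ∧
    ¬ (pS0.and (pR12.and (pR3.and (pDEN.and (pG6L.and pG6R))))) d D ((c i).rd u) u ((c i).tan u)
      (s ^ k)}) ?_).trans ((measure_iUnion_fintype_le _ _).trans ?_)
  · filter_upwards [hcov, hnr] with u h1 h2
    rintro ⟨ha, hN, p, ρ, hp, hq, hnc, hopt, hbad⟩
    have e : p.1 = ρ.pa D u := hopt.2.2.2.2.2.2
    obtain ⟨i, hu, hr⟩ := h1 p ρ hp hq ⟨ha, hN, hnc, e ▸ hopt⟩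
    refine Set.mem_iUnion.2 ⟨i, hu, fun h => hbad ((hHNRM d D ρ u).2.2 _ _ ?_)⟩
    have h3 := h2 i hu
    rw [hr] at h h3
    obtain ⟨⟨a1, a2, a3, a4⟩, ⟨b1, b2⟩, b3, b4, b5, b6⟩ := h
    rw [e, ← (hHNRM d D ρ u).1]
    exact ⟨⟨a1, a2, a3, a4, b1, b2, b3, b4⟩, h3, b5, b6⟩
  · rw [sum_mul, ENNReal.ofReal_sum_of_nonneg fun i _ => by positivity]
    exact sum_le_sum fun i _ => (hC i s hs hs1).trans
      (ENNReal.ofReal_le_ofReal (mul_le_mul_of_nonneg_right (le_max_left _ _) hs.le))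

end Pool.Agent.P.MP_a0f0ad_al.Fi
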