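import Pool.Agent.P.MP_a0f0ad_al.Fi.H.Defs
import Pool.Agent.P.MP_a0f0ad_al.Fi.Z.Bm

/-! Chapter H, toolbox: charts, elementary facts, derivatives. -/

namespace Pool.Agent.P.MP_a0f0ad_al.Fi

open Finset MeasureTheory Polynomial Filter Topology
open scoped Classical

variable {d : ℕ}

theorem haarE (d : ℕ) : (volume : Measure (E d)).IsAddHaarMeasure :=
  Measure.prod.instIsAddHaarMeasure _ _

/-! ### definability and derivatives of `ev` -/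

section

variable {X : Type} [NormedAddCommGroup X] [NormedSpace ℝ X]

@[fun_prop] theorem IsPM.ev {q : X → Fin d → ℝ} {x : X → ℝ} (hq : IsPM q) (hx : IsPM x) (k : ℕ) :
    IsPM fun z => ev (q z) k (x z) := by
  unfold Fi.ev dot Vd
  fun_prop

@[fun_prop] theorem DF.ev [Fact S_PROJ] [FiniteDimensional ℝ X] {q : X → Fin d → ℝ} {x : X → ℝ}
    (hq : DF q) (hx : DF x) (k : ℕ) : DF fun z => ev (q z) k (x z) := by
  unfold Fi.ev dot Vd
  fun_prop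

/-- the chain rule for `ev` -/
theorem hasFDerivAt_ev {q : X → Fin d → ℝ} {x : X → ℝ} {u : X} {Dq : X →L[ℝ] (Fin d → ℝ)}
    {Dx : X →L[ℝ] ℝ} (hq : HasFDerivAt q Dq u) (hx : HasFDerivAt x Dx u) (k : ℕ) :
    ∃ L : X →L[ℝ] ℝ, HasFDerivAt (fun z => ev (q z) k (x z)) L u ∧
      ∀ h, L h = ev (Dq h) k (x u) + ev (q u) (k + 1) (x u) * Dx h := by
  have h1 : ∀ j, HasFDerivAt (fun z => q z j * Vd k (x z) j) _ u := fun j =>
    (hasFDerivAt_pi'.1 hq j).mul ((hasDerivAt_Vd k j (x u)).comp_hasFDerivAt u hx)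
  refine ⟨_, HasFDerivAt.fun_sum (u := univ) fun j _ => h1 j, fun h => ?_⟩
  simp only [ev, dot, _root_.sum_apply, add_apply, smul_apply, ContinuousLinearMap.comp_apply,
    ContinuousLinearMap.proj_apply, smul_eq_mul, sum_mul, ← sum_add_distrib]
  exact sum_congr rfl fun j _ => by ring

/-- a function that is constant near a point has derivative zero -/
theorem deriv_zero_of_const {f : X → ℝ} {L : X →L[ℝ] ℝ} {u : X} {w : ℝ} (hf : HasFDerivAt f L u)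
    (h : ∀ᶠ z in 𝓝 u, f z = w) (v : X) : L v = 0 := by
  have := hf.unique ((hasFDerivAt_const w u).congr_of_eventuallyEq h)
  simp [this]

end

theorem Big.le_norm {L : E d →L[ℝ] ℝ} {f : E d → ℝ} {l : ℝ} (h : Big f l) (e : ∀ v, L v = f v) :
    l ≤ ‖L‖ := by
  obtain ⟨v, h1, h2⟩ := h
  have hv : 0 < ‖v‖ := norm_pos_iff.2 fun a => h2 (by rw [← e, a, map_zero])
  rw [← e] at h1
  exact le_of_mul_le_mul_right (h1.trans (L.le_opNorm v)) hv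

/-- a direction of norm at most `B` in which the functional is at least `a` -/
theorem Big.of_le {f : E d → ℝ} {l a B : ℝ} (h : E d) (ha : 0 < a) (hl : 0 ≤ l) (h1 : ‖h‖ ≤ B)
    (h2 : a ≤ |f h|) (h3 : l * B ≤ a) : Big f l :=
  ⟨h, ((mul_le_mul_of_nonneg_left h1 hl).trans h3).trans h2, abs_pos.1 (ha.trans_le h2)⟩

theorem norm_E_le {h : E d} {B : ℝ} (h1 : |h.1| ≤ B) (h2 : ‖h.2‖ ≤ B) : ‖h‖ ≤ B := max_le h1 h2

theorem abs_leftLim_le {f : ℝ → ℝ} {B : ℝ} (h : ∀ x, |f x| ≤ B) (y : ℝ) :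
    |Function.leftLim f y| ≤ B := by
  by_cases a : ∃ z, Tendsto f (𝓝[<] y) (𝓝 z)
  · obtain ⟨z, hz⟩ := a
    rw [leftLim_eq_of_tendsto hz]
    exact le_of_tendsto' hz.abs h
  · rw [leftLim_eq_of_not_tendsto _ a]
    exact h y

theorem abs_rightLim_le {f : ℝ → ℝ} {B : ℝ} (h : ∀ x, |f x| ≤ B) (y : ℝ) :
    |Function.rightLim f y| ≤ B := by
  by_cases a : ∃ z, Tendsto f (𝓝[>] y) (𝓝 z)
  · obtain ⟨z, hz⟩ := a
    rw [rightLim_eq_of_tendsto hz]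
    exact le_of_tendsto' hz.abs h
  · rw [rightLim_eq_of_not_tendsto _ a]
    exact h y

theorem leftLim_of_eventually {f : ℝ → ℝ} {y l : ℝ} (h : ∀ᶠ x in 𝓝[<] y, f x = l) :
    Function.leftLim f y = l :=
  leftLim_eq_of_tendsto (tendsto_const_nhds.congr' (h.mono fun _ e => e.symm))

theorem rightLim_of_eventually {f : ℝ → ℝ} {y l : ℝ} (h : ∀ᶠ x in 𝓝[>] y, f x = l) :
    Function.rightLim f y = l :=
  rightLim_eq_of_tendsto (tendsto_const_nhds.congr' (h.mono fun _ e => e.symm))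

/-! ### the integrals are linear in the test polynomial -/

namespace LD

variable {S : Finset (G d)} {D : LD d}

theorem Ib_smul (D : LD d) (q f : Fin d → ℝ) (c s t : ℝ) :
    D.Ib q (c • f) s t = c * D.Ib q f s t := by
  simp only [Ib, ev_smul, ← intervalIntegral.integral_const_mul]
  exact intervalIntegral.integral_congr fun x _ => by ring

@[simp] theorem Ib_zero (D : LD d) (q : Fin d → ℝ) (s t : ℝ) : D.Ib q 0 s t = 0 := by simp [Ib]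

theorem Ib_symm (D : LD d) (q f : Fin d → ℝ) (s t : ℝ) : D.Ib q f s t = -D.Ib q f t s :=
  intervalIntegral.integral_symm _ _

theorem Spec.Ib_add (h : D.Spec S) (q f g : Fin d → ℝ) (s t : ℝ) :
    D.Ib q (f + g) s t = D.Ib q f s t + D.Ib q g s t := by
  simp only [Ib, ev_add, mul_add]
  exact intervalIntegral.integral_add (h.ii_be (continuous_ev q 0) (continuous_ev f 0) s t)
    (h.ii_be (continuous_ev q 0) (continuous_ev g 0) s t)

/-- `Phi` as a linear map in the test polynomial -/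
theorem Spec.exists_Phi (h : D.Spec S) (q : Fin d → ℝ) (α m z M : ℝ) :
    ∃ L : (Fin d → ℝ) →ₗ[ℝ] ℝ, ∀ f, L f = D.Phi q f α m z M :=
  ⟨⟨⟨fun f => D.Phi q f α m z M, fun f g => by simp only [Phi, h.Ib_add]; ring⟩,
    fun c f => by simp only [Phi, Ib_smul, RingHom.id_apply, smul_eq_mul]; ring⟩, fun _ => rfl⟩

theorem ThA_of_abs (D : LD d) {w : ℝ} (h : |w| = D.Q) : w ∈ D.ThA := by
  rcases abs_cases w with a | a
  · exact Or.inl (a.1 ▸ h)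
  · exact Or.inr (Or.inl (by linarith [a.1]))

theorem mem_Pts (D : LD d) {q : Fin d → ℝ} {a y : ℝ} (h1 : |y| < 2 * D.Lam)
    (h2 : ev q 0 y ∈ D.ThA) : y ∈ D.Pts q a := ⟨h1, Or.inr (Or.inr (Or.inl h2))⟩

/-- the levels between two points form a finite set -/
theorem exists_isLv (D : LD d) {q : Fin d → ℝ} (hq : Nonconst q) (s t : ℝ) :
    ∃ L, D.IsLv q s t L := by
  have hf : {x | s < x ∧ x < t ∧ ∃ l < D.n, ev q 0 x = D.th l ∨ ev q 0 x = -D.th l}.Finite := by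
    refine (D.finite_ThA.biUnion fun w _ => (hq.finite_level w).1).subset ?_
    rintro x ⟨-, -, l, hl, a⟩
    exact Set.mem_biUnion (x := ev q 0 x) (Or.inr (Or.inr ⟨l, hl, a⟩)) rfl
  exact ⟨hf.toFinset, fun x => hf.mem_toFinset⟩

end LD

/-! ### representations -/

namespace RD

variable {S : Finset (G d)} {D : LD d} {ρ : RD d} {u : E d}

theorem mem_TF {a z : ℝ} : z ∈ ρ.TF a ↔ z ∈ ρ.Z ∧ (ρ.Pin a z ∨ ev ρ.q 1 z = 0) := mem_filter

theorem mem_TT {a z : ℝ} : z ∈ ρ.TT a ↔ ρ.IsT a z :=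
  mem_filter.trans ⟨fun h => h.2, fun h => ⟨h.1, h⟩⟩

theorem IsT.mem_TF {a z : ℝ} (h : ρ.IsT a z) : z ∈ ρ.TF a := RD.mem_TF.2 ⟨h.1, Or.inr h.2.2⟩

theorem TT_subset_TF (a : ℝ) : ρ.TT a ⊆ ρ.TF a := fun _ h => (mem_TT.1 h).mem_TF

theorem TF_subset (a : ℝ) : ρ.TF a ⊆ ρ.Z := filter_subset _ _

theorem Bas.rep (h : ρ.Bas D u) : ρ.Rep D u := h.opt.1

theorem Bas.abs_atom (h : ρ.Bas D u) {z : ℝ} (hz : z ∈ ρ.Z) : |ev ρ.q 0 z| = D.Q :=
  (h.rep.2.2.2.2.1 z hz).2.2.1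

theorem Fac.Z_mem (h : ρ.Fac D u) {z : ℝ} (hz : z ∈ ρ.Z) : z ∈ ρ.N D u.1 :=
  (h.memN z).2 (Or.inr hz)

theorem Fac.abs_le (h : ρ.Fac D u) {y : ℝ} (h1 : ρ.m ≤ y) (h2 : y ≤ ρ.M) : |y| ≤ D.Lam / 3 :=
  _root_.abs_le.2 ⟨h.lo.trans h1, h2.trans h.hi⟩

theorem Fac.abs_node (h : ρ.Fac D u) {y : ℝ} (hy : y ∈ ρ.N D u.1) : |y| ≤ D.Lam / 3 :=
  h.abs_le (h.rng y hy).1 (h.rng y hy).2.1

theorem Fac.node_lt (h : ρ.Fac D u) (hS : D.Spec S) {y : ℝ} (hy : y ∈ ρ.N D u.1) :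
    |y| < 2 * D.Lam := by linarith [h.abs_node hy, hS.Lam_pos]

theorem Fac.node_pts (h : ρ.Fac D u) (hS : D.Spec S) {y : ℝ} (hy : y ∈ ρ.N D u.1) :
    y ∈ D.Pts ρ.q u.1 := D.mem_Pts (h.node_lt hS hy) (h.rng y hy).2.2

theorem Fac.abs_a (h : ρ.Fac D u) (hb : ρ.Bas D u) : |u.1| ≤ D.Lam / 3 :=
  h.abs_le (hb.rep.1.trans hb.ha.le) hb.rep.2.1

theorem Fac.a_pts (h : ρ.Fac D u) (hS : D.Spec S) (hb : ρ.Bas D u) : u.1 ∈ D.Pts ρ.q u.1 :=
  ⟨by linarith [h.abs_a hb, hS.Lam_pos], Or.inr (Or.inl rfl)⟩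

theorem zero_pts (hS : D.Spec S) (q : Fin d → ℝ) (a : ℝ) : (0 : ℝ) ∈ D.Pts q a :=
  ⟨by simpa using hS.Lam_pos, Or.inl rfl⟩

theorem Fac.abs_mu (h : ρ.Fac D u) (hS : D.Spec S) {z : ℝ} (hz : z ∈ ρ.Z) : |ρ.mu z| ≤ D.Q⁻¹ := by
  rw [← one_div, le_div_iff₀ hS.Qpos, mul_comm]
  exact (h.mass z hz).1

end RD

namespace Ctx

variable {S : Finset (G d)} {D : LD d} {ρ : RD d} {u : E d} {T : Tan d}

theorem bas (h : Ctx D ρ u T) : ρ.Bas D u := h.toCtxW.toBas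

/-- a node that is not a touching atom is a simple crossing -/
theorem node_ne (h : Ctx D ρ u T) (hS : D.Spec S) {y : ℝ} (hy : y ∈ ρ.N D u.1)
    (hT : ¬ ρ.IsT u.1 y) : ev ρ.q 1 y ≠ 0 := fun a =>
  hT (h.nd1 y (h.fac.node_lt hS hy) (h.fac.rng y hy).2.2 a)

theorem pin_of_mem (h : Ctx D ρ u T) {y : ℝ} (hy : y = 0 ∨ y = u.1) (hz : y ∈ ρ.Z) :
    ρ.Pin u.1 y := (h.nd3 y hy (D.ThA_of_abs (h.bas.abs_atom hz))).2

end Ctx

/-! ### charts -/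

theorem sum_ite_inj {n : ℕ} {M : Type} [AddCommMonoid M] {x : Fin n → ℝ}
    (hx : Function.Injective x) (F : Fin n → M) (j : Fin n) :
    (∑ i, if x i = x j then F i else 0) = F j := by
  simp [hx.eq_iff]

namespace Ch

variable {n : ℕ} {c : Ch d n} {D : LD d} {u : E d}

@[simp] theorem rd_q (c : Ch d n) (u : E d) : (c.rd u).q = c.q u := rfl
@[simp] theorem rd_m (c : Ch d n) (u : E d) : (c.rd u).m = c.x u c.jm := rfl
@[simp] theorem rd_M (c : Ch d n) (u : E d) : (c.rd u).M = c.x u c.jM := rfl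
theorem rd_Z (c : Ch d n) (u : E d) : (c.rd u).Z = c.Zs.image (c.x u) := rfl
@[simp] theorem tan_Dq (c : Ch d n) (u : E d) : (c.tan u).Dq = fderiv ℝ c.q u := rfl

namespace OK

theorem mono (h : c.OK D) (hu : u ∈ c.U) : StrictMono (c.x u) := (h.enc u hu).1
theorem inj (h : c.OK D) (hu : u ∈ c.U) : Function.Injective (c.x u) := (h.mono hu).injective
theorem pts (h : c.OK D) (hu : u ∈ c.U) (y : ℝ) : y ∈ D.Pts (c.q u) u.1 ↔ ∃ j, c.x u j = y :=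
  (h.enc u hu).2.1 y
theorem bas (h : c.OK D) (hu : u ∈ c.U) : (c.rd u).Bas D u := (h.enc u hu).2.2.2
theorem near (h : c.OK D) (hu : u ∈ c.U) : ∀ᶠ u' in 𝓝 u, u' ∈ c.U := h.isOpen.mem_nhds hu

theorem mu (h : c.OK D) (hu : u ∈ c.U) (j : Fin n) : (c.rd u).mu (c.x u j) = c.μ u j :=
  sum_ite_inj (h.inj hu) _ j

theorem mem_Z (h : c.OK D) (hu : u ∈ c.U) (j : Fin n) : c.x u j ∈ (c.rd u).Z ↔ j ∈ c.Zs :=
  (h.inj hu).mem_finset_image

theorem muAt (h : c.OK D) (hu : u ∈ c.U) (j : Fin n) : (c.rd u).muAt (c.x u j) = c.μ u j := by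
  unfold RD.muAt
  split_ifs with a
  · exact h.mu hu j
  · exact ((h.enc u hu).2.2.1 j (mt (h.mem_Z hu j).2 a)).symm

theorem sum_Z {M : Type} [AddCommMonoid M] (h : c.OK D) (hu : u ∈ c.U) (F : ℝ → M) :
    ∑ z ∈ (c.rd u).Z, F z = ∑ j ∈ c.Zs, F (c.x u j) :=
  sum_image fun _ _ _ _ e => h.inj hu e

theorem Dx (h : c.OK D) (hu : u ∈ c.U) (j : Fin n) :
    (c.tan u).Dx (c.x u j) = fderiv ℝ (fun u' => c.x u' j) u := sum_ite_inj (h.inj hu) _ j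

theorem Dm (h : c.OK D) (hu : u ∈ c.U) (j : Fin n) :
    (c.tan u).Dm (c.x u j) = fderiv ℝ (fun u' => c.μ u' j) u := sum_ite_inj (h.inj hu) _ j

theorem hq (h : c.OK D) (hu : u ∈ c.U) : HasFDerivAt c.q (c.tan u).Dq u :=
  (h.diffq u hu).hasFDerivAt

theorem hx (h : c.OK D) (hu : u ∈ c.U) (j : Fin n) :
    HasFDerivAt (fun u' => c.x u' j) ((c.tan u).Dx (c.x u j)) u :=
  h.Dx hu j ▸ (differentiableAt_pi.1 (h.diffx u hu) j).hasFDerivAt

theorem hm (h : c.OK D) (hu : u ∈ c.U) (j : Fin n) :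
    HasFDerivAt (fun u' => c.μ u' j) ((c.tan u).Dm (c.x u j)) u :=
  h.Dm hu j ▸ (differentiableAt_pi.1 (h.diffm u hu) j).hasFDerivAt

/-- the derivative of `ev q k` at a marked point -/
theorem hev (h : c.OK D) (hu : u ∈ c.U) (k : ℕ) (j : Fin n) :
    ∃ L : E d →L[ℝ] ℝ, HasFDerivAt (fun u' => ev (c.q u') k (c.x u' j)) L u ∧
      ∀ v, L v = (c.tan u).Dev (c.rd u) k (c.x u j) v :=
  hasFDerivAt_ev (h.hq hu) (h.hx hu j) k

/-- the derivative of mass times slope -/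
theorem hmq (h : c.OK D) (hu : u ∈ c.U) (j : Fin n) :
    ∃ L : E d →L[ℝ] ℝ, HasFDerivAt (fun u' => c.μ u' j * ev (c.q u') 1 (c.x u' j)) L u ∧
      ∀ v, L v = (c.tan u).Dmq (c.rd u) (c.x u j) v := by
  obtain ⟨L, h1, h2⟩ := h.hev hu 1 j
  refine ⟨_, (h.hm hu j).mul h1, fun v => ?_⟩
  simp only [Tan.Dmq, add_apply, smul_apply, smul_eq_mul, h2, h.mu hu, rd_q]
  ring

/-- the tail estimate for one definable function -/
theorem tail [Fact S_PROJ] (hT : S_TAIL) (h : c.OK D) {χ : E d → ℝ} (h1 : DF χ)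
    (h2 : ∀ u ∈ c.U, DifferentiableAt ℝ χ u) :
    ∃ C : ℝ, 0 ≤ C ∧ ∀ w t l : ℝ, 0 < t → 0 < l →
      volume {u | u ∈ c.U ∧ |χ u - w| ≤ t ∧ l ≤ ‖fderiv ℝ χ u‖} ≤ ENNReal.ofReal (C * t / l) := by
  have := haarE d
  obtain ⟨C, hC⟩ := hT (E d) volume c.U χ h.isOpen h.bdd (h1.saf h.sa fun _ _ => rfl)
    fun u hu => (h2 u hu).differentiableWithinAt
  refine ⟨max C 0, le_max_right _ _, fun w t l ht hl => (hC w t l ht hl).trans ?_⟩
  exact ENNReal.ofReal_le_ofReal (by gcongr; exact le_max_left _ _)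

/-- the tail estimate for finitely many definable functions -/
theorem tails [Fact S_PROJ] (hT : S_TAIL) (h : c.OK D) {ι : Type} [Finite ι] (χ : ι → E d → ℝ)
    (w : ι → ℝ) (h1 : ∀ i, DF (χ i)) (h2 : ∀ i, ∀ u ∈ c.U, DifferentiableAt ℝ (χ i) u) :
    ∃ C : ℝ, 0 ≤ C ∧ ∀ t l : ℝ, 0 < t → 0 < l →
      volume {u | u ∈ c.U ∧ ∃ i, |χ i u - w i| ≤ t ∧ l ≤ ‖fderiv ℝ (χ i) u‖} ≤
        ENNReal.ofReal (C * t / l) := by
  cases nonempty_fintype ι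
  choose C C0 hC using fun i => h.tail hT (h1 i) (h2 i)
  refine ⟨∑ i, C i, sum_nonneg fun i _ => C0 i, fun t l ht hl => ?_⟩
  have e : {u | u ∈ c.U ∧ ∃ i, |χ i u - w i| ≤ t ∧ l ≤ ‖fderiv ℝ (χ i) u‖} =
      ⋃ i, {u | u ∈ c.U ∧ |χ i u - w i| ≤ t ∧ l ≤ ‖fderiv ℝ (χ i) u‖} := by
    ext u
    simp only [Set.mem_iUnion, Set.mem_ofPred_eq, exists_and_left]
  rw [e, sum_mul, sum_div, ENNReal.ofReal_sum_of_nonneg fun i _ => by have := C0 i; positivity]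
  exact (measure_iUnion_fintype_le _ _).trans (sum_le_sum fun i _ => hC i _ t l ht hl)

end OK

end Ch

end Pool.Agent.P.MP_a0f0ad_al.Fi
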