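import Pool.Agent.P.MP_a0f0ad_al.Fi.H.Iface2
import Pool.Agent.P.MP_a0f0ad_al.Fi.V.Iface
import Pool.Agent.P.MP_a0f0ad_al.Fi.H.Tool

/-! Step HB1 of the filiform project. -/

namespace Pool.Agent.P.MP_a0f0ad_al.Fi

open Finset MeasureTheory Polynomial Filter Topology
open scoped Classical

namespace Hb1A

theorem right_max {f : ℝ → ℝ} {f' x M : ℝ} (hf : HasDerivAt f f' x) (hx : x < M)
    (h : ∀ y ∈ Set.Icc x M, f y ≤ f x) : f' ≤ 0 := by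
  refine le_of_tendsto (hasDerivAt_iff_tendsto_slope_left_right.1 hf).2 ?_
  filter_upwards [Ioo_mem_nhdsGT hx] with y hy
  rw [slope_def_field]
  exact div_nonpos_of_nonpos_of_nonneg (sub_nonpos.2 (h y ⟨hy.1.le, hy.2.le⟩))
    (sub_nonneg.2 hy.1.le)

theorem left_max {f : ℝ → ℝ} {f' x m : ℝ} (hf : HasDerivAt f f' x) (hx : m < x)
    (h : ∀ y ∈ Set.Icc m x, f y ≤ f x) : 0 ≤ f' := by
  refine ge_of_tendsto (hasDerivAt_iff_tendsto_slope_left_right.1 hf).1 ?_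
  filter_upwards [Ioo_mem_nhdsLT hx] with y hy
  rw [slope_def_field]
  exact div_nonneg_of_nonpos (sub_nonpos.2 (h y ⟨hy.1.le, hy.2.le⟩)) (sub_nonpos.2 hy.2.le)

end Hb1A

theorem p_HB1 (hPEN : S_PEN) (hHOM : S_HOM) (hPUB : S_PUB) :
    S_HB1 := by
  have _ := hPEN
  intro d S D hS ρ u h
  obtain ⟨⟨m0, aM, mM, fe, at1, -⟩, hB, DM0, DM1, Dm0, Dm1, -⟩ := h.opt
  have ha := h.ha
  have hQ := hS.Qpos
  obtain ⟨p1, p2⟩ := hPUB d S D hS u ρ ha.le h.rep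
  have p3 := ((hHOM d S D hS).2.2.1 u ρ.m ρ.M m0 ha.le aM mM).2
  rw [p1, hB] at p3
  rw [hB] at p2
  have p4 : ρ.M - ρ.m ≤ D.Lam / 3 := by
    have := hS.lp_zero_pos
    rw [LD.Lam, div_right_comm, div_self (by norm_num : (3 : ℝ) ≠ 0), le_div_iff₀ this]
    linarith [h.hN]
  obtain ⟨c, c0, -, hc, -⟩ := hS.exists_slack
  have top0 : ∀ x ∈ Set.Icc ρ.m ρ.M, D.om (ev ρ.q 0 x) = 0 → |ev ρ.q 0 x| = D.Q := by
    intro x hx e
    have a1 := hc _ (fe x hx)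
    rw [e] at a1
    exact le_antisymm (fe x hx) (by nlinarith)
  have omZ : ∀ z ∈ ρ.Z, D.om (ev ρ.q 0 z) = D.om D.Q := fun z hz => by
    rw [← Bm.om_abs, (at1 z hz).2.2.1]
  have muZ : ∀ z ∈ ρ.Z, ρ.muAt z = ρ.mu z := fun z hz => if_pos hz
  have mx : ∀ z ∈ ρ.Z, ∀ y ∈ Set.Icc ρ.m ρ.M, ρ.mu z * ev ρ.q 0 y ≤ ρ.mu z * ev ρ.q 0 z := by
    intro z hz y hy
    rw [← abs_of_pos (at1 z hz).2.2.2, abs_mul, (at1 z hz).2.2.1]
    exact (le_abs_self _).trans (by rw [abs_mul]; gcongr; exact fe y hy)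
  have sR : ∀ z ∈ ρ.Z, z < ρ.M → ρ.mu z * ev ρ.q 1 z ≤ 0 := fun z hz a =>
    Hb1A.right_max ((hasDerivAt_ev ρ.q 0 z).const_mul (ρ.mu z)) a fun y hy =>
      mx z hz y ⟨(at1 z hz).1.trans hy.1, hy.2⟩
  have sL : ∀ z ∈ ρ.Z, ρ.m < z → 0 ≤ ρ.mu z * ev ρ.q 1 z := fun z hz a =>
    Hb1A.left_max ((hasDerivAt_ev ρ.q 0 z).const_mul (ρ.mu z)) a fun y hy =>
      mx z hz y ⟨hy.1, hy.2.trans (at1 z hz).2.1⟩
  have mu0 : ∀ z ∈ ρ.Z, ρ.mu z ≠ 0 := fun z hz => left_ne_zero_of_mul (at1 z hz).2.2.2.ne'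
  have inner : ∀ z ∈ ρ.Z, ρ.m < z → z < ρ.M → ev ρ.q 1 z = 0 := fun z hz a b =>
    (mul_eq_zero.1 (le_antisymm (sR z hz b) (sL z hz a))).resolve_left (mu0 z hz)
  have tri : ∀ z ∈ ρ.Z, z = ρ.m ∨ z = ρ.M ∨ ev ρ.q 1 z = 0 := fun z hz => by
    rcases (at1 z hz).1.eq_or_lt with a | a
    · exact Or.inl a.symm
    · rcases (at1 z hz).2.1.eq_or_lt with b | b
      · exact Or.inr (Or.inl b)
      · exact Or.inr (Or.inr (inner z hz a b))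
  have Em : ρ.m ∈ ρ.Z → ρ.Dm D = D.om D.Q - |ρ.mu ρ.m| * |ev ρ.q 1 ρ.m| := fun hz => by
    rw [RD.Dm, omZ _ hz, muZ _ hz, ← abs_mul, abs_of_nonpos (sR _ hz mM), sub_neg_eq_add]
  have EM : ρ.M ∈ ρ.Z → ρ.DM D = D.om D.Q - |ρ.mu ρ.M| * |ev ρ.q 1 ρ.M| := fun hz => by
    rw [RD.DM, omZ _ hz, muZ _ hz, ← abs_mul, abs_of_nonneg (sL _ hz mM)]
  have fm : ρ.m < 0 → ρ.m ∉ ρ.Z → |ev ρ.q 0 ρ.m| = D.Q := fun a b => by
    have := Dm1 a
    rw [RD.Dm, RD.muAt, if_neg b, zero_mul, add_zero] at this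
    exact top0 _ ⟨le_rfl, mM.le⟩ this
  have fM : u.1 < ρ.M → ρ.M ∉ ρ.Z → |ev ρ.q 0 ρ.M| = D.Q := fun a b => by
    have := DM1 a
    rw [RD.DM, RD.muAt, if_neg b, zero_mul, sub_zero] at this
    exact top0 _ ⟨mM.le, le_rfl⟩ this
  have cls : ∀ x ∈ ρ.lev D u.1,
      (ρ.m < x ∧ x < ρ.M ∧ |ev ρ.q 0 x| < D.Q ∧ ev ρ.q 0 x ∈ D.ThA) ∨
        ((x = ρ.m ∨ x = ρ.M) ∧ x ∉ ρ.Z ∧ |ev ρ.q 0 x| = D.Q) := by
    rintro x (⟨a, b, k, hk, e⟩ | ⟨a, k, hk, e⟩ | ⟨rfl, a, b⟩ | ⟨rfl, a, b⟩)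
    · exact Or.inl ⟨a, b, by rw [e]; exact abs_lt.2 (hS.thQ k hk),
        Or.inr (Or.inr ⟨k, hk, Or.inl e⟩)⟩
    · refine Or.inl ⟨?_, ?_, by rw [← abs_neg, e]; exact abs_lt.2 (hS.thQ k hk),
        Or.inr (Or.inr ⟨k, hk, Or.inr (by rw [← e, neg_neg])⟩)⟩
      · rcases a with a | a <;> linarith [a.1]
      · rcases a with a | a <;> linarith [a.2]
    · exact Or.inr ⟨Or.inl rfl, b, fm a b⟩
    · exact Or.inr ⟨Or.inr rfl, b, fM a b⟩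
  have levT : ∀ x ∈ ρ.lev D u.1, ev ρ.q 0 x ∈ D.ThA := fun x hx =>
    (cls x hx).elim (fun a => a.2.2.2) fun a => D.ThA_of_abs a.2.2
  have levZ : ∀ x ∈ ρ.lev D u.1, x ∉ ρ.Z := fun x hx hz =>
    (cls x hx).elim (fun a => a.2.2.1.ne (at1 x hz).2.2.1) fun a => a.2.1 hz
  have fin : (ρ.lev D u.1).Finite :=
    (D.finite_ThA.biUnion fun w _ => (h.hq.finite_level w).1).subset fun x hx =>
      Set.mem_biUnion (x := ev ρ.q 0 x) (levT x hx) rfl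
  have memN : ∀ y, y ∈ ρ.N D u.1 ↔ y ∈ ρ.lev D u.1 ∨ y ∈ ρ.Z := fun y => by
    rw [RD.N, dif_pos (fin.union ρ.Z.finite_toSet), Set.Finite.mem_toFinset]
    rfl
  obtain ⟨k1, k2⟩ := h.hq.finite_crit
  rw [Set.ncard_eq_toFinset_card _ k1] at k2
  refine ⟨by linarith, by linarith, memN, fun y hy => ?_, fun y hy a => ?_, fun y hy a => ?_,
    fun z hz => ⟨?_, mu0 z hz⟩, inner, fun a => ?_, fun a => ?_, ?_, ?_, fun z hz a => ?_,
    fun z hz a b => ?_, ?_⟩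
  · rcases (memN y).1 hy with a | a
    · rcases cls y a with b | ⟨rfl | rfl, -, -⟩
      · exact ⟨b.1.le, b.2.1.le, b.2.2.2⟩
      · exact ⟨le_rfl, mM.le, levT _ a⟩
      · exact ⟨mM.le, le_rfl, levT _ a⟩
    · exact ⟨(at1 y a).1, (at1 y a).2.1, D.ThA_of_abs (at1 y a).2.2.1⟩
  · rcases (memN y).1 hy with b | b
    · rcases cls y b with e | e
      · exact ⟨e.1, e.2.1, levZ y b⟩
      · exact absurd e.2.2 a.ne
    · exact absurd (at1 y b).2.2.1 a.ne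
  · rcases (memN y).1 hy with b | b
    · rcases cls y b with e | e
      · exact absurd e.2.2.1 a
      · exact ⟨e.2.2, Or.inr e.1⟩
    · refine ⟨(at1 y b).2.2.1, ?_⟩
      rcases tri y b with e | e | e
      · exact Or.inr (Or.inl e)
      · exact Or.inr (Or.inr e)
      · exact Or.inl (RD.mem_TF.2 ⟨b, Or.inr e⟩)
  · have := single_le_sum (f := fun z => |ρ.mu z|) (fun _ _ => abs_nonneg _) hz
    exact (mul_le_mul_of_nonneg_left this hQ.le).trans (p2.trans h.hN)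
  · by_cases b : ρ.m ∈ ρ.Z
    · exact ⟨(at1 _ b).2.2.1, (memN _).2 (Or.inr b)⟩
    · exact ⟨fm a b, (memN _).2 (Or.inl (Or.inr (Or.inr (Or.inl ⟨rfl, a, b⟩))))⟩
  · by_cases b : ρ.M ∈ ρ.Z
    · exact ⟨(at1 _ b).2.2.1, (memN _).2 (Or.inr b)⟩
    · exact ⟨fM a b, (memN _).2 (Or.inl (Or.inr (Or.inr (Or.inr ⟨rfl, a, b⟩))))⟩
  · have a1 : ρ.Z ⊆ insert ρ.m (insert ρ.M k1.toFinset) := fun z hz => by
      simpa only [mem_insert, Set.Finite.mem_toFinset, Set.mem_ofPred_eq] using tri z hz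
    have a2 := card_le_card a1
    have a3 := card_insert_le ρ.m (insert ρ.M k1.toFinset)
    have a4 := card_insert_le ρ.M k1.toFinset
    omega
  · have a1 : ρ.TT u.1 ⊆ k1.toFinset := fun z hz =>
      k1.mem_toFinset.2 (RD.mem_TT.1 hz).2.2
    have a2 := card_le_card a1
    omega
  · rcases a with ⟨a, b⟩ | ⟨a, b⟩
    · obtain rfl : z = ρ.m := a.trans b.symm
      linarith [Em hz]
    · obtain rfl : z = ρ.M := a.trans b.symm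
      linarith [EM hz]
  · rcases tri z hz with rfl | rfl | e
    · have a1 : ρ.m < 0 := lt_of_le_of_ne m0 fun e => a (Or.inl ⟨e, e⟩)
      exact ⟨Or.inl ⟨rfl, a1⟩, by linarith [Em hz, Dm1 a1]⟩
    · have a1 : u.1 < ρ.M := lt_of_le_of_ne aM fun e => a (Or.inr ⟨e.symm, e.symm⟩)
      exact ⟨Or.inr ⟨rfl, a1⟩, by linarith [EM hz, DM1 a1]⟩
    · exact absurd e b
  · have a1 : ρ.N D u.1 = fin.toFinset ∪ ρ.Z := by
      ext y
      rw [memN, mem_union, Set.Finite.mem_toFinset]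
    have a2 : Disjoint fin.toFinset ρ.Z :=
      disjoint_left.2 fun x hx => levZ x (fin.mem_toFinset.1 hx)
    rw [RD.eN, a1, card_union_of_disjoint a2, Set.ncard_eq_toFinset_card _ fin, add_assoc,
      card_filter, card_eq_sum_ones ρ.Z, ← sum_add_distrib]
    congr 1
    exact sum_congr rfl fun z _ => by by_cases e : ρ.Pin u.1 z <;> simp [e]

end Pool.Agent.P.MP_a0f0ad_al.Fi
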