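import Pool.Agent.P.MP_a0f0ad_al.Fi.H.Iface2
import Pool.Agent.P.MP_a0f0ad_al.Fi.V.Iface
import Pool.Agent.P.MP_a0f0ad_al.Fi.H.Tool

/-! Step HB2 of the filiform project. -/

namespace Pool.Agent.P.MP_a0f0ad_al.Fi

open Finset MeasureTheory Polynomial Filter Topology
open scoped Classical

theorem p_HB2 (hMARK : S_MARK) :
    S_HB2 := by
  intro d S D hS
  obtain ⟨c1, c0, c1le, -, s2, s3, -⟩ := hS.exists_slack
  obtain ⟨C0, hC0, hk, -⟩ := hS.exists_bound
  obtain ⟨Cm, hCm, hM⟩ := hMARK d D.Lam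
  have hQ := hS.Qpos
  have hL := hS.Lam_pos
  have hn : (0 : ℝ) ≤ (D.finite_ThA.toFinset.card : ℝ) * d := by positivity
  refine ⟨min c1 (min (D.Q * c1) (c1 / (Cm * D.Q))), D.finite_ThA.toFinset.card * d + 4 * C0,
    by positivity, (min_le_left _ _).trans c1le, by linarith, fun ρ u hb hf =>
      ⟨?_, fun y => ?_, fun z hz hp h1 => ?_, fun y hy y' hy' hne => ?_⟩⟩
  · have h1 : (ρ.N D u.1).card ≤ d * D.finite_ThA.toFinset.card :=
      card_le_mul_card_image_of_maps_to (f := fun y => ev ρ.q 0 y)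
        (fun y hy => D.finite_ThA.mem_toFinset.2 (hf.rng y hy).2.2) d fun w _ => by
          have a := hb.hq.finite_level w
          have b := Set.ncard_le_ncard (s := ((ρ.N D u.1).filter fun y => ev ρ.q 0 y = w : Finset ℝ))
            (fun y hy => (mem_filter.1 hy).2) a.1
          rw [Set.ncard_coe_finset] at b
          omega
    have h2 : ((ρ.N D u.1).card : ℝ) ≤ d * D.finite_ThA.toFinset.card := by exact_mod_cast h1
    linarith
  · have h1 : ∀ x, |ρ.dens D u.1 x| ≤ C0 + C0 := fun x => by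
      refine (abs_sub _ _).trans (add_le_add ?_ ?_) <;> split_ifs
      exacts [hk _, by rw [abs_zero]; linarith, hk _, by rw [abs_zero]; linarith]
    have h2 := abs_leftLim_le h1 y
    have h3 := abs_rightLim_le h1 y
    exact (abs_sub _ _).trans (by linarith)
  · have a := (hf.wait z hz hp h1).2
    have b := hf.mass z hz
    have h2 := s2 (a ▸ mul_pos (abs_pos.2 b.2) (abs_pos.2 h1)) D.Q (abs_of_pos hQ).le
    refine (min_le_right _ _).trans ((min_le_left _ _).trans ?_)
    have h3 := mul_le_mul_of_nonneg_right b.1 (abs_nonneg (ev ρ.q 1 z))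
    have h4 := mul_le_mul_of_nonneg_left h2 hQ.le
    rw [← a] at h4
    linarith
  · have hm := hb.rep.2.2.1
    have hl : 0 < ρ.M - ρ.m := sub_pos.2 hm
    have a := (hM ρ.q ρ.m ρ.M D.Q hm (by linarith [hf.lo]) (by linarith [hf.hi])
      hb.rep.2.2.2.1).2 1
    have b := (convex_Icc ρ.m ρ.M).norm_image_sub_le_of_norm_hasDerivWithin_le
      (f := ev ρ.q 0) (f' := ev ρ.q 1) (C := Cm * D.Q / (ρ.M - ρ.m))
      (fun x _ => (hasDerivAt_ev ρ.q 0 x).hasDerivWithinAt)
      (fun x hx => by rw [le_div_iff₀ hl]; simpa using a x hx)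
      ⟨(hf.rng y' hy').1, (hf.rng y' hy').2.1⟩ ⟨(hf.rng y hy).1, (hf.rng y hy).2.1⟩
    have e := (s3 _ (hf.rng y hy).2.2 _ (hf.rng y' hy').2.2 hne).trans b
    rw [Real.norm_eq_abs, div_mul_eq_mul_div, le_div_iff₀ hl] at e
    refine (mul_le_mul_of_nonneg_right ((min_le_right _ _).trans (min_le_right _ _)) hl.le).trans ?_
    rw [div_mul_eq_mul_div, div_le_iff₀ (by positivity)]
    linarith

end Pool.Agent.P.MP_a0f0ad_al.Fi
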