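import Pool.Agent.P.MP_a0f0ad_al.Fi.H.Iface2
import Pool.Agent.P.MP_a0f0ad_al.Fi.S.Iface
import Pool.Agent.P.MP_a0f0ad_al.Fi.H.Tool

/-! Step HBG of the filiform project. -/

namespace Pool.Agent.P.MP_a0f0ad_al.Fi

open Finset MeasureTheory Polynomial Filter Topology
open scoped Classical

namespace HbgA

theorem inv_le_norm {d : ℕ} {L : E d →L[ℝ] ℝ} {s : ℝ} (hs : 0 < s) {h : E d}
    (a : ¬ s ^ 1 * |L h| ≤ ‖h‖) : s⁻¹ ≤ ‖L‖ := by
  rw [pow_one, not_le] at a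
  by_contra b
  rw [not_le] at b
  have h1 : |L h| ≤ ‖L‖ * ‖h‖ := L.le_opNorm h
  have h2 : s * ‖L‖ ≤ 1 := by
    have := mul_le_mul_of_nonneg_left b.le hs.le
    rwa [mul_inv_cancel₀ hs.ne'] at this
  have h3 : s * |L h| ≤ s * (‖L‖ * ‖h‖) := mul_le_mul_of_nonneg_left h1 hs.le
  have h4 : s * ‖L‖ * ‖h‖ ≤ 1 * ‖h‖ := mul_le_mul_of_nonneg_right h2 (norm_nonneg _)
  nlinarith

end HbgA

theorem p_HBG (hPROJ : S_PROJ) (hTAIL : S_TAIL) (hHB1 : S_HB1) :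
    S_HBG := by
  have : Fact S_PROJ := ⟨hPROJ⟩
  refine ⟨1, one_pos, fun d S D _ _ hS n c hc => ?_⟩
  have dx := hc.dfx
  have dm := hc.dfm
  obtain ⟨C1, c1, h1⟩ := hc.tails hTAIL (fun (j : Fin n) u => c.x u j) (fun _ => 0)
    (fun j => by fun_prop) (fun j u hu => differentiableAt_pi.1 (hc.diffx u hu) j)
  obtain ⟨C2, c2, h2⟩ := hc.tails hTAIL (fun (j : Fin n) u => c.μ u j) (fun _ => 0)
    (fun j => by fun_prop) (fun j u hu => differentiableAt_pi.1 (hc.diffm u hu) j)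
  have hL := hS.Lam_pos
  have hQ := hS.Qpos
  refine ⟨C1 * (2 * D.Lam) + C2 * D.Q⁻¹, fun s hs _ => ?_⟩
  have a1 := h1 (2 * D.Lam) s⁻¹ (by positivity) (by positivity)
  have a2 := h2 D.Q⁻¹ s⁻¹ (by positivity) (by positivity)
  rw [div_inv_eq_mul] at a1 a2
  rw [add_mul, ENNReal.ofReal_add (by positivity) (by positivity)]
  refine le_trans (measure_mono ?_) ((measure_union_le _ _).trans (add_le_add a1 a2))
  rintro u ⟨hu, hn⟩
  have hF := hHB1 d S D hS _ u (hc.bas hu)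
  by_cases b : ∀ y ∈ (c.rd u).N D u.1, ∀ h, s ^ 1 * |(c.tan u).Dx y h| ≤ ‖h‖
  · right
    have b2 : ¬ ∀ z ∈ (c.rd u).Z, ∀ h, s ^ 1 * |(c.tan u).Dm z h| ≤ ‖h‖ := fun e => hn ⟨b, e⟩
    simp only [not_forall] at b2
    obtain ⟨z, hz, h, e⟩ := b2
    obtain ⟨j, rfl⟩ := (hc.pts hu z).1 (hF.node_pts hS (hF.Z_mem hz))
    refine ⟨hu, j, ?_, ?_⟩
    · rw [sub_zero, ← hc.mu hu j]
      exact hF.abs_mu hS hz
    · rw [← hc.Dm hu j]
      exact HbgA.inv_le_norm hs e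
  · left
    simp only [not_forall] at b
    obtain ⟨y, hy, h, e⟩ := b
    obtain ⟨j, rfl⟩ := (hc.pts hu y).1 (hF.node_pts hS hy)
    refine ⟨hu, j, ?_, ?_⟩
    · rw [sub_zero]
      exact (hF.node_lt hS hy).le
    · rw [← hc.Dx hu j]
      exact HbgA.inv_le_norm hs e

end Pool.Agent.P.MP_a0f0ad_al.Fi
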