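import Pool.Agent.P.MP_a0f0ad_al.Fi.H.Tool

/-! Chapter H, toolbox: a weighted norm on polynomials, nodal polynomials, products of distances,
divided differences. -/

namespace Pool.Agent.P.MP_a0f0ad_al.Fi

open Finset Polynomial
open scoped Classical

variable {d : ℕ}

/-! ### the norm `nr` -/

section nr

variable {K : Type} [NormedField K] {R : ℝ} {P Q : K[X]}

theorem nr_eq_range {n : ℕ} (h : P.natDegree < n) :
    nr R P = ∑ i ∈ range n, ‖P.coeff i‖ * R ^ i :=
  sum_over_range' _ (fun _ => by simp) n h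

theorem nr_nonneg (hR : 0 ≤ R) (P : K[X]) : 0 ≤ nr R P :=
  sum_nonneg fun _ _ => by positivity

@[simp] theorem nr_zero : nr R (0 : K[X]) = 0 := by simp [nr]

theorem nr_monomial (n : ℕ) (c : K) : nr R (monomial n c) = ‖c‖ * R ^ n :=
  sum_monomial_index _ _ (by simp)

theorem nr_C (c : K) : nr R (C c) = ‖c‖ := by
  rw [← monomial_zero_left, nr_monomial, pow_zero, mul_one]

@[simp] theorem nr_one : nr R (1 : K[X]) = 1 := by rw [← C_1, nr_C, norm_one]

theorem nr_X_pow (n : ℕ) : nr R (X ^ n : K[X]) = R ^ n := by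
  rw [X_pow_eq_monomial, nr_monomial, norm_one, one_mul]

theorem nr_neg (P : K[X]) : nr R (-P) = nr R P := by
  rw [nr_eq_range (n := P.natDegree + 1) (by simp), nr_eq_range (Nat.lt_succ_self _)]
  simp

theorem nr_add_le (hR : 0 ≤ R) (P Q : K[X]) : nr R (P + Q) ≤ nr R P + nr R Q := by
  have h1 : P.natDegree < max P.natDegree Q.natDegree + 1 := Nat.lt_succ_of_le (le_max_left _ _)
  have h2 : Q.natDegree < max P.natDegree Q.natDegree + 1 := Nat.lt_succ_of_le (le_max_right _ _)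
  rw [nr_eq_range h1, nr_eq_range h2, nr_eq_range (Nat.lt_succ_of_le (natDegree_add_le P Q)),
    ← sum_add_distrib]
  refine sum_le_sum fun i _ => ?_
  rw [← add_mul, coeff_add]
  exact mul_le_mul_of_nonneg_right (norm_add_le _ _) (by positivity)

theorem nr_sub_le (hR : 0 ≤ R) (P Q : K[X]) : nr R (P - Q) ≤ nr R P + nr R Q := by
  rw [sub_eq_add_neg, ← nr_neg Q]
  exact nr_add_le hR _ _

theorem nr_sum_le (hR : 0 ≤ R) {ι : Type} (s : Finset ι) (F : ι → K[X]) :
    nr R (∑ i ∈ s, F i) ≤ ∑ i ∈ s, nr R (F i) := by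
  induction s using Finset.induction_on with
  | empty => simp
  | insert a s ha ih =>
    rw [sum_insert ha, sum_insert ha]
    exact (nr_add_le hR _ _).trans (by linarith)

theorem nr_mul_le (hR : 0 ≤ R) (P Q : K[X]) : nr R (P * Q) ≤ nr R P * nr R Q := by
  rw [mul_eq_sum_sum]
  refine (nr_sum_le hR _ _).trans ?_
  conv_rhs => rw [nr, Polynomial.sum, sum_mul]
  refine sum_le_sum fun i _ => (nr_sum_le hR _ _).trans_eq ?_
  rw [nr, Polynomial.sum, mul_sum]
  refine sum_congr rfl fun j _ => ?_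
  rw [nr_monomial, norm_mul, pow_add]
  ring

theorem nr_C_mul (c : K) (P : K[X]) : nr R (C c * P) = ‖c‖ * nr R P := by
  rw [nr_eq_range (Nat.lt_succ_of_le (natDegree_C_mul_le c P)), nr_eq_range (Nat.lt_succ_self _),
    mul_sum]
  exact sum_congr rfl fun i _ => by rw [coeff_C_mul, norm_mul, mul_assoc]

theorem nr_X_sub_C_le (hR : 0 ≤ R) {c : K} (hc : ‖c‖ ≤ R) : nr R (X - C c) ≤ 2 * R := by
  have := nr_sub_le hR (X ^ 1 : K[X]) (C c)
  rw [nr_X_pow, nr_C, pow_one, pow_one] at this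
  linarith

theorem norm_eval_le {x : K} (hx : ‖x‖ ≤ R) (P : K[X]) : ‖P.eval x‖ ≤ nr R P := by
  rw [eval_eq_sum, Polynomial.sum]
  refine (norm_sum_le _ _).trans (sum_le_sum fun i _ => ?_)
  rw [norm_mul, norm_pow]
  exact mul_le_mul_of_nonneg_left (pow_le_pow_left₀ (norm_nonneg _) hx i) (norm_nonneg _)

theorem norm_coeff_le (hR : 1 ≤ R) (P : K[X]) (i : ℕ) : ‖P.coeff i‖ ≤ nr R P := by
  by_cases h : i ∈ P.support
  · refine le_trans ?_ (single_le_sum (f := fun i => ‖P.coeff i‖ * R ^ i)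
      (fun _ _ => by positivity) h)
    exact le_mul_of_one_le_right (norm_nonneg _) (one_le_pow₀ hR)
  · rw [notMem_support_iff.1 h, norm_zero]
    exact nr_nonneg (by linarith) P

theorem nr_X_mul (P : K[X]) : nr R (X * P) = R * nr R P := by
  rw [nr_eq_range (n := P.natDegree + 1 + 1) (Nat.lt_succ_of_le (natDegree_mul_le.trans
    (by rw [add_comm]; exact Nat.add_le_add_left natDegree_X_le _))), sum_range_succ',
    nr_eq_range (Nat.lt_succ_self _), mul_sum]
  simp only [coeff_X_mul, mul_coeff_zero, coeff_X_zero, zero_mul, norm_zero, add_zero]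
  exact sum_congr rfl fun i _ => by ring

/-- division by a linear factor does not increase the norm -/
theorem nr_quot_le (hR : 2 ≤ R) {c : K} (hc : ‖c‖ ≤ R / 2) (P : K[X]) (r : K) :
    nr R P ≤ nr R ((X - C c) * P + C r) := by
  have h0 : 0 ≤ R := by linarith
  set W := (X - C c) * P + C r
  have e : X * P = X * W.divX + X * (C c * P).divX := by
    ext i
    rcases i with _ | i
    · simp
    · simp [W, coeff_X_mul, coeff_divX, sub_mul]
  have key : ∀ V : K[X], R * nr R V.divX ≤ nr R V := fun V => by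
    rw [← nr_X_mul, nr_eq_range (n := V.natDegree + 1 + 1), nr_eq_range (n := V.natDegree + 1 + 1)]
    · refine sum_le_sum fun i _ => mul_le_mul_of_nonneg_right ?_ (by positivity)
      rcases i with _ | i
      · simp
      · rw [coeff_X_mul, coeff_divX]
    · omega
    · exact Nat.lt_succ_of_le (natDegree_mul_le.trans (by
        have := natDegree_divX_le (p := V)
        have := natDegree_X_le (R := K)
        omega))
  have h1 := nr_add_le h0 (X * W.divX) (X * (C c * P).divX)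
  rw [← e, nr_X_mul, nr_X_mul, nr_X_mul] at h1
  have h2 := key W
  have h3 := key (C c * P)
  rw [nr_C_mul] at h3
  have h4 := nr_nonneg h0 P
  nlinarith

/-- division with remainder by a product of linear factors -/
theorem exists_div_prod (hR : 2 ≤ R) (s : Multiset K) (hs : ∀ c ∈ s, ‖c‖ ≤ R / 2) (P : K[X]) :
    ∃ A B : K[X], P = (s.map fun c => X - C c).prod * A + B ∧ B.degree < s.card ∧
      nr R A ≤ nr R P := by
  induction s using Multiset.induction_on generalizing P with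
  | empty => exact ⟨P, 0, by simp, by simp, le_rfl⟩
  | cons c s ih =>
    obtain ⟨A, B, h1, h2, h3⟩ := ih (fun x hx => hs x (Multiset.mem_cons_of_mem hx)) (P /ₘ (X - C c))
    have e : P = (X - C c) * (P /ₘ (X - C c)) + C (P.eval c) := by
      rw [← modByMonic_X_sub_C_eq_C_eval, add_comm, modByMonic_add_div]
    refine ⟨A, (X - C c) * B + C (P.eval c), ?_, ?_, h3.trans ?_⟩
    · rw [Multiset.map_cons, Multiset.prod_cons]
      linear_combination e + (X - C c) * h1
    · rw [Multiset.card_cons]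
      refine (degree_add_le _ _).trans_lt (max_lt ?_ (degree_C_le.trans_lt (by exact_mod_cast Nat.succ_pos _)))
      rw [degree_mul, degree_X_sub_C, add_comm]
      push_cast
      exact WithBot.add_lt_add_right (by simp) h2
    · conv_rhs => rw [e]
      exact nr_quot_le hR (hs c (Multiset.mem_cons_self _ _)) _ _

/-- exact division by a product of linear factors -/
theorem nr_le_of_mul_prod (hR : 2 ≤ R) (s : Multiset K) (hs : ∀ c ∈ s, ‖c‖ ≤ R / 2) (A : K[X]) :
    nr R A ≤ nr R ((s.map fun c => X - C c).prod * A) := by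
  induction s using Multiset.induction_on with
  | empty => simp
  | cons c s ih =>
    refine (ih fun x hx => hs x (Multiset.mem_cons_of_mem hx)).trans ?_
    have := nr_quot_le hR (hs c (Multiset.mem_cons_self _ _)) ((s.map fun c => X - C c).prod * A) 0
    rwa [map_zero, add_zero, ← mul_assoc, ← Multiset.prod_cons, ← Multiset.map_cons (fun c => X - C c)] at this

theorem nr_map_complex (P : ℝ[X]) : nr R (P.map (algebraMap ℝ ℂ)) = nr R P := by
  rw [nr_eq_range (Nat.lt_succ_of_le natDegree_map_le), nr_eq_range (Nat.lt_succ_self _)]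
  simp

end nr

section real

variable {R : ℝ} {A B : Finset ℝ} {y z : ℝ}

theorem abs_eval_le {x : ℝ} (hx : |x| ≤ R) (P : ℝ[X]) : |P.eval x| ≤ nr R P := norm_eval_le hx P

theorem norm_cf_le_nr (hR : 1 ≤ R) (d : ℕ) (P : ℝ[X]) : ‖cf d P‖ ≤ nr R P :=
  norm_cf_le (nr_nonneg (by linarith) P) fun j _ => norm_coeff_le hR P j

theorem nr_le_cf (hR : 1 ≤ R) {P : ℝ[X]} (h : P.degree < d) : nr R P ≤ d * R ^ d * ‖cf d P‖ := by
  by_cases h0 : P = 0
  · simp only [h0, nr_zero]
    positivity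
  rw [nr_eq_range ((natDegree_lt_iff_degree_lt h0).2 h), mul_assoc, ← nsmul_eq_mul]
  refine (sum_le_card_nsmul _ _ _ fun i hi => ?_).trans_eq (by rw [card_range])
  rw [mul_comm]
  exact mul_le_mul (pow_le_pow_right₀ hR (mem_range.1 hi).le) (abs_coeff_le h i) (norm_nonneg _)
    (by positivity)

theorem nr_pol_le (hR : 1 ≤ R) (q : Fin d → ℝ) : nr R (pol q) ≤ d * R ^ d * ‖q‖ := by
  simpa only [cf_pol] using nr_le_cf hR (degree_pol_lt q)

theorem degree_der_pol (q : Fin d → ℝ) : (derivative (pol q)).degree < d :=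
  (degree_derivative_le).trans_lt (degree_pol_lt q)

theorem nr_der_pol_le (hR : 1 ≤ R) (q : Fin d → ℝ) :
    nr R (derivative (pol q)) ≤ d * R ^ d * (d * ‖q‖) := by
  refine (nr_le_cf hR (degree_der_pol q)).trans (mul_le_mul_of_nonneg_left ?_ (by positivity))
  simpa only [cf_pol] using norm_cf_derivative (degree_pol_lt q)

theorem natDegree_der_pol {q : Fin d → ℝ} (h : Nonconst q) :
    (derivative (pol q)).natDegree + 2 ≤ d := by
  have h1 := h.natDegree
  have h2 := natDegree_derivative_lt h1.1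
  omega

theorem ev0 (q : Fin d → ℝ) (x : ℝ) : ev q 0 x = (pol q).eval x := ev_eq_eval q 0 x
theorem ev1 (q : Fin d → ℝ) (x : ℝ) : ev q 1 x = (derivative (pol q)).eval x := ev_eq_eval q 1 x
theorem ev2 (q : Fin d → ℝ) (x : ℝ) : ev q 2 x = (derivative (derivative (pol q))).eval x :=
  ev_eq_eval q 2 x
theorem ev_cf0 {P : ℝ[X]} (h : P.degree < d) (x : ℝ) : ev (cf d P) 0 x = P.eval x := ev_cf h 0 x
theorem ev_cf1 {P : ℝ[X]} (h : P.degree < d) (x : ℝ) : ev (cf d P) 1 x = (derivative P).eval x :=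
  ev_cf h 1 x
theorem ev_cf2 {P : ℝ[X]} (h : P.degree < d) (x : ℝ) :
    ev (cf d P) 2 x = (derivative (derivative P)).eval x := ev_cf h 2 x

/-- the coefficient vector of the derivative -/
theorem ev_cf_der (q : Fin d → ℝ) (k : ℕ) (x : ℝ) :
    ev (cf d (derivative (pol q))) k x = ev q (k + 1) x := by
  rw [ev_cf (degree_der_pol q), ev_eq_eval, Function.iterate_succ_apply]

theorem degree_lt_of_natDegree {P : ℝ[X]} (h : P.natDegree < d) : P.degree < d :=
  degree_le_natDegree.trans_lt (by exact_mod_cast h)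

/-! ### nodal polynomials -/

theorem wA_eq (A : Finset ℝ) : wA A = (A.val.map fun c => X - C c).prod := rfl
theorem wA_monic (A : Finset ℝ) : (wA A).Monic := monic_prod_X_sub_C _ _
theorem natDegree_wA (A : Finset ℝ) : (wA A).natDegree = A.card := natDegree_finsetProd_X_sub_C_eq_card _ _
theorem eval_wA (A : Finset ℝ) (y : ℝ) : (wA A).eval y = ∏ z ∈ A, (y - z) := by simp [wA, eval_prod]
theorem abs_eval_wA (A : Finset ℝ) (y : ℝ) : |(wA A).eval y| = ∏ z ∈ A, |y - z| := by
  rw [eval_wA, abs_prod]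
theorem eval_wA_eq_zero : (wA A).eval y = 0 ↔ y ∈ A := by
  simp [eval_wA, prod_eq_zero_iff, sub_eq_zero]
theorem wA_erase (h : z ∈ A) : wA A = (X - C z) * wA (A.erase z) := (mul_prod_erase A _ h).symm
theorem wA_image {ι : Type} {x : ι → ℝ} (hx : Function.Injective x) (s : Finset ι) :
    wA (s.image x) = ∏ j ∈ s, (X - C (x j)) := prod_image fun _ _ _ _ e => hx e

theorem eval_der_wA (h : z ∈ A) : (derivative (wA A)).eval z = (wA (A.erase z)).eval z := by
  simp [wA_erase h]

theorem abs_eval_erase (A : Finset ℝ) (z : ℝ) : |(wA (A.erase z)).eval z| = pd A z :=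
  abs_eval_wA _ _

theorem pd_pos (A : Finset ℝ) (z : ℝ) : 0 < pd A z :=
  prod_pos fun _ h => abs_pos.2 (sub_ne_zero.2 (ne_of_mem_erase h).symm)

theorem eval_erase_ne (A : Finset ℝ) (z : ℝ) : (wA (A.erase z)).eval z ≠ 0 :=
  fun h => notMem_erase z A (eval_wA_eq_zero.1 h)

theorem nr_wA_le (hR : 0 ≤ R) (h : ∀ z ∈ A, |z| ≤ R) : nr R (wA A) ≤ (2 * R) ^ A.card := by
  induction A using Finset.induction_on with
  | empty => simp [wA]
  | insert a s ha ih =>
    rw [wA, prod_insert ha, card_insert_of_notMem ha, pow_succ']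
    exact (nr_mul_le hR _ _).trans (mul_le_mul (nr_X_sub_C_le hR (h a (mem_insert_self _ _)))
      (ih fun z hz => h z (mem_insert_of_mem hz)) (nr_nonneg hR _) (by positivity))

/-- division with remainder by `wA A` -/
theorem exists_div_wA (hR : 2 ≤ R) (h : ∀ z ∈ A, |z| ≤ R / 2) (P : ℝ[X]) :
    ∃ U V : ℝ[X], P = wA A * U + V ∧ V.degree < A.card ∧ nr R U ≤ nr R P ∧
      nr R V ≤ (1 + (2 * R) ^ A.card) * nr R P := by
  obtain ⟨U, V, h1, h2, h3⟩ := exists_div_prod hR A.val h P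
  have h0 : 0 ≤ R := by linarith
  refine ⟨U, V, h1, h2, h3, ?_⟩
  have e : V = P - wA A * U := by rw [wA_eq]; linear_combination -h1
  rw [e, add_mul, one_mul]
  refine (nr_sub_le h0 _ _).trans (add_le_add le_rfl ((nr_mul_le h0 _ _).trans ?_))
  exact mul_le_mul (nr_wA_le h0 fun z hz => (h z hz).trans (by linarith)) h3 (nr_nonneg h0 _)
    (by positivity)

/-- exact division by `wA A` -/
theorem exists_eq_wA_mul (hR : 2 ≤ R) (h : ∀ z ∈ A, |z| ≤ R / 2) {P : ℝ[X]}
    (hP : ∀ z ∈ A, P.eval z = 0) : ∃ U : ℝ[X], P = wA A * U ∧ nr R U ≤ nr R P := by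
  obtain ⟨U, V, h1, h2, h3, -⟩ := exists_div_wA hR h P
  have : V = 0 := eq_zero_of_degree_lt_of_eval_finset_eq_zero A h2 fun z hz => by
    have := hP z hz
    rwa [h1, eval_add, eval_mul, eval_wA_eq_zero.2 hz, zero_mul, zero_add] at this
  exact ⟨U, by rw [h1, this, add_zero], h3⟩

/-- divided differences of a polynomial are bounded -/
theorem abs_divdiff_le (hR : 2 ≤ R) (h : ∀ z ∈ A, |z| ≤ R / 2) (P : ℝ[X]) :
    |∑ z ∈ A, P.eval z / (wA (A.erase z)).eval z| ≤ (1 + (2 * R) ^ A.card) * nr R P := by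
  obtain ⟨U, V, h1, h2, -, h4⟩ := exists_div_wA hR h P
  have e : ∑ z ∈ A, P.eval z / (wA (A.erase z)).eval z = V.coeff (A.card - 1) := by
    rw [Lagrange.coeff_eq_sum (v := id) (Set.injOn_id _) h2]
    refine sum_congr rfl fun z hz => ?_
    rw [h1, eval_add, eval_mul, eval_wA_eq_zero.2 hz, zero_mul, zero_add, eval_wA]
    rfl
  rw [e]
  exact (norm_coeff_le (by linarith) V _).trans h4

theorem degree_fA (A : Finset ℝ) (k : ℕ) (h : A.card + k < d) :
    (X ^ k * wA A : ℝ[X]).degree < (d : WithBot ℕ) := by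
  refine degree_lt_of_natDegree (natDegree_mul_le.trans_lt ?_)
  rw [natDegree_X_pow, natDegree_wA]
  omega

theorem ev_fA0 {k : ℕ} (h : A.card + k < d) (x : ℝ) :
    ev (fA d A k) 0 x = x ^ k * (wA A).eval x := by
  rw [fA, ev_cf0 (degree_fA A k h), eval_mul, eval_pow, eval_X]

theorem ev_fA1 {k : ℕ} (h : A.card + k < d) (hz : z ∈ A) :
    ev (fA d A k) 1 z = z ^ k * (wA (A.erase z)).eval z := by
  rw [fA, ev_cf1 (degree_fA A k h), derivative_mul, eval_add, eval_mul, eval_wA_eq_zero.2 hz,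
    mul_zero, zero_add, eval_mul, eval_pow, eval_X, eval_der_wA hz]

theorem norm_fA_le (hR : 1 ≤ R) (h : ∀ z ∈ A, |z| ≤ R) {k : ℕ} (hk : A.card + k ≤ d) :
    ‖fA d A k‖ ≤ (2 * R) ^ d := by
  have h0 : 0 ≤ R := by linarith
  refine (norm_cf_le_nr hR d _).trans ((nr_mul_le h0 _ _).trans ?_)
  rw [nr_X_pow]
  calc R ^ k * nr R (wA A) ≤ (2 * R) ^ k * (2 * R) ^ A.card :=
        mul_le_mul (pow_le_pow_left₀ h0 (by linarith) k) (nr_wA_le h0 h) (nr_nonneg h0 _)
          (by positivity)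
    _ ≤ (2 * R) ^ d := by rw [← pow_add]; exact pow_le_pow_right₀ (by linarith) (by omega)

/-! ### products of distances -/

/-- passing to a subset loses a bounded factor -/
theorem prod_le_subset {L : ℝ} (hL : 1 ≤ L) (hAB : A ⊆ B) (h : ∀ z ∈ B, |y - z| ≤ L) :
    ∏ z ∈ B, |y - z| ≤ L ^ B.card * ∏ z ∈ A, |y - z| := by
  rw [← prod_sdiff hAB]
  refine mul_le_mul_of_nonneg_right ?_ (prod_nonneg fun _ _ => abs_nonneg _)
  refine (prod_le_prod (fun _ _ => abs_nonneg _) fun z hz => h z (mem_sdiff.1 hz).1).trans ?_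
  rw [prod_const]
  exact pow_le_pow_right₀ hL (card_le_card sdiff_subset)

theorem pd_le_subset {L : ℝ} (hL : 1 ≤ L) (hAB : A ⊆ B) (h : ∀ z ∈ B, |y - z| ≤ L) :
    pd B y ≤ L ^ B.card * pd A y :=
  (prod_le_subset hL (erase_subset_erase y hAB) fun z hz => h z (mem_of_mem_erase hz)).trans
    (mul_le_mul_of_nonneg_right (pow_le_pow_right₀ hL card_erase_le) (pd_pos A y).le)

/-- a point that is not close to `A` has a large product of distances -/
theorem le_prod_dist {δ p : ℝ} (hδ1 : δ ≤ 1) (hp : 0 ≤ p) (hp1 : p ≤ 1)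
    (h1 : ∀ z ∈ A, δ ≤ |y - z|) (h2 : ∀ z ∈ A, p ≤ pd A z) :
    δ * p / 2 ^ A.card ≤ ∏ z ∈ A, |y - z| := by
  rcases A.eq_empty_or_nonempty with rfl | hA
  · simpa using mul_le_one₀ hδ1 hp hp1
  obtain ⟨z0, hz0, hmin⟩ := A.exists_min_image (fun z => |y - z|) hA
  have h3 : pd A z0 ≤ 2 ^ A.card * ∏ z ∈ A.erase z0, |y - z| := by
    refine le_trans ?_ (mul_le_mul_of_nonneg_right (pow_le_pow_right₀ one_le_two
      (card_erase_le (a := z0))) (prod_nonneg fun _ _ => abs_nonneg _))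
    rw [← prod_const, ← prod_mul_distrib]
    refine prod_le_prod (fun _ _ => abs_nonneg _) fun z hz => ?_
    have a := hmin z (mem_of_mem_erase hz)
    have b := abs_sub_le z0 y z
    rw [abs_sub_comm z0 y] at b
    linarith
  rw [← mul_prod_erase A _ hz0, div_le_iff₀ (by positivity)]
  calc δ * p ≤ |y - z0| * (2 ^ A.card * ∏ z ∈ A.erase z0, |y - z|) :=
        mul_le_mul (h1 z0 hz0) ((h2 z0 hz0).trans h3) hp (abs_nonneg _)
    _ = _ := by ring

/-- between points with the same value there are critical points -/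
theorem exists_crit (q : Fin d → ℝ) (hq : Nonconst q) {w : ℝ} (h : ∀ y ∈ A, ev q 0 y = w) :
    ∃ B : Finset ℝ, A.card ≤ B.card + 1 ∧ Disjoint B A ∧
      ∀ c ∈ B, ev q 1 c = 0 ∧ ∃ y ∈ A, ∃ y' ∈ A, y < c ∧ c < y' := by
  set t := hq.finite_crit.1.toFinset.filter fun c => ∃ y ∈ A, ∃ y' ∈ A, y < c ∧ c < y'
  refine ⟨t \ A, card_le_sdiff_of_interleaved fun x hx y hy hxy _ => ?_, sdiff_disjoint,
    fun c hc => ?_⟩
  · obtain ⟨c, hc, hc0⟩ := exists_hasDerivAt_eq_zero hxy (continuous_ev q 0).continuousOn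
      ((h x hx).trans (h y hy).symm) fun z _ => hasDerivAt_ev q 0 z
    exact ⟨c, mem_filter.2 ⟨(Set.Finite.mem_toFinset _).2 hc0, x, hx, y, hy, hc⟩, hc⟩
  · have := mem_filter.1 (mem_sdiff.1 hc).1
    exact ⟨hq.finite_crit.1.mem_toFinset.1 this.1, this.2⟩

theorem card_le_natDegree {P : ℝ[X]} (hP : P ≠ 0) (h : ∀ z ∈ A, P.eval z = 0) :
    A.card ≤ P.natDegree :=
  card_le_degree_of_subset_roots fun z hz => (mem_roots hP).2 (h z hz)

theorem card_level_lt {q : Fin d → ℝ} (hq : Nonconst q) {w : ℝ} (h : ∀ y ∈ A, ev q 0 y = w) :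
    A.card < d := by
  have h1 := hq.finite_level w
  have h2 : (A : Set ℝ).ncard ≤ {x | ev q 0 x = w}.ncard :=
    Set.ncard_le_ncard (fun y hy => h y hy) h1.1
  rw [Set.ncard_coe_finset] at h2
  omega

end real

end Pool.Agent.P.MP_a0f0ad_al.Fi
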