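import Pool.Agent.P.MP_a0f0ad_al.Fi.H.Iface2
import Pool.Agent.P.MP_a0f0ad_al.Fi.H.Tool
import Pool.Agent.P.MP_a0f0ad_al.Fi.H.ToolP

/-! Step HCHP of the filiform project. -/

namespace Pool.Agent.P.MP_a0f0ad_al.Fi

open Finset MeasureTheory Polynomial Filter Topology
open scoped Classical

namespace HchpA

variable {d : ℕ}

theorem wA_dvd {A : Finset ℝ} {P : ℝ[X]} (h : ∀ z ∈ A, P.eval z = 0) : wA A ∣ P :=
  Finset.prod_dvd_of_coprime
    (fun _ _ _ _ hab => isCoprime_X_sub_C_of_isUnit_sub (sub_ne_zero.2 hab).isUnit)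
    (fun z hz => dvd_iff_isRoot.2 (h z hz))

theorem ev_sum {ι : Type} (s : Finset ι) (c : ι → ℝ) (F : ι → Fin d → ℝ) (y : ℝ) :
    ev (∑ i ∈ s, c i • F i) 0 y = ∑ i ∈ s, c i * ev (F i) 0 y := by
  induction s using Finset.induction_on with
  | empty => simp
  | insert a s ha ih => rw [sum_insert ha, sum_insert ha, ev_add, ev_smul, ih]

/-- a polynomial vanishing at all critical points is an affine multiple of the derivative -/
theorem affine_mul {q h : Fin d → ℝ} {Z : Finset ℝ} (hq : Nonconst q) (hZ : Z.card + 2 = d)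
    (h1 : ∀ x ∈ Z, ev q 1 x = 0) (h0 : ∀ x ∈ Z, ev h 0 x = 0) :
    ∃ c0 c1 : ℝ, ∀ y, ev h 0 y = ev q 1 y * (c0 + c1 * y) := by
  have hne := (nonconst_iff q).1 hq
  obtain ⟨V, hV⟩ := wA_dvd (A := Z) (P := derivative (pol q)) fun z hz => by
    rw [← ev1]; exact h1 z hz
  obtain ⟨U, hU⟩ := wA_dvd (A := Z) (P := pol h) fun z hz => by rw [← ev0]; exact h0 z hz
  have hw := (wA_monic Z).ne_zero
  have hV0 : V ≠ 0 := by
    rintro rfl
    exact hne (by rw [hV, mul_zero])
  have dV : V.natDegree = 0 := by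
    have e1 := natDegree_der_pol hq
    rw [hV, natDegree_mul hw hV0, natDegree_wA] at e1
    omega
  obtain ⟨A, rfl⟩ := natDegree_eq_zero.1 dV
  have hA : A ≠ 0 := by
    rintro rfl
    exact hV0 (map_zero _)
  have dU : U.natDegree ≤ 1 := by
    by_cases hU0 : U = 0
    · rw [hU0]; simp
    · have e1 := degree_pol_lt h
      have e2 : pol h ≠ 0 := by rw [hU]; exact mul_ne_zero hw hU0
      have e3 := (natDegree_lt_iff_degree_lt e2).2 e1
      rw [hU, natDegree_mul hw hU0, natDegree_wA] at e3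
      omega
  refine ⟨U.coeff 0 / A, U.coeff 1 / A, fun y => ?_⟩
  have e := eq_X_add_C_of_natDegree_le_one dU
  have e' : U.eval y = U.coeff 1 * y + U.coeff 0 := by
    conv_lhs => rw [e]
    simp
  rw [ev0, ev1, hU, hV, eval_mul, eval_mul, eval_C, e']
  field_simp
  ring

end HchpA

open HchpA in
theorem p_HCHP (hHCHS : S_HCHS) :
    S_HCHP := by
  intro d S D hd hS h0 q α m z M Z hq ham hzM hF ha hM hm hz hZ hx
  have mz := (hx m hm).2.1
  have sym := hHCHS d q D.Q α M Z hd hq hS.Qpos hF ha hM (by linarith) hZ fun x h =>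
    ⟨by linarith [(hx x h).1], by linarith [(hx x h).2.1], (hx x h).2.2⟩
  have der : ∀ x, ev q 1 (α + M - x) = ev q 1 x := by
    intro x
    have e1 := (hasDerivAt_ev q 0 (α + M - x)).comp x ((hasDerivAt_id x).const_sub (α + M))
    have e2 : HasDerivAt (fun x => ev q 0 (α + M - x)) (-ev q (0 + 1) x) x := by
      have := (hasDerivAt_ev q 0 x).neg
      refine this.congr_of_eventuallyEq (Eventually.of_forall fun y => ?_)
      simp [sym y]
    have := e1.unique e2
    simp only [zero_add] at this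
    linarith
  have crit : ∀ x, ev q 1 x = 0 → x ∈ Z := by
    intro x h
    by_contra hn
    have e1 := card_le_natDegree (A := insert x Z) ((nonconst_iff q).1 hq) fun y hy => by
      rw [← ev1]
      rcases mem_insert.1 hy with rfl | hy
      · exact h
      · exact (hx y hy).2.2.2
    have e2 := natDegree_der_pol hq
    rw [card_insert_of_notMem hn] at e1
    omega
  have s1 := (hx _ (crit (α + M - m) (by rw [der]; exact (hx m hm).2.2.2))).2.1
  have s2 := (hx _ (crit (α + M - z) (by rw [der]; exact (hx z hz).2.2.2))).1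
  have sm : α + M - m = z := by linarith
  have first : (∫ x in α..m, D.om (ev q 0 x)) = ∫ x in z..M, D.om (ev q 0 x) := by
    have e := intervalIntegral.integral_comp_sub_left (a := α) (b := m)
      (fun x => D.om (ev q 0 x)) (α + M)
    simp only [sym, D.om_neg] at e
    rw [e, sm, add_sub_cancel_left]
  refine ⟨first, fun f => ?_⟩
  obtain ⟨L, hL⟩ := hS.exists_Phi q α m z M
  have cZ : ∀ x ∈ Z, (Z.erase x).card + 0 < d := fun x h => by
    have := card_erase_of_mem h
    omega
  have ne : ∀ x ∈ Z, ev (fA d (Z.erase x) 0) 0 x ≠ 0 := fun x h => by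
    rw [ev_fA0 (cZ x h), pow_zero, one_mul]
    exact eval_erase_ne Z x
  set g : Fin d → ℝ :=
    ∑ x ∈ Z, (ev f 0 x / ev (fA d (Z.erase x) 0) 0 x) • fA d (Z.erase x) 0 with hg
  obtain ⟨c0, c1, hc⟩ := affine_mul (h := f - g) hq hZ (fun x h => (hx x h).2.2.2) fun x h => by
    rw [ev_sub, hg, ev_sum, sum_eq_single x, div_mul_cancel₀ _ (ne x h), sub_self]
    · intro y hy hyx
      rw [ev_fA0 (cZ y hy) x, eval_wA_eq_zero.2 (mem_erase.2 ⟨hyx.symm, h⟩), mul_zero, mul_zero]
    · intro hn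
      exact absurd h hn
  have om0 : ∀ y, |ev q 0 y| = D.Q → D.om (ev q 0 y) = 0 := fun y h => by
    rw [← Bm.om_abs, h, h0]
  have ib : ∀ s t, |ev q 0 s| = D.Q → |ev q 0 t| = D.Q →
      D.Ib q (f - g) s t = (∫ x in s..t, D.om (ev q 0 x)) * c1 := by
    intro s t hs ht
    have e := hS.int_be q (g := fun y => c0 + c1 * y) (g' := fun _ => c1)
      (fun y => by simpa using ((hasDerivAt_id y).const_mul c1).const_add c0) continuous_const s t
    rw [om0 s hs, om0 t ht, intervalIntegral.integral_mul_const] at e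
    simp only [LD.Ib, hc]
    rw [e]
    ring
  have zero : L (f - g) = 0 := by
    rw [hL, LD.Phi, ib α m ha (hx m hm).2.2.1, ib z M (hx z hz).2.2.1 hM, first, sub_self]
  rw [map_sub, sub_eq_zero, hg, map_sum] at zero
  rw [← hL, zero]
  refine sum_congr rfl fun x _ => ?_
  rw [map_smul, hL, smul_eq_mul]
  ring

end Pool.Agent.P.MP_a0f0ad_al.Fi
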