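import Pool.Agent.P.MP_a0f0ad_al.Fi.H.Iface2
import Pool.Agent.P.MP_a0f0ad_al.Fi.Z.Bq

/-! Step HCHS of the filiform project. -/

namespace Pool.Agent.P.MP_a0f0ad_al.Fi

open Finset MeasureTheory Polynomial Filter Topology
open scoped Classical

namespace HchsA

theorem deg {n j : ℕ} (hn : Odd n) (hj : j ≤ n) (c : ℝ) :
    (X ^ j + (C c - X) ^ j : ℝ[X]).degree < n := by
  have e : ∀ k : ℕ, ((X - C c) ^ k : ℝ[X]).degree = k := fun k => by
    rw [degree_pow, degree_X_sub_C, nsmul_one]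
  rcases hj.eq_or_lt with rfl | hj
  · rw [← neg_sub X (C c), hn.neg_pow, ← sub_eq_add_neg]
    refine (degree_sub_lt_left (by rw [e, degree_X_pow]) (pow_ne_zero _ X_ne_zero) ?_).trans_eq
      (degree_X_pow j)
    rw [leadingCoeff_X_pow, ((monic_X_sub_C c).pow j).leadingCoeff]
  · refine (degree_add_le _ _).trans_lt (max_lt ?_ ?_)
    · rw [degree_X_pow]
      exact_mod_cast hj
    · rw [← neg_sub X (C c), neg_pow, degree_mul, degree_pow, degree_neg, degree_one, e]
      simpa using hj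

end HchsA

theorem p_HCHS :
    S_HCHS := by
  intro d q Q α M Z hd hq hQ hb hα hM hαM hc hZ
  obtain ⟨n, rfl⟩ : ∃ n, d = n + 1 := ⟨Z.card + 1, hc.symm⟩
  have hn : Odd n := by rwa [Nat.even_add_one, Nat.not_even_iff_odd] at hd
  have hY : (insert α (insert M Z)).card = n + 1 := by
    rw [card_insert_of_notMem, card_insert_of_notMem fun h => (hZ M h).2.1.false, hc]
    rw [mem_insert, not_or]
    exact ⟨hαM.ne, fun h => (hZ α h).1.false⟩
  have crit : ∀ y, ev q 1 y = 0 → y ∈ Z := fun y hy => by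
    have e := Set.eq_of_subset_of_ncard_le (s := (Z : Set ℝ)) (t := {x | ev q 1 x = 0})
      (fun x hx => (hZ x hx).2.2.2) (by
        have := hq.finite_crit.2
        rw [Set.ncard_coe_finset]
        omega) hq.finite_crit.1
    exact mem_coe.1 (e ▸ hy)
  set x := (insert α (insert M Z)).orderEmbOfFin hY with hx
  have mem : ∀ i, x i ∈ Set.Icc α M ∧ |ev q 0 (x i)| = Q := fun i => by
    rcases mem_insert.1 (orderEmbOfFin_mem _ hY i) with e | e
    · rw [e]
      exact ⟨⟨le_rfl, hαM.le⟩, hα⟩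
    rcases mem_insert.1 e with e | e
    · rw [e]
      exact ⟨⟨hαM.le, le_rfl⟩, hM⟩
    · exact ⟨⟨(hZ _ e).1.le, (hZ _ e).2.1.le⟩, (hZ _ e).2.2.1⟩
  have alt : ∀ i : Fin (n + 1), (-1) ^ (i : ℕ) * ev q 0 (x i) = ev q 0 (x 0) := fun i => by
    induction i using Fin.induction with
    | zero => simp
    | succ i ih =>
      rcases abs_eq_abs.1 ((mem i.castSucc).2.trans (mem i.succ).2.symm) with e | e
      · obtain ⟨y, hy, h1⟩ := exists_hasDerivAt_eq_zero (x.strictMono (Fin.castSucc_lt_succ (i := i)))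
          (continuous_ev q 0).continuousOn e fun y _ => hasDerivAt_ev q 0 y
        have h2 : y ∈ Set.range x := by
          rw [hx, range_orderEmbOfFin]
          exact mem_coe.2 (mem_insert_of_mem (mem_insert_of_mem (crit y h1)))
        obtain ⟨j, rfl⟩ := h2
        have h3 := Fin.lt_def.1 (x.lt_iff_lt.1 hy.1)
        have h4 := Fin.lt_def.1 (x.lt_iff_lt.1 hy.2)
        rw [Fin.val_castSucc] at h3
        rw [Fin.val_succ] at h4
        omega
      · rw [← ih, e, Fin.val_succ, Fin.val_castSucc]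
        ring
  have ev' : ∀ y, (∑ j : Fin (n + 1), C (ev q 0 (x 0) * q j) *
      (X ^ (j : ℕ) + (C (α + M) - X) ^ (j : ℕ))).eval y =
      ev q 0 (x 0) * (ev q 0 y + ev q 0 (α + M - y)) := fun y => by
    generalize ev q 0 (x 0) = s
    simp only [ev, dot, Vd, eval_finsetSum, eval_mul, eval_C, eval_add, eval_pow, eval_X, eval_sub,
      Nat.descFactorial_zero, Nat.cast_one, one_mul, Nat.sub_zero, mul_sum, mul_add,
      sum_add_distrib, mul_assoc]
  have R0 := eq_zero_of_alternate (n := n) (P := ∑ j : Fin (n + 1), C (ev q 0 (x 0) * q j) *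
      (X ^ (j : ℕ) + (C (α + M) - X) ^ (j : ℕ)))
    ((degree_sum_le _ _).trans_lt ((Finset.sup_lt_iff (WithBot.bot_lt_coe n)).2 fun j _ =>
      (smul_eq_C_mul (R := ℝ) _ ▸ degree_smul_le _ _).trans_lt
        (HchsA.deg hn (Nat.lt_succ_iff.1 j.2) _))) x x.strictMono fun i => by
      have h1 := (mem i).2
      have h2 := hb (α + M - x i) ⟨by linarith [(mem i).1.2], by linarith [(mem i).1.1]⟩
      have h3 : ((-1 : ℝ) ^ (i : ℕ)) ^ 2 = 1 := by rw [← pow_mul, mul_comm, pow_mul]; simp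
      rw [ev', ← alt i, ← mul_assoc, ← mul_assoc, ← sq, h3, one_mul, mul_add, ← sq, ← sq_abs, h1]
      have h4 := neg_abs_le (ev q 0 (x i) * ev q 0 (α + M - x i))
      rw [abs_mul, h1] at h4
      nlinarith
  intro y
  have h1 := ev' y
  rw [R0, eval_zero] at h1
  have h2 : ev q 0 (x 0) ≠ 0 := fun e => by
    have := (mem 0).2
    rw [e, abs_zero] at this
    exact hQ.ne this
  linarith [(mul_eq_zero.1 h1.symm).resolve_left h2]

end Pool.Agent.P.MP_a0f0ad_al.Fi
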