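import Pool.Agent.P.MP_a0f0ad_al.Fi.H.Iface2
import Pool.Agent.P.MP_a0f0ad_al.Fi.H.ToolP

/-! Step HCLUS of the filiform project. -/

namespace Pool.Agent.P.MP_a0f0ad_al.Fi

open Finset MeasureTheory Polynomial Filter Topology
open scoped Classical

namespace HclusA

/-- the monic polynomial with the roots `s` -/
noncomputable def pr (s : Multiset ℂ) : ℂ[X] := (s.map fun c => X - C c).prod

theorem pr_cons (c : ℂ) (s : Multiset ℂ) : pr (c ::ₘ s) = (X - C c) * pr s := by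
  simp [pr]

theorem pr_add (s t : Multiset ℂ) : pr (s + t) = pr s * pr t := by
  simp [pr]

theorem pr_monic (s : Multiset ℂ) : (pr s).Monic :=
  monic_multiset_prod_of_monic _ _ fun _ _ => monic_X_sub_C _

theorem le_norm_pr (s : Multiset ℂ) (x : ℂ) {a : ℝ} (ha : 0 ≤ a) (h : ∀ z ∈ s, a ≤ ‖x - z‖) :
    a ^ s.card ≤ ‖(pr s).eval x‖ := by
  induction s using Multiset.induction_on with
  | empty => simp [pr]
  | cons c s ih =>
    rw [pr_cons, eval_mul, norm_mul, Multiset.card_cons, pow_succ', eval_sub, eval_X, eval_C]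
    exact mul_le_mul (h c (Multiset.mem_cons_self _ _))
      (ih fun z hz => h z (Multiset.mem_cons_of_mem hz)) (by positivity) (norm_nonneg _)

theorem norm_pr_le (s : Multiset ℂ) (x : ℂ) {a : ℝ} (ha : 0 ≤ a) (h : ∀ z ∈ s, ‖x - z‖ ≤ a) :
    ‖(pr s).eval x‖ ≤ a ^ s.card := by
  induction s using Multiset.induction_on with
  | empty => simp [pr]
  | cons c s ih =>
    rw [pr_cons, eval_mul, norm_mul, Multiset.card_cons, pow_succ', eval_sub, eval_X, eval_C]
    exact mul_le_mul (h c (Multiset.mem_cons_self _ _))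
      (ih fun z hz => h z (Multiset.mem_cons_of_mem hz)) (norm_nonneg _) ha

theorem norm_pr_cmp (s : Multiset ℂ) (x x' : ℂ) {a : ℝ} (ha : 0 ≤ a)
    (h : ∀ z ∈ s, ‖x' - z‖ ≤ a * ‖x - z‖) :
    ‖(pr s).eval x'‖ ≤ a ^ s.card * ‖(pr s).eval x‖ := by
  induction s using Multiset.induction_on with
  | empty => simp [pr]
  | cons c s ih =>
    rw [pr_cons, eval_mul, eval_mul, norm_mul, norm_mul, Multiset.card_cons, pow_succ', eval_sub,
      eval_sub, eval_X, eval_X, eval_C, eval_C]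
    calc ‖x' - c‖ * ‖(pr s).eval x'‖ ≤ (a * ‖x - c‖) * (a ^ s.card * ‖(pr s).eval x‖) :=
          mul_le_mul (h c (Multiset.mem_cons_self _ _))
            (ih fun z hz => h z (Multiset.mem_cons_of_mem hz)) (norm_nonneg _) (by positivity)
      _ = _ := by ring

theorem abs_eval (w : ℝ[X]) (x : ℝ) :
    |w.eval x| = ‖(w.map (algebraMap ℝ ℂ)).eval (x : ℂ)‖ := by
  have : (x : ℂ) = algebraMap ℝ ℂ x := rfl
  rw [this, eval_map, eval₂_hom]
  simp

theorem roots_conj (p : ℝ[X]) :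
    (p.map (algebraMap ℝ ℂ)).roots.map (starRingEnd ℂ) = (p.map (algebraMap ℝ ℂ)).roots := by
  have h1 : (p.map (algebraMap ℝ ℂ)).map (starRingEnd ℂ) = p.map (algebraMap ℝ ℂ) := by
    rw [Polynomial.map_map]
    congr 1
    ext x
    simp
  have h2 := (IsAlgClosed.splits (p.map (algebraMap ℝ ℂ))).roots_map (starRingEnd ℂ)
  rw [h1] at h2
  exact h2.symm

theorem exists_real {s : Multiset ℂ} (h : s.map (starRingEnd ℂ) = s) :
    ∃ w : ℝ[X], w.map (algebraMap ℝ ℂ) = pr s ∧ w.Monic := by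
  have h1 : (pr s).map (starRingEnd ℂ) = pr s := by
    conv_rhs => rw [← h]
    simp [pr, Polynomial.map_multiset_prod, Multiset.map_map]
  have h2 : pr s ∈ lifts (algebraMap ℝ ℂ) := by
    rw [lifts_iff_coeff_lifts]
    intro n
    have : starRingEnd ℂ ((pr s).coeff n) = (pr s).coeff n := by
      rw [← coeff_map, h1]
    obtain ⟨r, hr⟩ := Complex.conj_eq_iff_real.1 this
    exact ⟨r, hr.symm⟩
  obtain ⟨w, hw, -, hm⟩ := lifts_and_degree_eq_and_monic h2 (pr_monic s)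
  exact ⟨w, hw, hm⟩

theorem gap {δ t : ℝ} (hδ : 0 < δ) (ht : 0 ≤ t) {i : ℕ} (h : ⌊t / δ⌋₊ ≠ i) :
    t ≤ i * δ ∨ i * δ + δ ≤ t := by
  by_contra hc
  push Not at hc
  refine h ((Nat.floor_eq_iff (by positivity)).2 ⟨?_, ?_⟩)
  · rw [le_div_iff₀ hδ]; exact hc.1.le
  · rw [div_lt_iff₀ hδ]; linarith [hc.2]

end HclusA

open HclusA in
theorem p_HCLUS :
    S_HCLUS := by
  intro D0 n0 L hL
  set K : ℝ := 2 * L + 2 with hK
  have hK1 : 1 ≤ K := by rw [hK]; linarith
  set N : ℕ := n0 + D0 with hN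
  refine ⟨min (1 / ((N : ℝ) + 1)) (K ^ (2 * D0))⁻¹, lt_min (by positivity) (by positivity), ?_⟩
  intro p Nd x0 x1 l v hp hNd hx0 hx1 hl hl1 hv hpv
  set δ : ℝ := l / ((N : ℝ) + 1) with hδ
  have hN0 : (0 : ℝ) ≤ N := Nat.cast_nonneg N
  have hδ0 : 0 < δ := by positivity
  have hδl : ((N : ℝ) + 1) * δ = l := by rw [hδ]; field_simp
  have hδ1 : δ ≤ 1 := by nlinarith
  set P : ℂ[X] := p.map (algebraMap ℝ ℂ) with hP
  set s := P.roots with hs
  have hsc : s.card ≤ D0 := (card_roots' P).trans (natDegree_map_le.trans hp)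
  have hPs : C P.leadingCoeff * pr s = P :=
    C_leadingCoeff_mul_prod_multiset_X_sub_C (IsAlgClosed.card_roots_eq_natDegree)
  obtain ⟨i, hi, hiF⟩ := Finset.exists_mem_notMem_of_card_lt_card
    (s := Nd.image (fun y => ⌊|y - x0| / δ⌋₊) ∪
      s.toFinset.image fun z => ⌊‖z - (x0 : ℂ)‖ / δ⌋₊) (t := range (N + 1)) (by
      have h1 := card_union_le (Nd.image (fun y => ⌊|y - x0| / δ⌋₊))
        (s.toFinset.image fun z => ⌊‖z - (x0 : ℂ)‖ / δ⌋₊)
      have h2 := card_image_le (s := Nd) (f := fun y => ⌊|y - x0| / δ⌋₊)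
      have h3 := card_image_le (s := s.toFinset) (f := fun z => ⌊‖z - (x0 : ℂ)‖ / δ⌋₊)
      have h4 := Multiset.toFinset_card_le s
      rw [card_range]
      omega)
  have hiN : (i : ℝ) ≤ N := by exact_mod_cast Nat.lt_succ_iff.1 (mem_range.1 hi)
  set r : ℝ := i * δ with hr
  have hr0 : 0 ≤ r := by positivity
  have hrl : r + δ ≤ l := by nlinarith
  have hgN : ∀ y ∈ Nd, |y - x0| ≤ r ∨ r + δ ≤ |y - x0| := fun y hy =>
    gap hδ0 (abs_nonneg _) fun e => hiF (mem_union_left _ (mem_image.2 ⟨y, hy, e⟩))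
  have hgs : ∀ z ∈ s, ‖z - (x0 : ℂ)‖ ≤ r ∨ r + δ ≤ ‖z - (x0 : ℂ)‖ := fun z hz =>
    gap hδ0 (norm_nonneg _) fun e =>
      hiF (mem_union_right _ (mem_image.2 ⟨z, Multiset.mem_toFinset.2 hz, e⟩))
  set s1 := s.filter fun z => ‖z - (x0 : ℂ)‖ ≤ r with hs1
  set s2 := s.filter fun z => ¬ ‖z - (x0 : ℂ)‖ ≤ r with hs2
  have hs12 : s1 + s2 = s := Multiset.filter_add_not _ _
  have hc1 : s1.card ≤ D0 := (Multiset.card_le_card (Multiset.filter_le _ _)).trans hsc
  have hc2 : s2.card ≤ D0 := (Multiset.card_le_card (Multiset.filter_le _ _)).trans hsc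
  have hm1 : ∀ z ∈ s1, ‖z - (x0 : ℂ)‖ ≤ r := fun z hz => (Multiset.mem_filter.1 hz).2
  have hm2 : ∀ z ∈ s2, r + δ ≤ ‖z - (x0 : ℂ)‖ := fun z hz =>
    (hgs z (Multiset.mem_filter.1 hz).1).resolve_left (Multiset.mem_filter.1 hz).2
  have hconj : s1.map (starRingEnd ℂ) = s1 := by
    have h1 : s.map (starRingEnd ℂ) = s := roots_conj p
    conv_rhs => rw [hs1, ← h1, Multiset.filter_map]
    congr 1
    refine Multiset.filter_congr fun z _ => ?_
    have : starRingEnd ℂ z - (x0 : ℂ) = starRingEnd ℂ (z - x0) := by simp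
    simp only [Function.comp_apply, this, Complex.norm_conj]
  obtain ⟨w, hw, hwm⟩ := exists_real hconj
  have hPf : P = pr s1 * (C P.leadingCoeff * pr s2) := by
    conv_lhs => rw [← hPs, ← hs12, pr_add]
    ring
  obtain ⟨r1, hr1⟩ : w ∣ p := by
    rw [← map_dvd_map (algebraMap ℝ ℂ) (algebraMap ℝ ℂ).injective hwm, hw]
    exact ⟨_, hPf⟩
  have hr1m : r1.map (algebraMap ℝ ℂ) = C P.leadingCoeff * pr s2 := by
    refine mul_left_cancel₀ (pr_monic s1).ne_zero ?_
    rw [← hPf, ← hw, ← Polynomial.map_mul, ← hr1]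
  have hnr : ∀ x y : ℝ, ‖(x : ℂ) - y‖ = |x - y| := fun x y => by
    rw [← Complex.ofReal_sub, Complex.norm_real, Real.norm_eq_abs]
  have hx10 : |x1 - x0| ≤ 2 * L := by
    have := abs_sub x1 x0
    linarith
  refine ⟨r, δ, w, r1, ?_, hr0, hrl, hr1, hwm, hgN, fun x hx => ?_, fun x hx => ?_, ?_⟩
  · refine (mul_le_mul_of_nonneg_right (min_le_left _ _) hl.le).trans_eq ?_
    rw [hδ]; ring
  · rw [abs_eval, hw]
    refine (pow_le_pow_of_le_one hδ0.le hδ1 hc1).trans (le_norm_pr _ _ hδ0.le fun z hz => ?_)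
    have h1 := norm_sub_le_norm_sub_add_norm_sub (x : ℂ) z x0
    rw [hnr] at h1
    linarith [hm1 z hz]
  · have h1 : |w.eval x1| ≤ K ^ D0 := by
      rw [abs_eval, hw]
      refine (norm_pr_le _ _ (by linarith) fun z hz => ?_).trans (pow_le_pow_right₀ hK1 hc1)
      have h1 := norm_sub_le_norm_sub_add_norm_sub (x1 : ℂ) x0 z
      rw [hnr, norm_sub_rev (x0 : ℂ) z] at h1
      linarith [hm1 z hz]
    have hKδ : 1 ≤ K / δ := by rw [le_div_iff₀ hδ0]; linarith
    have h2 : |r1.eval x1| ≤ (K / δ) ^ D0 * |r1.eval x| := by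
      rw [abs_eval, abs_eval, hr1m, eval_mul, eval_mul, norm_mul, norm_mul, eval_C, eval_C,
        mul_left_comm]
      refine mul_le_mul_of_nonneg_left ((norm_pr_cmp s2 x x1 (a := K / δ) (by positivity)
        fun z hz => ?_).trans (mul_le_mul_of_nonneg_right (pow_le_pow_right₀ hKδ hc2)
          (norm_nonneg _))) (norm_nonneg _)
      have h3 := norm_sub_le_norm_sub_add_norm_sub z (x : ℂ) x0
      rw [hnr, norm_sub_rev z (x : ℂ)] at h3
      have h4 : δ ≤ ‖(x : ℂ) - z‖ := by linarith [hm2 z hz]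
      have h5 := norm_sub_le_norm_sub_add_norm_sub (x1 : ℂ) x z
      rw [hnr] at h5
      have h6 : |x1 - x| ≤ 2 * L + 1 := by
        have := abs_sub_le x1 x0 x
        rw [abs_sub_comm x0 x] at this
        linarith
      rw [div_mul_eq_mul_div, le_div_iff₀ hδ0, hK]
      have h7 := norm_nonneg ((x : ℂ) - z)
      have h8 : ‖(x1 : ℂ) - z‖ * δ ≤ (2 * L + 1 + ‖(x : ℂ) - z‖) * δ :=
        mul_le_mul_of_nonneg_right (by linarith) hδ0.le
      have h9 : (2 * L + 1) * δ ≤ (2 * L + 1) * ‖(x : ℂ) - z‖ :=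
        mul_le_mul_of_nonneg_left h4 (by linarith)
      have h10 : ‖(x : ℂ) - z‖ * δ ≤ ‖(x : ℂ) - z‖ := mul_le_of_le_one_right h7 hδ1
      nlinarith
    have h3 : v ≤ K ^ D0 * ((K / δ) ^ D0 * |r1.eval x|) := by
      refine hpv.trans ?_
      rw [hr1, eval_mul, abs_mul]
      exact mul_le_mul h1 h2 (abs_nonneg _) (by positivity)
    have h4 : v * δ ^ D0 ≤ K ^ (2 * D0) * |r1.eval x| := by
      refine (mul_le_mul_of_nonneg_right h3 (by positivity)).trans_eq ?_
      rw [div_pow, two_mul, pow_add]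
      field_simp
    calc min (1 / ((N : ℝ) + 1)) (K ^ (2 * D0))⁻¹ * v * δ ^ D0
        ≤ (K ^ (2 * D0))⁻¹ * (v * δ ^ D0) := by
          rw [mul_assoc]
          exact mul_le_mul_of_nonneg_right (min_le_right _ _) (by positivity)
      _ ≤ |r1.eval x| := by
          rw [inv_mul_le_iff₀ (by positivity)]
          exact h4
  · rw [← nr_map_complex r1, ← nr_map_complex p, ← hP, hPf, ← hr1m]
    refine nr_le_of_mul_prod (by linarith) s1 (fun z hz => ?_) _
    have h1 := norm_le_norm_add_norm_sub' z (x0 : ℂ)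
    rw [Complex.norm_real, Real.norm_eq_abs] at h1
    linarith [hm1 z hz]

end Pool.Agent.P.MP_a0f0ad_al.Fi
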