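import Pool.Agent.P.MP_a0f0ad_al.Fi.H.Iface2
import Pool.Agent.P.MP_a0f0ad_al.Fi.H.Tool
import Pool.Agent.P.MP_a0f0ad_al.Fi.S.Iface
import Pool.Agent.P.MP_a0f0ad_al.Fi.V.Iface

/-! Step HCOV of the filiform project. -/

namespace Pool.Agent.P.MP_a0f0ad_al.Fi

open Finset MeasureTheory Polynomial Filter Topology
open scoped Classical

namespace HcovA

theorem grad_snd {d : ℕ} {N : E d → ℝ} {p p' u : E d} (h : Grad N p u) (h' : Grad N p' u) :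
    p.2 = p'.2 := by
  obtain ⟨L, h1, h2⟩ := h
  obtain ⟨L', h1', h2'⟩ := h'
  have e := h1.unique h1'
  funext j
  have a := h2 (0, Pi.single j 1)
  rw [e, h2'] at a
  simpa [pair, dot, Pi.single_apply] using a.symm

theorem chart (hPROJ : S_PROJ) (hCHOICE : S_CHOICE) (hDIFF : S_DIFF) (hHOM : S_HOM)
    (hHSA : S_HSA) (hHUNI : S_HUNI) {d : ℕ} {S : Finset (G d)} {D : LD d} (hD : D.Spec S) (n : ℕ)
    (jm jM : Fin n) (Zs : Finset (Fin n)) :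
    ∃ c : Ch d n, c.OK D ∧ ∀ᵐ u : E d, ∀ (p : E d) (x μ : Fin n → ℝ), Grad D.NN p u →
      Enc D u jm jM Zs p.2 x μ → u ∈ c.U ∧ c.rd u = mkrd jm jM Zs p.2 x μ := by
  have : Fact S_PROJ := ⟨hPROJ⟩
  have := haarE d
  obtain ⟨f, hf, hs⟩ := hCHOICE _ _ _ (hHSA d S D hD n jm jM Zs)
  obtain ⟨U, hU, hsa, hsub, hnull, hC⟩ := hDIFF _ _ volume _ f hf
  obtain ⟨g, hg, hfg⟩ := hf.exists_df
  have hd : ∀ u ∈ U, DifferentiableAt ℝ g u := fun u hu =>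
    ((hC.differentiableOn one_ne_zero).differentiableAt (hU.mem_nhds hu)).congr_of_eventuallyEq
      (mem_of_superset (hU.mem_nhds hu) fun v hv => (hfg (hsub hv)).symm)
  have he : ∀ u ∈ U, (∃ p : E d, Grad D.NN p u ∧ p.2 = (g u).1) ∧
      Enc D u jm jM Zs (g u).1 (g u).2.1 (g u).2.2 := fun u hu => by
    rw [← hfg (hsub hu)]
    exact hs u (hsub hu)
  obtain ⟨L, hL⟩ := (hHOM d S D hD).2.2.2.1
  refine ⟨⟨jm, jM, Zs, U, fun u => (g u).1, fun u => (g u).2.1, fun u => (g u).2.2⟩,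
    ⟨hU, hsa, isBounded_iff_forall_norm_le.2 ⟨L, fun u hu => ?_⟩, hg.fst, hg.snd.fst, hg.snd.snd,
      fun u hu => (hd u hu).fst, fun u hu => (hd u hu).snd.fst, fun u hu => (hd u hu).snd.snd,
      fun u hu => (he u hu).2⟩, ?_⟩
  · have b := (he u hu).2.2.2.2
    exact hL u b.ha.le (b.hN.trans one_le_two)
  · filter_upwards [measure_eq_zero_iff_ae_notMem.1 hnull] with u hu p x μ hp hE
    have hu' : u ∈ U := by
      by_contra a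
      exact hu ⟨⟨(u, p.2, x, μ), ⟨⟨p, hp, rfl⟩, hE⟩, rfl⟩, a⟩
    obtain ⟨⟨p', hp', e⟩, hE'⟩ := he u hu'
    have e1 : (g u).1 = p.2 := e.symm.trans (grad_snd hp' hp)
    rw [e1] at hE'
    obtain ⟨e2, e3⟩ := hHUNI d S D hD u n jm jM Zs _ _ _ _ _ hE' hE
    exact ⟨hu', by simp only [Ch.rd, e1, e2, e3]⟩

end HcovA

theorem p_HCOV (hPROJ : S_PROJ) (hCHOICE : S_CHOICE) (hDIFF : S_DIFF) (hHOM : S_HOM) (hHSA : S_HSA) (hHUNI : S_HUNI) (hHENC : S_HENC) :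
    S_HCOV := by
  intro d S D hD
  obtain ⟨n0, h0⟩ := hHENC d S D hD
  choose c hc ha using fun i : Σ n : Fin (n0 + 1), Fin n × Fin n × Finset (Fin n) =>
    HcovA.chart hPROJ hCHOICE hDIFF hHOM hHSA hHUNI hD i.1 i.2.1 i.2.2.1 i.2.2.2
  refine ⟨_, inferInstance, _, c, hc, ?_⟩
  filter_upwards [ae_all_iff.2 ha] with u hu p ρ hp hq hB
  obtain ⟨n, hn, jm, jM, Zs, x, μ, hE, e⟩ := h0 ρ u hB
  rw [hq] at hE e
  obtain ⟨h1, h2⟩ := hu ⟨⟨n, Nat.lt_succ_of_le hn⟩, jm, jM, Zs⟩ p x μ hp hE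
  exact ⟨_, h1, h2.trans e⟩

end Pool.Agent.P.MP_a0f0ad_al.Fi
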