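import Pool.Agent.P.MP_a0f0ad_al.Fi.H.Iface2

/-! Step HCTX of the filiform project. -/

namespace Pool.Agent.P.MP_a0f0ad_al.Fi

open Finset MeasureTheory Polynomial Filter Topology
open scoped Classical

theorem p_HCTX (hHGEN : S_HGEN) (hHTANW : S_HTANW) (hHTANS : S_HTANS) :
    S_HCTX := by
  intro d S D hD n c hc
  filter_upwards [hHGEN d D n c hc] with u hu hU
  exact hHTANS d S D hD _ u _ (hHTANW d S D hD n c hc u hU hu)

end Pool.Agent.P.MP_a0f0ad_al.Fi
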