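import Pool.Agent.P.MP_a0f0ad_al.Fi.H.Iface2
import Pool.Agent.P.MP_a0f0ad_al.Fi.H.Tool

/-! Step HDEN of the filiform project. -/

namespace Pool.Agent.P.MP_a0f0ad_al.Fi

open Finset MeasureTheory Polynomial Filter Topology
open scoped Classical

namespace HdenA

theorem sum_bd (s : Finset ℝ) (F : ℝ → ℝ) {v B N : ℝ} (hv : 0 ≤ v) (hB : 0 ≤ B)
    (h : ∀ x ∈ s, v * |F x| ≤ B) (hN : (s.card : ℝ) ≤ N) : v * |∑ x ∈ s, F x| ≤ N * B := by
  refine (mul_le_mul_of_nonneg_left (abs_sum_le_sum_abs _ _) hv).trans ?_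
  rw [mul_sum]
  refine (sum_le_card_nsmul _ _ B h).trans ?_
  rw [nsmul_eq_mul]
  exact mul_le_mul_of_nonneg_right hN hB

theorem tri {v a x f A e : ℝ} (ha : |a| ≤ A) (hx : v * |x| ≤ 1) (hf : |f| ≤ e) (hv : 0 ≤ v) :
    v * |a * x * f| ≤ A * e := by
  rw [abs_mul, abs_mul]
  have h1 : |a| * |f| ≤ A * e := mul_le_mul ha hf (abs_nonneg _) ((abs_nonneg _).trans ha)
  have h2 := mul_le_mul hx h1 (by positivity) zero_le_one
  linarith

end HdenA

open HdenA in
theorem p_HDEN (hHB2 : S_HB2) :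
    S_HDEN := by
  refine ⟨1, fun d S D _ _ hS => ?_⟩
  obtain ⟨_, C, -, -, hC, hB⟩ := hHB2 d S D hS
  have hQ := inv_pos.2 hS.Qpos
  have hK : 0 < (C + 1) * C + d * (1 + D.Q⁻¹) := by positivity
  refine ⟨((C + 1) * C + d * (1 + D.Q⁻¹))⁻¹, inv_pos.2 hK,
    fun ρ u T v t hx hv _ _ ht ⟨b1, b2⟩ => Or.inl fun f e he h1 h2 => ?_⟩
  obtain ⟨c1, c2, -⟩ := hB ρ u hx.bas hx.fac
  have key : ∀ i, v * |f i| ≤ ((C + 1) * C + d * (1 + D.Q⁻¹)) * e := by
    intro i
    let h : E d := (0, Pi.single i 1)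
    have hn : ‖h‖ ≤ 1 := norm_E_le (by simp [h]) (by simp [h, Pi.norm_single])
    have e1 := congrArg (dot f) (hx.dy h)
    rw [dot_comm, dot_single_left, dot_add_right, dot_sum_right, dot_sum_right] at e1
    simp only [dot_add_right, dot_smul_right] at e1
    have ha : T.Dx u.1 h = 0 := hx.da h
    have s1 := sum_bd (insert u.1 (ρ.N D u.1))
      (fun y => ρ.J D u.1 y * T.Dx y h * dot f (Vd 0 y)) (N := C + 1) hv.le
      (by positivity : 0 ≤ C * e) (fun y hy => by
        rcases mem_insert.1 hy with rfl | hy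
        · rw [ha, mul_zero, zero_mul, abs_zero, mul_zero]; positivity
        · exact tri (c2 y) ((b1 y hy h).trans hn)
            (((hx.fac.memN y).1 hy).elim (h1 y) fun k => (h2 y k).1) hv.le)
      (le_trans (by exact_mod_cast card_insert_le _ _) (add_le_add_left c1 1))
    have s2 := sum_bd ρ.Z
      (fun z => T.Dm z h * dot f (Vd 0 z) + ρ.mu z * T.Dx z h * dot f (Vd 1 z)) (N := d) hv.le
      (by positivity : 0 ≤ 1 * e + D.Q⁻¹ * e) (fun z hz => by
        refine (mul_le_mul_of_nonneg_left (abs_add_le _ _) hv.le).trans ?_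
        rw [mul_add]
        refine add_le_add ?_ ?_
        · have := tri (a := 1) abs_one.le ((b2 z hz h).trans hn) (h2 z hz).1 hv.le
          rwa [one_mul] at this
        · by_cases hp : ρ.Pin u.1 z
          · have : T.Dx z h = 0 := by
              rcases hp with ⟨rfl, -⟩ | ⟨rfl, -⟩
              · exact hx.d0 h
              · exact ha
            rw [this, mul_zero, zero_mul, abs_zero, mul_zero]; positivity
          · exact tri (hx.fac.abs_mu hS hz) ((b1 z (hx.fac.Z_mem hz) h).trans hn)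
              ((h2 z hz).2 hp) hv.le)
      (by exact_mod_cast hx.fac.cardZ)
    rw [e1]
    refine (mul_le_mul_of_nonneg_left (abs_add_le _ _) hv.le).trans ?_
    rw [mul_add]
    linarith
  have k2 : ‖f‖ ≤ ((C + 1) * C + d * (1 + D.Q⁻¹)) * e / v :=
    (pi_norm_le_iff_of_nonneg (by positivity)).2 fun i => by
      rw [le_div_iff₀ hv, mul_comm]; exact key i
  rw [le_div_iff₀ hv] at k2
  rw [pow_one] at ht
  refine (mul_le_mul_of_nonneg_right ht (norm_nonneg f)).trans ?_
  rw [mul_assoc, inv_mul_le_iff₀ hK]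
  linarith

end Pool.Agent.P.MP_a0f0ad_al.Fi
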