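import Pool.Agent.P.MP_a0f0ad_al.Fi.H.Iface2
import Pool.Agent.P.MP_a0f0ad_al.Fi.H.Tool

/-! Step HDI of the filiform project. -/

namespace Pool.Agent.P.MP_a0f0ad_al.Fi

open Finset MeasureTheory Polynomial Filter Topology
open scoped Classical

namespace HdiA

variable {d n : ℕ} {S : Finset (G d)} {D : LD d} {c : Ch d n} {u : E d}

theorem fA_image {x : Fin n → ℝ} (hx : Function.Injective x) (A : Finset (Fin n)) (k : ℕ) :
    fA d (A.image x) k = cf d (X ^ k * ∏ j ∈ A, (X - C (x j))) := by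
  rw [fA, wA, prod_image fun _ _ _ _ e => hx e]

/-- the derivative of the test polynomial -/
theorem tf (hFA : S_HFA) (h : c.OK D) (hu : u ∈ c.U) (A : Finset (Fin n)) (k : ℕ) :
    ∃ L : E d →L[ℝ] (Fin d → ℝ),
      HasFDerivAt (fun u => cf d (X ^ k * ∏ j ∈ A, (X - C (c.x u j)))) L u ∧
      ∀ v, L v = (c.tan u).dfA (A.image (c.x u)) k v := by
  obtain ⟨L, h1, h2⟩ := (hFA d n A k).2 (c.x u)
  refine ⟨L.comp (fderiv ℝ c.x u), h1.comp u (h.diffx u hu).hasFDerivAt, fun v => ?_⟩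
  rw [ContinuousLinearMap.comp_apply, h2, Tan.dfA, sum_image fun _ _ _ _ e => h.inj hu e]
  congr 1
  refine sum_congr rfl fun j _ => ?_
  rw [← image_erase (h.inj hu), fA_image (h.inj hu),
    ← (hasFDerivAt_pi'.1 (h.diffx u hu).hasFDerivAt j).unique (h.hx hu j)]
  rfl

theorem be_loc (hS : D.Spec S) {w : ℝ} (hw : ¬ ∃ l < D.n, w = D.th l ∨ w = -D.th l) :
    ∀ᶠ w' in 𝓝 w, D.be w' = D.be w := by
  have h1 := hS.idx_eventually (u := w) fun k hk e => hw ⟨k, hk, Or.inl e⟩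
  have h2 := hS.idx_eventually (u := -w) fun k hk e => hw ⟨k, hk, Or.inr (by linarith)⟩
  filter_upwards [h1, continuous_neg.continuousAt.eventually h2] with w' a b
  simp only [LD.be, LD.kp, a, b]

theorem lims (hS : D.Spec S) {q : Fin d → ℝ} {y : ℝ}
    (hw : ¬ ∃ l < D.n, ev q 0 y = D.th l ∨ ev q 0 y = -D.th l) :
    Function.leftLim (fun y => D.be (ev q 0 y)) y = D.be (ev q 0 y) ∧
      Function.rightLim (fun y => D.be (ev q 0 y)) y = D.be (ev q 0 y) :=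
  have k := (continuous_ev q 0).continuousAt.eventually (be_loc hS hw)
  ⟨leftLim_of_eventually (eventually_nhdsWithin_of_eventually_nhds k),
    rightLim_of_eventually (eventually_nhdsWithin_of_eventually_nhds k)⟩

theorem abs_lt (hS : D.Spec S) {w : ℝ} (hw : ∃ l < D.n, w = D.th l ∨ w = -D.th l) : |w| < D.Q := by
  obtain ⟨l, hl, e | e⟩ := hw
  · exact e ▸ _root_.abs_lt.2 (hS.thQ l hl)
  · rw [e, abs_neg]
    exact _root_.abs_lt.2 (hS.thQ l hl)

theorem jump (hJ : S_HJMP) (hS : D.Spec S) {q : Fin d → ℝ} {y : ℝ} (hy : ev q 1 y ≠ 0) :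
    Function.leftLim (fun y => D.be (ev q 0 y)) y - Function.rightLim (fun y => D.be (ev q 0 y)) y =
      -(D.Jb (ev q 0 y) * (|ev q 1 y| / ev q 1 y)) := by
  obtain ⟨l, r, h1, h2, h3⟩ := (hJ.2 d S D hS (ev q 0 y)).2.2
  obtain ⟨a, b⟩ := hJ.1 d q D.be y l r h1 h2
  rcases lt_or_gt_of_ne hy with k | k
  · rw [leftLim_of_eventually (b k).1, rightLim_of_eventually (b k).2, abs_of_neg k, neg_div,
      div_self hy, ← h3]
    ring
  · rw [leftLim_of_eventually (a k).1, rightLim_of_eventually (a k).2, abs_of_pos k,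
      div_self hy, ← h3]
    ring

end HdiA

theorem p_HDI (hHJMP : S_HJMP) (hHGAP : S_HGAP) (hHDINT : S_HDINT) (hHFA : S_HFA) :
    S_HDI := by
  intro d S D hS n c h u0 hu A k j1 j2 hj
  obtain ⟨β, hβ⟩ := (hHGAP d D n c h u0 hu).1 D.be fun w hw =>
    HdiA.be_loc hS fun e => hw (Or.inr (Or.inr e))
  obtain ⟨Lf, hf, ef⟩ := HdiA.tf hHFA h hu A k
  obtain ⟨L, hL, eL⟩ := hHDINT d n c.x (fun u y => D.be (ev (c.q u) 0 y)) _ β u0 (h.diffx u0 hu)
    hf.differentiableAt (((h.near hu).and hβ).mono fun u e => ⟨h.mono e.1, e.2⟩) j1 j2 hj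
  refine ⟨L, hL, fun hc h1 h2 Lv hLv v => ?_⟩
  have n1 := HdiA.lims hS (q := c.q u0) (y := c.x u0 j1) fun e => (HdiA.abs_lt hS e).ne h1
  have n2 := HdiA.lims hS (q := c.q u0) (y := c.x u0 j2) fun e => (HdiA.abs_lt hS e).ne h2
  have hb : ∀ j, |c.x u0 j| < 2 * D.Lam := fun j => ((h.pts hu _).2 ⟨j, rfl⟩).1
  have hy : ∀ y ∈ Lv, |y| < 2 * D.Lam ∧ ev (c.q u0) 0 y ∈ D.ThA := fun y hy =>
    have a := (hLv y).1 hy
    ⟨abs_lt.2 ⟨(abs_lt.1 (hb j1)).1.trans a.1, a.2.1.trans (abs_lt.1 (hb j2)).2⟩,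
      Or.inr (Or.inr a.2.2)⟩
  have hsub : Lv ⊆ (univ.filter fun j => j1 < j ∧ j < j2).image (c.x u0) := fun y hy' => by
    obtain ⟨j, rfl⟩ := (h.pts hu y).1 (D.mem_Pts (hy y hy').1 (hy y hy').2)
    have a := (hLv _).1 hy'
    exact mem_image_of_mem _ (mem_filter.2
      ⟨mem_univ _, (h.mono hu).lt_iff_lt.1 a.1, (h.mono hu).lt_iff_lt.1 a.2.1⟩)
  have hs : ∑ j ∈ univ.filter (fun j => j1 < j ∧ j < j2),
      (Function.leftLim (fun y => D.be (ev (c.q u0) 0 y)) (c.x u0 j) -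
        Function.rightLim (fun y => D.be (ev (c.q u0) 0 y)) (c.x u0 j)) *
        ev (fA d (A.image (c.x u0)) k) 0 (c.x u0 j) * (c.tan u0).Dx (c.x u0 j) v =
      -∑ y ∈ Lv, D.Jb (ev (c.q u0) 0 y) * (|ev (c.q u0) 1 y| / ev (c.q u0) 1 y) *
        ev (fA d (A.image (c.x u0)) k) 0 y * (c.tan u0).Dx y v := by
    rw [← sum_image (g := c.x u0) (f := fun y => (Function.leftLim (fun y => D.be (ev (c.q u0) 0 y)) y -
        Function.rightLim (fun y => D.be (ev (c.q u0) 0 y)) y) *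
        ev (fA d (A.image (c.x u0)) k) 0 y * (c.tan u0).Dx y v) fun _ _ _ _ e => h.inj hu e,
      ← sum_subset hsub, ← sum_neg_distrib]
    · refine sum_congr rfl fun y hy' => ?_
      have : ev (c.q u0) 1 y ≠ 0 := fun e =>
        (HdiA.abs_lt hS ((hLv y).1 hy').2.2).ne
          (hc.bas.abs_atom (hc.nd1 y (hy y hy').1 (hy y hy').2 e).1)
      rw [HdiA.jump hHJMP hS this]
      ring
    · intro y a b
      obtain ⟨j, hj', rfl⟩ := mem_image.1 a
      have e := (mem_filter.1 hj').2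
      have := HdiA.lims hS (q := c.q u0) (y := c.x u0 j) fun e' =>
        b ((hLv _).2 ⟨h.mono hu e.1, h.mono hu e.2, e'⟩)
      rw [this.1, this.2]
      ring
  rw [eL, hf.fderiv, ef, n1.2, n2.1, ← HdiA.fA_image (h.inj hu)]
  simp only [← h.Dx hu]
  rw [hs]
  simp only [Tan.DI, Ch.rd_q, LD.Ib]
  ring

end Pool.Agent.P.MP_a0f0ad_al.Fi
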