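import Pool.Agent.P.MP_a0f0ad_al.Fi.H.Iface2
import Pool.Agent.P.MP_a0f0ad_al.Fi.H.Tool

/-! Step HDINT of the filiform project. -/

namespace Pool.Agent.P.MP_a0f0ad_al.Fi

open Finset MeasureTheory Polynomial Filter Topology
open scoped Classical

namespace HdintA

variable {d : ℕ}

/-- the primitive -/
noncomputable def P (q : Fin d → ℝ) (y : ℝ) : ℝ :=
  ∑ l : Fin d, q l * (y ^ ((l : ℕ) + 1) / (((l : ℕ) : ℝ) + 1))

theorem hd (l : ℕ) (y : ℝ) : HasDerivAt (fun y : ℝ => y ^ (l + 1) / ((l : ℝ) + 1)) (y ^ l) y := by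
  have h := (hasDerivAt_pow (l + 1) y).div_const ((l : ℝ) + 1)
  have e : ((l + 1 : ℕ) : ℝ) * y ^ (l + 1 - 1) / (l + 1) = y ^ l := by
    push_cast
    field_simp
  rwa [e] at h

theorem ev0 (q : Fin d → ℝ) (y : ℝ) : ev q 0 y = ∑ l : Fin d, q l * y ^ (l : ℕ) := by
  simp [ev, dot, Vd]

theorem hP (q : Fin d → ℝ) (y : ℝ) : HasDerivAt (P q) (ev q 0 y) y := by
  rw [ev0]
  exact HasDerivAt.fun_sum fun l _ => (hd l y).const_mul (q l)

theorem hFD {X : Type} [NormedAddCommGroup X] [NormedSpace ℝ X] {q : X → Fin d → ℝ} {x : X → ℝ}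
    {u : X} {Dq : X →L[ℝ] (Fin d → ℝ)} {Dx : X →L[ℝ] ℝ} (hq : HasFDerivAt q Dq u)
    (hx : HasFDerivAt x Dx u) : ∃ L : X →L[ℝ] ℝ, HasFDerivAt (fun z => P (q z) (x z)) L u ∧
      ∀ h, L h = P (Dq h) (x u) + ev (q u) 0 (x u) * Dx h := by
  have h1 : ∀ l : Fin d, HasFDerivAt
      (fun z => q z l * (x z ^ ((l : ℕ) + 1) / (((l : ℕ) : ℝ) + 1))) _ u := fun l =>
    (hasFDerivAt_pi'.1 hq l).mul ((hd l (x u)).comp_hasFDerivAt u hx)
  refine ⟨_, HasFDerivAt.fun_sum fun l _ => h1 l, fun h => ?_⟩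
  rw [ev0, P, Finset.sum_mul, ← Finset.sum_add_distrib, ContinuousLinearMap.sum_apply]
  refine Finset.sum_congr rfl fun l _ => ?_
  simp
  ring

theorem gap0 {F : ℝ → ℝ} {a b β : ℝ} (hab : a < b) (h : ∀ y ∈ Set.Ioo a b, F y = β)
    (q : Fin d → ℝ) : IntervalIntegrable (fun y => F y * ev q 0 y) volume a b ∧
      ∫ y in a..b, F y * ev q 0 y = β * (P q b - P q a) := by
  have hc : Continuous fun y => β * ev q 0 y := continuous_const.mul (continuous_ev q 0)
  have hae : ∀ᵐ y ∂(volume : Measure ℝ), y ∈ Set.uIoc a b → F y * ev q 0 y = β * ev q 0 y := by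
    filter_upwards [Measure.ae_ne volume b] with y hy hm
    rw [Set.uIoc_of_le hab.le] at hm
    rw [h y ⟨hm.1, lt_of_le_of_ne hm.2 hy⟩]
  constructor
  · refine (hc.intervalIntegrable a b).congr_ae ?_
    exact ((ae_restrict_iff' measurableSet_uIoc).2 hae).mono fun y hy => hy.symm
  · rw [intervalIntegral.integral_congr_ae hae, intervalIntegral.integral_const_mul,
      intervalIntegral.integral_eq_sub_of_hasDerivAt (fun y _ => hP q y)
        ((continuous_ev q 0).intervalIntegrable a b)]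

theorem int0 {n : ℕ} {x : Fin n → ℝ} {F : ℝ → ℝ} {β : Fin n → ℝ} (hx : StrictMono x)
    (h : ∀ i j : Fin n, (j : ℕ) = i + 1 → ∀ y ∈ Set.Ioo (x i) (x j), F y = β i) (q : Fin d → ℝ)
    (i : Fin n) (r : ℕ) : ∀ j : Fin n, (j : ℕ) = i + r →
      IntervalIntegrable (fun y => F y * ev q 0 y) volume (x i) (x j) := by
  induction r with
  | zero =>
    intro j hj
    rw [Fin.ext hj]
  | succ r ih =>
    intro j hj
    have hk : (i : ℕ) + r < n := by have := j.2; omega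
    exact (ih ⟨i + r, hk⟩ rfl).trans (gap0 (hx (Fin.lt_def.2 (by simp only; omega)))
      (h ⟨i + r, hk⟩ j hj) q).1

end HdintA

open HdintA in
theorem p_HDINT :
    S_HDINT := by
  intro d n x F f β u0 hx hf hev j1 j2 hlt
  have h0 := hev.self_of_nhds
  have hxj : ∀ j, HasFDerivAt (fun u => x u j) (fderiv ℝ (fun u => x u j) u0) u0 := fun j =>
    (differentiableAt_pi.1 hx j).hasFDerivAt
  have gap : ∀ i j : Fin n, (j : ℕ) = i + 1 → ∃ L : E d →L[ℝ] ℝ,
      HasFDerivAt (fun u => ∫ y in x u i..x u j, F u y * ev (f u) 0 y) L u0 ∧ ∀ h, L h =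
        (∫ y in x u0 i..x u0 j, F u0 y * ev (fderiv ℝ f u0 h) 0 y) +
          Function.leftLim (F u0) (x u0 j) * ev (f u0) 0 (x u0 j) *
            fderiv ℝ (fun u => x u j) u0 h -
          Function.rightLim (F u0) (x u0 i) * ev (f u0) 0 (x u0 i) *
            fderiv ℝ (fun u => x u i) u0 h := by
    intro i j hij
    have hl : i < j := Fin.lt_def.2 (by omega)
    obtain ⟨L1, a1, a2⟩ := hFD hf.hasFDerivAt (hxj j)
    obtain ⟨L2, b1, b2⟩ := hFD hf.hasFDerivAt (hxj i)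
    refine ⟨β i • (L1 - L2), ((a1.sub b1).const_mul (β i)).congr_of_eventuallyEq
      (hev.mono fun u hu => (gap0 (hu.1 hl) (hu.2 i j hij) (f u)).2), fun h => ?_⟩
    rw [(gap0 (h0.1 hl) (h0.2 i j hij) _).2,
      leftLim_of_eventually (l := β i)
        (Filter.mem_of_superset (Ioo_mem_nhdsLT (h0.1 hl)) (h0.2 i j hij)),
      rightLim_of_eventually (l := β i)
        (Filter.mem_of_superset (Ioo_mem_nhdsGT (h0.1 hl)) (h0.2 i j hij)),
      ContinuousLinearMap.smul_apply, ContinuousLinearMap.sub_apply, a2, b2, smul_eq_mul]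
    ring
  obtain ⟨r, hr⟩ : ∃ r : ℕ, (j2 : ℕ) = j1 + r + 1 :=
    ⟨j2 - j1 - 1, by have := Fin.lt_def.1 hlt; omega⟩
  clear hlt
  induction r generalizing j2 with
  | zero =>
    obtain ⟨L, a1, a2⟩ := gap j1 j2 hr
    refine ⟨L, a1, fun h => ?_⟩
    rw [a2, Finset.filter_eq_empty_iff.2, Finset.sum_empty, add_zero]
    intro j _ hj
    have h1 := Fin.lt_def.1 hj.1
    have h2 := Fin.lt_def.1 hj.2
    omega
  | succ r ih =>
    have hk : (j1 : ℕ) + r + 1 < n := by have := j2.2; omega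
    obtain ⟨L1, a1, a2⟩ := ih ⟨j1 + r + 1, hk⟩ rfl
    obtain ⟨L2, b1, b2⟩ := gap ⟨j1 + r + 1, hk⟩ j2 hr
    generalize hj : (⟨j1 + r + 1, hk⟩ : Fin n) = k at a1 a2 b1 b2
    have hkv : (k : ℕ) = j1 + (r + 1) := by rw [← hj]; rfl
    refine ⟨L1 + L2, (a1.add b1).congr_of_eventuallyEq (hev.mono fun u hu =>
      (intervalIntegral.integral_add_adjacent_intervals (int0 hu.1 hu.2 _ j1 _ k hkv)
        (int0 hu.1 hu.2 _ k 1 j2 (by omega))).symm), fun h => ?_⟩
    have e : univ.filter (fun j => j1 < j ∧ j < j2) =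
        insert k (univ.filter fun j => j1 < j ∧ j < k) := by
      ext j
      simp only [Finset.mem_filter, Finset.mem_univ, true_and, Finset.mem_insert, Fin.lt_def,
        Fin.ext_iff]
      omega
    rw [ContinuousLinearMap.add_apply, a2, b2, e, Finset.sum_insert (by simp),
      ← intervalIntegral.integral_add_adjacent_intervals (int0 h0.1 h0.2 _ j1 _ k hkv)
        (int0 h0.1 h0.2 _ k 1 j2 (by omega))]
    ring

end Pool.Agent.P.MP_a0f0ad_al.Fi
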