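import Pool.Agent.P.MP_a0f0ad_al.Fi.H.Iface2
import Pool.Agent.P.MP_a0f0ad_al.Fi.H.Tool

/-! Step HDIR0 of the filiform project. -/

namespace Pool.Agent.P.MP_a0f0ad_al.Fi

open Finset MeasureTheory Polynomial Filter Topology
open scoped Classical

theorem p_HDIR0 :
    S_HDIR0 := by
  intro d S D hS ρ u T c da ν hda
  obtain ⟨h, h1, h2, h3⟩ := c.surj 0 da ν fun z hz => by
    rw [ev_zero, zero_add]
    split_ifs with e
    · rw [hda (e ▸ RD.TF_subset _ hz), mul_zero]
    · rfl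
  have hx : ∀ y, |y| < 2 * D.Lam → ev ρ.q 0 y ∈ D.ThA → T.Dx y h = 0 := by
    intro y hy hT
    by_cases e : ev ρ.q 1 y = 0
    · have := c.dk y (D.mem_Pts hy hT) 1 le_rfl e h
      rw [Tan.Dev, h1, ev_zero, zero_add] at this
      exact (mul_eq_zero.1 this).resolve_left (c.nd2 y (c.nd1 y hy hT e)).1
    · have := c.dval y hy hT h
      rw [Tan.Dev, h1, ev_zero, zero_add] at this
      exact (mul_eq_zero.1 this).resolve_left e
  have hN : ∀ y ∈ ρ.N D u.1, T.Dx y h = 0 := fun y hy =>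
    hx y (c.fac.node_lt hS hy) (c.fac.rng y hy).2.2
  refine ⟨h, h1, h2, h3, hx, (c.dy h).trans ?_⟩
  congr 1
  · rw [sum_eq_single_of_mem u.1 (mem_insert_self _ _), c.da, h2]
    intro y hy e
    rw [hN y ((mem_insert.1 hy).resolve_left e), mul_zero, zero_smul]
  · rw [← sum_subset (RD.TF_subset u.1)]
    · refine sum_congr rfl fun z hz => ?_
      rw [h3 z hz, hN z (c.fac.Z_mem (RD.TF_subset _ hz)), mul_zero, zero_smul, add_zero]
    · intro z hz hz'
      rw [RD.mem_TF, not_and, not_or] at hz'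
      have := c.dW z hz (hz' hz).1 (hz' hz).2 h
      rw [Tan.Dmq, Tan.Dev, h1, ev_zero, hN z (c.fac.Z_mem hz), mul_zero, add_zero, mul_zero,
        add_zero] at this
      rw [(mul_eq_zero.1 this).resolve_right (hz' hz).2, hN z (c.fac.Z_mem hz), mul_zero,
        zero_smul, zero_smul, add_zero]

end Pool.Agent.P.MP_a0f0ad_al.Fi
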