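import Pool.Agent.P.MP_a0f0ad_al.Fi.H.Iface2
import Pool.Agent.P.MP_a0f0ad_al.Fi.H.Tool

/-! Step HENC of the filiform project. -/

namespace Pool.Agent.P.MP_a0f0ad_al.Fi

open Finset MeasureTheory Polynomial Filter Topology
open scoped Classical

namespace HencA

variable {d : ℕ}

theorem finite_infl {q : Fin d → ℝ} (hq : Nonconst q) :
    {y | ev q 2 y = 0 ∧ ∃ x, ev q 2 x ≠ 0}.Finite ∧
      {y | ev q 2 y = 0 ∧ ∃ x, ev q 2 x ≠ 0}.ncard ≤ d := by
  by_cases h : ∃ x, ev q 2 x ≠ 0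
  · have h0 : derivative^[2] (pol q) ≠ 0 := fun e => by
      obtain ⟨x, hx⟩ := h
      exact hx (by rw [ev_eq_eval, e, eval_zero])
    have e : {y | ev q 2 y = 0 ∧ ∃ x, ev q 2 x ≠ 0} =
        {y | (derivative^[2] (pol q)).eval y = 0} := by
      ext y
      rw [Set.mem_ofPred_eq, Set.mem_ofPred_eq, ← ev_eq_eval]
      exact and_iff_left h
    rw [e]
    have h1 := zeros_card h0
    have h2 := natDegree_iterate_derivative (pol q) 2
    have h3 := hq.natDegree.2
    exact ⟨h1.1, by omega⟩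
  · have e : {y | ev q 2 y = 0 ∧ ∃ x, ev q 2 x ≠ 0} = ∅ := by
      ext y
      simp only [Set.mem_ofPred_eq, h, and_false, Set.mem_empty_iff_false]
    rw [e]
    simp

theorem exists_pts (D : LD d) {q : Fin d → ℝ} (hq : Nonconst q) (a : ℝ) :
    ∃ A : Finset ℝ, (∀ y, y ∈ A ↔ y ∈ D.Pts q a) ∧
      A.card ≤ 2 + D.finite_ThA.toFinset.card * d + d + d := by
  let B : Finset ℝ := (({0, a} : Finset ℝ) ∪
    D.finite_ThA.toFinset.biUnion fun w => (hq.finite_level w).1.toFinset) ∪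
      hq.finite_crit.1.toFinset ∪ (finite_infl hq).1.toFinset
  have hB : B.card ≤ 2 + D.finite_ThA.toFinset.card * d + d + d := by
    refine (card_union_le _ _).trans (add_le_add ((card_union_le _ _).trans (add_le_add
      ((card_union_le _ _).trans (add_le_add card_le_two ?_)) ?_)) ?_)
    · refine card_biUnion_le_card_mul _ _ d fun w _ => ?_
      have := (hq.finite_level w).2
      rw [Set.ncard_eq_toFinset_card _ (hq.finite_level w).1] at this
      omega
    · have := hq.finite_crit.2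
      rw [Set.ncard_eq_toFinset_card _ hq.finite_crit.1] at this
      omega
    · have := (finite_infl hq).2
      rwa [Set.ncard_eq_toFinset_card _ (finite_infl hq).1] at this
  refine ⟨B.filter fun y => y ∈ D.Pts q a, fun y => ⟨fun h => (mem_filter.1 h).2, fun h =>
    mem_filter.2 ⟨?_, h⟩⟩, (card_filter_le _ _).trans hB⟩
  simp only [B, mem_union, mem_insert, mem_singleton, mem_biUnion, Set.Finite.mem_toFinset,
    Set.mem_ofPred_eq]
  rcases h.2 with h | h | h | h | h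
  · exact Or.inl (Or.inl (Or.inl (Or.inl h)))
  · exact Or.inl (Or.inl (Or.inl (Or.inr h)))
  · exact Or.inl (Or.inl (Or.inr ⟨_, h, rfl⟩))
  · exact Or.inl (Or.inr h)
  · exact Or.inr h

end HencA

theorem p_HENC (hHB1 : S_HB1) (hHNRM : S_HNRM) :
    S_HENC := by
  intro d S D hS
  refine ⟨2 + D.finite_ThA.toFinset.card * d + d + d, fun ρ u hb => ?_⟩
  have hf := hHB1 d S D hS ρ u hb
  obtain ⟨A, hA, hc⟩ := HencA.exists_pts D hb.hq u.1
  let x : Fin A.card → ℝ := A.orderEmbOfFin rfl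
  have hx : StrictMono x := (A.orderEmbOfFin rfl).strictMono
  have hr : ∀ y, y ∈ D.Pts ρ.q u.1 ↔ ∃ j, x j = y := fun y => by
    rw [← hA, ← mem_coe, ← range_orderEmbOfFin A rfl]
    rfl
  have hm : ρ.m ∈ D.Pts ρ.q u.1 := by
    rcases hb.rep.1.eq_or_lt with e | e
    · rw [e]
      exact RD.zero_pts hS _ _
    · exact hf.node_pts hS (hf.endm e).2
  have hM : ρ.M ∈ D.Pts ρ.q u.1 := by
    rcases hb.rep.2.1.eq_or_lt with e | e
    · rw [← e]
      exact hf.a_pts hS hb
    · exact hf.node_pts hS (hf.endM e).2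
  have hZ : ∀ z ∈ ρ.Z, ∃ j, x j = z := fun z hz => (hr z).1 (hf.node_pts hS (hf.Z_mem hz))
  obtain ⟨jm, hjm⟩ := (hr _).1 hm
  obtain ⟨jM, hjM⟩ := (hr _).1 hM
  have e : mkrd jm jM (univ.filter fun j => x j ∈ ρ.Z) ρ.q x (fun j => ρ.muAt (x j)) = ρ.nrm := by
    have e1 : (univ.filter fun j => x j ∈ ρ.Z).image x = ρ.Z := by
      ext z
      simp only [mem_image, mem_filter, mem_univ, true_and]
      exact ⟨fun ⟨j, h1, h2⟩ => h2 ▸ h1, fun hz => by
        obtain ⟨j, hj⟩ := hZ z hz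
        exact ⟨j, hj ▸ hz, hj⟩⟩
    have e2 : (fun y => ∑ j, if x j = y then ρ.muAt (x j) else 0) = ρ.muAt := by
      funext y
      by_cases hy : ∃ j, x j = y
      · obtain ⟨j, rfl⟩ := hy
        exact sum_ite_inj hx.injective (fun j => ρ.muAt (x j)) j
      · rw [sum_eq_zero fun j _ => if_neg fun e => hy ⟨j, e⟩, RD.muAt,
          if_neg fun hz => hy (hZ y hz)]
    simp only [mkrd, RD.nrm, hjm, hjM, e1, e2]
  refine ⟨A.card, hc, jm, jM, _, x, _, ⟨hx, hr, fun j hj => ?_, ?_⟩, e⟩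
  · exact if_neg fun hz => hj (mem_filter.2 ⟨mem_univ _, hz⟩)
  · rw [e]
    exact (hHNRM d D ρ u).2.1 hb

end Pool.Agent.P.MP_a0f0ad_al.Fi
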