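import Pool.Agent.P.MP_a0f0ad_al.Fi.H.Iface2

/-! Step HFA of the filiform project. -/

namespace Pool.Agent.P.MP_a0f0ad_al.Fi

open Finset MeasureTheory Polynomial Filter Topology
open scoped Classical

namespace HfaA

theorem step {d : ℕ} (φ : ℝ[X] →ₗ[ℝ] (Fin d → ℝ)) (c : ℝ) (P : ℝ[X]) :
    φ ((X - C c) * P) = (φ.comp (LinearMap.mulLeft ℝ X)) P - c • φ P := by
  rw [sub_mul, map_sub, ← smul_eq_C_mul, map_smul]
  rfl

theorem main {d n : ℕ} (A : Finset (Fin n)) : ∀ φ : ℝ[X] →ₗ[ℝ] (Fin d → ℝ),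
    IsPM (fun x : Fin n → ℝ => φ (∏ j ∈ A, (X - C (x j)))) ∧
    ∀ x : Fin n → ℝ, ∃ L : (Fin n → ℝ) →L[ℝ] (Fin d → ℝ),
      HasFDerivAt (fun x : Fin n → ℝ => φ (∏ j ∈ A, (X - C (x j)))) L x ∧
      ∀ h, L h = -∑ j ∈ A, h j • φ (∏ i ∈ A.erase j, (X - C (x i))) := by
  induction A using Finset.induction_on with
  | empty =>
    intro φ
    simp only [prod_empty, sum_empty, neg_zero]
    exact ⟨IsPM.const _, fun x => ⟨0, hasFDerivAt_const _ _, fun _ => rfl⟩⟩
  | insert a A ha ih =>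
    intro φ
    obtain ⟨p1, d1⟩ := ih φ
    obtain ⟨p2, d2⟩ := ih (φ.comp (LinearMap.mulLeft ℝ X))
    have e : (fun x : Fin n → ℝ => φ (∏ j ∈ insert a A, (X - C (x j)))) = fun x =>
        (φ.comp (LinearMap.mulLeft ℝ X)) (∏ j ∈ A, (X - C (x j))) -
          x a • φ (∏ j ∈ A, (X - C (x j))) := by
      funext x
      rw [prod_insert ha, step]
    rw [e]
    refine ⟨p2.sub ((IsPM.apply a).smul p1), fun x => ?_⟩
    obtain ⟨L1, h1, e1⟩ := d1 x
    obtain ⟨L2, h2, e2⟩ := d2 x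
    have h3 : HasFDerivAt (fun x : Fin n → ℝ => x a)
        (ContinuousLinearMap.proj (R := ℝ) (φ := fun _ : Fin n => ℝ) a) x :=
      (ContinuousLinearMap.proj (R := ℝ) (φ := fun _ : Fin n => ℝ) a).hasFDerivAt
    refine ⟨_, h2.sub (h3.smul h1), fun h => ?_⟩
    rw [sum_insert ha, erase_insert ha]
    have e3 : ∀ j ∈ A, h j • φ (∏ i ∈ (insert a A).erase j, (X - C (x i))) =
        h j • (φ.comp (LinearMap.mulLeft ℝ X)) (∏ i ∈ A.erase j, (X - C (x i))) -
          x a • h j • φ (∏ i ∈ A.erase j, (X - C (x i))) := by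
      intro j hj
      have hne : a ≠ j := fun e => ha (e ▸ hj)
      rw [erase_insert_of_ne hne, prod_insert (fun h => ha (mem_of_mem_erase h)), step, smul_sub,
        smul_comm (h j) (x a)]
    rw [sum_congr rfl e3, sum_sub_distrib, ← smul_sum]
    simp only [ContinuousLinearMap.sub_apply, ContinuousLinearMap.add_apply,
      ContinuousLinearMap.smul_apply, ContinuousLinearMap.smulRight_apply,
      ContinuousLinearMap.proj_apply, e1, e2, smul_neg]
    abel

/-- coefficients after multiplication by a power of the variable -/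
noncomputable def cfk (d k : ℕ) : ℝ[X] →ₗ[ℝ] (Fin d → ℝ) :=
  (LinearMap.pi fun j : Fin d => lcoeff ℝ (j : ℕ)).comp (LinearMap.mulLeft ℝ (X ^ k))

theorem cfk_apply (d k : ℕ) (P : ℝ[X]) : cfk d k P = cf d (X ^ k * P) := rfl

end HfaA

theorem p_HFA :
    S_HFA := by
  intro d n A k
  simpa only [HfaA.cfk_apply] using HfaA.main A (HfaA.cfk d k)

end Pool.Agent.P.MP_a0f0ad_al.Fi
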