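import Pool.Agent.P.MP_a0f0ad_al.Fi.H.Iface2
import Pool.Agent.P.MP_a0f0ad_al.Fi.H.ToolP

/-! Step HG1 of the filiform project. -/

namespace Pool.Agent.P.MP_a0f0ad_al.Fi

open Finset MeasureTheory Polynomial Filter Topology
open scoped Classical

namespace Hg1A

variable {d : ℕ} {D : LD d} {ρ : RD d} {T : Tan d} {h : E d}

theorem DI_zero (h0 : ∀ y, |y| < 2 * D.Lam → ev ρ.q 0 y ∈ D.ThA → T.Dx y h = 0)
    {A : Finset ℝ} {k : ℕ} (hA : T.dfA A k h = 0) {s t : ℝ} (hs : |s| < 2 * D.Lam)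
    (ht : |t| < 2 * D.Lam) (hs' : |ev ρ.q 0 s| = D.Q) (ht' : |ev ρ.q 0 t| = D.Q) {L : Finset ℝ}
    (hL : D.IsLv ρ.q s t L) : T.DI ρ D A k s t L h = 0 := by
  have e : ∀ y ∈ L, T.Dx y h = 0 := fun y hy => by
    obtain ⟨h1, h2, l, hl, a⟩ := (hL y).1 hy
    refine h0 y (abs_lt.2 ⟨?_, ?_⟩) (Or.inr (Or.inr ⟨l, hl, a⟩))
    · exact (abs_lt.1 hs).1.trans h1
    · exact h2.trans (abs_lt.1 ht).2
  rw [Tan.DI, hA, LD.Ib_zero, h0 s hs (D.ThA_of_abs hs'), h0 t ht (D.ThA_of_abs ht'),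
    sum_eq_zero fun y hy => by rw [e y hy, mul_zero]]
  ring

end Hg1A

theorem p_HG1 (hHDIR0 : S_HDIR0) :
    S_HG1 := by
  refine ⟨1, fun d S D _ _ hD => ?_⟩
  obtain ⟨CV, hCV, hV⟩ := exists_Vd_bound d D.Lam
  have hC0 : 0 < CV := by linarith
  refine ⟨1 / CV, by positivity, fun ρ u T v t ctx hv _ _ _ hP => ?_⟩
  by_cases hQ : pG1 d D ρ u T t
  · exact Or.inl hQ
  refine Or.inr (Or.inr ?_)
  simp only [pG1, not_forall, not_le] at hQ
  obtain ⟨hT, σ, α, m, z, M, hσ, hC, x, hx, hG⟩ := hQ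
  have eF : ρ.TF u.1 = ρ.Z := (RD.TF_subset _).antisymm fun y hy => (hT y hy).mem_TF
  have eT : ρ.TT u.1 = ρ.Z :=
    (filter_subset _ _).antisymm fun y hy => RD.mem_TT.2 (hT y hy)
  have hc : (ρ.Z.erase x).card + 0 < d := by
    have h1 := ctx.fac.cardT
    have h2 := card_erase_le (s := ρ.Z) (a := x)
    rw [eT] at h1
    omega
  obtain ⟨h, -, h1, hm, h0, h2⟩ := hHDIR0 d S D hD ρ u T ctx 0
    (fun y => if y = x then 1 else 0) fun _ => rfl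
  rw [eF] at hm h2
  have hZ : ∀ y ∈ ρ.Z, T.Dx y h = 0 := fun y hy =>
    h0 y (ctx.fac.node_lt hD (ctx.fac.Z_mem hy)) (ctx.fac.rng y (ctx.fac.Z_mem hy)).2.2
  have hA : T.dfA (ρ.Z.erase x) 0 h = 0 := by
    rw [Tan.dfA, sum_eq_zero fun y hy => by rw [hZ y (mem_of_mem_erase hy), zero_smul], neg_zero]
  obtain ⟨L1, hL1⟩ := D.exists_isLv ctx.bas.hq α m
  obtain ⟨L2, hL2⟩ := D.exists_isLv ctx.bas.hq z M
  have c1 := hC.2.2 α (Or.inl rfl)
  have c2 := hC.2.2 m (Or.inr (Or.inl rfl))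
  have c3 := hC.2.2 z (Or.inr (Or.inr (Or.inl rfl)))
  have c4 := hC.2.2 M (Or.inr (Or.inr (Or.inr rfl)))
  have eG : T.DG ρ D σ (ρ.Z.erase x) 0 α m z M L1 L2 h = ev (fA d (ρ.Z.erase x) 0) 0 x := by
    rw [Tan.DG, Hg1A.DI_zero h0 hA c1.1 c2.1 c1.2 c2.2 hL1,
      Hg1A.DI_zero h0 hA c3.1 c4.1 c3.2 c4.2 hL2, sub_zero, mul_zero, zero_add, hA,
      sum_congr rfl (g := fun y => if y = x then ev (fA d (ρ.Z.erase x) 0) 0 y else 0)
        fun y hy => by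
          rw [hm y hy, hZ y hy, ev_zero, mul_zero, add_zero, mul_zero, add_zero, ite_mul, one_mul,
            zero_mul],
      sum_ite_eq', if_pos hx]
  have e2 : h.2 = Vd 0 x := by
    rw [h2, mul_zero, zero_smul, zero_add,
      sum_congr rfl (g := fun y => if y = x then (Vd 0 y : Fin d → ℝ) else 0)
        fun y _ => by rw [ite_smul, one_smul, zero_smul],
      sum_ite_eq', if_pos hx]
  have hxL : |x| ≤ D.Lam := by linarith [ctx.fac.abs_node (ctx.fac.Z_mem hx), hD.Lam_pos]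
  refine ⟨σ, ρ.Z.erase x, 0, α, m, z, M, L1, L2, hσ, erase_subset _ _, hc, hC, hL1, hL2, hG.le,
    Big.of_le (a := v) (B := CV) h hv (by positivity) (norm_E_le ?_ ?_) ?_ ?_⟩
  · rw [h1, abs_zero]
    exact hC0.le
  · rw [e2]
    exact (hV 0 x hxL).1
  · rw [eG, ev_fA0 hc, pow_zero, one_mul, abs_eval_erase, ← eF]
    exact hP x (eF ▸ hx)
  · rw [pow_one]
    exact le_of_eq (by field_simp)

end Pool.Agent.P.MP_a0f0ad_al.Fi
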