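import Pool.Agent.P.MP_a0f0ad_al.Fi.H.Iface2
import Pool.Agent.P.MP_a0f0ad_al.Fi.T.Iface
import Pool.Agent.P.MP_a0f0ad_al.Fi.H.Tool
import Pool.Agent.P.MP_a0f0ad_al.Fi.H.ToolP

/-! Step HG2 of the filiform project. -/

namespace Pool.Agent.P.MP_a0f0ad_al.Fi

open Finset MeasureTheory Polynomial Filter Topology
open scoped Classical

namespace Hg2A

variable {d : ℕ}

/-- expansion in the test polynomials and the Lagrange basis -/
theorem dec {R : ℝ} (hR : 2 ≤ R) {Z : Finset ℝ} (hZ : ∀ z ∈ Z, |z| ≤ R / 2) (hd : Z.card < d)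
    (f : Fin d → ℝ) : ∃ a : ℕ → ℝ, (∀ k, |a k| ≤ d * R ^ d * ‖f‖) ∧
      f = ∑ k ∈ range (d - Z.card), a k • fA d Z k +
        ∑ x ∈ Z, (ev f 0 x / (wA (Z.erase x)).eval x) • fA d (Z.erase x) 0 := by
  obtain ⟨U, V, h1, h2, h3, -⟩ := exists_div_wA hR hZ (pol f)
  have hR1 : 1 ≤ R := by linarith
  refine ⟨fun k => U.coeff k,
    fun k => (norm_coeff_le hR1 U k).trans (h3.trans (nr_pol_le hR1 f)), ?_⟩
  have hU : U.natDegree < d - Z.card := by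
    by_cases h0 : U = 0
    · rw [h0, natDegree_zero]; omega
    have e : wA Z * U = pol f - V := by rw [h1, add_sub_cancel_right]
    have e2 : (wA Z * U).degree < d := by
      rw [e]
      exact (degree_sub_le _ _).trans_lt (max_lt (degree_pol_lt f)
        (h2.trans (by exact_mod_cast hd)))
    have e3 := (natDegree_lt_iff_degree_lt (mul_ne_zero (wA_monic Z).ne_zero h0)).2 e2
    rw [(wA_monic Z).natDegree_mul' h0, natDegree_wA] at e3
    omega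
  have hV : V = ∑ x ∈ Z, C (ev f 0 x / (wA (Z.erase x)).eval x) * (X ^ 0 * wA (Z.erase x)) := by
    refine eq_of_degrees_lt_of_eval_finset_eq Z h2 ?_ fun y hy => ?_
    · refine (degree_sum_le _ _).trans_lt ((Finset.sup_lt_iff (WithBot.bot_lt_coe _)).2
        fun x hx => ?_)
      rw [C_mul']
      refine (degree_smul_le _ _).trans_lt (degree_fA _ _ ?_)
      rw [card_erase_of_mem hx]
      have := card_pos.2 ⟨x, hx⟩
      omega
    · rw [eval_finsetSum, sum_eq_single_of_mem y hy fun x _ hxy => by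
        rw [eval_mul, eval_mul, eval_wA_eq_zero.2 (mem_erase.2 ⟨hxy.symm, hy⟩), mul_zero,
          mul_zero]]
      rw [pow_zero, one_mul, eval_mul, eval_C, div_mul_cancel₀ _ (eval_erase_ne Z y), ev0, h1,
        eval_add, eval_mul, eval_wA_eq_zero.2 hy, zero_mul, zero_add]
  have hW : wA Z * U = ∑ k ∈ range (d - Z.card), C (U.coeff k) * (X ^ k * wA Z) := by
    conv_lhs => rw [as_sum_range_C_mul_X_pow' U hU]
    rw [mul_sum]
    exact sum_congr rfl fun k _ => by ring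
  funext j
  have e := congrFun (cf_pol f) j
  rw [h1, hW, hV] at e
  rw [← e]
  simp only [cf, fA, coeff_add, finsetSum_coeff, coeff_C_mul, Pi.add_apply, Finset.sum_apply,
    Pi.smul_apply, smul_eq_mul]

/-- a functional that is small on the test polynomials is small -/
theorem small {R : ℝ} (hR : 2 ≤ R) {Z : Finset ℝ} (hZ : ∀ z ∈ Z, |z| ≤ R / 2) (hd : Z.card < d)
    (L : (Fin d → ℝ) →ₗ[ℝ] ℝ) {t : ℝ} (ht : 0 ≤ t)
    (h : ∀ k, Z.card + k < d → |L (fA d Z k)| ≤ t) (f : Fin d → ℝ)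
    (h0 : ∀ x ∈ Z, ev f 0 x = 0 ∨ L (fA d (Z.erase x) 0) = 0) :
    |L f| ≤ d * (d * R ^ d) * ‖f‖ * t := by
  obtain ⟨a, ha, e⟩ := dec hR hZ hd f
  have e2 : L f = ∑ k ∈ range (d - Z.card), a k * L (fA d Z k) := by
    conv_lhs => rw [e]
    rw [map_add, map_sum, map_sum, sum_eq_zero (s := Z) fun x hx => by
      rcases h0 x hx with k | k <;> simp [k], add_zero]
    simp only [map_smul, smul_eq_mul]
  have hR0 : 0 ≤ R := by linarith
  rw [e2]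
  refine (abs_sum_le_sum_abs _ _).trans ((sum_le_card_nsmul _ _ (d * R ^ d * ‖f‖ * t)
    fun k hk => ?_).trans ?_)
  · rw [abs_mul]
    exact mul_le_mul (ha k) (h k (by have := mem_range.1 hk; omega)) (abs_nonneg _)
      (by positivity)
  · rw [card_range, nsmul_eq_mul]
    calc _ ≤ (d : ℝ) * (d * R ^ d * ‖f‖ * t) :=
          mul_le_mul_of_nonneg_right (by exact_mod_cast Nat.sub_le _ _) (by positivity)
      _ = _ := by ring

theorem exists_hess (D : LD d) (q : Fin d → ℝ) (α M : ℝ) (L1 L2 Z : Finset ℝ) (ν : ℝ → ℝ)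
    (g : Fin d → ℝ) : ∃ L : (Fin d → ℝ) →ₗ[ℝ] ℝ, ∀ f, L f = hess D q α M L1 L2 Z ν f g :=
  ⟨⟨⟨fun f => hess D q α M L1 L2 Z ν f g, fun f f' => by
      simp only [hess, ev_add, add_mul, mul_add, add_div, sum_add_distrib]; ring⟩, fun c f => by
      have key : ∀ a x y t : ℝ, a * (c * x * y) / t = c * (a * (x * y) / t) :=
        fun a x y t => by ring
      simp only [hess, ev_smul, key, ← mul_sum, RingHom.id_apply, smul_eq_mul]; ring⟩,
    fun _ => rfl⟩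

theorem exists_rho {S : Finset (G d)} {D : LD d} (hD : D.Spec S) (q : Fin d → ℝ) (α m z M : ℝ)
    (Z : Finset ℝ) (ν : ℝ → ℝ) :
    ∃ L : (Fin d → ℝ) →ₗ[ℝ] ℝ, ∀ f, L f = rhoF D q α m z M Z ν f :=
  ⟨⟨⟨fun f => rhoF D q α m z M Z ν f, fun f f' => by
      simp only [rhoF, hD.Ib_add, ev_add, mul_add, sum_add_distrib]; ring⟩, fun c f => by
      simp only [rhoF, LD.Ib_smul, ev_smul, mul_left_comm _ c, ← mul_sum, RingHom.id_apply,
        smul_eq_mul]; ring⟩, fun _ => rfl⟩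

theorem ev_sum {ι : Type} (s : Finset ι) (F : ι → Fin d → ℝ) (k : ℕ) (x : ℝ) :
    ev (∑ i ∈ s, F i) k x = ∑ i ∈ s, ev (F i) k x := by
  simp only [ev, dot_comm _ (Vd k x), dot_sum_right]

theorem ev_dfA (T : Tan d) {Z : Finset ℝ} {k : ℕ} (hk : Z.card + k < d) (h : E d) {x : ℝ}
    (hx : x ∈ Z) : ev (T.dfA Z k h) 0 x = -(ev (fA d Z k) 1 x * T.Dx x h) := by
  have hc : ∀ y, (Z.erase y).card + k < d := fun y =>
    lt_of_le_of_lt (Nat.add_le_add_right card_erase_le k) hk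
  rw [Tan.dfA, ev_neg, ev_sum, sum_eq_single_of_mem x hx fun y _ hy => by
    rw [ev_smul, ev_fA0 (hc y), eval_wA_eq_zero.2 (mem_erase.2 ⟨hy.symm, hx⟩), mul_zero,
      mul_zero], ev_smul, ev_fA0 (hc x), ev_fA1 hk hx, mul_comm]

theorem lev (J a f g : ℝ) : J * (|a| / a) * f * (0 - g / a) = -(J * (f * g) / |a|) := by
  rcases lt_trichotomy a 0 with h | h | h
  · have := h.ne
    rw [abs_of_neg h]; field_simp; ring
  · simp [h]
  · rw [abs_of_pos h]; field_simp; ring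

end Hg2A

open Hg2A in
theorem p_HG2 (hTCP : S_TCP) (hHDIRX : S_HDIRX) :
    S_HG2 := by
  obtain ⟨k0, -, hT⟩ := hTCP
  refine ⟨k0 + 2, fun d S D hd6 hev hD => ?_⟩
  by_cases h0 : D.om D.Q = 0
  swap
  · exact ⟨1, one_pos, fun _ _ _ _ _ _ _ _ _ _ _ => Or.inl fun h => absurd h h0⟩
  obtain ⟨c0, hc0, hT⟩ := hT d S D hev hD h0
  obtain ⟨CX, hCX, hX⟩ := hHDIRX d S D hD
  obtain ⟨CV, hCV, hV⟩ := exists_Vd_bound d D.Lam
  have hL := hD.Lam_pos
  have d0 : (0 : ℝ) < d := by exact_mod_cast (by omega : 0 < d)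
  have CV0 : 0 < CV := one_pos.trans_le hCV
  obtain ⟨R, hR⟩ : ∃ R, R = 2 * D.Lam + 2 := ⟨_, rfl⟩
  have R2 : 2 ≤ R := by linarith
  have R0 : 0 < R := by linarith
  obtain ⟨C1, hC1⟩ : ∃ C1, C1 = (d : ℝ) * (d * R ^ d) := ⟨_, rfl⟩
  obtain ⟨C2, hC2⟩ : ∃ C2, C2 = (d : ℝ) * (CV * (2 * R) ^ d) := ⟨_, rfl⟩
  have C10 : 0 < C1 := by rw [hC1]; positivity
  have C20 : 0 < C2 := by rw [hC2]; positivity
  obtain ⟨W, hW⟩ : ∃ W, W = C1 * C2 + CX * CV + 1 := ⟨_, rfl⟩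
  have W0 : 0 < W := by rw [hW]; positivity
  refine ⟨c0 / (4 * C1 * W), by positivity, ?_⟩
  rintro ρ u T v t hc hv hv1 ht htc ⟨⟨-, -, s3, s4⟩, ⟨th1, th2⟩, r1, r2⟩
  obtain ⟨p, hp⟩ : ∃ p, p = c0 / (4 * C1 * W) * v ^ k0 := ⟨_, rfl⟩
  have p0 : 0 < p := by rw [hp]; positivity
  have e1 : c0 / (4 * C1 * W) * v ^ (k0 + 2) = p * v ^ 2 := by rw [hp]; ring
  have e2 : c0 * v ^ k0 = 4 * C1 * W * p := by rw [hp]; field_simp
  rw [e1] at htc ⊢
  rw [or_iff_not_imp_left]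
  intro hn
  refine Or.inr ?_
  simp only [pG2, not_forall, not_exists, not_and, not_le] at hn
  obtain ⟨-, α, m, z, M, hα, αm, mz, zM, hM, feas, qα, qM, mZ, zZ, hZ, hlen, hcard, hn⟩ := hn
  have hb := hc.bas
  have v2 : v ^ 2 ≤ v := by nlinarith
  have tp : t ≤ p * v := htc.trans (mul_le_mul_of_nonneg_left v2 p0.le)
  have tp' : t ≤ p := tp.trans (mul_le_of_le_one_right p0.le hv1)
  have win : ∀ y, α ≤ y → y ≤ M → |y| ≤ D.Lam := fun y a b => abs_le.2 ⟨hα.trans a, b.trans hM⟩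
  have win2 : ∀ y, α ≤ y → y ≤ M → |y| < 2 * D.Lam := fun y a b => by linarith [win y a b]
  have hZw : ∀ x ∈ ρ.Z, |x| ≤ D.Lam := fun x hx =>
    win x (αm.le.trans (hZ x hx).2.1) ((hZ x hx).2.2.trans zM.le)
  have hZR : ∀ x ∈ ρ.Z, |x| ≤ R / 2 := fun x hx => by linarith [hZw x hx]
  have nT : ∀ y, y < m ∨ z < y → ¬ ρ.IsT u.1 y := fun y hy k =>
    hy.elim (fun a => not_le.2 a (hZ y k.1).2.1) fun a => not_le.2 a (hZ y k.1).2.2
  have αM : α ≤ M := (αm.trans (mz.trans zM)).le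
  obtain ⟨L1, hL1⟩ := D.exists_isLv hb.hq α m
  obtain ⟨L2, hL2⟩ := D.exists_isLv hb.hq z M
  obtain ⟨ν, hν⟩ : ∃ ν : ℝ → ℝ, ∀ x, ν x =
      -D.Phi ρ.q (fA d (ρ.Z.erase x) 0) α m z M / (wA (ρ.Z.erase x)).eval x := ⟨_, fun _ => rfl⟩
  obtain ⟨Lr, hLr⟩ := exists_rho hD ρ.q α m z M ρ.Z ν
  have f0 : ∀ k, ρ.Z.card + k < d → ∀ x ∈ ρ.Z, ev (fA d ρ.Z k) 0 x = 0 := fun k hk x hx => by
    rw [ev_fA0 hk, eval_wA_eq_zero.2 hx, mul_zero]
  have hrho : ∀ f, |rhoF D ρ.q α m z M ρ.Z ν f| ≤ C1 * ‖f‖ * t := fun f => by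
    rw [← hLr, hC1]
    refine small R2 hZR (by omega) Lr ht.le (fun k hk => ?_) f fun x hx => Or.inr ?_
    · rw [hLr, rhoF, sum_eq_zero fun x hx => by rw [f0 k hk x hx, mul_zero], add_zero]
      exact (hn k hk).le
    · have hk : (ρ.Z.erase x).card + 0 < d := lt_of_le_of_lt card_erase_le (by omega)
      rw [hLr, rhoF, sum_eq_single_of_mem x hx fun y hy hyx => by
        rw [ev_fA0 hk, eval_wA_eq_zero.2 (mem_erase.2 ⟨hyx, hy⟩), mul_zero, mul_zero],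
        ev_fA0 hk, pow_zero, one_mul, hν, div_mul_cancel₀ _ (eval_erase_ne _ _)]
      exact add_neg_cancel _
  have w1 : C1 * C2 ≤ W := by rw [hW]; linarith [mul_pos hCX CV0]
  have w2 : CX * CV ≤ W := by rw [hW]; linarith [mul_pos C10 C20]
  have w3 : 1 ≤ W := by rw [hW]; linarith [mul_pos C10 C20, mul_pos hCX CV0]
  rcases hT v α m z M ρ.q ρ.Z L1 L2 ν hv hv1 hα αm mz zM hM feas qα qM mZ zZ
    (fun x hx => ⟨(hZ x hx).2.1, (hZ x hx).2.2, hb.abs_atom hx, (hZ x hx).1.2.2,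
      (r1 x (hZ x hx).1).2.2.2⟩)
    (fun x hx w hw k => (r2 x hx w hw k).imp id fun ⟨y, a, b⟩ => ⟨y, a.1, b⟩) s4
    (s3.trans (pow_le_pow_left₀ (sub_nonneg.2 hb.rep.2.2.1.le) hlen d))
    (fun k => nT α (Or.inl αm) (hc.nd1 α (win2 α le_rfl αM) (D.ThA_of_abs qα) k))
    (fun k => nT M (Or.inr zM) (hc.nd1 M (win2 M αM le_rfl) (D.ThA_of_abs qM) k))
    hL1 hL2 hcard with ⟨f, f1, f2⟩ | ⟨f, g, f1, g1, fg, f2⟩
  · exfalso
    have a1 : C1 * ‖f‖ * t ≤ C1 * 1 * (W * p) := by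
      have : t ≤ W * p := tp'.trans (le_mul_of_one_le_left p0.le w3)
      gcongr
    have a2 : 0 < C1 * W * p := by positivity
    linarith only [a1, a2, f2, e2, hrho f]
  obtain ⟨Lh, hLh⟩ := exists_hess D ρ.q α M L1 L2 ρ.Z ν g
  obtain ⟨k, hk, hk2⟩ : ∃ k, ρ.Z.card + k < d ∧ 2 * W * p < |Lh (fA d ρ.Z k)| := by
    by_contra hx
    simp only [not_exists, not_and, not_lt] at hx
    have a1 := small R2 hZR (by omega) Lh (by positivity) hx f fun x hx => Or.inl (fg x hx).1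
    rw [hLh, ← hC1] at a1
    have a2 : C1 * ‖f‖ * (2 * W * p) ≤ C1 * 1 * (2 * W * p) := by gcongr
    have a3 : 0 < C1 * W * p := by positivity
    linarith only [a1, a2, a3, f2, e2]
  have hg : ∀ i x, |x| ≤ D.Lam → |ev g i x| ≤ CV := fun i x hx =>
    ((hV i x hx).2 g).trans (mul_le_of_le_one_right CV0.le g1)
  have hB : ∀ y, v ≤ y → CV ≤ CV / v * y := fun y hy => by
    calc CV = CV / v * v := by field_simp
      _ ≤ _ := by gcongr
  obtain ⟨h, c1, -, x0, -, -, x1, x2, x3, x4⟩ := hX ρ u T v (CV / v) g ∅ hc hv hv1 s4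
    (g1.trans (hCV.trans (by simpa using hB 1 hv1))) (by simp)
    (fun y hy => ⟨(fg y hy.1).2, (hg 1 y (hZw y hy.1)).trans (hB _ (th2 y hy))⟩)
    fun y hy _ k => (hg 0 y (by linarith [hc.fac.abs_node hy])).trans (hB _ (th1 y hy k))
  obtain rfl : c1 = 0 := x0 fun k => (hc.nd2 0 (hZ 0 k).1).2.1 rfl
  rw [sum_empty, add_zero] at x4
  have hh : ‖h‖ ≤ CX * (CV / v) / v :=
    norm_E_le ((le_div_iff₀' hv).2 x3) ((le_div_iff₀' hv).2 x4)
  have hdf : ‖T.dfA ρ.Z k h‖ ≤ C2 / v := by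
    rw [Tan.dfA, norm_neg]
    refine (norm_sum_le _ _).trans ((sum_le_card_nsmul _ _ (CV / v * (2 * R) ^ d)
      fun x hx => ?_).trans ?_)
    · rw [norm_smul, x2 x (hZ x hx).1, zero_sub, norm_neg, Real.norm_eq_abs, abs_div]
      refine mul_le_mul (div_le_div₀ CV0.le (hg 1 x (hZw x hx)) hv (th2 x (hZ x hx).1))
        (norm_fA_le (by linarith) (fun y hy => ?_) ?_) (norm_nonneg _) (by positivity)
      · linarith [hZR y (mem_of_mem_erase hy)]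
      · exact (Nat.add_le_add_right card_erase_le k).trans hk.le
    · rw [nsmul_eq_mul, hC2]
      calc _ ≤ (d : ℝ) * (CV / v * (2 * R) ^ d) :=
            mul_le_mul_of_nonneg_right (by exact_mod_cast (by omega : ρ.Z.card ≤ d))
              (by positivity)
        _ = _ := by ring
  have key : T.DG ρ D 1 ρ.Z k α m z M L1 L2 h =
      rhoF D ρ.q α m z M ρ.Z ν (T.dfA ρ.Z k h) - hess D ρ.q α M L1 L2 ρ.Z ν (fA d ρ.Z k) g := by
    have b1 : ∀ (L : Finset ℝ) (s s' : ℝ), D.IsLv ρ.q s s' L → α ≤ s → s' ≤ M →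
        (s' ≤ m ∨ z ≤ s) → ∑ y ∈ L, D.Jb (ev ρ.q 0 y) * (|ev ρ.q 1 y| / ev ρ.q 1 y) *
          ev (fA d ρ.Z k) 0 y * T.Dx y h =
        -∑ y ∈ L, D.Jb (ev ρ.q 0 y) * (ev (fA d ρ.Z k) 0 y * ev g 0 y) / |ev ρ.q 1 y| := by
      intro L s s' a b b' e
      rw [← sum_neg_distrib]
      refine sum_congr rfl fun y hy => ?_
      obtain ⟨y1, y2, y3⟩ := (a y).1 hy
      rw [x1 y (win2 y (b.trans y1.le) (y2.le.trans b')) (Or.inr (Or.inr y3))
        (nT y (e.imp y2.trans_le fun e => e.trans_lt y1)), lev]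
    have b2 : ∑ x ∈ ρ.Z, (T.Dm x h * ev (fA d ρ.Z k) 0 x + ρ.mu x *
        (ev (T.dfA ρ.Z k h) 0 x + ev (fA d ρ.Z k) 1 x * T.Dx x h)) = 0 :=
      sum_eq_zero fun x hx => by rw [f0 k hk x hx, ev_dfA T hk h hx]; ring
    have b3 : ∑ x ∈ ρ.Z, ν x * ev (T.dfA ρ.Z k h) 0 x =
        ∑ x ∈ ρ.Z, ν x * (ev (fA d ρ.Z k) 1 x * ev g 1 x) / ev ρ.q 2 x :=
      sum_congr rfl fun x hx => by rw [ev_dfA T hk h hx, x2 x (hZ x hx).1]; ring
    rw [Tan.DG, Tan.DI, Tan.DI, b2, b1 L1 α m hL1 le_rfl (mz.trans zM).le (Or.inl le_rfl),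
      b1 L2 z M hL2 (αm.trans mz).le le_rfl (Or.inr le_rfl), rhoF, hess, b3, f0 k hk m mZ,
      f0 k hk z zZ, x1 α (win2 α le_rfl αM) (D.ThA_of_abs qα) (nT α (Or.inl αm)),
      x1 M (win2 M αM le_rfl) (D.ThA_of_abs qM) (nT M (Or.inr zM))]
    ring
  refine ⟨1, ρ.Z, k, α, m, z, M, L1, L2, Or.inl rfl, Subset.rfl, hk, ⟨αm, zM, ?_⟩, hL1, hL2, ?_,
    Big.of_le h (a := W * p) (by positivity) (by positivity) hh ?_ ?_⟩
  · rintro y (rfl | rfl | rfl | rfl)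
    · exact ⟨win2 _ le_rfl αM, qα⟩
    · exact ⟨win2 _ αm.le (mz.trans zM).le, hb.abs_atom mZ⟩
    · exact ⟨win2 _ (αm.trans mz).le zM.le, hb.abs_atom zZ⟩
    · exact ⟨win2 _ αM le_rfl, qM⟩
  · rw [RD.GG, one_mul, sum_eq_zero fun x hx => by rw [f0 k hk x hx, mul_zero], add_zero]
    exact (hn k hk).le
  · have a1 : C1 * ‖T.dfA ρ.Z k h‖ * t ≤ W * p :=
      calc _ ≤ C1 * (C2 / v) * (p * v) := by gcongr
        _ = C1 * C2 * p := by field_simp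
        _ ≤ _ := by gcongr
    have a2 := abs_sub_abs_le_abs_sub (hess D ρ.q α M L1 L2 ρ.Z ν (fA d ρ.Z k) g)
      (rhoF D ρ.q α m z M ρ.Z ν (T.dfA ρ.Z k h))
    rw [abs_sub_comm, ← key] at a2
    rw [hLh] at hk2
    linarith only [a1, a2, hk2, hrho (T.dfA ρ.Z k h)]
  · calc _ = CX * CV * p := by field_simp
      _ ≤ _ := by gcongr

end Pool.Agent.P.MP_a0f0ad_al.Fi
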