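import Pool.Agent.P.MP_a0f0ad_al.Fi.H.Iface2
import Pool.Agent.P.MP_a0f0ad_al.Fi.H.ToolP

/-! Step HG6L of the filiform project. -/

namespace Pool.Agent.P.MP_a0f0ad_al.Fi

open Finset MeasureTheory Polynomial Filter Topology
open scoped Classical

namespace Hg6lA

variable {d : ℕ} {S : Finset (G d)} {D : LD d} {ρ : RD d} {u : E d}

theorem GG_smul (σ c : ℝ) (f : Fin d → ℝ) (α m z M : ℝ) :
    ρ.GG D σ (c • f) α m z M = c * ρ.GG D σ f α m z M := by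
  simp only [RD.GG, LD.Phi, LD.Ib_smul, ev_smul, mul_add, mul_sum]
  congr 1
  · ring
  · exact sum_congr rfl fun x _ => by ring

/-- normalisation of a test polynomial -/
theorem scale {σ α m z M v C0 : ℝ} {f0 : Fin d → ℝ} (hC : 0 < C0) (h1 : ‖f0‖ ≤ C0)
    (h2 : v ≤ |ρ.GG D σ f0 α m z M|) (P : ℝ → Prop)
    (h3 : ∀ x, P x → ρ.GG D σ f0 α m z M * (ev f0 0 x * ev ρ.q 0 x) ≤ 0) (hv : 0 < v) :
    ∃ f : Fin d → ℝ, ‖f‖ ≤ 1 ∧ (∀ x, P x → ev f 0 x * ev ρ.q 0 x ≤ 0) ∧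
      v / C0 ≤ ρ.GG D σ f α m z M := by
  set g := ρ.GG D σ f0 α m z M with hg
  have g0 : 0 < |g| := hv.trans_le h2
  refine ⟨(g / (|g| * C0)) • f0, ?_, fun x hx => ?_, ?_⟩
  · rw [norm_smul, Real.norm_eq_abs, abs_div, abs_mul, abs_abs, abs_of_pos hC,
      div_mul_eq_mul_div, div_le_one (by positivity)]
    exact mul_le_mul_of_nonneg_left h1 g0.le
  · rw [ev_smul, mul_assoc, div_mul_eq_mul_div]
    exact div_nonpos_of_nonpos_of_nonneg (h3 x hx) (by positivity)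
  · rw [GG_smul, ← hg, div_mul_eq_mul_div, ← abs_mul_abs_self, mul_div_mul_left _ _ g0.ne']
    exact div_le_div_of_nonneg_right h2 hC.le

theorem sum_erase {x : ℝ} (hx : x ∈ ρ.Z) (hd : (ρ.Z.erase x).card + 0 < d) :
    ∑ y ∈ ρ.Z, ρ.mu y * ev (fA d (ρ.Z.erase x) 0) 0 y =
      ρ.mu x * ev (fA d (ρ.Z.erase x) 0) 0 x := by
  refine sum_eq_single_of_mem x hx fun y hy hyx => ?_
  rw [ev_fA0 hd, eval_wA_eq_zero.2 (mem_erase.2 ⟨hyx, hy⟩), mul_zero, mul_zero]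

/-- the common core of the two competitions -/
theorem core (hHCHP : S_HCHP) (hev : Even d) (hS : D.Spec S) {T : Tan d} {v σ α m z M : ℝ}
    (hc : Ctx D ρ u T) (hv : 0 < v) (h1 : pG1 d D ρ u T v) (h2 : pG2 d D ρ u T v)
    (hσ : σ = 1 ∨ σ = -1) (h0 : D.om D.Q = 0) (hT : ∀ x ∈ ρ.Z, ρ.IsT u.1 x)
    (a1 : -D.Lam ≤ α) (a2 : α < m) (a3 : m < z) (a4 : z < M) (a5 : M ≤ D.Lam)
    (hF : D.Feas ρ.q α M) (qα : |ev ρ.q 0 α| = D.Q) (qM : |ev ρ.q 0 M| = D.Q)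
    (hm : m ∈ ρ.Z) (hz : z ∈ ρ.Z) (hl : ρ.M - ρ.m ≤ M - α) :
    (∃ f : Fin d → ℝ, ‖f‖ ≤ 1 ∧ (∀ x, (x ∈ ρ.Z ∧ m ≤ x ∧ x ≤ z) → ev f 0 x * ev ρ.q 0 x ≤ 0) ∧
      v / (2 * (D.Lam + 1)) ^ d ≤ ρ.GG D σ f α m z M) ∨
    (ρ.Z.card + 2 = d ∧ (∀ x ∈ ρ.Z, m ≤ x ∧ x ≤ z) ∧
      (∫ x in α..m, D.om (ev ρ.q 0 x)) = (∫ x in z..M, D.om (ev ρ.q 0 x)) ∧
      ∃ μ1 : ℝ → ℝ, (∀ x ∈ ρ.Z, 0 < μ1 x * ev ρ.q 0 x) ∧
        ∀ f : Fin d → ℝ, -σ * D.Phi ρ.q f α m z M = ∑ x ∈ ρ.Z, (ρ.mu x - μ1 x) * ev f 0 x) := by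
  have hL := hS.Lam_pos
  have hfac := hc.fac
  have hR : (1 : ℝ) ≤ D.Lam + 1 := by linarith
  have hC : (0 : ℝ) < (2 * (D.Lam + 1)) ^ d := by positivity
  have hZR : ∀ x ∈ ρ.Z, |x| ≤ D.Lam + 1 := fun x hx => by
    linarith [hfac.abs_node (hfac.Z_mem hx)]
  have hcard : ρ.Z.card + 2 ≤ d := by
    have e : ρ.TT u.1 = ρ.Z := filter_true_of_mem hT
    have := hfac.cardT
    rwa [e] at this
  have her : ∀ x, (ρ.Z.erase x).card + 0 < d := fun x => by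
    have := card_erase_le (s := ρ.Z) (a := x)
    omega
  have hn : ∀ x, ‖fA d (ρ.Z.erase x) 0‖ ≤ (2 * (D.Lam + 1)) ^ d := fun x =>
    norm_fA_le hR (fun y hy => hZR y (mem_of_mem_erase hy)) (her x).le
  have cfg : D.Cfg ρ.q α m z M := by
    refine ⟨a2, a4, ?_⟩
    rintro y (rfl | rfl | rfl | rfl)
    · exact ⟨abs_lt.2 ⟨by linarith, by linarith⟩, qα⟩
    · exact ⟨abs_lt.2 ⟨by linarith, by linarith⟩, hc.bas.abs_atom hm⟩
    · exact ⟨abs_lt.2 ⟨by linarith, by linarith⟩, hc.bas.abs_atom hz⟩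
    · exact ⟨abs_lt.2 ⟨by linarith, by linarith⟩, qM⟩
  have g1 := h1 hT σ α m z M hσ cfg
  have van : ∀ x y, y ∈ ρ.Z → y ≠ x → ev (fA d (ρ.Z.erase x) 0) 0 y = 0 := fun x y hy hyx => by
    rw [ev_fA0 (her x), eval_wA_eq_zero.2 (mem_erase.2 ⟨hyx, hy⟩), mul_zero]
  by_cases c1 : ∀ x ∈ ρ.Z, m ≤ x ∧ x ≤ z
  swap
  · push Not at c1
    obtain ⟨z1, hz1, c1⟩ := c1
    refine Or.inl (scale hC (hn z1) (g1 z1 hz1) _ (fun x hx => ?_) hv)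
    have : x ≠ z1 := by
      rintro rfl
      exact absurd (c1 hx.2.1) (not_lt.2 hx.2.2)
    rw [van z1 x hx.1 this, zero_mul, mul_zero]
  rcases hcard.lt_or_eq with c2 | c2
  · obtain ⟨k, hk, g2⟩ := h2 h0 α m z M a1 a2 a3 a4 a5 hF qα qM hm hz
      (fun x hx => ⟨hT x hx, c1 x hx⟩) hl c2
    have van2 : ∀ y ∈ ρ.Z, ev (fA d ρ.Z k) 0 y = 0 := fun y hy => by
      rw [ev_fA0 hk, eval_wA_eq_zero.2 hy, mul_zero]
    refine Or.inl (scale (f0 := fA d ρ.Z k) hC (norm_fA_le hR hZR hk.le) ?_ _ (fun x hx => ?_) hv)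
    · rw [RD.GG, sum_eq_zero fun y hy => by rw [van2 y hy, mul_zero], add_zero, abs_mul]
      rcases hσ with rfl | rfl <;> simpa using g2
    · rw [van2 x hx.1, zero_mul, mul_zero]
  have P0 : ∀ x, ev (fA d (ρ.Z.erase x) 0) 0 x ≠ 0 := fun x => by
    rw [ev_fA0 (her x), pow_zero, one_mul]
    exact eval_erase_ne _ _
  by_cases c3 : ∃ x ∈ ρ.Z, ρ.GG D σ (fA d (ρ.Z.erase x) 0) α m z M *
      (ev (fA d (ρ.Z.erase x) 0) 0 x * ev ρ.q 0 x) ≤ 0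
  · obtain ⟨x, hx, c3⟩ := c3
    refine Or.inl (scale hC (hn x) (g1 x hx) _ (fun y hy => ?_) hv)
    by_cases e : y = x
    · rw [e]; exact c3
    · rw [van x y hy.1 e, zero_mul, mul_zero]
  push Not at c3
  obtain ⟨i1, i2⟩ := hHCHP d S D hev hS h0 ρ.q α m z M ρ.Z hc.bas.hq a2 a4 hF qα qM hm hz c2
    (fun x hx => ⟨(c1 x hx).1, (c1 x hx).2, hc.bas.abs_atom hx, (hT x hx).2.2⟩)
  refine Or.inr ⟨c2, c1, i1, fun x => ρ.GG D σ (fA d (ρ.Z.erase x) 0) α m z M /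
    ev (fA d (ρ.Z.erase x) 0) 0 x, fun x hx => ?_, fun f => ?_⟩
  · have := div_pos (c3 x hx) (mul_self_pos.2 (P0 x))
    refine this.trans_eq ?_
    beta_reduce
    field_simp [P0 x]
  · rw [i2 f, mul_sum]
    refine sum_congr rfl fun x hx => ?_
    beta_reduce
    rw [RD.GG, sum_erase hx (her x)]
    field_simp [P0 x]
    ring

/-- without waiting and without pinned ends all atoms are touching -/
theorem allT {T : Tan d} (hc : Ctx D ρ u T) (h0 : D.om D.Q = 0) (hm : ρ.m ≠ 0) (hM : ρ.M ≠ u.1) :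
    ∀ x ∈ ρ.Z, ρ.IsT u.1 x := fun x hx => by
  have hp : ¬ ρ.Pin u.1 x := fun h => h.elim (fun a => hm a.2) fun a => hM a.2
  refine ⟨hx, hp, by_contra fun h => ?_⟩
  have := (hc.fac.wait x hx hp h).2
  rw [h0] at this
  rcases mul_eq_zero.1 this with a | a
  · exact (hc.fac.mass x hx).2 (abs_eq_zero.1 a)
  · exact h (abs_eq_zero.1 a)

end Hg6lA

theorem p_HG6L (hHCHP : S_HCHP) (hHPART : S_HPART) :
    S_HG6L := by
  refine ⟨1, fun d S D hd hev hS => ?_⟩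
  have hL := hS.Lam_pos
  have hC : (0 : ℝ) < (2 * (D.Lam + 1)) ^ d := by positivity
  refine ⟨((2 * (D.Lam + 1)) ^ d)⁻¹, by positivity, fun ρ u T v t hc hv _ _ ht hP => Or.inl ?_⟩
  intro h0 hm α z a1 a2 hF qα _ hz a3 a4
  have hb := hc.bas
  have ha := hb.ha
  have hm0 := hb.rep.1
  have hm1 : ρ.m ≠ 0 := fun e => hm.2.1 (Or.inl ⟨e, e⟩)
  have haM : u.1 < ρ.M := a3.trans a4
  have hT := Hg6lA.allT hc h0 hm1 haM.ne'
  have hF2 : D.Feas ρ.q α ρ.M := fun x hx => by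
    rcases le_total x ρ.m with e | e
    · exact hF x ⟨hx.1, e⟩
    · exact hb.rep.2.2.2.1 x ⟨e, hx.2⟩
  have hZm : ∀ x ∈ ρ.Z, ρ.m ≤ x := fun x hx => (hb.rep.2.2.2.2.1 x hx).1
  rcases Hg6lA.core hHCHP hev hS hc hv hP.1 hP.2 (Or.inr rfl) h0 hT a1 a2 (by linarith) a4
    (by linarith [hc.fac.hi]) hF2 qα (hc.fac.endM haM).1 hm.1 hz.1 (by linarith) with
    ⟨f, f1, f2, f3⟩ | ⟨c2, c1, i1, μ1, k1, k2⟩
  · refine Or.inl ⟨f, f1, fun x hx hxz => f2 x ⟨hx.1, hZm x hx.1, hxz⟩, ?_⟩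
    rw [pow_one, mul_comm, ← div_eq_mul_inv] at ht
    refine (ht.trans f3).trans_eq ?_
    simp only [RD.GG, LD.Phi]
    ring
  · refine Or.inr (hHPART d S D hd hS h0 ρ u α z μ1 hb haM
      (fun x hx => ⟨hT x hx, a2.le.trans (c1 x hx).1, (c1 x hx).2, k1 x hx⟩) c2 (by linarith) a3
      (fun x hx => hF2 x ⟨hx.1, hx.2.trans a4.le⟩) qα (hb.abs_atom hz.1) ?_ fun f => ?_)
    · rw [i1, intervalIntegral.integral_symm z ρ.M]
      ring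
    · rw [← k2 f, LD.Phi, LD.Ib_symm D ρ.q f ρ.M z]
      ring

end Pool.Agent.P.MP_a0f0ad_al.Fi
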