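import Pool.Agent.P.MP_a0f0ad_al.Fi.H.Iface2
import Pool.Agent.P.MP_a0f0ad_al.Fi.H.Tool
import Pool.Agent.P.MP_a0f0ad_al.Fi.H.ToolP

/-! Step HG6R of the filiform project. -/

namespace Pool.Agent.P.MP_a0f0ad_al.Fi

open Finset MeasureTheory Polynomial Filter Topology
open scoped Classical

namespace Hg6rA

theorem exists_sign {v g : ℝ} (h : v ≤ |g|) : ∃ s : ℝ, |s| = 1 ∧ v ≤ s * g := by
  rcases abs_cases g with a | a
  · exact ⟨1, abs_one, by linarith [a.1]⟩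
  · exact ⟨-1, by simp, by linarith [a.1]⟩

theorem GG_smul {d : ℕ} (ρ : RD d) (D : LD d) (σ c : ℝ) (f : Fin d → ℝ) (α m z M : ℝ) :
    ρ.GG D σ (c • f) α m z M = c * ρ.GG D σ f α m z M := by
  simp only [RD.GG, LD.Phi, LD.Ib_smul, ev_smul, mul_left_comm _ c, ← mul_sum]
  ring

end Hg6rA

open Hg6rA in
theorem p_HG6R (hHCHP : S_HCHP) (hHPART : S_HPART) :
    S_HG6R := by
  refine ⟨1, fun d S D hd6 hev hD => ?_⟩
  have hL := hD.Lam_pos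
  have hQ := hD.Qpos
  set C0 : ℝ := (2 * (D.Lam + 1)) ^ d with hC0
  have C0p : 0 < C0 := by positivity
  refine ⟨1 / C0, by positivity, fun ρ u T v t hc hv hv1 ht htv hP => Or.inl ?_⟩
  obtain ⟨hG1, hG2⟩ := hP
  intro h0 hM α z hα hMα feas qα dα hz z0 mz
  have hb := hc.bas
  have hf := hc.fac
  obtain ⟨-, aM', -, feas0, hat, -⟩ := hb.rep
  have ha := hb.ha
  have m0 : ρ.m < 0 := mz.trans z0
  have aM : u.1 < ρ.M := lt_of_le_of_ne aM' fun e => hM.2.1 (Or.inr ⟨e.symm, e.symm⟩)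
  have hT : ∀ x ∈ ρ.Z, ρ.IsT u.1 x := fun x hx => by
    have np : ¬ ρ.Pin u.1 x := fun e => e.elim (fun e => m0.ne e.2) fun e => aM.ne' e.2
    refine ⟨hx, np, ?_⟩
    by_contra e
    have := (hf.wait x hx np e).2
    rw [h0] at this
    exact mul_ne_zero (abs_ne_zero.2 (hf.mass x hx).2) (abs_ne_zero.2 e) this
  have qm := (hf.endm m0).1
  have bZ : ∀ x ∈ ρ.Z, |x| ≤ D.Lam / 3 := fun x hx => hf.abs_node (hf.Z_mem hx)
  have cfg : D.Cfg ρ.q ρ.m z ρ.M α := by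
    refine ⟨mz, hMα, ?_⟩
    rintro y (rfl | rfl | rfl | rfl)
    · exact ⟨hf.node_lt hD (hf.endm m0).2, qm⟩
    · exact ⟨hf.node_lt hD (hf.Z_mem hz.1), hb.abs_atom hz.1⟩
    · exact ⟨hf.node_lt hD (hf.Z_mem hM.1), hb.abs_atom hM.1⟩
    · exact ⟨by rw [abs_of_pos (by linarith)]; linarith, qα⟩
  have cZ : ρ.Z.card + 2 ≤ d :=
    le_trans (Nat.add_le_add_right (card_le_card fun x hx => RD.mem_TT.2 (hT x hx)) 2) hf.cardT
  have feas1 : D.Feas ρ.q ρ.m α := fun x hx => by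
    rcases le_total x ρ.M with e | e
    · exact feas0 x ⟨hx.1, e⟩
    · exact feas x ⟨e, hx.2⟩
  have nb : ∀ (A : Finset ℝ) (k : ℕ), A ⊆ ρ.Z → A.card + k < d → ‖fA d A k‖ ≤ C0 :=
    fun A k h1 h2 => norm_fA_le (by linarith) (fun x hx => by linarith [bZ x (h1 hx)]) h2.le
  have key : ∀ (f : Fin d → ℝ) (s : ℝ), ‖f‖ ≤ C0 → |s| = 1 →
      (∀ x ∈ ρ.Z, z ≤ x → s * (ev f 0 x * ev ρ.q 0 x) ≤ 0) → v ≤ s * ρ.GG D 1 f ρ.m z ρ.M α →
      ∃ f : Fin d → ℝ, ‖f‖ ≤ 1 ∧ (∀ x, ρ.IsT u.1 x → z ≤ x → ev f 0 x * ev ρ.q 0 x ≤ 0) ∧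
        t ≤ D.Ib ρ.q f ρ.m z - D.Ib ρ.q f ρ.M α + ∑ x ∈ ρ.Z, ρ.mu x * ev f 0 x :=
    fun f s h1 h2 h3 h4 => by
      refine ⟨(s / C0) • f, ?_, fun x hx zx => ?_, ?_⟩
      · rw [norm_smul, Real.norm_eq_abs, abs_div, h2, abs_of_pos C0p, one_div,
          inv_mul_le_iff₀ C0p, mul_one]
        exact h1
      · rw [ev_smul]
        exact le_of_eq_of_le (by ring) (div_nonpos_of_nonpos_of_nonneg (h3 x hx.1 zx) C0p.le)
      · have e := GG_smul ρ D 1 (s / C0) f ρ.m z ρ.M α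
        rw [RD.GG, one_mul, LD.Phi] at e
        rw [e]
        refine htv.trans ?_
        rw [pow_one, div_mul_eq_mul_div, div_mul_eq_mul_div, one_mul]
        exact div_le_div_of_nonneg_right h4 C0p.le
  have ce : ∀ x ∈ ρ.Z, (ρ.Z.erase x).card + 0 < d := fun x _ => by
    have := card_erase_le (s := ρ.Z) (a := x)
    omega
  have van : ∀ x ∈ ρ.Z, ∀ y ∈ ρ.Z, y ≠ x → ev (fA d (ρ.Z.erase x) 0) 0 y = 0 :=
    fun x hx y hy e => by
      rw [ev_fA0 (ce x hx), eval_wA_eq_zero.2 (mem_erase.2 ⟨e, hy⟩), mul_zero]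
  have g1 := hG1 hT 1 ρ.m z ρ.M α (Or.inl rfl) cfg
  by_cases c1 : ∃ z1 ∈ ρ.Z, z1 < z
  · obtain ⟨z1, h1, h2⟩ := c1
    obtain ⟨s, s1, s2⟩ := exists_sign (g1 z1 h1)
    exact Or.inl (key _ s (nb _ 0 (erase_subset _ _) (ce z1 h1)) s1 (fun x hx zx => by
      rw [van z1 h1 x hx (by linarith : z1 < x).ne', zero_mul, mul_zero]) s2)
  have zx : ∀ x ∈ ρ.Z, z ≤ x := fun x hx => not_lt.1 fun e => c1 ⟨x, hx, e⟩
  rcases cZ.lt_or_eq with c2 | c2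
  · obtain ⟨k, k1, k2⟩ := hG2 h0 ρ.m z ρ.M α (by linarith [hf.lo]) mz (by linarith) hMα hα feas1
      qm qα hz.1 hM.1 (fun x hx => ⟨hT x hx, zx x hx, (hat x hx).2.1⟩) (by linarith) c2
    have v0 : ∀ x ∈ ρ.Z, ev (fA d ρ.Z k) 0 x = 0 := fun x hx => by
      rw [ev_fA0 k1, eval_wA_eq_zero.2 hx, mul_zero]
    obtain ⟨s, s1, s2⟩ := exists_sign k2
    refine Or.inl (key _ s (nb _ k Subset.rfl k1) s1 (fun x hx _ => by
      rw [v0 x hx, zero_mul, mul_zero]) ?_)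
    rw [RD.GG, one_mul, sum_eq_zero fun x hx => by rw [v0 x hx, mul_zero], add_zero]
    exact s2
  have Pne : ∀ x ∈ ρ.Z, ev (fA d (ρ.Z.erase x) 0) 0 x ≠ 0 := fun x hx => by
    rw [ev_fA0 (ce x hx), pow_zero, one_mul]
    exact eval_erase_ne _ _
  by_cases c3 : ∀ x ∈ ρ.Z, 0 < ρ.GG D 1 (fA d (ρ.Z.erase x) 0) ρ.m z ρ.M α /
      ev (fA d (ρ.Z.erase x) 0) 0 x * ev ρ.q 0 x
  · obtain ⟨e1, e2⟩ := hHCHP d S D hev hD h0 ρ.q ρ.m z ρ.M α ρ.Z hb.hq mz hMα feas1 qm qα hz.1 hM.1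
      c2 fun x hx => ⟨zx x hx, (hat x hx).2.1, hb.abs_atom hx, (hT x hx).2.2⟩
    refine Or.inr (hHPART d S D hd6 hD h0 ρ u z α _ hb aM
      (fun x hx => ⟨hT x hx, zx x hx, by linarith [(hat x hx).2.1], c3 x hx⟩) c2 z0 (by linarith)
      (fun x hx => feas1 x ⟨by linarith [hx.1], hx.2⟩) (hb.abs_atom hz.1) qα ?_ fun f => ?_)
    · rw [intervalIntegral.integral_symm ρ.m z, e1, add_neg_cancel]
    · have e3 := e2 f
      rw [LD.Phi] at e3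
      rw [D.Ib_symm ρ.q f z ρ.m, ← sub_eq_add_neg, ← neg_sub, e3, ← sum_neg_distrib]
      refine sum_congr rfl fun x hx => ?_
      have := Pne x hx
      rw [RD.GG, one_mul, sum_eq_single_of_mem x hx fun y hy e => by rw [van x hx y hy e, mul_zero]]
      field_simp
      ring
  push Not at c3
  obtain ⟨x, hx, c3⟩ := c3
  obtain ⟨s, s1, s2⟩ := exists_sign (g1 x hx)
  refine Or.inl (key _ s (nb _ 0 (erase_subset _ _) (ce x hx)) s1 (fun y hy _ => ?_) s2)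
  by_cases e : y = x
  · subst e
    have p0 := Pne y hy
    set g := ρ.GG D 1 (fA d (ρ.Z.erase y) 0) ρ.m z ρ.M α
    set P := ev (fA d (ρ.Z.erase y) 0) 0 y
    have a1 : 0 < s * g := hv.trans_le s2
    have a2 : s * g * (s * (P * ev ρ.q 0 y)) = s ^ 2 * P ^ 2 * (g / P * ev ρ.q 0 y) := by
      field_simp
    by_contra a3
    have a4 := mul_pos a1 (not_le.1 a3)
    rw [a2] at a4
    exact not_lt.2 (mul_nonpos_of_nonneg_of_nonpos (by positivity) c3) a4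
  · rw [van x hx y hy e, zero_mul, mul_zero]

end Pool.Agent.P.MP_a0f0ad_al.Fi
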