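import Pool.Agent.P.MP_a0f0ad_al.Fi.H.Iface2
import Pool.Agent.P.MP_a0f0ad_al.Fi.H.Tool

/-! Step HGAP of the filiform project. -/

namespace Pool.Agent.P.MP_a0f0ad_al.Fi

open Finset MeasureTheory Polynomial Filter Topology
open scoped Classical

namespace HgapA

variable {d n : ℕ} {D : LD d} {c : Ch d n} {u : E d}

theorem abs_lt' (h : c.OK D) (hu : u ∈ c.U) (j : Fin n) : |c.x u j| < 2 * D.Lam :=
  ((h.pts hu _).2 ⟨j, rfl⟩).1

theorem gap (h : c.OK D) (hu : u ∈ c.U) {i j : Fin n} (hij : (j : ℕ) = i + 1) {y : ℝ}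
    (hy : y ∈ Set.Ioo (c.x u i) (c.x u j)) : ev (c.q u) 0 y ∉ D.ThA := by
  intro hw
  have h1 := abs_lt.1 (abs_lt' h hu i)
  have h2 := abs_lt.1 (abs_lt' h hu j)
  obtain ⟨k, hk⟩ := (h.pts hu y).1
    ⟨abs_lt.2 ⟨by linarith [hy.1], by linarith [hy.2]⟩, Or.inr (Or.inr (Or.inl hw))⟩
  rw [← hk] at hy
  have h3 : (i : ℕ) < k := (h.mono hu).lt_iff_lt.1 hy.1
  have h4 : (k : ℕ) < j := (h.mono hu).lt_iff_lt.1 hy.2
  omega

theorem const {f : ℝ → ℝ} {s t y z : ℝ} (hf : ∀ y ∈ Set.Ioo s t, ∀ᶠ y' in 𝓝 y, f y' = f y)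
    (hy : y ∈ Set.Ioo s t) (hz : z ∈ Set.Ioo s t) : f y = f z := by
  refine isOpen_Ioo.is_const_of_deriv_eq_zero (𝕜 := ℝ) isPreconnected_Ioo
    (fun x hx => ?_) (fun x hx => ?_) hy hz
  · exact ((differentiableAt_const (f x)).congr_of_eventuallyEq (hf x hx)).differentiableWithinAt
  · have : f =ᶠ[𝓝 x] fun _ => f x := hf x hx
    rw [this.deriv_eq]
    simp

theorem cx (h : c.OK D) (hu : u ∈ c.U) (j : Fin n) : ContinuousAt (fun u => c.x u j) u :=
  (continuous_apply j).continuousAt.comp (h.diffx u hu).continuousAt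

theorem keep (h : c.OK D) (hu : u ∈ c.U) (j : Fin n) {g : E d → ℝ} (hg : ContinuousAt g u)
    (hj : c.x u j = g u) (hP : ∀ u', g u' = 0 ∨ g u' = u'.1) :
    ∀ᶠ u' in 𝓝 u, c.x u' j = g u' := by
  have h1 : ∀ᶠ u' in 𝓝 u, ∀ i, i ≠ j → c.x u' i ≠ g u' := by
    refine eventually_all.2 fun i => ?_
    by_cases hi : i = j
    · exact Eventually.of_forall fun _ k => absurd hi k
    · have : c.x u i ≠ g u := fun e => hi (h.inj hu (e.trans hj.symm))
      exact (((cx h hu i).sub hg).eventually_ne (sub_ne_zero.2 this)).mono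
        fun _ k _ => sub_ne_zero.1 k
  have h2 : ∀ᶠ u' in 𝓝 u, |g u'| < 2 * D.Lam :=
    hg.abs.eventually_lt continuousAt_const (hj ▸ abs_lt' h hu j)
  filter_upwards [h1, h2, h.near hu] with u' k1 k2 k3
  obtain ⟨i, hi⟩ := (h.pts k3 (g u')).1
    ⟨k2, (hP u').elim Or.inl fun e => Or.inr (Or.inl e)⟩
  by_contra k
  exact k1 i (fun e => k (e ▸ hi)) hi

end HgapA

open HgapA in
theorem p_HGAP :
    S_HGAP := by
  intro d D n c h u0 hu0
  refine ⟨fun φ hφ => ?_, fun j hj => keep h hu0 j continuousAt_const hj fun _ => Or.inl rfl,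
    fun j hj => keep h hu0 j continuousAt_fst hj fun _ => Or.inr rfl⟩
  have mid : ∀ u ∈ c.U, ∀ i j : Fin n, (j : ℕ) = i + 1 →
      (c.x u i + c.x u j) / 2 ∈ Set.Ioo (c.x u i) (c.x u j) := fun u hu i j hij => by
    have : c.x u i < c.x u j := h.mono hu (show (i : ℕ) < j by omega)
    constructor <;> linarith
  refine ⟨fun i => if hi : (i : ℕ) + 1 < n then
    φ (ev (c.q u0) 0 ((c.x u0 i + c.x u0 ⟨i + 1, hi⟩) / 2)) else 0, ?_⟩
  refine eventually_all.2 fun i => eventually_all.2 fun j => ?_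
  by_cases hij : (j : ℕ) = i + 1
  · have hi : (i : ℕ) + 1 < n := hij ▸ j.2
    have e : (⟨i + 1, hi⟩ : Fin n) = j := Fin.ext hij.symm
    have h1 : ContinuousAt (fun u => ev (c.q u) 0 ((c.x u i + c.x u j) / 2)) u0 :=
      (continuous_ev_uncurry 0).continuousAt.comp₂ (h.diffq u0 hu0).continuousAt
        (((cx h hu0 i).add (cx h hu0 j)).div_const 2)
    filter_upwards [h1.tendsto.eventually (hφ _ (gap h hu0 hij (mid u0 hu0 i j hij))),
      h.near hu0] with u k1 k2 _ y hy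
    rw [dif_pos hi, e, ← k1]
    exact const (f := fun y => φ (ev (c.q u) 0 y)) (fun z hz =>
      ((continuous_ev (c.q u) 0).tendsto z).eventually (hφ _ (gap h k2 hij hz))) hy
      (mid u k2 i j hij)
  · exact Eventually.of_forall fun _ k => absurd k hij

end Pool.Agent.P.MP_a0f0ad_al.Fi
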