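import Pool.Agent.P.MP_a0f0ad_al.Fi.H.Iface2
import Pool.Agent.P.MP_a0f0ad_al.Fi.S.Iface
import Pool.Agent.P.MP_a0f0ad_al.Fi.H.Tool

/-! Step HGEN of the filiform project. -/

namespace Pool.Agent.P.MP_a0f0ad_al.Fi

open Finset MeasureTheory Polynomial Filter Topology
open scoped Classical

theorem p_HGEN (hPROJ : S_PROJ) (hNULL : S_NULL) :
    S_HGEN := by
  intro d D n c h
  have : Fact S_PROJ := ⟨hPROJ⟩
  have := haarE d
  have key : ∀ (j : Fin n) (k : ℕ) (w : ℝ), ∀ᵐ u : E d, ev (c.q u) k (c.x u j) = w →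
      ∀ᶠ u' in 𝓝 u, ev (c.q u') k (c.x u' j) = w := fun j k w => by
    have h1 : DF fun u => c.x u j := (DF.apply j).comp h.dfx
    have h2 : SA {u | ev (c.q u) k (c.x u j) = w} := DP.eq (DF.ev h.dfq h1 k) (DF.const w)
    filter_upwards [measure_eq_zero_iff_ae_notMem.1 (hNULL (E d) volume _ h2).2] with u hu e
    refine mem_interior_iff_mem_nhds.1 (by_contra fun hn => hu ⟨subset_closure e, hn⟩)
  have h3 : ∀ᵐ u : E d, ∀ (j : Fin n) (k : ℕ), ∀ w ∈ insert 0 D.ThA,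
      ev (c.q u) k (c.x u j) = w → ∀ᶠ u' in 𝓝 u, ev (c.q u') k (c.x u' j) = w :=
    ae_all_iff.2 fun j => ae_all_iff.2 fun k =>
      (ae_ball_iff (D.finite_ThA.insert 0).countable).2 fun w _ => key j k w
  filter_upwards [h3] with u hu j k w hw
  exact hu j k w hw.symm

end Pool.Agent.P.MP_a0f0ad_al.Fi
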