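import Pool.Agent.P.MP_a0f0ad_al.Fi.H.Iface2
import Pool.Agent.P.MP_a0f0ad_al.Fi.H.Tool
import Pool.Agent.P.MP_a0f0ad_al.Fi.S.Iface

/-! Step HHIT1 of the filiform project. -/

namespace Pool.Agent.P.MP_a0f0ad_al.Fi

open Finset MeasureTheory Polynomial Filter Topology
open scoped Classical

theorem p_HHIT1 (hPROJ : S_PROJ) (hTAIL : S_TAIL) :
    S_HHIT1 := by
  have : Fact S_PROJ := ⟨hPROJ⟩
  intro d S D _ n c h
  have hq := h.dfq
  have hx := h.dfx
  have hm := h.dfm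
  have : Finite (insert 0 D.ThA : Set ℝ) := (D.finite_ThA.insert 0).to_subtype
  obtain ⟨C, -, hC⟩ := h.tails hTAIL
    (ι := (Fin n × Fin n) ⊕ (Fin n × Fin 3 × (insert 0 D.ThA : Set ℝ)) ⊕ Fin n ⊕ (Fin n × Bool))
    (Sum.elim (fun i u => c.x u i.1 - c.x u i.2) (Sum.elim
      (fun i u => ev (c.q u) i.2.1 (c.x u i.1)) (Sum.elim (fun j u => c.μ u j)
        fun i u => c.μ u i.1 * ev (c.q u) 1 (c.x u i.1))))
    (Sum.elim (fun _ => 0) (Sum.elim (fun i => i.2.2) (Sum.elim (fun _ => 0)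
      fun i => if i.2 then D.om D.Q else -D.om D.Q)))
    (by
      rintro (i | i | i | i) <;> simp only [Sum.elim_inl, Sum.elim_inr] <;> fun_prop)
    (by
      rintro (i | i | i | i) u hu
      · exact ((h.hx hu i.1).sub (h.hx hu i.2)).differentiableAt
      · exact (h.hev hu i.2.1 i.1).choose_spec.1.differentiableAt
      · exact (h.hm hu i).differentiableAt
      · exact (h.hmq hu i.1).choose_spec.1.differentiableAt)
  refine ⟨C, fun t l ht hl => le_trans (measure_mono ?_) (hC t l ht hl)⟩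
  rintro u ⟨hu, H⟩
  refine ⟨hu, ?_⟩
  rcases H with ⟨y, hy, y', hy', a, b⟩ | ⟨y, hy, k, hk, w, hw, a, b⟩ | ⟨z, hz, a, b⟩ |
    ⟨z, hz, w, hw, a, b⟩
  · obtain ⟨j, rfl⟩ := (h.pts hu y).1 hy
    obtain ⟨j', rfl⟩ := (h.pts hu y').1 hy'
    refine ⟨.inl (j, j'), by simpa using a, ?_⟩
    exact (b.le_norm fun v => rfl).trans_eq
      (congrArg norm ((h.hx hu j).fun_sub (h.hx hu j')).fderiv.symm)
  · obtain ⟨j, rfl⟩ := (h.pts hu y).1 hy
    obtain ⟨L, h1, h2⟩ := h.hev hu k j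
    exact ⟨.inr (.inl (j, ⟨k, by omega⟩, ⟨w, hw.symm⟩)), a,
      (b.le_norm h2).trans_eq (congrArg norm h1.fderiv.symm)⟩
  · obtain ⟨j, -, rfl⟩ := mem_image.1 hz
    rw [h.mu hu] at a
    exact ⟨.inr (.inr (.inl j)), by simpa using a,
      (b.le_norm fun v => rfl).trans_eq (congrArg norm (h.hm hu j).fderiv.symm)⟩
  · obtain ⟨j, -, rfl⟩ := mem_image.1 hz
    rw [h.mu hu] at a
    obtain ⟨L, h1, h2⟩ := h.hmq hu j
    have e := (b.le_norm h2).trans_eq (congrArg norm h1.fderiv.symm)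
    rcases hw with rfl | rfl
    · exact ⟨.inr (.inr (.inr (j, true))), a, e⟩
    · exact ⟨.inr (.inr (.inr (j, false))), a, e⟩

end Pool.Agent.P.MP_a0f0ad_al.Fi
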