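import Pool.Agent.P.MP_a0f0ad_al.Fi.Z.Defs
import Pool.Agent.P.MP_a0f0ad_al.Fi.S.Defs

/-! Chapter H: almost every point is good, with a rate. -/

namespace Pool.Agent.P.MP_a0f0ad_al.Fi

open Finset MeasureTheory

-- deps: PROJ INTG PEN HOM ATT
/-- the limit problem is semialgebraic -/
def S_DEFN : Prop :=
  ∀ (d : ℕ) (S : Finset (G d)) (D : LD d), D.Spec S →
    SAF Set.univ (fun x : (Fin d → ℝ) × ℝ × ℝ × E d => D.Bf x.1 x.2.1 x.2.2.1 x.2.2.2) ∧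
    SAF Set.univ (fun x : (Fin d → ℝ) × ℝ × ℝ × ℝ => D.Yq x.1 x.2.1 x.2.2.1 x.2.2.2) ∧
    SAF Set.univ (fun x : (Fin d → ℝ) × (Fin d → ℝ) × ℝ × ℝ => D.Ib x.1 x.2.1 x.2.2.1 x.2.2.2) ∧
    SAF {u : E d | 0 < u.1} D.NN ∧ SA {x : E d × E d | 0 < x.1.1 ∧ Grad D.NN x.2 x.1}

-- deps: OSC DEFN HOM LIP
/-- first order expansion of the limit length with a rate -/
def S_OSCN : Prop :=
  ∀ (d : ℕ) (S : Finset (G d)) (D : LD d), 2 ≤ d → D.Spec S → ∃ C : ℝ, 0 < C ∧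
    ∀ v r e : ℝ, 0 < v → v ≤ 1 → 0 < r → C * r ≤ v → 0 < e → e ≤ 1 →
      volume {u : E d | v ≤ u.1 ∧ v ≤ ell u ^ d ∧ D.NN u ≤ 1 ∧
        ¬ ∃ p, Grad D.NN p u ∧ Osc D.NN u p r e} ≤ ENNReal.ofReal (C * r / (e * v))

-- deps: PROJ UF NULL CHOICE ENUM DIFF TAIL DEFN MARK PEN HOM PUB QLOW TCP
/-- all optimal representations are good, off a small set -/
def S_GOOD : Prop :=
  ∃ k : ℕ, 0 < k ∧ ∀ (d : ℕ) (S : Finset (G d)) (D : LD d), 6 ≤ d → Even d → D.Spec S →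
    ∃ C : ℝ, ∀ s : ℝ, 0 < s → s ≤ 1 →
      volume {u : E d | 0 < u.1 ∧ D.NN u ≤ 1 ∧ ∃ (p : E d) (ρ : RD d), Grad D.NN p u ∧
        ρ.q = p.2 ∧ Nonconst ρ.q ∧ ρ.Opt D u p.1 ∧ ¬ ρ.Good D u p.1 (s ^ k)} ≤
        ENNReal.ofReal (C * s)

end Pool.Agent.P.MP_a0f0ad_al.Fi
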