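import Pool.Agent.P.MP_a0f0ad_al.Fi.H.Iface2
import Pool.Agent.P.MP_a0f0ad_al.Fi.S.Iface
import Pool.Agent.P.MP_a0f0ad_al.Fi.H.Iface
import Pool.Agent.P.MP_a0f0ad_al.Fi.H.Hdi

/-! Step HHIT2 of the filiform project. -/

namespace Pool.Agent.P.MP_a0f0ad_al.Fi

open Finset MeasureTheory Polynomial Filter Topology
open scoped Classical

namespace Hhit2A

variable {d n : ℕ}

/-- the test polynomial along the chart -/
noncomputable def tp (c : Ch d n) (A : Finset (Fin n)) (k : ℕ) (u : E d) : Fin d → ℝ :=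
  cf d (X ^ k * ∏ j ∈ A, (X - C (c.x u j)))

/-- the observable -/
noncomputable def chi (D : LD d) (c : Ch d n) (σ : ℝ) (A : Finset (Fin n)) (k : ℕ)
    (j1 j2 j3 j4 : Fin n) (u : E d) : ℝ :=
  σ * (D.Ib (c.q u) (tp c A k u) (c.x u j1) (c.x u j2) -
    D.Ib (c.q u) (tp c A k u) (c.x u j3) (c.x u j4)) +
    ∑ j ∈ c.Zs, c.μ u j * ev (tp c A k u) 0 (c.x u j)

variable {S : Finset (G d)} {D : LD d} {c : Ch d n} {u : E d}

theorem chi_df [Fact S_PROJ] (hD : S_DEFN) (hFA : S_HFA) (hS : D.Spec S) (h : c.OK D) (σ : ℝ)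
    (A : Finset (Fin n)) (k : ℕ) (j1 j2 j3 j4 : Fin n) : DF (chi D c σ A k j1 j2 j3 j4) := by
  have h1 : DF (tp c A k) :=
    DF.comp (g := fun x : Fin n → ℝ => cf d (X ^ k * ∏ j ∈ A, (X - C (x j)))) (f := c.x)
      (hFA d n A k).1.df h.dfx
  have hx : ∀ j, DF fun u => c.x u j := fun j =>
    DF.comp (g := fun x : Fin n → ℝ => x j) (f := c.x) (DF.apply j) h.dfx
  have hm : ∀ j, DF fun u => c.μ u j := fun j =>
    DF.comp (g := fun x : Fin n → ℝ => x j) (f := c.μ) (DF.apply j) h.dfm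
  have h2 : ∀ i j, DF fun u => D.Ib (c.q u) (tp c A k u) (c.x u i) (c.x u j) := fun i j =>
    DF.comp (g := fun x : (Fin d → ℝ) × (Fin d → ℝ) × ℝ × ℝ => D.Ib x.1 x.2.1 x.2.2.1 x.2.2.2)
      (f := fun u => (c.q u, tp c A k u, c.x u i, c.x u j))
      (saf_univ.1 (hD d S D hS).2.2.1) (h.dfq.prodMk (h1.prodMk ((hx i).prodMk (hx j))))
  exact ((DF.const σ).mul ((h2 j1 j2).sub (h2 j3 j4))).add
    (DF.sum _ fun j => (hm j).mul (DF.ev h1 (hx j) 0))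

theorem chi_deriv (hFA : S_HFA) (hDI : S_HDI) (hS : D.Spec S) (h : c.OK D) (hu : u ∈ c.U) (σ : ℝ)
    (A : Finset (Fin n)) (k : ℕ) {j1 j2 j3 j4 : Fin n} (h12 : j1 < j2) (h34 : j3 < j4) :
    ∃ L : E d →L[ℝ] ℝ, HasFDerivAt (chi D c σ A k j1 j2 j3 j4) L u ∧
      (Ctx D (c.rd u) u (c.tan u) → D.Cfg (c.q u) (c.x u j1) (c.x u j2) (c.x u j3) (c.x u j4) →
        ∀ L1 L2, D.IsLv (c.q u) (c.x u j1) (c.x u j2) L1 →
          D.IsLv (c.q u) (c.x u j3) (c.x u j4) L2 → ∀ v, L v = (c.tan u).DG (c.rd u) D σ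
            (A.image (c.x u)) k (c.x u j1) (c.x u j2) (c.x u j3) (c.x u j4) L1 L2 v) := by
  obtain ⟨M1, a1, b1⟩ := hDI d S D hS n c h u hu A k j1 j2 h12
  obtain ⟨M2, a2, b2⟩ := hDI d S D hS n c h u hu A k j3 j4 h34
  obtain ⟨Lf, hf, ef⟩ := HdiA.tf hFA h hu A k
  choose N a3 b3 using fun j => hasFDerivAt_ev hf (h.hx hu j) 0
  refine ⟨_, ((a1.sub a2).const_mul σ).add
    (HasFDerivAt.fun_sum (u := c.Zs) fun j _ => (h.hm hu j).mul (a3 j)),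
    fun hc hg L1 L2 l1 l2 v => ?_⟩
  have g := fun y hy => (hg.2.2 y hy).2
  have e1 := b1 hc (g _ (Or.inl rfl)) (g _ (Or.inr (Or.inl rfl))) L1 l1 v
  have e2 := b2 hc (g _ (Or.inr (Or.inr (Or.inl rfl)))) (g _ (Or.inr (Or.inr (Or.inr rfl)))) L2 l2 v
  rw [Tan.DG, h.sum_Z hu, ← e1, ← e2, HdiA.fA_image (h.inj hu)]
  simp only [add_apply, smul_apply, sub_apply, _root_.sum_apply, smul_eq_mul, b3, ef, h.mu hu]
  congr 1
  exact sum_congr rfl fun j _ => by simp only [tp]; ring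

end Hhit2A

theorem p_HHIT2 (hPROJ : S_PROJ) (hTAIL : S_TAIL) (hDEFN : S_DEFN) (hHFA : S_HFA) (hHDI : S_HDI) :
    S_HHIT2 := by
  intro d S D hS n c h
  have : Fact S_PROJ := ⟨hPROJ⟩
  obtain ⟨C0, -, hC⟩ := h.tails hTAIL
    (ι := Bool × Finset (Fin n) × Fin d × {p : Fin n × Fin n // p.1 < p.2} ×
      {p : Fin n × Fin n // p.1 < p.2})
    (fun i => Hhit2A.chi D c (if i.1 then 1 else -1) i.2.1 i.2.2.1 i.2.2.2.1.1.1 i.2.2.2.1.1.2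
      i.2.2.2.2.1.1 i.2.2.2.2.1.2) (fun _ => 0)
    (fun i => Hhit2A.chi_df hDEFN hHFA hS h _ _ _ _ _ _ _)
    fun i u hu => (Hhit2A.chi_deriv hHFA hHDI hS h hu _ _ _ i.2.2.2.1.2
      i.2.2.2.2.2).choose_spec.1.differentiableAt
  refine ⟨C0, fun t l ht hl => le_trans (measure_mono ?_) (hC t l ht hl)⟩
  rintro u ⟨hu, hc, σ, A0, k, α, m, z, M, L1, L2, hσ, hA, hk, hg, l1, l2, ht', hb⟩
  have hp : ∀ y, y = α ∨ y = m ∨ y = z ∨ y = M → ∃ j, c.x u j = y := fun y hy =>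
    (h.pts hu y).1 (D.mem_Pts (hg.2.2 y hy).1 (D.ThA_of_abs (hg.2.2 y hy).2))
  obtain ⟨j1, rfl⟩ := hp α (Or.inl rfl)
  obtain ⟨j2, rfl⟩ := hp m (Or.inr (Or.inl rfl))
  obtain ⟨j3, rfl⟩ := hp z (Or.inr (Or.inr (Or.inl rfl)))
  obtain ⟨j4, rfl⟩ := hp M (Or.inr (Or.inr (Or.inr rfl)))
  obtain ⟨A, -, rfl⟩ := subset_image_iff.1 hA
  have h12 : j1 < j2 := (h.mono hu).lt_iff_lt.1 hg.1
  have h34 : j3 < j4 := (h.mono hu).lt_iff_lt.1 hg.2.1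
  obtain ⟨b, rfl⟩ : ∃ b : Bool, σ = if b then 1 else -1 :=
    hσ.elim (fun e => ⟨true, e⟩) fun e => ⟨false, e⟩
  obtain ⟨L, a1, a2⟩ := Hhit2A.chi_deriv hHFA hHDI hS h hu (if b then 1 else -1) A k h12 h34
  refine ⟨hu, (b, A, ⟨k, by omega⟩, ⟨(j1, j2), h12⟩, ⟨(j3, j4), h34⟩), ?_, ?_⟩
  · rw [RD.GG, h.sum_Z hu, HdiA.fA_image (h.inj hu)] at ht'
    simp only [h.mu hu] at ht'
    rw [sub_zero]
    exact ht'
  · rw [a1.fderiv]
    exact hb.le_norm (a2 hc hg L1 L2 l1 l2)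

end Pool.Agent.P.MP_a0f0ad_al.Fi
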