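import Pool.Agent.P.MP_a0f0ad_al.Fi.H.Iface2
import Pool.Agent.P.MP_a0f0ad_al.Fi.H.Tool

/-! Step HJ of the filiform project. -/

namespace Pool.Agent.P.MP_a0f0ad_al.Fi

open Finset MeasureTheory Polynomial Filter Topology
open scoped Classical

namespace HjA

lemma jump (hHJMP : S_HJMP) {d : ℕ} {S : Finset (G d)} {D : LD d} (hS : D.Spec S) {ρ : RD d}
    {u : E d} {T : Tan d} (h : Ctx D ρ u T) {y l r l' r' : ℝ} (hy : y ∈ ρ.N D u.1)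
    (hQ : |ev ρ.q 0 y| < D.Q) (h1 : ∀ᶠ x in 𝓝[<] (ev ρ.q 0 y), D.kp x = l)
    (h2 : ∀ᶠ x in 𝓝[>] (ev ρ.q 0 y), D.kp x = r)
    (h3 : ∀ᶠ x in 𝓝[<] (ev ρ.q 0 y), D.kp (-x) = l')
    (h4 : ∀ᶠ x in 𝓝[>] (ev ρ.q 0 y), D.kp (-x) = r') :
    ρ.J D u.1 y = (if 0 < ev ρ.q 1 y then 1 else -1) *
      ((l - r) - if 0 < y ∧ y < u.1 then 0 else l' - r') := by
  obtain ⟨a1, a2, a3⟩ := h.fac.lvl y hy hQ
  have hT := (h.fac.rng y hy).2.2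
  have b1 : y ≠ 0 := fun e => a3 (h.nd3 y (Or.inl e) hT).1
  have b2 : y ≠ u.1 := fun e => a3 (h.nd3 y (Or.inr e) hT).1
  have b3 := h.node_ne hS hy fun e => a3 e.1
  have ha := h.bas.ha
  have c : ∀ᶠ x in 𝓝 y, ρ.dens D u.1 x =
      D.kp (ev ρ.q 0 x) - if 0 < y ∧ y < u.1 then 0 else D.kp (-ev ρ.q 0 x) := by
    by_cases e : 0 < y ∧ y < u.1
    · filter_upwards [Ioo_mem_nhds a1 a2, Ioo_mem_nhds e.1 e.2] with x x1 x2
      rw [RD.dens, if_pos (Set.mem_Ioo.1 x1), if_pos e, if_neg fun z => by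
        rcases z with z | z <;> linarith [z.1, z.2, x2.1, x2.2]]
    · rcases b1.lt_or_gt with f | f
      · filter_upwards [Ioo_mem_nhds a1 a2, Ioo_mem_nhds a1 f] with x x1 x2
        rw [RD.dens, if_pos (Set.mem_Ioo.1 x1), if_neg e, if_pos (Or.inl (Set.mem_Ioo.1 x2))]
      · filter_upwards [Ioo_mem_nhds a1 a2,
          Ioo_mem_nhds (b2.lt_or_gt.resolve_left fun z => e ⟨f, z⟩) a2] with x x1 x2
        rw [RD.dens, if_pos (Set.mem_Ioo.1 x1), if_neg e, if_pos (Or.inr (Set.mem_Ioo.1 x2))]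
  have key : ∀ {F : Filter ℝ} {s t : ℝ}, F ≤ 𝓝 y → (∀ᶠ x in F, D.kp (ev ρ.q 0 x) = s) →
      (∀ᶠ x in F, D.kp (-ev ρ.q 0 x) = t) →
      ∀ᶠ x in F, ρ.dens D u.1 x = s - if 0 < y ∧ y < u.1 then 0 else t := fun hF e1 e2 => by
    filter_upwards [hF c, e1, e2] with x x1 x2 x3
    rw [x1, x2, x3]
  obtain ⟨p1, p2⟩ := hHJMP.1 d ρ.q D.kp y l r h1 h2
  obtain ⟨p3, p4⟩ := hHJMP.1 d ρ.q (fun x => D.kp (-x)) y l' r' h3 h4
  rcases b3.lt_or_gt with f | f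
  · rw [RD.J, leftLim_of_eventually (key nhdsWithin_le_nhds (p2 f).1 (p4 f).1),
      rightLim_of_eventually (key nhdsWithin_le_nhds (p2 f).2 (p4 f).2), if_neg f.not_gt]
    split_ifs <;> ring
  · rw [RD.J, leftLim_of_eventually (key nhdsWithin_le_nhds (p1 f).1 (p3 f).1),
      rightLim_of_eventually (key nhdsWithin_le_nhds (p1 f).2 (p3 f).2), if_pos f]
    split_ifs <;> ring

end HjA

theorem p_HJ (hHJMP : S_HJMP) :
    S_HJ := by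
  intro d S D hS ρ u T h y hy y' hy' hQ ⟨c1, c2, c3⟩
  obtain ⟨⟨l, r, h1, h2⟩, ⟨l', r', h3, h4⟩, -⟩ := hHJMP.2 d S D hS (ev ρ.q 0 y)
  rw [HjA.jump hHJMP hS h hy hQ h1 h2 h3 h4,
    HjA.jump hHJMP hS h hy' (c1 ▸ hQ) (c1 ▸ h1) (c1 ▸ h2) (c1 ▸ h3) (c1 ▸ h4)]
  simp only [c2, c3]

end Pool.Agent.P.MP_a0f0ad_al.Fi
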