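import Pool.Agent.P.MP_a0f0ad_al.Fi.H.Iface2
import Pool.Agent.P.MP_a0f0ad_al.Fi.Z.Bl
import Pool.Agent.P.MP_a0f0ad_al.Fi.Z.Bp

/-! Step HJMP of the filiform project. -/

namespace Pool.Agent.P.MP_a0f0ad_al.Fi

open Finset MeasureTheory Polynomial Filter Topology
open scoped Classical

namespace HjmpA

theorem negL (w : ℝ) : Tendsto (fun x : ℝ => -x) (𝓝[<] w) (𝓝[>] (-w)) :=
  tendsto_nhdsWithin_iff.2 ⟨(continuous_neg.tendsto w).mono_left nhdsWithin_le_nhds,
    eventually_nhdsWithin_of_forall fun _ h => Set.mem_Ioi.2 (neg_lt_neg (Set.mem_Iio.1 h))⟩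

theorem negR (w : ℝ) : Tendsto (fun x : ℝ => -x) (𝓝[>] w) (𝓝[<] (-w)) :=
  tendsto_nhdsWithin_iff.2 ⟨(continuous_neg.tendsto w).mono_left nhdsWithin_le_nhds,
    eventually_nhdsWithin_of_forall fun _ h => Set.mem_Iio.2 (neg_lt_neg (Set.mem_Ioi.1 h))⟩

theorem pos {f : ℝ → ℝ} {f' y : ℝ} (h : HasDerivAt f f' y) (h0 : 0 < f') :
    Tendsto f (𝓝[<] y) (𝓝[<] (f y)) ∧ Tendsto f (𝓝[>] y) (𝓝[>] (f y)) := by
  have h1 := (hasDerivAt_iff_tendsto_slope.1 h).eventually (lt_mem_nhds h0)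
  constructor
  · refine tendsto_nhdsWithin_iff.2 ⟨h.continuousAt.tendsto.mono_left nhdsWithin_le_nhds, ?_⟩
    filter_upwards [h1.filter_mono (nhdsLT_le_nhdsNE y), self_mem_nhdsWithin] with x hx hx'
    rw [slope_def_field] at hx
    rcases div_pos_iff.1 hx with a | a
    · exact absurd a.2 (sub_neg.2 hx').not_gt
    · exact sub_neg.1 a.1
  · refine tendsto_nhdsWithin_iff.2 ⟨h.continuousAt.tendsto.mono_left nhdsWithin_le_nhds, ?_⟩
    filter_upwards [h1.filter_mono (nhdsGT_le_nhdsNE y), self_mem_nhdsWithin] with x hx hx'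
    rw [slope_def_field] at hx
    exact sub_pos.1 ((div_pos_iff_of_pos_right (sub_pos.2 hx')).1 hx)

theorem neg {f : ℝ → ℝ} {f' y : ℝ} (h : HasDerivAt f f' y) (h0 : f' < 0) :
    Tendsto f (𝓝[<] y) (𝓝[>] (f y)) ∧ Tendsto f (𝓝[>] y) (𝓝[<] (f y)) := by
  obtain ⟨h1, h2⟩ := pos h.fun_neg (neg_pos.2 h0)
  exact ⟨by simpa [Function.comp_def] using (negL _).comp h1,
    by simpa [Function.comp_def] using (negR _).comp h2⟩

variable {d : ℕ} {S : Finset (G d)} {D : LD d}

/-- the index just to the right of `w` -/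
noncomputable def idR (D : LD d) (w : ℝ) : ℕ := ((range D.n).filter fun k => D.th k ≤ w).card

theorem left (D : LD d) (w : ℝ) : ∀ᶠ x in 𝓝[<] w, D.kp x = D.kap (D.idx w) := by
  have h : ∀ᶠ x in 𝓝[<] w, ∀ k ∈ range D.n, (D.th k < x ↔ D.th k < w) := by
    refine (eventually_all_finset _).2 fun k _ => ?_
    by_cases e : D.th k < w
    · exact ((lt_mem_nhds e).filter_mono nhdsWithin_le_nhds).mono fun x hx => iff_of_true hx e
    · exact eventually_nhdsWithin_of_forall fun x hx => iff_of_false (fun a => e (a.trans hx)) e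
  exact h.mono fun x hx => congrArg D.kap (congrArg card (filter_congr hx))

theorem right (D : LD d) (w : ℝ) : ∀ᶠ x in 𝓝[>] w, D.kp x = D.kap (idR D w) := by
  have h : ∀ᶠ x in 𝓝[>] w, ∀ k ∈ range D.n, (D.th k < x ↔ D.th k ≤ w) := by
    refine (eventually_all_finset _).2 fun k _ => ?_
    by_cases e : D.th k ≤ w
    · exact eventually_nhdsWithin_of_forall fun x hx => iff_of_true (e.trans_lt hx) e
    · exact ((gt_mem_nhds (not_le.1 e)).filter_mono nhdsWithin_le_nhds).mono fun x hx =>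
        iff_of_false hx.not_gt e
  exact h.mono fun x hx => congrArg D.kap (congrArg card (filter_congr hx))

theorem jump (h : D.Spec S) (w : ℝ) : D.kap (idR D w) - D.kap (D.idx w) =
    ∑ k ∈ range D.n, if D.th k = w then D.kap (k + 1) - D.kap k else 0 := by
  by_cases e : ∃ k < D.n, D.th k = w
  · obtain ⟨k, hk, rfl⟩ := e
    have e1 : idR D (D.th k) = k + 1 := by
      rw [← card_range (k + 1)]
      refine congrArg card (Finset.ext fun l => ?_)
      rw [mem_filter, mem_range, mem_range]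
      refine ⟨fun a => ?_, fun a => ⟨by omega, ?_⟩⟩
      · by_contra b
        exact (h.th_lt (by omega : k < l) a.1).not_ge a.2
      · rcases (Nat.lt_succ_iff.1 a).eq_or_lt with b | b
        · rw [b]
        · exact (h.th_lt b hk).le
    rw [e1, h.idx_th hk, sum_eq_single k, if_pos rfl]
    · intro l hl hlk
      rcases lt_or_gt_of_ne hlk with b | b
      · exact if_neg (h.th_lt b hk).ne
      · exact if_neg (h.th_lt b (mem_range.1 hl)).ne'
    · exact fun a => absurd (mem_range.2 hk) a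
  · have e1 : idR D w = D.idx w := congrArg card (filter_congr fun k hk =>
      ⟨fun a => a.lt_of_ne fun b => e ⟨k, mem_range.1 hk, b⟩, le_of_lt⟩)
    rw [e1, sub_self, sum_eq_zero fun k hk => if_neg fun b => e ⟨k, mem_range.1 hk, b⟩]

end HjmpA

open HjmpA

theorem p_HJMP :
    S_HJMP := by
  refine ⟨fun d q φ y l r hl hr => ⟨fun h => ?_, fun h => ?_⟩, fun d S D hD w => ?_⟩
  · obtain ⟨h1, h2⟩ := pos (hasDerivAt_ev q 0 y) h
    exact ⟨h1.eventually hl, h2.eventually hr⟩
  · obtain ⟨h1, h2⟩ := neg (hasDerivAt_ev q 0 y) h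
    exact ⟨h1.eventually hr, h2.eventually hl⟩
  · have a1 := (negL w).eventually (right D (-w))
    have a2 := (negR w).eventually (left D (-w))
    refine ⟨⟨_, _, left D w, right D w⟩, ⟨_, _, a1, a2⟩,
      D.kap (D.idx w) - D.kap (idR D (-w)), D.kap (idR D w) - D.kap (D.idx (-w)), ?_, ?_, ?_⟩
    · filter_upwards [left D w, a1] with x b1 b2
      rw [LD.be, b1, b2]
    · filter_upwards [right D w, a2] with x b1 b2
      rw [LD.be, b1, b2]
    · rw [LD.Jb, sum_add_distrib, ← jump hD, ← jump hD]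
      ring

end Pool.Agent.P.MP_a0f0ad_al.Fi
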