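import Pool.Agent.P.MP_a0f0ad_al.Fi.H.Iface2
import Pool.Agent.P.MP_a0f0ad_al.Fi.H.Tool
import Pool.Agent.P.MP_a0f0ad_al.Fi.H.ToolP

/-! Step HMD of the filiform project. -/

namespace Pool.Agent.P.MP_a0f0ad_al.Fi

open Finset MeasureTheory Polynomial Filter Topology
open scoped Classical

namespace HmdA

/-- two neighbours -/
theorem nbr {N : Finset ℝ} {t : ℝ} (h : ¬ ∀ y ∈ N, ∀ y' ∈ N, y ≠ y' → t ≤ |y - y'|) :
    ∃ y1 ∈ N, ∃ y2 ∈ N, y1 < y2 ∧ y2 - y1 < t ∧ ∀ y ∈ N, y ≤ y1 ∨ y2 ≤ y := by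
  have key : ∀ y ∈ N, ∀ y' ∈ N, y < y' → y' - y < t →
      ∃ y1 ∈ N, ∃ y2 ∈ N, y1 < y2 ∧ y2 - y1 < t ∧ ∀ y ∈ N, y ≤ y1 ∨ y2 ≤ y := by
    intro y hy y' hy' h1 h2
    obtain ⟨z, hz, hm⟩ := (N.filter fun x => y < x).exists_min_image id ⟨y', mem_filter.2 ⟨hy', h1⟩⟩
    have a : z ≤ y' := hm y' (mem_filter.2 ⟨hy', h1⟩)
    exact ⟨y, hy, z, (mem_filter.1 hz).1, (mem_filter.1 hz).2, by linarith, fun x hx =>
      (le_or_gt x y).imp_right fun b => hm x (mem_filter.2 ⟨hx, b⟩)⟩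
  push Not at h
  obtain ⟨y, hy, y', hy', h1, h2⟩ := h
  rw [abs_lt] at h2
  rcases lt_or_gt_of_ne h1 with a | a
  · exact key y hy y' hy' a (by linarith [h2.1])
  · exact key y' hy' y hy a h2.2

theorem quot {d : ℕ} (q : Fin d → ℝ) {R e : ℝ} (hR : 2 ≤ R) (he : |e| ≤ R / 2)
    (h : ev q 1 e = 0) : ∃ g : Fin d → ℝ, ‖g‖ ≤ d * R ^ d * (d * ‖q‖) ∧
      (∀ x, ev q 1 x = (x - e) * ev g 0 x) ∧ ∀ x, ev q 2 x = ev g 0 x + (x - e) * ev g 1 x := by
  obtain ⟨U, h1, h2⟩ := exists_eq_wA_mul (A := {e}) hR (by simpa using he)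
    (P := derivative (pol q)) (by simpa [ev1] using h)
  have e1 : wA {e} = X - C e := by simp [wA]
  rw [e1] at h1
  have hU : U.degree < d := by
    refine lt_of_le_of_lt ?_ (degree_der_pol q)
    rw [h1, mul_comm]
    exact degree_le_mul_left U (X_sub_C_ne_zero e)
  refine ⟨cf d U, (norm_cf_le_nr (by linarith) d U).trans (h2.trans (nr_der_pol_le (by linarith) q)),
    fun x => ?_, fun x => ?_⟩
  · rw [ev1, h1, ev_cf0 hU]
    simp
  · rw [ev2, h1, ev_cf0 hU, ev_cf1 hU]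
    simp

theorem bnd {a x w β B : ℝ} (h1 : 1 ≤ β * |x|) (h2 : β ≤ B) (h : w = x * a) : |a| ≤ B * |w| := by
  rw [h, abs_mul, ← mul_assoc]
  exact le_mul_of_one_le_left (abs_nonneg a)
    (h1.trans (mul_le_mul_of_nonneg_right h2 (abs_nonneg x)))

theorem dv {a x w : ℝ} (h : w = x * a) (h0 : w ≠ 0) : a / w = 1 / x := by
  subst h
  have := left_ne_zero_of_mul h0
  have := right_ne_zero_of_mul h0
  field_simp

end HmdA

theorem p_HMD (hHB2 : S_HB2) (hHDIRX : S_HDIRX) :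
    S_HMD := by
  refine ⟨2, fun d S D hd _ hS => ?_⟩
  obtain ⟨c1, C1, c10, c11, -, hB⟩ := hHB2 d S D hS
  obtain ⟨C, C0, hX⟩ := hHDIRX d S D hS
  have hL := hS.Lam_pos
  obtain ⟨K, hK⟩ : ∃ K : ℝ, K = d * (2 + D.Lam) ^ d * d + 1 := ⟨_, rfl⟩
  have K1 : 1 ≤ K := by
    rw [hK]
    exact le_add_of_nonneg_left (by positivity)
  have CK : 0 < C * K := by positivity
  refine ⟨min c1 (1 / (C * K)), lt_min c10 (by positivity),
    fun ρ u T v t hc v0 v1 t0 ht ⟨_, _, p3, p4⟩ => ?_⟩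
  by_cases hm : pMD d D ρ u T t
  · exact Or.inl hm
  refine Or.inr (Or.inl (Or.inl ?_))
  obtain ⟨y1, h1, y2, h2, h12, hlt, hn⟩ := HmdA.nbr hm
  have tv : t ≤ c1 * v := ht.trans (mul_le_mul (min_le_left _ _) (by nlinarith) (by positivity) c10.le)
  have t1 : t ≤ 1 := tv.trans (mul_le_one₀ c11 v0.le v1)
  have r1 := hc.fac.rng y1 h1
  have r2 := hc.fac.rng y2 h2
  have hv : ev ρ.q 0 y1 = ev ρ.q 0 y2 := by
    by_contra hne
    have a := (hB ρ u hc.bas hc.fac).2.2.2 y2 h2 y1 h1 (Ne.symm hne)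
    rw [abs_of_pos (sub_pos.2 h12)] at a
    have b : ρ.M - ρ.m < v := lt_of_mul_lt_mul_left (by linarith) c10.le
    have := pow_le_of_le_one (a := ρ.M - ρ.m) (n := d) (by linarith [r1.1, r1.2.1]) (by linarith)
      (by omega)
    linarith
  obtain ⟨e, ⟨e1, e2⟩, he⟩ := exists_hasDerivAt_eq_zero (f := ev ρ.q 0) (f' := ev ρ.q 1) h12
    (fun x _ => (hasDerivAt_ev ρ.q 0 x).continuousAt.continuousWithinAt) hv
    fun x _ => hasDerivAt_ev ρ.q 0 x
  have e3 := hc.fac.abs_le (y := e) (by linarith [r1.1]) (by linarith [r2.2.1])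
  obtain ⟨g, g1, g2, g3⟩ := HmdA.quot ρ.q (R := 2 + D.Lam) (e := e) (by linarith) (by linarith) he
  have s1 : 0 < e - y1 := sub_pos.2 e1
  have s2 : 0 < y2 - e := sub_pos.2 e2
  obtain ⟨β, hβ⟩ : ∃ β : ℝ, β = 1 / (y2 - e) + 1 / (e - y1) := ⟨_, rfl⟩
  have i1 : 0 < 1 / (e - y1) := by positivity
  have i2 : 0 < 1 / (y2 - e) := by positivity
  have β1 : 1 ≤ β := by
    have := (one_le_div s2).2 (show y2 - e ≤ 1 by linarith)
    linarith
  have hy : ∀ y ∈ ρ.N D u.1, 1 ≤ β * |y - e| := fun y hy => by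
    rcases hn y hy with a | a
    · rw [abs_of_neg (by linarith)]
      exact (one_div_mul_cancel s1.ne').ge.trans
        (mul_le_mul (by linarith) (by linarith) s1.le (by linarith))
    · rw [abs_of_pos (by linarith)]
      exact (one_div_mul_cancel s2.ne').ge.trans
        (mul_le_mul (by linarith) (by linarith) s2.le (by linarith))
  have Kv : 1 ≤ K / v := (one_le_div v0).2 (v1.trans K1)
  have βB : β ≤ K / v * β := le_mul_of_one_le_left (by linarith) Kv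
  have gB : ‖g‖ ≤ K / v * β := by
    refine le_trans ?_ (le_mul_of_one_le_right (by linarith) β1)
    rw [le_div_iff₀ v0]
    have a : (d * (2 + D.Lam) ^ d * d : ℝ) * (v * ‖ρ.q‖) ≤ d * (2 + D.Lam) ^ d * d * 1 :=
      mul_le_mul_of_nonneg_left p4 (by positivity)
    have b := mul_le_mul_of_nonneg_right g1 v0.le
    linarith
  have hT : ∀ z, ρ.IsT u.1 z → ev g 0 z = 0 ∧ ev ρ.q 2 z = (z - e) * ev g 1 z := fun z hz => by
    have a := hy z (hc.fac.Z_mem hz.1)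
    have b : z - e ≠ 0 := fun h => by
      rw [h, abs_zero, mul_zero] at a
      linarith
    have c : ev g 0 z = 0 := (mul_eq_zero.1 ((g2 z).symm.trans hz.2.2)).resolve_left b
    exact ⟨c, by rw [g3, c, zero_add]⟩
  obtain ⟨h, c0, -, -, -, -, d1, d2, d3, d4⟩ := hX ρ u T v (K / v * β) g ∅ hc v0 v1 p4 gB
    (fun y hy => absurd hy (notMem_empty y))
    (fun z hz => ⟨(hT z hz).1, HmdA.bnd (hy z (hc.fac.Z_mem hz.1)) βB (hT z hz).2⟩)
    (fun y h _ _ => HmdA.bnd (hy y h) βB (g2 y))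
  have hD : ∀ y ∈ ρ.N D u.1, T.Dx y h = c0 - 1 / (y - e) := fun y hy => by
    by_cases a : ρ.IsT u.1 y
    · rw [d2 y a, HmdA.dv (hT y a).2 (hc.nd2 y a).1]
    · rw [d1 y (hc.fac.node_lt hS hy) (hc.fac.rng y hy).2.2 a, HmdA.dv (g2 y) (hc.node_ne hS hy a)]
  rw [sum_empty, add_zero] at d4
  refine ⟨y1, hc.fac.node_pts hS h1, y2, hc.fac.node_pts hS h2, ?_,
    Big.of_le (a := β) (B := C * (K / v * β) / v) h (by linarith)
      (mul_nonneg (lt_min c10 (by positivity)).le (by positivity))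
      (norm_E_le ((le_div_iff₀' v0).2 d3) ((le_div_iff₀' v0).2 d4)) ?_ ?_⟩
  · rw [abs_of_neg (by linarith)]
    linarith
  · rw [hD y1 h1, hD y2 h2, show y1 - e = -(e - y1) by ring, div_neg]
    exact le_trans (by linarith) (le_abs_self _)
  · calc min c1 (1 / (C * K)) * v ^ 2 * (C * (K / v * β) / v)
        = min c1 (1 / (C * K)) * (C * K * β) := by field_simp
      _ ≤ 1 / (C * K) * (C * K * β) :=
        mul_le_mul_of_nonneg_right (min_le_right _ _) (mul_nonneg CK.le (by linarith))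
      _ = β := by field_simp

end Pool.Agent.P.MP_a0f0ad_al.Fi
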