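import Pool.Agent.P.MP_a0f0ad_al.Fi.H.Iface2
import Pool.Agent.P.MP_a0f0ad_al.Fi.H.Tool
import Pool.Agent.P.MP_a0f0ad_al.Fi.H.ToolP

/-! Step HMU of the filiform project. -/

namespace Pool.Agent.P.MP_a0f0ad_al.Fi

open Finset MeasureTheory Polynomial Filter Topology
open scoped Classical

namespace HmuA

variable {d : ℕ} {S : Finset (G d)} {D : LD d} {ρ : RD d} {u : E d} {T : Tan d} {CV v : ℝ}

theorem dirz (H0 : S_HDIR0) (hS : D.Spec S) (h : Ctx D ρ u T) (h0 : 0 ≤ CV)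
    (hV : ∀ x, |x| ≤ D.Lam → ‖(Vd 0 x : Fin d → ℝ)‖ ≤ CV) {z : ℝ} (hz : z ∈ ρ.TF u.1) :
    ∃ k : E d, T.Dq k = 0 ∧ T.Dm z k = 1 ∧ T.Dx z k = 0 ∧ ‖k‖ ≤ CV := by
  obtain ⟨k, k1, k2, k3, k4, k5⟩ := H0 d S D hS ρ u T h 0 (fun y => if y = z then 1 else 0)
    fun _ => rfl
  have hN := h.fac.Z_mem (RD.TF_subset _ hz)
  refine ⟨k, k1, by simpa using k3 z hz, k4 z (h.fac.node_lt hS hN) (h.fac.rng z hN).2.2,
    norm_E_le (by rwa [k2, abs_zero]) ?_⟩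
  have e : k.2 = Vd 0 z := by simp [k5, hz]
  rw [e]
  exact hV z (by linarith [h.fac.abs_node hN, hS.Lam_pos])

theorem far (hS : D.Spec S) (h : Ctx D ρ u T) (hP : pP0 d D ρ u T v) {z y : ℝ} (hz : z ∈ ρ.TF u.1)
    (hy : y ∈ ρ.TF u.1) (hn : z ≠ y) : v ≤ max 1 D.Lam ^ d * |z - y| := by
  have a : ∀ w ∈ ρ.TF u.1, |w| ≤ D.Lam / 3 := fun w hw =>
    h.fac.abs_node (h.fac.Z_mem (RD.TF_subset _ hw))
  have h1 := pd_le_subset (A := {z, y}) (y := z) (le_max_left 1 D.Lam)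
    (insert_subset hz (singleton_subset_iff.2 hy)) fun w hw => by
      linarith [abs_sub z w, a z hz, a w hw, hS.Lam_pos, le_max_right 1 D.Lam]
  rw [pd, pd, erase_insert (by simpa using hn), prod_singleton] at h1
  exact ((hP z hz).trans h1).trans (mul_le_mul_of_nonneg_right (pow_le_pow_right₀
    (le_max_left _ _) ((card_le_card (RD.TF_subset _)).trans h.fac.cardZ)) (abs_nonneg _))

end HmuA

open HmuA

theorem p_HMU (hHB2 : S_HB2) (hHDIR0 : S_HDIR0) (hHDIRX : S_HDIRX) :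
    S_HMU := by
  refine ⟨2, fun d S D _ _ hS => ?_⟩
  obtain ⟨CV, hV1, hV⟩ := exists_Vd_bound d D.Lam
  obtain ⟨_, C2, -, -, hC2, hB⟩ := hHB2 d S D hS
  obtain ⟨CX, hCX, hX⟩ := hHDIRX d S D hS
  have hL : (1 : ℝ) ≤ max 1 D.Lam ^ d := one_le_pow₀ (le_max_left _ _)
  have hd : (0 : ℝ) < d + 1 := by positivity
  have hp : 0 < CX * (d + 1) := mul_pos hCX hd
  have hq : CV ≤ C2 * CV := le_mul_of_one_le_left (by linarith) hC2
  obtain ⟨K, hK⟩ : ∃ K, K = C2 * CV + CX * (d + 1) + 2 * max 1 D.Lam ^ d := ⟨_, rfl⟩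
  have hK0 : 0 < K := by linarith
  refine ⟨K⁻¹, inv_pos.2 hK0, fun ρ u T v t h hv hv1 ht htv ⟨hS0, hP0, hTH⟩ => ?_⟩
  have hl0 : 0 ≤ K⁻¹ * v ^ 2 := by positivity
  have hl : ∀ B a : ℝ, v ^ 2 * B ≤ K * a → K⁻¹ * v ^ 2 * B ≤ a := fun B a e => by
    rwa [mul_assoc, inv_mul_le_iff₀ hK0]
  have hv2 : v ^ 2 ≤ v := by nlinarith
  have hsm : ∀ B : ℝ, 0 ≤ B → B ≤ K → K⁻¹ * v ^ 2 * B ≤ v := fun B b1 b2 =>
    hl _ _ (by rw [mul_comm K]; exact mul_le_mul hv2 b2 b1 hv.le)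
  have hfar : ∀ z ∈ ρ.TF u.1, ∀ y ∈ ρ.TF u.1, z ≠ y → t ≤ |z - y| := fun z hz y hy hn => by
    by_contra e
    have a1 := far hS h hP0 hz hy hn
    have a2 := hsm (2 * max 1 D.Lam ^ d) (by linarith) (by linarith)
    have a3 : max 1 D.Lam ^ d * |z - y| ≤ max 1 D.Lam ^ d * (K⁻¹ * v ^ 2) :=
      mul_le_mul_of_nonneg_left ((not_le.1 e).le.trans htv) (by linarith)
    linarith
  refine or_iff_not_imp_right.2 fun hn => ?_
  have hn := (not_or.1 hn).1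
  refine ⟨fun z hz => ?_, fun z hz => ⟨?_, ?_⟩, fun z hz hpin => ?_⟩
  · by_contra e
    obtain ⟨k, -, k2, -, k4⟩ := dirz hHDIR0 hS h (by linarith) (fun x hx => (hV 0 x hx).1) hz
    exact hn (Or.inr (Or.inr (Or.inl ⟨z, RD.TF_subset _ hz, (not_le.1 e).le,
      Big.of_le k one_pos hl0 k4 (by simp [k2]) ((hsm CV (by linarith) (by linarith)).trans hv1)⟩)))
  · by_cases h0 : (0 : ℝ) ∈ ρ.Z
    · simpa using hfar z hz.mem_TF 0 (RD.mem_TF.2 ⟨h0, Or.inl (h.pin_of_mem (Or.inl rfl) h0)⟩)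
        (h.nd2 z hz).2.1
    by_contra e
    have hB1 : 1 ≤ (d + 1) / v := by rw [le_div_iff₀ hv]; linarith [Nat.cast_nonneg (α := ℝ) d]
    obtain ⟨k, c0, -, k1, -, -, -, k2, k3, k4⟩ := hX ρ u T v ((d + 1) / v)
      (cf d (derivative (pol ρ.q))) ∅ h hv hv1 hS0.2.2.2 (by
        have a := norm_cf_derivative (degree_pol_lt ρ.q)
        rw [cf_pol] at a
        rw [le_div_iff₀ hv]
        have a2 := mul_le_mul_of_nonneg_left hS0.2.2.2 (Nat.cast_nonneg (α := ℝ) d)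
        have a3 := mul_le_mul_of_nonneg_right a hv.le
        linarith) (fun y hy => absurd hy (notMem_empty y))
      (fun y hy => by
        rw [ev_cf_der, ev_cf_der]
        exact ⟨hy.2.2, le_mul_of_one_le_left (abs_nonneg _) hB1⟩)
      (fun y _ _ _ => by
        rw [ev_cf_der]
        exact le_mul_of_one_le_left (abs_nonneg _) hB1)
    rw [sum_empty, add_zero] at k4
    have k5 := k2 z hz
    rw [k1 h0, ev_cf_der, div_self (h.nd2 z hz).1] at k5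
    refine hn (Or.inl ⟨z, h.fac.node_pts hS (h.fac.Z_mem hz.1), 0, RD.zero_pts hS _ _,
      by rw [sub_zero]; exact (not_le.1 e).le, Big.of_le (B := CX * ((d + 1) / v) / v) k one_pos hl0
        (norm_E_le ((le_div_iff₀' hv).2 k3) ((le_div_iff₀' hv).2 k4)) (by simp [k5, h.d0])
        (hl _ _ ?_)⟩)
    have : v ^ 2 * (CX * ((d + 1) / v) / v) = CX * (d + 1) := by field_simp
    linarith
  · by_cases h0 : u.1 ∈ ρ.Z
    · exact hfar z hz.mem_TF _ (RD.mem_TF.2 ⟨h0, Or.inl (h.pin_of_mem (Or.inr rfl) h0)⟩)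
        (h.nd2 z hz).2.2
    by_contra e
    obtain ⟨k, -, k2, -, k4, k5⟩ := hHDIR0 d S D hS ρ u T h 1 (fun _ => 0) fun a => absurd a h0
    have hN := h.fac.Z_mem hz.1
    have k6 := k4 z (h.fac.node_lt hS hN) (h.fac.rng z hN).2.2
    refine hn (Or.inl ⟨z, h.fac.node_pts hS hN, u.1, h.fac.a_pts hS h.bas, (not_le.1 e).le,
      Big.of_le (B := C2 * CV) k one_pos hl0 (norm_E_le (by rw [k2, abs_one]; linarith) ?_)
        (by simp [k6, h.da, k2]) ((hsm _ (by linarith) (by linarith)).trans hv1)⟩)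
    simp only [k5, zero_smul, sum_const_zero, add_zero, mul_one, norm_smul, Real.norm_eq_abs]
    exact mul_le_mul ((hB ρ u h.bas h.fac).2.1 _)
      (hV 0 _ (by linarith [h.fac.abs_a h.bas, hS.Lam_pos])).1 (norm_nonneg _) (by linarith)
  · by_contra e
    obtain ⟨k, k1, k2, k3, k4⟩ := dirz hHDIR0 hS h (by linarith) (fun x hx => (hV 0 x hx).1)
      (RD.mem_TF.2 ⟨hz, Or.inl hpin⟩)
    have b : Big (T.Dmq ρ z) (K⁻¹ * v ^ 2) := Big.of_le k hv hl0 k4 (by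
      simpa [Tan.Dmq, Tan.Dev, k1, k2, k3] using hTH.1 z (h.fac.Z_mem hz) fun a => a.2.1 hpin)
      (hsm CV (by linarith) (by linarith))
    have a := h.fac.pinned z hz hpin
    rw [not_le] at e
    rw [← abs_mul] at a e
    rcases abs_cases (ρ.mu z * ev ρ.q 1 z) with s | s
    · exact hn (Or.inr (Or.inr (Or.inr ⟨z, hz, _, Or.inl rfl,
        abs_le.2 ⟨by linarith [s.1], by linarith [s.1]⟩, b⟩)))
    · exact hn (Or.inr (Or.inr (Or.inr ⟨z, hz, _, Or.inr rfl,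
        abs_le.2 ⟨by linarith [s.1], by linarith [s.1]⟩, b⟩)))

end Pool.Agent.P.MP_a0f0ad_al.Fi
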