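import Pool.Agent.P.MP_a0f0ad_al.Fi.H.Iface2
import Pool.Agent.P.MP_a0f0ad_al.Fi.H.Tool
import Pool.Agent.P.MP_a0f0ad_al.Fi.H.ToolP

/-! Step HNRA of the filiform project. -/

namespace Pool.Agent.P.MP_a0f0ad_al.Fi

open Finset MeasureTheory Polynomial Filter Topology
open scoped Classical

namespace HnraA

theorem dvd_wA {A : Finset ℝ} {P : ℝ[X]} (h : ∀ z ∈ A, P.eval z = 0) : ∃ U, P = wA A * U := by
  have h0 : 0 ≤ ∑ z ∈ A, |z| := sum_nonneg fun _ _ => abs_nonneg _
  obtain ⟨U, hU, -⟩ := exists_eq_wA_mul (R := 2 + 2 * ∑ z ∈ A, |z|) (A := A) (by linarith)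
    (fun z hz => by
      have := single_le_sum (f := fun z : ℝ => |z|) (fun _ _ => abs_nonneg _) hz
      linarith) h
  exact ⟨U, hU⟩

theorem deg_quot {A : Finset ℝ} {U : ℝ[X]} {d : ℕ} (h : (wA A * U).degree < d)
    (hA : A.card < d) : A.card + U.natDegree < d := by
  by_cases h0 : U = 0
  · simpa [h0] using hA
  · have h1 : wA A * U ≠ 0 := mul_ne_zero (wA_monic A).ne_zero h0
    have := (natDegree_lt_iff_degree_lt h1).2 h
    rwa [(wA_monic A).natDegree_mul' h0, natDegree_wA] at this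

theorem alg {A W : Finset ℝ} (hWA : W ⊆ A) {n : ℕ} (hn : 0 < n) (hc : n < A.card + W.card)
    {q f : ℝ[X]} (hq : ∀ y ∈ A, q.eval y ≠ 0) (dq : q.natDegree ≤ n) (df : f.natDegree ≤ n)
    (key : ∀ g : ℝ[X], g.natDegree < n → ∃ H : ℝ[X], H.natDegree < n ∧
      (∀ y ∈ A, (H * q - f * g).eval y = 0) ∧ ∀ z ∈ W, (derivative (H * q - f * g)).eval z = 0) :
    ∃ c : ℝ, f = C c * q := by
  have zz : ∀ P : ℝ[X], P.natDegree ≤ n → (∀ y ∈ A, P.eval y = 0) →
      (∀ z ∈ W, (derivative P).eval z = 0) → P = 0 := fun P h1 h2 h3 =>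
    eq_zero_of_zeros (n := n + 1) (degree_lt_of_natDegree (Nat.lt_succ_of_le h1)) A W hWA h2 h3 hc
  obtain ⟨H0, d0, a0, b0⟩ := key 1 (by simpa using hn)
  by_cases hs : H0.natDegree = 0
  · obtain ⟨c, rfl⟩ := natDegree_eq_zero.1 hs
    refine ⟨c, ?_⟩
    have := zz _ (by
      rw [mul_one]
      exact (natDegree_sub_le _ _).trans (max_le ((natDegree_C_mul_le _ _).trans dq) df)) a0 b0
    rw [mul_one] at this
    exact (sub_eq_zero.1 this).symm
  · exfalso
    have hH0 : H0 ≠ 0 := fun h => hs (by simp [h])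
    obtain ⟨H1, d1, a1, b1⟩ := key (X ^ (n - H0.natDegree)) (by rw [natDegree_X_pow]; omega)
    have dd : (H0 * X ^ (n - H0.natDegree)).natDegree = n := by
      rw [natDegree_mul_X_pow _ hH0]; omega
    set Y : ℝ[X] := X ^ (n - H0.natDegree)
    have e : (H1 - H0 * Y) * q = (H1 * q - f * Y) - (H0 * q - f * 1) * Y := by ring
    have z1 : ∀ y ∈ A, (H1 - H0 * Y).eval y = 0 := fun y hy => by
      have := congrArg (eval y) e
      rw [eval_mul, eval_sub (H1 * q - f * Y), eval_mul (p := H0 * q - f * 1), a0 y hy, a1 y hy]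
        at this
      exact (mul_eq_zero.1 (by simpa using this)).resolve_right (hq y hy)
    have := zz (H1 - H0 * Y) ((natDegree_sub_le _ _).trans (max_le d1.le dd.le)) z1 fun z hz => by
      have := congrArg (fun P => eval z (derivative P)) e
      simp only [derivative_mul (f := H1 - H0 * Y), derivative_sub (f := H1 * q - f * Y),
        derivative_mul (f := H0 * q - f * 1), eval_add, eval_mul, eval_sub (derivative (H1 * q - f * Y)),
        z1 z (hWA hz), a0 z (hWA hz), b0 z hz, b1 z hz] at this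
      exact (mul_eq_zero.1 (by simpa using this)).resolve_right (hq z (hWA hz))
    rw [sub_eq_zero.1 this, dd] at d1
    exact lt_irrefl _ d1

theorem der_at {A : Finset ℝ} {z : ℝ} (hz : z ∈ A) (U : ℝ[X]) :
    (derivative (wA A * U)).eval z = (wA (A.erase z)).eval z * U.eval z := by
  rw [derivative_mul, eval_add, eval_mul, eval_mul, eval_wA_eq_zero.2 hz, eval_der_wA hz]
  ring

end HnraA

theorem p_HNRA :
    S_HNRA := by
  intro d S D hS ρ u T H he f Df h1 h2 h3
  have F := H.fac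
  set TT := ρ.TT u.1 with hTT
  set T0 := (ρ.TF u.1).erase u.1 with hT0
  set W := ρ.Z.filter fun z => ¬ ρ.Pin u.1 z ∧ ev ρ.q 1 z ≠ 0 with hW
  set A := ρ.N D u.1 \ (T0 \ TT) with hA
  have sTT : TT ⊆ T0 := fun z hz =>
    mem_erase.2 ⟨(H.nd2 z (RD.mem_TT.1 hz)).2.2, RD.TT_subset_TF _ hz⟩
  have sT0 : ∀ z ∈ T0, z ∈ ρ.N D u.1 := fun z hz =>
    F.Z_mem (RD.TF_subset _ (mem_of_mem_erase hz))
  have z0 : ∀ z ∈ T0, ¬ ρ.IsT u.1 z → z = 0 ∧ ρ.Pin u.1 z := by
    intro z hz hT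
    obtain ⟨k1, k2⟩ := mem_erase.1 hz
    obtain ⟨k3, k4⟩ := RD.mem_TF.1 k2
    have hp : ρ.Pin u.1 z := by
      by_contra k
      exact hT ⟨k3, k, k4.resolve_left k⟩
    exact ⟨(hp.resolve_right fun k => k1 k.1).1, hp⟩
  have c1 : (T0 \ TT).card ≤ 1 := card_le_one.2 fun x hx y hy => by
    rw [(z0 x (mem_sdiff.1 hx).1 fun k => (mem_sdiff.1 hx).2 (RD.mem_TT.2 k)).1,
      (z0 y (mem_sdiff.1 hy).1 fun k => (mem_sdiff.1 hy).2 (RD.mem_TT.2 k)).1]
  have c2 := card_sdiff_add_card_eq_card sTT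
  have c3 : A.card + (T0 \ TT).card = (ρ.N D u.1).card :=
    card_sdiff_add_card_eq_card fun z hz => sT0 z (mem_sdiff.1 hz).1
  have c4 : (ρ.Z.filter fun z => ¬ ρ.Pin u.1 z).card ≤ TT.card + W.card := by
    refine le_trans (card_le_card fun z hz => ?_) (card_union_le TT W)
    obtain ⟨k1, k2⟩ := mem_filter.1 hz
    by_cases k : ev ρ.q 1 z = 0
    · exact mem_union_left _ (RD.mem_TT.2 ⟨k1, k2, k⟩)
    · exact mem_union_right _ (mem_filter.2 ⟨k1, k2, k⟩)
  have c5 := F.eN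
  have c6 : TT.card + 2 ≤ d := F.cardT
  have sW : W ⊆ A := fun z hz => by
    obtain ⟨k1, k2, k3⟩ := mem_filter.1 hz
    refine mem_sdiff.2 ⟨F.Z_mem k1, fun k => k2 (z0 z (mem_sdiff.1 k).1 fun k' => k3 k'.2.2).2⟩
  obtain ⟨q2, hq2⟩ := HnraA.dvd_wA (A := TT) (P := derivative (pol ρ.q)) fun z hz => by
    rw [← ev1]; exact (RD.mem_TT.1 hz).2.2
  obtain ⟨f2, hf2⟩ := HnraA.dvd_wA (A := TT) (P := derivative (pol f)) fun z hz => by
    rw [← ev1]; exact (h2 z (RD.mem_TT.1 hz)).1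
  have dq2 := HnraA.deg_quot (hq2 ▸ degree_der_pol ρ.q) (by omega)
  have df2 := HnraA.deg_quot (hf2 ▸ degree_der_pol f) (by omega)
  have nq : ∀ y ∈ A, q2.eval y ≠ 0 := by
    intro y hy k
    by_cases hT : ρ.IsT u.1 y
    · refine (H.nd2 y hT).1 ?_
      rw [ev2, hq2, HnraA.der_at (RD.mem_TT.2 hT), k, mul_zero]
    · refine H.node_ne hS (mem_sdiff.1 hy).1 hT ?_
      rw [ev1, hq2, eval_mul, k, mul_zero]
  obtain ⟨c, hc⟩ := HnraA.alg sW (n := d - T0.card) (by omega) (by omega) nq (by omega)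
    (f := f2) (by omega) fun g1 hg1 => by
    have dg : (wA T0 * g1).degree < d := degree_lt_of_natDegree
      (natDegree_mul_le.trans_lt (by rw [natDegree_wA]; omega))
    obtain ⟨h, e1, -, -⟩ := H.surj (cf d (wA T0 * g1))
      (-ev (cf d (wA T0 * g1)) 0 u.1 / ev ρ.q 1 u.1) 0 fun z hz => by
      split_ifs with k
      · have : ev ρ.q 1 z ≠ 0 := H.node_ne hS (F.Z_mem (RD.TF_subset _ hz))
          fun k' => (H.nd2 z k').2.2 k
        rw [← k]; field_simp; ring
      · rw [ev_cf0 dg, eval_mul, eval_wA_eq_zero.2 (mem_erase.2 ⟨k, hz⟩)]; ring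
    obtain ⟨H1, hH1⟩ := HnraA.dvd_wA (A := T0) (P := pol (Df h)) fun z hz => by
      have k := h1 z (sT0 z hz) h
      rw [← ev0]
      by_cases hT : ρ.IsT u.1 z
      · rwa [(h2 z hT).1, zero_mul, add_zero] at k
      · rwa [show T.Dx z h = 0 by rw [(z0 z hz hT).1]; exact H.d0 h, mul_zero, add_zero] at k
    have dH := HnraA.deg_quot (hH1 ▸ degree_pol_lt (Df h)) (by omega)
    have ePsi : pol (Df h) * derivative (pol ρ.q) - derivative (pol f) * (wA T0 * g1) =
        wA TT * wA T0 * (H1 * q2 - f2 * g1) := by rw [hH1, hq2, hf2]; ring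
    have v0 : ∀ y ∈ A, eval y (wA T0 * g1) + eval y (derivative (pol ρ.q)) * T.Dx y h = 0 ∧
        eval y (pol (Df h)) + eval y (derivative (pol f)) * T.Dx y h = 0 := fun y hy => by
      have hN := (mem_sdiff.1 hy).1
      have k1 := H.dval y (F.node_lt hS hN) (F.rng y hN).2.2 h
      have k2 := h1 y hN h
      rw [Tan.Dev, e1, ev_cf0 dg, ev1] at k1
      rw [ev0, ev1] at k2
      exact ⟨k1, k2⟩
    have nw : ∀ y ∈ A, ¬ ρ.IsT u.1 y → eval y (wA TT * wA T0) ≠ 0 := fun y hy hT => by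
      have k1 : y ∉ TT := fun k => hT (RD.mem_TT.1 k)
      have k2 : y ∉ T0 := fun k => (mem_sdiff.1 hy).2 (mem_sdiff.2 ⟨k, k1⟩)
      rw [eval_mul]
      exact mul_ne_zero (fun k => k1 (eval_wA_eq_zero.1 k)) fun k => k2 (eval_wA_eq_zero.1 k)
    have zA : ∀ y ∈ A, (H1 * q2 - f2 * g1).eval y = 0 := fun y hy => by
      by_cases hT : ρ.IsT u.1 y
      · have hy1 := RD.mem_TT.2 hT
        have k1 := H.dk y (F.node_pts hS (mem_sdiff.1 hy).1) 1 le_rfl hT.2.2 h
        have k2 := (h2 y hT).2 h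
        rw [Tan.Dev, e1, ev_cf1 dg, ev2, hq2, HnraA.der_at hy1, HnraA.der_at (sTT hy1)] at k1
        rw [ev1, ev2, hH1, hf2, HnraA.der_at hy1, HnraA.der_at (sTT hy1)] at k2
        refine (mul_eq_zero.1 (?_ : eval y (wA (T0.erase y)) * _ = 0)).resolve_left
          (eval_erase_ne T0 y)
        rw [eval_sub, eval_mul, eval_mul]
        linear_combination eval y q2 * k2 - eval y f2 * k1
      · refine (mul_eq_zero.1 (?_ : eval y (wA TT * wA T0) * _ = 0)).resolve_left (nw y hy hT)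
        rw [← eval_mul, ← ePsi, eval_sub, eval_mul, eval_mul (p := derivative (pol f))]
        linear_combination eval y (derivative (pol ρ.q)) * (v0 y hy).2 -
          eval y (derivative (pol f)) * (v0 y hy).1
    refine ⟨H1, by omega, zA, fun z hz => ?_⟩
    obtain ⟨k1, k2, k3⟩ := mem_filter.1 hz
    have k4 := H.dW z k1 k2 k3 h
    have k5 := h3 z k1 k2 h
    rw [Tan.Dmq, Tan.Dev, e1, ev_cf1 dg, ev1, ev2] at k4
    rw [ev1, ev1, ev2] at k5
    have k6 := congrArg (fun P => eval z (derivative P)) ePsi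
    simp only [derivative_mul (f := wA TT * wA T0), eval_add, eval_mul (p := wA TT * wA T0),
      eval_mul (p := derivative (wA TT * wA T0)), zA z (sW hz), mul_zero, zero_add] at k6
    refine (mul_eq_zero.1 (k6.symm.trans ?_)).resolve_left (nw z (sW hz) fun k => k3 k.2.2)
    refine (mul_eq_zero.1 (?_ : ρ.mu z * _ = 0)).resolve_left (F.mass z k1).2
    rw [derivative_sub, derivative_mul, derivative_mul (f := derivative (pol f)), eval_sub,
      eval_add, eval_add, eval_mul, eval_mul, eval_mul, eval_mul (p := derivative (pol f))]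
    linear_combination eval z (derivative (pol ρ.q)) * k5 - eval z (derivative (pol f)) * k4 +
      ρ.mu z * eval z (derivative (derivative (pol ρ.q))) * (v0 z (sW hz)).2 -
      ρ.mu z * eval z (derivative (derivative (pol f))) * (v0 z (sW hz)).1
  have e : derivative (pol f - C c * pol ρ.q) = 0 := by
    rw [derivative_sub, derivative_C_mul, hf2, hq2, hc]; ring
  refine ⟨(pol f - C c * pol ρ.q).coeff 0, c, fun x => ?_⟩
  have := congrArg (eval x) (eq_C_of_derivative_eq_zero e)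
  rw [eval_sub, eval_mul, eval_C, eval_C] at this
  rw [ev0, ev0]
  linarith

end Pool.Agent.P.MP_a0f0ad_al.Fi
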