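import Pool.Agent.P.MP_a0f0ad_al.Fi.H.Iface2
import Pool.Agent.P.MP_a0f0ad_al.Fi.S.Iface
import Pool.Agent.P.MP_a0f0ad_al.Fi.H.Tool

/-! Step HNRC of the filiform project. -/

namespace Pool.Agent.P.MP_a0f0ad_al.Fi

open Finset MeasureTheory Polynomial Filter Topology
open scoped Classical

namespace HnrcA

/-- differentiable sections through almost all points, for countably many definable sets -/
theorem sel (hCHOICE : S_CHOICE) (hDIFF : S_DIFF) {d : ℕ} {ι : Type} [Countable ι]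
    (B : ι → E d × (Fin d → ℝ) → Prop) (hB : ∀ i, DP (B i)) : ∀ᵐ u : E d, ∀ i f, B i (u, f) →
      ∃ g : E d → Fin d → ℝ, DifferentiableAt ℝ g u ∧ ∀ᶠ u' in 𝓝 u, B i (u', g u') := by
  refine ae_all_iff.2 fun i => ?_
  have := haarE d
  obtain ⟨g, h1, h2⟩ := hCHOICE _ _ _ (hB i).sa
  obtain ⟨U, a1, -, a2, a3, a4⟩ := hDIFF _ _ volume _ g h1
  filter_upwards [measure_eq_zero_iff_ae_notMem.1 a3] with u hu f hf
  have hU : U ∈ 𝓝 u := a1.mem_nhds (not_not.1 fun a => hu ⟨⟨_, hf, rfl⟩, a⟩)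
  exact ⟨g, (a4.differentiableOn one_ne_zero).differentiableAt hU,
    mem_of_superset hU fun u' h => h2 u' (a2 h)⟩

end HnrcA

theorem p_HNRC (hPROJ : S_PROJ) (hCHOICE : S_CHOICE) (hDIFF : S_DIFF) (hHCTX : S_HCTX) (hHNRA : S_HNRA) :
    S_HNRC := by
  intro d S D hS n c ok
  have : Fact S_PROJ := ⟨hPROJ⟩
  have hq := ok.dfq
  have hx := ok.dfx
  have hm := ok.dfm
  filter_upwards [hHCTX d S D hS n c ok, HnrcA.sel hCHOICE hDIFF
    (fun (δ : Fin n → (Prop × Prop × Prop) × ℚ × ℚ) (p : E d × (Fin d → ℝ)) =>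
      (∀ j, ((δ j).1.1 → ev p.2 0 (c.x p.1 j) = (δ j).2.1) ∧
        ((δ j).1.2.1 → ev p.2 1 (c.x p.1 j) = 0) ∧
        ((δ j).1.2.2 → c.μ p.1 j * ev p.2 1 (c.x p.1 j) = (δ j).2.2)) ∧
      ¬ ∃ c0 c1 : ℝ, ∀ y, ev p.2 0 y = c0 + c1 * ev (c.q p.1) 0 y) fun δ => by fun_prop]
    with u hc hs hu hd f h1 h2
  have ctx := hc hu
  by_contra hn
  have k1 : ∀ j, ∃ r : ℚ, c.x u j ∈ (c.rd u).N D u.1 → ev f 0 (c.x u j) = r := fun j => by
    by_cases a : c.x u j ∈ (c.rd u).N D u.1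
    · exact (((ctx.fac.memN _).1 a).elim (h1 _) fun b => (h2 _ b).1).imp fun _ b _ => b
    · exact ⟨0, fun b => absurd b a⟩
  have k2 : ∀ j, ∃ r : ℚ, c.x u j ∈ (c.rd u).Z ∧ ¬ (c.rd u).Pin u.1 (c.x u j) →
      c.μ u j * ev f 1 (c.x u j) = r := fun j => by
    by_cases a : c.x u j ∈ (c.rd u).Z ∧ ¬ (c.rd u).Pin u.1 (c.x u j)
    · exact ((h2 _ a.1).2.2 a.2).imp fun _ b _ => ok.mu hu j ▸ b
    · exact ⟨0, fun b => absurd b a⟩
  choose r hr using k1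
  choose r' hr' using k2
  obtain ⟨g, hg, he⟩ := hs (fun j => ((c.x u j ∈ (c.rd u).N D u.1, (c.rd u).IsT u.1 (c.x u j),
    c.x u j ∈ (c.rd u).Z ∧ ¬ (c.rd u).Pin u.1 (c.x u j)), r j, r' j)) f
    ⟨fun j => ⟨hr j, fun a => (h2 _ a.1).2.1 a, hr' j⟩, hn⟩
  have pt : ∀ y ∈ (c.rd u).N D u.1, ∃ j, c.x u j = y := fun y hy =>
    (ok.pts hu y).1 (ctx.fac.node_pts hS hy)
  refine he.self_of_nhds.2 (hHNRA d S D hS _ u _ ctx hd (g u) (fun h => fderiv ℝ g u h)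
    (fun y hy h => ?_) (fun y hy => ?_) fun y hy hp h => ?_)
  · obtain ⟨j, rfl⟩ := pt y hy
    obtain ⟨L, hL, e⟩ := hasFDerivAt_ev hg.hasFDerivAt (ok.hx hu j) 0
    exact (e h).symm.trans (deriv_zero_of_const hL (he.mono fun _ a => (a.1 j).1 hy) h)
  · obtain ⟨j, rfl⟩ := pt y (ctx.fac.Z_mem hy.1)
    obtain ⟨L, hL, e⟩ := hasFDerivAt_ev hg.hasFDerivAt (ok.hx hu j) 1
    exact ⟨(he.self_of_nhds.1 j).2.1 hy, fun h =>
      (e h).symm.trans (deriv_zero_of_const hL (he.mono fun _ a => (a.1 j).2.1 hy) h)⟩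
  · obtain ⟨j, rfl⟩ := pt y (ctx.fac.Z_mem hy)
    obtain ⟨L, hL, e⟩ := hasFDerivAt_ev hg.hasFDerivAt (ok.hx hu j) 1
    have := deriv_zero_of_const ((ok.hm hu j).mul hL) (he.mono fun _ a => (a.1 j).2.2 ⟨hy, hp⟩) h
    simp only [add_apply, smul_apply, smul_eq_mul, e] at this
    rw [ok.mu hu j]
    linear_combination this

end Pool.Agent.P.MP_a0f0ad_al.Fi
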