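import Pool.Agent.P.MP_a0f0ad_al.Fi.H.Iface2
import Pool.Agent.P.MP_a0f0ad_al.Fi.H.Tool
import Pool.Agent.P.MP_a0f0ad_al.Fi.H.ToolP

/-! Step HP0 of the filiform project. -/

namespace Pool.Agent.P.MP_a0f0ad_al.Fi

open Finset MeasureTheory Polynomial Filter Topology
open scoped Classical

theorem p_HP0 (hHDIR0 : S_HDIR0) :
    S_HP0 := by
  refine ⟨1, fun d S D _ _ hS => ?_⟩
  have hL := hS.Lam_pos
  obtain ⟨R, hR⟩ : ∃ R : ℝ, R = 2 * D.Lam + 2 := ⟨_, rfl⟩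
  have hR2 : 2 ≤ R := by linarith
  have hC : 0 < (1 + (2 * R) ^ d) * R ^ d := by positivity
  refine ⟨((1 + (2 * R) ^ d) * R ^ d)⁻¹, inv_pos.2 hC,
    fun ρ u T v t hc hv _ _ ht hP => Or.inl fun z hz => ?_⟩
  obtain ⟨h, -, h1, h2, -, h3⟩ := hHDIR0 d S D hS ρ u T hc 0
    (fun z => 1 / (wA ((ρ.TF u.1).erase z)).eval z) fun _ => rfl
  have hn : ‖h‖ ≤ (1 + (2 * R) ^ d) * R ^ d := by
    rw [Prod.norm_def, h1, norm_zero]
    refine max_le hC.le ((pi_norm_le_iff_of_nonneg hC.le).2 fun i => ?_)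
    have e : h.2 i = ∑ z ∈ ρ.TF u.1,
        (X ^ (i : ℕ) : ℝ[X]).eval z / (wA ((ρ.TF u.1).erase z)).eval z := by
      rw [h3]
      simp [Vd, div_eq_inv_mul]
    rw [e, Real.norm_eq_abs]
    refine (abs_divdiff_le hR2 (fun z hz => ?_) _).trans ?_
    · linarith [hc.fac.abs_node (hc.fac.Z_mem (RD.TF_subset _ hz))]
    · have := (card_le_card (ρ.TF_subset u.1)).trans hc.fac.cardZ
      rw [nr_X_pow]
      gcongr
      · linarith
      · linarith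
      · exact i.2.le
  have h4 := (hP.2 z (RD.TF_subset _ hz) h).trans hn
  rw [h2 z hz, abs_div, abs_one, abs_eval_erase, mul_one_div, div_le_iff₀ (pd_pos _ _)] at h4
  rw [pow_one] at ht
  exact ht.trans ((inv_mul_le_iff₀ hC).2 h4)

end Pool.Agent.P.MP_a0f0ad_al.Fi
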