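import Pool.Agent.P.MP_a0f0ad_al.Fi.H.Iface2
import Pool.Agent.P.MP_a0f0ad_al.Fi.Z.Bm

/-! Step HPART of the filiform project. -/

namespace Pool.Agent.P.MP_a0f0ad_al.Fi

open Finset MeasureTheory Polynomial Filter Topology
open scoped Classical

namespace HpartA

theorem big {d : ℕ} (D : LD d) (ρ : RD d) (a : ℝ) (hd : 6 ≤ d) (hc : ρ.Z.card + 2 = d)
    (h : ∀ z ∈ ρ.Z, ¬ ρ.Pin a z) : d < ρ.eN D a := by
  have e : (∑ z ∈ ρ.Z, if ρ.Pin a z then 1 else 2) = ρ.Z.card * 2 := by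
    rw [Finset.sum_congr rfl fun z hz => if_neg (h z hz), Finset.sum_const, smul_eq_mul]
  rw [RD.eN, e]
  omega

end HpartA

theorem p_HPART :
    S_HPART := by
  intro d S D hd h h0 ρ u m1 M1 μ1 hB haM hZ hc hm1 hM1 hF hq1 hq2 hI hIb
  obtain ⟨hR, hBf, -, hDM, -, -, -⟩ := hB.opt
  have ha := hB.ha
  let ρ' : RD d := ⟨ρ.q, m1, M1, ρ.Z, μ1⟩
  have hz : ∀ x, |ev ρ.q 0 x| = D.Q →
      D.om (ev ρ.q 0 x) = 0 ∧ ρ'.muAt x * ev ρ.q 1 x = 0 := by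
    intro x hx
    refine ⟨by rw [← Bm.om_abs D, hx, h0], ?_⟩
    by_cases k : x ∈ ρ.Z
    · rw [(hZ x k).1.2.2, mul_zero]
    · rw [RD.muAt, if_neg k, zero_mul]
  have e1 : ρ'.DM D = 0 := by
    have k := hz M1 hq2
    change D.om (ev ρ.q 0 M1) - ρ'.muAt M1 * ev ρ.q 1 M1 = 0
    rw [k.1, k.2, sub_zero]
  have e2 : ρ'.Dm D = 0 := by
    have k := hz m1 hq1
    change D.om (ev ρ.q 0 m1) + ρ'.muAt m1 * ev ρ.q 1 m1 = 0
    rw [k.1, k.2, add_zero]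
  refine ⟨HpartA.big D ρ u.1 hd hc fun z hz => (hZ z hz).1.2.1, ρ',
    ⟨⟨hm1.le, hM1.le, by change m1 < M1; linarith, hF, fun z hz => ?_, ?_⟩, ?_, e1.ge,
      fun _ => e1, e2.ge, fun _ => e2, ?_⟩, rfl, rfl, rfl,
    HpartA.big D ρ' u.1 hd hc ?_⟩
  · exact ⟨(hZ z hz).2.1, (hZ z hz).2.2.1, (hR.2.2.2.2.1 z hz).2.2.1, (hZ z hz).2.2.2⟩
  · change u.2 = D.Yq ρ.q m1 M1 u.1 + ∑ z ∈ ρ.Z, μ1 z • Vd 0 z
    refine eq_of_dot_eq fun f => ?_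
    have k1 := h.dot_Yq_sub ρ.q f ρ.m ρ.M m1 M1 u.1
    have k2 := hIb f
    have k3 := congrArg (dot f) hR.2.2.2.2.2
    rw [dot_add_right, dot_sum_right] at k3 ⊢
    simp only [dot_smul_right] at k3 ⊢
    simp only [sub_mul, Finset.sum_sub_distrib, ev] at k2
    linarith
  · have k := h.Bf_sub ρ.q ρ.m ρ.M m1 M1 u
    change D.Bf ρ.q m1 M1 u = D.NN u
    linarith
  · rw [e1, RD.pa, hDM haM]
  · rintro z - (⟨-, k⟩ | ⟨-, k⟩)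
    · exact hm1.ne k
    · exact hM1.ne' k

end Pool.Agent.P.MP_a0f0ad_al.Fi
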