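import Pool.Agent.P.MP_a0f0ad_al.Fi.H.Iface2
import Pool.Agent.P.MP_a0f0ad_al.Fi.H.ToolP

/-! Step HPC of the filiform project. -/

namespace Pool.Agent.P.MP_a0f0ad_al.Fi

open Finset MeasureTheory Polynomial Filter Topology
open scoped Classical

namespace HpcA

/-- the interpolating factor of the test polynomial -/
theorem test {d : ℕ} {R w : ℝ} (hR : 2 ≤ R) (q : Fin d → ℝ) {K SS : Finset ℝ} (hs : SS ⊆ K)
    (hK : ∀ z ∈ K, |z| ≤ R / 2 ∧ ev q 0 z = w) (hd : K.card ≤ d) :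
    ∃ V : ℝ[X], V.degree < K.card ∧ nr R V ≤ (1 + (2 * R) ^ d) * (d * R ^ d * ‖q‖ + |w|) ∧
      (∀ z ∈ SS, ev q 1 z = (wA (SS.erase z)).eval z * V.eval z) ∧
      ∀ z ∈ K, z ∉ SS → V.eval z = 0 := by
  have v0 : ∀ z ∈ K, (pol q - C w).eval z = 0 := fun z hz => by
    rw [eval_sub, eval_C, ← ev0, (hK z hz).2, sub_self]
  obtain ⟨H, h1, h2⟩ := exists_eq_wA_mul hR (fun z hz => (hK z (hs hz)).1) fun z hz => v0 z (hs hz)
  obtain ⟨U, V, h3, h4, -, h5⟩ := exists_div_wA hR (fun z hz => (hK z hz).1) H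
  have e : ∀ z ∈ K, V.eval z = H.eval z := fun z hz => by
    rw [h3, eval_add, eval_mul, eval_wA_eq_zero.2 hz, zero_mul, zero_add]
  have R0 : 0 ≤ R := by linarith
  refine ⟨V, h4, h5.trans (mul_le_mul (add_le_add le_rfl (pow_le_pow_right₀ (by linarith) hd))
    (h2.trans ((nr_sub_le R0 _ _).trans (add_le_add (nr_pol_le (by linarith) q) (nr_C w).le)))
    (nr_nonneg R0 _) (by positivity)), fun z hz => ?_, fun z hz hn => ?_⟩
  · have := congrArg (fun P => (derivative P).eval z) h1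
    simp only [derivative_sub, derivative_C, sub_zero, derivative_mul, eval_add, eval_mul,
      eval_wA_eq_zero.2 hz, zero_mul, add_zero, eval_der_wA hz] at this
    rw [ev1, this, e z (hs hz)]
  · have := v0 z hz
    rw [h1, eval_mul] at this
    rw [e z hz]
    exact (mul_eq_zero.1 this).resolve_left fun a => hn (eval_wA_eq_zero.1 a)

/-- the moments of a divided difference -/
theorem moment {d : ℕ} {R J : ℝ} (hR : 2 ≤ R) {SS : Finset ℝ} (hK : ∀ z ∈ SS, |z| ≤ R / 2)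
    (hd : SS.card ≤ d) (P : ℝ[X]) :
    ‖∑ z ∈ SS, (J * (P.eval z / (wA (SS.erase z)).eval z)) • (Vd 0 z : Fin d → ℝ)‖ ≤
      |J| * ((1 + (2 * R) ^ d) * (nr R P * R ^ d)) := by
  have R0 : 0 ≤ R := by linarith
  have n0 := nr_nonneg R0 P
  refine (pi_norm_le_iff_of_nonneg (by positivity)).2 fun i => ?_
  have e : (∑ z ∈ SS, (J * (P.eval z / (wA (SS.erase z)).eval z)) • (Vd 0 z : Fin d → ℝ)) i =
      J * ∑ z ∈ SS, (P * X ^ (i : ℕ)).eval z / (wA (SS.erase z)).eval z := by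
    rw [Finset.sum_apply, mul_sum]
    refine sum_congr rfl fun z _ => ?_
    simp only [Pi.smul_apply, smul_eq_mul, Vd, Nat.descFactorial_zero, Nat.cast_one, one_mul,
      Nat.sub_zero, eval_mul, eval_pow, eval_X]
    ring
  rw [e, Real.norm_eq_abs, abs_mul]
  refine mul_le_mul_of_nonneg_left ((abs_divdiff_le hR hK _).trans (mul_le_mul
    (add_le_add le_rfl (pow_le_pow_right₀ (by linarith) hd)) ((nr_mul_le R0 _ _).trans ?_)
    (nr_nonneg R0 _) (by positivity))) (abs_nonneg _)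
  rw [nr_X_pow]
  exact mul_le_mul_of_nonneg_left (pow_le_pow_right₀ (by linarith) i.2.le) n0

/-- far points cost a power of the distance -/
theorem far {d : ℕ} {δ y : ℝ} {A B : Finset ℝ} (h0 : 0 ≤ δ) (h1 : δ ≤ 1) (hAB : A ⊆ B)
    (hd : B.card ≤ d) (h : ∀ z ∈ B, z ∉ A → δ ≤ |y - z|) : δ ^ d * pd A y ≤ pd B y := by
  have s := erase_subset_erase y hAB
  rw [pd, pd, ← prod_sdiff s]
  refine mul_le_mul_of_nonneg_right ?_ (prod_nonneg fun _ _ => abs_nonneg _)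
  refine (pow_le_pow_of_le_one h0 h1
    ((card_le_card ((sdiff_subset (t := A.erase y)).trans (erase_subset y B))).trans hd)).trans ?_
  rw [← prod_const]
  refine prod_le_prod (fun _ _ => h0) fun z hz => ?_
  have := mem_sdiff.1 hz
  exact h z (mem_of_mem_erase this.1) fun a => this.2 (mem_erase.2 ⟨ne_of_mem_erase this.1, a⟩)

end HpcA

open HpcA in
theorem p_HPC (hHB2 : S_HB2) (hHJ : S_HJ) (hHDIRX : S_HDIRX) (hHCLUS : S_HCLUS) :
    S_HPC := by
  refine ⟨7, fun d S D hd _ hS => ?_⟩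
  obtain ⟨c1, C1, c10, c11, C11, hB⟩ := hHB2 d S D hS
  obtain ⟨C3, C30, hX⟩ := hHDIRX d S D hS
  have L0 := hS.Lam_pos
  have Q0 := hS.Qpos
  obtain ⟨c2, c20, hCl⟩ := hHCLUS d ⌈C1⌉₊ D.Lam L0.le
  obtain ⟨R, hR⟩ : ∃ R, R = 2 * D.Lam + 4 := ⟨_, rfl⟩
  rw [← hR] at hCl
  have R2 : 2 ≤ R := by linarith
  have R0 : 0 ≤ R := by linarith
  obtain ⟨a, a0, ha⟩ : ∃ a : ℝ, 0 < a ∧ a = (c2 * c1) ^ d := ⟨_, by positivity, rfl⟩
  obtain ⟨F, F0, hF⟩ : ∃ F : ℝ, 0 < F ∧ F = 1 + (2 * R) ^ d := ⟨_, by positivity, rfl⟩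
  obtain ⟨A2, A20, hA2⟩ : ∃ A : ℝ, 0 < A ∧ A = F * (d * R ^ d + D.Q) := ⟨_, by positivity, rfl⟩
  obtain ⟨A4, A40, hA4⟩ : ∃ A : ℝ, 0 ≤ A ∧ A = d * R ^ d * d := ⟨_, by positivity, rfl⟩
  obtain ⟨A5, A50, hA5⟩ : ∃ A : ℝ, 0 < A ∧ A = A2 / a + A4 * A2 := ⟨_, by positivity, rfl⟩
  obtain ⟨A6, A60, hA6⟩ : ∃ A : ℝ, 0 ≤ A ∧ A = C1 * (F * (A4 * R ^ d)) := ⟨_, by positivity, rfl⟩
  refine ⟨a * (c2 * a) / (A5 + (C3 * A5 + A6)), by positivity, ?_⟩
  rintro ρ u T v t H v0 v1 - ht ⟨⟨-, -, hM, hq⟩, ⟨hG, -⟩, hQ⟩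
  refine Or.inl fun y hy hw => ht.trans ?_
  obtain ⟨cN, cJ, -, sep⟩ := hB ρ u H.bas H.fac
  obtain ⟨x1, hx1, hx⟩ := hQ 0 (by linarith) L0.le
  have mM : 0 < ρ.M - ρ.m := sub_pos.2 H.bas.rep.2.2.1
  have nq := H.bas.hq
  have nd := natDegree_der_pol nq
  have yL : ∀ z ∈ ρ.N D u.1, |z| ≤ R / 2 := fun z hz => by linarith [H.fac.abs_node hz]
  obtain ⟨r, δ, W, r1, d1, r0, d2, e, mo, gap, out, ins, nr1⟩ := hCl (derivative (pol ρ.q))
    (ρ.N D u.1) y x1 (min 1 (c1 * (ρ.M - ρ.m))) v (by omega)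
    (by exact_mod_cast cN.trans (Nat.le_ceil C1)) (by linarith [H.fac.abs_node hy])
    (abs_le.2 ⟨by linarith [hx1.1], by linarith [hx1.2]⟩) (by positivity) (min_le_left _ _) v0
    (by rwa [← ev1])
  have δ0 : 0 < δ := lt_of_lt_of_le (by positivity) d1
  have δ1 : δ ≤ 1 := by linarith [min_le_left 1 (c1 * (ρ.M - ρ.m))]
  have δa : a * v ≤ δ ^ d := by
    refine le_trans ?_ (pow_le_pow_left₀ (by positivity) d1 d)
    rw [ha, mul_pow, mul_pow, mul_assoc]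
    refine mul_le_mul_of_nonneg_left ?_ (by positivity)
    rcases min_cases 1 (c1 * (ρ.M - ρ.m)) with b | b <;> rw [b.1]
    · rw [one_pow]
      exact mul_le_one₀ (pow_le_one₀ c10.le c11) v0.le v1
    · rw [mul_pow]
      exact mul_le_mul_of_nonneg_left hM (by positivity)
  have q1 : ∀ x, ev ρ.q 1 x = W.eval x * r1.eval x := fun x => by rw [ev1, e, eval_mul]
  have rne : ∀ x, |x - y| ≤ r → r1.eval x ≠ 0 := fun x b =>
    abs_pos.1 (lt_of_lt_of_le (by positivity) (ins x b))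
  obtain ⟨K, hK⟩ : ∃ K : Finset ℝ, ∀ z, z ∈ K ↔ z ∈ ρ.N D u.1 ∧ |z - y| ≤ r :=
    ⟨(ρ.N D u.1).filter _, fun _ => mem_filter⟩
  obtain ⟨SS, hSS⟩ : ∃ SS : Finset ℝ, ∀ z, z ∈ SS ↔ z ∈ K ∧ ρ.Cls u.1 y z :=
    ⟨K.filter _, fun _ => mem_filter⟩
  have sK : SS ⊆ K := fun z b => ((hSS z).1 b).1
  have yK : y ∈ K := (hK y).2 ⟨hy, by simpa using r0⟩
  have yS : y ∈ SS := (hSS y).2 ⟨yK, rfl, Iff.rfl, Iff.rfl⟩
  have val : ∀ z ∈ K, ev ρ.q 0 z = ev ρ.q 0 y := fun z b => by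
    by_contra n
    linarith [sep z ((hK z).1 b).1 y hy n, ((hK z).1 b).2, min_le_right 1 (c1 * (ρ.M - ρ.m))]
  have nT : ∀ z ∈ K, ¬ ρ.IsT u.1 z := fun z b n => hw.ne (val z b ▸ H.bas.abs_atom n.1)
  have Kd : K.card ≤ d := (card_level_lt nq val).le
  have deg : r1.natDegree + K.card < d := by
    obtain ⟨B, b1, -, b2⟩ := exists_crit ρ.q nq val
    have b3 : B.card ≤ W.natDegree := card_le_natDegree mo.ne_zero fun z b => by
      obtain ⟨b4, s, hs, s', hs', b5, b6⟩ := b2 z b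
      refine (mul_eq_zero.1 ((q1 z).symm.trans b4)).resolve_right (rne z (abs_le.2 ⟨?_, ?_⟩))
      · linarith [(abs_le.1 ((hK s).1 hs).2).1]
      · linarith [(abs_le.1 ((hK s').1 hs').2).2]
    rw [e, mo.natDegree_mul' fun n => rne y ((hK y).1 yK).2 (by rw [n, eval_zero])] at nd
    omega
  obtain ⟨V, V1, V2, V3, V4⟩ := test R2 ρ.q sK (fun z b => ⟨yL z ((hK z).1 b).1, val z b⟩) Kd
  have dG : (r1 * V).degree < d := degree_lt_of_natDegree (natDegree_mul_le.trans_lt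
    (lt_of_le_of_lt (Nat.add_le_add_left (natDegree_le_iff_degree_le.2 V1.le) _) deg))
  have n1 := nr_nonneg R0 r1
  have n2 := nr_nonneg R0 V
  have k1 : v * nr R r1 ≤ A4 := by
    have := mul_le_mul_of_nonneg_left (nr1.trans (nr_der_pol_le (by linarith) ρ.q)) v0.le
    have := mul_le_mul_of_nonneg_left hq A40
    rw [hA4] at this ⊢
    linarith
  have k2 : v * nr R V ≤ A2 := by
    have b1 := mul_le_mul_of_nonneg_left V2 v0.le
    have b2 := mul_le_mul_of_nonneg_left hq (show 0 ≤ d * R ^ d by positivity)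
    have b3 := mul_le_mul v1 hw.le (abs_nonneg _) zero_le_one
    have b4 := mul_le_mul_of_nonneg_left (add_le_add b2 b3) F0.le
    rw [← hF] at b1
    rw [hA2]
    linarith
  have v2 : 0 < v ^ 2 := by positivity
  obtain ⟨B, B0, hB⟩ : ∃ B, 0 ≤ B ∧ B * v ^ 2 = A5 :=
    ⟨A5 / v ^ 2, by positivity, div_mul_cancel₀ _ v2.ne'⟩
  have k3 : nr R r1 * nr R V ≤ B := le_of_mul_le_mul_right (by
    have := mul_le_mul k1 k2 (by positivity) A40
    have : 0 < A2 / a := by positivity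
    nlinarith) v2
  have k4 : ∀ z ∈ ρ.N D u.1, z ∉ K → |V.eval z| ≤ B * |W.eval z| := fun z b n => by
    have b1 := out z ((gap z b).resolve_left fun m => n ((hK z).2 ⟨b, m⟩))
    have b2 := abs_eval_le (show |z| ≤ R by linarith [yL z b]) V
    refine (b2.trans (le_of_mul_le_mul_left (k2.trans ?_) v0)).trans
      (mul_le_mul_of_nonneg_left (δa.trans b1) B0)
    have b3 : a * A5 = A2 + a * (A4 * A2) := by rw [hA5]; field_simp
    have : 0 ≤ a * (A4 * A2) := by positivity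
    rw [← hB] at b3
    linarith
  have g0 : ∀ x, ev (cf d (r1 * V)) 0 x = r1.eval x * V.eval x := fun x => by
    rw [ev_cf0 dG, eval_mul]
  have rat : ∀ z ∈ SS, ev (cf d (r1 * V)) 0 z / ev ρ.q 1 z =
      r1.eval z / (wA (SS.erase z)).eval z := fun z b => by
    have n := H.node_ne hS ((hK z).1 (sK b)).1 (nT z (sK b))
    rw [V3 z b] at n
    rw [g0, V3 z b, mul_div_mul_right _ _ (right_ne_zero_of_mul n)]
  obtain ⟨h, c0, x1, -, -, -, x2, -, x3, x4⟩ := hX ρ u T v B (cf d (r1 * V)) SS H v0 v1 hq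
    (((norm_cf_le_nr (by linarith) d _).trans (nr_mul_le R0 _ _)).trans k3)
    (fun z b => ⟨((hK z).1 (sK b)).1, val z (sK b) ▸ hw⟩) (fun z b => by
      have zN := H.fac.Z_mem b.1
      have b1 := out z ((gap z zN).resolve_left fun m => nT z ((hK z).2 ⟨zN, m⟩) b)
      have b2 : r1.eval z = 0 := (mul_eq_zero.1 ((q1 z).symm.trans b.2.2)).resolve_left
        (abs_pos.1 (lt_of_lt_of_le (by positivity) b1))
      rw [g0, ev_cf1 dG, ev2, e]
      simp only [derivative_mul, eval_add, eval_mul, b2, zero_mul, mul_zero, add_zero, zero_add,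
        abs_mul, true_and]
      linarith [mul_le_mul_of_nonneg_left (k4 z zN fun m => nT z m b)
        (abs_nonneg ((derivative r1).eval z))])
    (fun z b n _ => by
      rw [g0, q1, abs_mul, abs_mul]
      by_cases m : z ∈ K
      · rw [V4 z m n, abs_zero, mul_zero]
        positivity
      · linarith [mul_le_mul_of_nonneg_left (k4 z b m) (abs_nonneg (r1.eval z))])
  rw [sum_congr rfl fun z b => by
    rw [rat z b, ← hHJ d S D hS ρ u T H y hy z ((hK z).1 (sK b)).1 hw ((hSS z).1 b).2]] at x4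
  have m1 := moment (J := ρ.J D u.1 y) R2 (fun z b => yL z ((hK z).1 (sK b)).1)
    ((card_le_card sK).trans Kd) r1
  rw [← hF] at m1
  have m2 : v * ‖h‖ ≤ C3 * B + A6 := by
    have b1 := mul_le_mul_of_nonneg_left ((norm_le_add_norm_add h.2 _).trans
      (add_le_add le_rfl m1)) v0.le
    have b2 := mul_le_mul (cJ y) (mul_le_mul_of_nonneg_left (mul_le_mul_of_nonneg_right k1
      (show 0 ≤ R ^ d by positivity)) F0.le) (by positivity) (by linarith)
    rw [← hA6] at b2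
    rw [Prod.norm_def, mul_max_of_nonneg _ _ v0.le]
    exact max_le (x3.trans (by linarith)) (by linarith)
  have m3 := hG y hy h
  rw [x2 y (H.fac.node_lt hS hy) (H.fac.rng y hy).2.2 (nT y yK), rat y yS] at m3
  have P0 := pd_pos SS y
  have m4 : c2 * v * (a * v) / pd SS y ≤ B + |c0 - r1.eval y / (wA (SS.erase y)).eval y| := by
    have b1 := abs_sub c0 (c0 - r1.eval y / (wA (SS.erase y)).eval y)
    rw [sub_sub_cancel, abs_div, abs_eval_erase] at b1
    have b2 := (mul_le_mul_of_nonneg_left δa (by positivity)).trans (ins y ((hK y).1 yK).2)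
    linarith [div_le_div_of_nonneg_right b2 P0.le]
  have m5 : c2 * a * v ^ 6 ≤ (A5 + (C3 * A5 + A6)) * pd SS y := by
    have b1 := mul_le_mul_of_nonneg_left m4 (show 0 ≤ v ^ 4 by positivity)
    have b2 := mul_le_mul_of_nonneg_left ((mul_le_mul_of_nonneg_left m3 v0.le).trans m2) v2.le
    have b3 : v ^ 2 ≤ 1 := pow_le_one₀ v0.le v1
    have b4 := mul_le_of_le_one_left A50.le b3
    have b5 := mul_le_of_le_one_left A60 b3
    rw [← div_le_iff₀ P0]
    have b6 : c2 * a * v ^ 6 / pd SS y = v ^ 4 * (c2 * v * (a * v) / pd SS y) := by ring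
    rw [← hB] at b4 ⊢
    linarith
  refine le_trans ?_ (far (A := SS) δ0.le δ1 (fun z b => mem_filter.2 ⟨((hK z).1 (sK b)).1,
    ((hSS z).1 b).2⟩) (card_level_lt nq fun z b => (mem_filter.1 b).2.1.symm).le fun z b n => ?_)
  · rw [div_mul_eq_mul_div, div_le_iff₀ (by positivity)]
    linarith [mul_le_mul δa m5 (by positivity) (by positivity)]
  · have b1 := mem_filter.1 b
    have := (gap z b1.1).resolve_left fun m => n ((hSS z).2 ⟨(hK z).2 ⟨b1.1, m⟩, b1.2⟩)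
    rw [abs_sub_comm]
    linarith

end Pool.Agent.P.MP_a0f0ad_al.Fi
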