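import Pool.Agent.P.MP_a0f0ad_al.Fi.H.Iface2
import Pool.Agent.P.MP_a0f0ad_al.Fi.H.ToolP

/-! Step HPR of the filiform project. -/

namespace Pool.Agent.P.MP_a0f0ad_al.Fi

open Finset MeasureTheory Polynomial Filter Topology
open scoped Classical

namespace HprA

theorem split_le {K : Finset ℝ} (P : ℝ → Prop) {y a b : ℝ} (b0 : 0 ≤ b)
    (ha : ∀ S : Finset ℝ, (∀ z, z ∈ S ↔ z ∈ K ∧ P z) → a ≤ pd S y)
    (hb : ∀ S : Finset ℝ, (∀ z, z ∈ S ↔ z ∈ K ∧ ¬ P z) → b ≤ pd S y) : a * b ≤ pd K y := by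
  have e : pd K y = pd (K.filter P) y * pd (K.filter fun z => ¬ P z) y := by
    rw [pd, pd, pd, ← filter_erase, ← filter_erase, prod_filter_mul_prod_filter_not]
  rw [e]
  exact mul_le_mul (ha _ fun _ => mem_filter) (hb _ fun _ => mem_filter) b0 (pd_pos _ _).le

theorem gen {A : Finset ℝ} {y v p : ℝ} {d : ℕ} (h0 : 0 < v) (h1 : v ≤ 1) (p0 : 0 ≤ p) (p1 : p ≤ 1)
    (hd : A.card ≤ d) (md : ∀ z ∈ A, y ≠ z → v ≤ |y - z|) (h : ∀ z ∈ A, p ≤ pd A z) :
    v * p / 2 ^ d ≤ pd A y := by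
  by_cases hy : y ∈ A
  · exact (div_le_self (by positivity) (one_le_pow₀ one_le_two)).trans
      ((mul_le_of_le_one_left p0 h1).trans (h y hy))
  · rw [pd, erase_eq_of_notMem hy]
    exact (div_le_div_of_nonneg_left (by positivity) (by positivity)
      (pow_le_pow_right₀ one_le_two hd)).trans
      (le_prod_dist h1 p0 p1 (fun z hz => md z hz fun e => hy (e ▸ hz)) h)

end HprA

open HprA

theorem p_HPR :
    S_HPR := by
  refine ⟨8, fun d S D _ _ hS => ?_⟩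
  obtain ⟨L, hL⟩ : ∃ L, L = max 1 D.Lam := ⟨_, rfl⟩
  have L1 : 1 ≤ L := hL ▸ le_max_left _ _
  have L2 : D.Lam ≤ L := hL ▸ le_max_right _ _
  have Ld : 1 ≤ L ^ d := one_le_pow₀ L1
  have t1 : (1 : ℝ) ≤ 2 ^ d := one_le_pow₀ one_le_two
  refine ⟨(L ^ d * (2 ^ d) ^ 4)⁻¹, by positivity,
    fun ρ u T v t hC v0 v1 _ ht ⟨hMD, hP0, hPC⟩ => Or.inl fun y hy => ht.trans ?_⟩
  have F := hC.fac
  obtain ⟨K, hK⟩ : ∃ K, K = (ρ.N D u.1).filter fun y' => ev ρ.q 0 y' = ev ρ.q 0 y := ⟨_, rfl⟩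
  have mK : ∀ z, z ∈ K ↔ z ∈ ρ.N D u.1 ∧ ev ρ.q 0 z = ev ρ.q 0 y := fun z => hK ▸ mem_filter
  have cK : K.card ≤ d := (card_level_lt hC.hq fun z hz => ((mK z).1 hz).2).le
  have md : ∀ z ∈ K, y ≠ z → v ≤ |y - z| := fun z hz => hMD y hy z ((mK z).1 hz).1
  rw [← hK]
  by_cases hq : |ev ρ.q 0 y| < D.Q
  · have fib : ∀ (T : Finset ℝ) (A B : ℝ → Prop), (∀ z, z ∈ T ↔ (z ∈ K ∧ A z) ∧ B z) →
        (∀ z, A z → ∀ z', A z' ↔ (0 < ev ρ.q 1 z ↔ 0 < ev ρ.q 1 z')) →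
        (∀ z, B z → ∀ z', B z' ↔ ((0 < z ∧ z < u.1) ↔ (0 < z' ∧ z' < u.1))) →
        v * v / 2 ^ d ≤ pd T y := fun T A B hT hA hB => by
      have s : T ⊆ K := fun z hz => ((hT z).1 hz).1.1
      refine gen v0 v1 v0.le v1 ((card_le_card s).trans cK) (fun z hz => md z (s hz)) fun z hz => ?_
      simp only [hT, mK] at hz
      have e : T = (ρ.N D u.1).filter (ρ.Cls u.1 z) := by
        ext z'
        simp only [hT, mem_filter, mK, RD.Cls, hA z hz.1.2 z', hB z hz.2 z', hz.1.1.2,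
          eq_comm (a := ev ρ.q 0 y), and_assoc]
      rw [e]
      exact hPC z hz.1.1.1 (hz.1.1.2 ▸ hq)
    have w0 : 0 ≤ v * v / 2 ^ d := by positivity
    have fi2 : ∀ (T : Finset ℝ) (A : ℝ → Prop), (∀ z, z ∈ T ↔ z ∈ K ∧ A z) →
        (∀ z, A z → ∀ z', A z' ↔ (0 < ev ρ.q 1 z ↔ 0 < ev ρ.q 1 z')) →
        v * v / 2 ^ d * (v * v / 2 ^ d) ≤ pd T y := fun T A hT hA =>
      split_le (fun z => 0 < z ∧ z < u.1) w0
        (fun R hR => fib R A (fun z => 0 < z ∧ z < u.1) (fun z => by rw [hR, hT]) hA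
          fun z hz z' => (true_iff _).symm.to_iff.trans (iff_congr (iff_true_intro hz).symm Iff.rfl))
        (fun R hR => fib R A (fun z => ¬ (0 < z ∧ z < u.1)) (fun z => by rw [hR, hT]) hA
          fun z hz z' => (false_iff _).symm.to_iff.trans
            (iff_congr (iff_false_intro hz).symm Iff.rfl))
    refine le_trans ?_ (split_le (fun z => 0 < ev ρ.q 1 z) (mul_nonneg w0 w0)
      (fun R hR => fi2 R _ hR fun z hz z' =>
        (true_iff _).symm.to_iff.trans (iff_congr (iff_true_intro hz).symm Iff.rfl))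
      (fun R hR => fi2 R _ hR fun z hz z' =>
        (false_iff _).symm.to_iff.trans (iff_congr (iff_false_intro hz).symm Iff.rfl)))
    calc (L ^ d * (2 ^ d) ^ 4)⁻¹ * v ^ 8 ≤ (1 * (2 ^ d) ^ 4)⁻¹ * v ^ 8 := by gcongr
      _ = _ := by field_simp
  · have cT : (ρ.TF u.1).card ≤ d := (card_filter_le _ _).trans F.cardZ
    have nT : ∀ z ∈ ρ.TF u.1, |z| ≤ D.Lam / 3 := fun z hz =>
      F.abs_node ((F.memN z).2 (Or.inr (mem_of_mem_filter _ hz)))
    have a1 : ∀ R : Finset ℝ, (∀ z, z ∈ R ↔ z ∈ K ∧ z ∈ ρ.TF u.1) →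
        v * (v / L ^ d) / 2 ^ d ≤ pd R y := fun R hR => by
      have s : R ⊆ K := fun z hz => ((hR z).1 hz).1
      refine gen v0 v1 (by positivity) ((div_le_self v0.le Ld).trans v1)
        ((card_le_card s).trans cK) (fun z hz => md z (s hz)) fun z hz => ?_
      have hz' := ((hR z).1 hz).2
      rw [div_le_iff₀' (by positivity)]
      refine (hP0 z hz').trans ((pd_le_subset L1 (fun x hx => ((hR x).1 hx).2) fun x hx => ?_).trans
        (mul_le_mul_of_nonneg_right (pow_le_pow_right₀ L1 cT) (pd_pos _ _).le))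
      linarith [abs_sub z x, nT z hz', nT x hx, hS.Lam_pos]
    have a2 : ∀ R : Finset ℝ, (∀ z, z ∈ R ↔ z ∈ K ∧ ¬ z ∈ ρ.TF u.1) → v ^ 2 ≤ pd R y :=
      fun R hR => by
      have s : R ⊆ {ρ.m, ρ.M} := fun z hz => by
        obtain ⟨h1, h2⟩ := (hR z).1 hz
        obtain ⟨h3, h4⟩ := (mK z).1 h1
        simpa using (F.top z h3 (h4 ▸ hq)).2.resolve_left h2
      refine (pow_le_pow_of_le_one v0.le v1
        ((card_erase_le (a := y)).trans ((card_le_card s).trans card_le_two))).trans ?_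
      rw [← prod_const]
      exact prod_le_prod (fun _ _ => v0.le) fun z hz =>
        md z ((hR z).1 (mem_of_mem_erase hz)).1 (ne_of_mem_erase hz).symm
    refine le_trans ?_ (split_le (fun z => z ∈ ρ.TF u.1) (by positivity) a1 a2)
    calc (L ^ d * (2 ^ d) ^ 4)⁻¹ * v ^ 8 ≤ (L ^ d * (2 ^ d) ^ 1)⁻¹ * v ^ 4 :=
          mul_le_mul (by gcongr; norm_num) (pow_le_pow_of_le_one v0.le v1 (by norm_num))
            (by positivity) (by positivity)
      _ = _ := by field_simp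

end Pool.Agent.P.MP_a0f0ad_al.Fi
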