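import Pool.Agent.P.MP_a0f0ad_al.Fi.H.Iface2
import Pool.Agent.P.MP_a0f0ad_al.Fi.V.Iface
import Pool.Agent.P.MP_a0f0ad_al.Fi.N.Iface
import Pool.Agent.P.MP_a0f0ad_al.Fi.H.Tool
import Pool.Agent.P.MP_a0f0ad_al.Fi.H.ToolP

/-! Step HQL of the filiform project. -/

namespace Pool.Agent.P.MP_a0f0ad_al.Fi

open Finset MeasureTheory Polynomial Filter Topology
open scoped Classical

namespace HqlA

theorem le_eN {d : ℕ} {D : LD d} {ρ : RD d} {u : E d} {v : ℝ} (h : ρ.Fac D u) (hv : 0 < v)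
    (hD : ρ.DEN D u.1 v) : d ≤ ρ.eN D u.1 := by
  by_contra hlt
  rw [not_le, h.eN] at hlt
  have hm : (wA (ρ.N D u.1) * wA (ρ.Z.filter fun z => ¬ ρ.Pin u.1 z)).Monic :=
    (wA_monic _).mul (wA_monic _)
  have hd : (wA (ρ.N D u.1) * wA (ρ.Z.filter fun z => ¬ ρ.Pin u.1 z)).degree < (d : WithBot ℕ) := by
    refine degree_lt_of_natDegree (natDegree_mul_le.trans_lt ?_)
    rwa [natDegree_wA, natDegree_wA]
  have h0 : ∀ y ∈ ρ.N D u.1,
      |ev (cf d (wA (ρ.N D u.1) * wA (ρ.Z.filter fun z => ¬ ρ.Pin u.1 z))) 0 y| ≤ 0 :=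
    fun y hy => by rw [ev_cf0 hd, eval_mul, eval_wA_eq_zero.2 hy, zero_mul, abs_zero]
  have := hD _ 0 le_rfl (fun x hx => h0 x ((h.memN x).2 (Or.inl hx))) fun z hz =>
    ⟨h0 z (h.Z_mem hz), fun hp => by
      rw [ev_cf1 hd, derivative_mul, eval_add, eval_mul, eval_mul, eval_wA_eq_zero.2 (h.Z_mem hz),
        (eval_wA_eq_zero (A := ρ.Z.filter fun z => ¬ ρ.Pin u.1 z)).2 (mem_filter.2 ⟨hz, hp⟩)]
      simp⟩
  have h1 := norm_le_zero_iff.1 (nonpos_of_mul_nonpos_right this hv |> fun a => a)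
  exact hm.ne_zero (by rw [← pol_cf hd, h1, pol_eq_zero])

end HqlA

theorem p_HQL (hMARK : S_MARK) (hQLOW : S_QLOW) :
    S_HQL := by
  refine ⟨0, fun d S D _ _ hS => ?_⟩
  obtain ⟨c0, hc0, hq⟩ := hQLOW d S D hS
  obtain ⟨C, hC, hM⟩ := hMARK d (2 * D.Lam)
  have hL := hS.Lam_pos
  refine ⟨c0 * D.Lam ^ d / (2 * C), by positivity, fun ρ u T v t hx hv _ ht htc hP => Or.inl ?_⟩
  intro s hs1 hs2
  by_contra hn
  push Not at hn
  obtain ⟨⟨i, hi⟩, h1, h2⟩ := hq u _ ρ hx.bas.ha hx.bas.hN hx.bas.opt hx.bas.hq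
    (HqlA.le_eN hx.fac hv hP)
  obtain ⟨i, rfl⟩ := Nat.exists_eq_add_of_le' (show 1 ≤ i from h1)
  have h3 := (hM (cf d (derivative (pol ρ.q))) s (s + D.Lam) t (by linarith) hs1 (by linarith)
    fun x hx => by rw [ev_cf_der]; exact (hn x hx).le).1
  have h4 := abs_coeff_le_of_lt (derivative (pol ρ.q)) (show i < d by omega)
  rw [coeff_derivative, coeff_pol, co, dif_pos hi, abs_mul,
    abs_of_nonneg (show (0 : ℝ) ≤ (i : ℝ) + 1 by positivity)] at h4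
  have h5 : c0 ≤ ‖cf d (derivative (pol ρ.q))‖ :=
    h2.trans ((le_mul_of_one_le_right (abs_nonneg _)
      (le_add_of_nonneg_left (Nat.cast_nonneg i))).trans h4)
  rw [add_sub_cancel_left] at h3
  rw [pow_zero, mul_one, le_div_iff₀ (by positivity)] at htc
  have h6 := mul_le_mul_of_nonneg_right h5 (pow_pos hL d).le
  have h7 := mul_pos hC ht
  linarith

end Pool.Agent.P.MP_a0f0ad_al.Fi
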