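import Pool.Agent.P.MP_a0f0ad_al.Fi.H.Iface2
import Pool.Agent.P.MP_a0f0ad_al.Fi.H.Tool

/-! Step HR12 of the filiform project. -/

namespace Pool.Agent.P.MP_a0f0ad_al.Fi

open Finset MeasureTheory Polynomial Filter Topology
open scoped Classical

namespace Hr12A

theorem mv_le {f f' : ℝ → ℝ} (hf : ∀ z, HasDerivAt f (f' z) z) {x y B : ℝ}
    (hB : ∀ z ∈ Set.uIcc x y, |f' z| ≤ B) : |f y - f x| ≤ B * |y - x| :=
  (convex_uIcc x y).norm_image_sub_le_of_norm_hasDerivWithin_le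
    (fun z _ => (hf z).hasDerivWithinAt) hB Set.left_mem_uIcc Set.right_mem_uIcc

theorem mv_ge' {f f' : ℝ → ℝ} (hf : ∀ z, HasDerivAt f (f' z) z) {x y B : ℝ} (hxy : x < y)
    (hB : ∀ z ∈ Set.uIcc x y, B ≤ |f' z|) : B * |y - x| ≤ |f y - f x| := by
  obtain ⟨c, hc, e⟩ := exists_hasDerivAt_eq_slope f f' hxy
    (fun z _ => (hf z).continuousAt.continuousWithinAt) fun z _ => hf z
  have h1 := hB c (Set.mem_uIcc_of_le hc.1.le hc.2.le)
  rw [e, abs_div, le_div_iff₀ (abs_pos.2 (sub_pos.2 hxy).ne')] at h1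
  exact h1

theorem mv_ge {f f' : ℝ → ℝ} (hf : ∀ z, HasDerivAt f (f' z) z) {x y B : ℝ}
    (hB : ∀ z ∈ Set.uIcc x y, B ≤ |f' z|) : B * |y - x| ≤ |f y - f x| := by
  rcases lt_trichotomy x y with h | h | h
  · exact mv_ge' hf h hB
  · simp [h]
  · rw [abs_sub_comm y, abs_sub_comm (f y)]
    exact mv_ge' hf h fun z hz => hB z (by rwa [Set.uIcc_comm])

theorem zero_mono {g : ℝ → ℝ} (hg : Continuous g) {b1 b2 x v : ℝ} (h1 : b1 < x) (h2 : x < b2)
    (hm : StrictMonoOn g (Set.Icc b1 b2)) (hb1 : v ≤ |g b1|) (hb2 : v ≤ |g b2|) (hx : |g x| < v) :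
    ∃ c ∈ Set.Ioo b1 b2, g c = 0 ∧ ∀ y ∈ Set.uIcc x c, |g y| ≤ |g x| := by
  have hle : b1 ≤ b2 := (h1.trans h2).le
  have hxI : x ∈ Set.Icc b1 b2 := ⟨h1.le, h2.le⟩
  have a1 : g b1 < g x := hm (Set.left_mem_Icc.2 hle) hxI h1
  have a2 : g x < g b2 := hm hxI (Set.right_mem_Icc.2 hle) h2
  have hx' := abs_lt.1 hx
  have a3 : g b1 < 0 := by
    by_contra a
    rw [abs_of_nonneg (not_lt.1 a)] at hb1
    linarith [hx'.2]
  have a4 : 0 < g b2 := by
    by_contra a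
    rw [abs_of_nonpos (not_lt.1 a)] at hb2
    linarith [hx'.1]
  obtain ⟨c, hc, e⟩ := intermediate_value_Ioo hle hg.continuousOn (Set.mem_Ioo.2 ⟨a3, a4⟩)
  refine ⟨c, hc, e, fun y hy => ?_⟩
  have hcI : c ∈ Set.Icc b1 b2 := ⟨hc.1.le, hc.2.le⟩
  have hyI : y ∈ Set.Icc b1 b2 := Set.uIcc_subset_Icc hxI hcI hy
  rcases Set.mem_uIcc.1 hy with h | h
  · have e1 := hm.monotoneOn hxI hyI h.1
    have e2 := hm.monotoneOn hyI hcI h.2
    rw [e] at e2
    rw [abs_of_nonpos e2, abs_of_nonpos (e1.trans e2)]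
    linarith
  · have e1 := hm.monotoneOn hcI hyI h.1
    have e2 := hm.monotoneOn hyI hxI h.2
    rw [e] at e1
    rw [abs_of_nonneg e1, abs_of_nonneg (e1.trans e2)]
    exact e2

theorem mono_of_pos {g g' : ℝ → ℝ} (hg : ∀ z, HasDerivAt g (g' z) z) {b1 b2 : ℝ}
    (h : ∀ y ∈ Set.Ioo b1 b2, 0 < g' y) : StrictMonoOn g (Set.Icc b1 b2) := by
  refine strictMonoOn_of_deriv_pos (convex_Icc _ _)
    (fun z _ => (hg z).continuousAt.continuousWithinAt) fun y hy => ?_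
  rw [interior_Icc] at hy
  rw [(hg y).deriv]
  exact h y hy

theorem zero_near {g g' : ℝ → ℝ} (hg : ∀ z, HasDerivAt g (g' z) z) (hg' : Continuous g')
    {b1 b2 x v : ℝ} (h1 : b1 < x) (h2 : x < b2) (hne : ∀ y ∈ Set.Ioo b1 b2, g' y ≠ 0)
    (hb1 : v ≤ |g b1|) (hb2 : v ≤ |g b2|) (hx : |g x| < v) :
    ∃ c ∈ Set.Ioo b1 b2, g c = 0 ∧ ∀ y ∈ Set.uIcc x c, |g y| ≤ |g x| := by
  have hc : Continuous g := continuous_iff_continuousAt.2 fun z => (hg z).continuousAt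
  rcases lt_or_gt_of_ne (hne x ⟨h1, h2⟩) with h | h
  · have hneg : ∀ y ∈ Set.Ioo b1 b2, 0 < -g' y := fun y hy => by
      rw [neg_pos]
      by_contra a
      obtain ⟨z, hz, e⟩ := isPreconnected_Ioo.intermediate_value (Set.mem_Ioo.2 ⟨h1, h2⟩) hy
        hg'.continuousOn (Set.mem_Icc.2 ⟨h.le, not_lt.1 a⟩)
      exact hne z hz e
    obtain ⟨c, hc1, hc2, hc3⟩ := zero_mono (g := fun z => -g z) (v := v) hc.neg h1 h2
      (mono_of_pos (g' := fun z => -g' z) (fun z => (hg z).neg) hneg)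
      (by rwa [abs_neg]) (by rwa [abs_neg]) (by rwa [abs_neg])
    exact ⟨c, hc1, neg_eq_zero.1 hc2, fun y hy => by simpa only [abs_neg] using hc3 y hy⟩
  · have hpos : ∀ y ∈ Set.Ioo b1 b2, 0 < g' y := fun y hy => by
      by_contra a
      obtain ⟨z, hz, e⟩ := isPreconnected_Ioo.intermediate_value hy (Set.mem_Ioo.2 ⟨h1, h2⟩)
        hg'.continuousOn (Set.mem_Icc.2 ⟨not_lt.1 a, h.le⟩)
      exact hne z hz e
    exact zero_mono hc h1 h2 (mono_of_pos hg hpos) hb1 hb2 hx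

theorem window {g : ℝ → ℝ} (hg : Continuous g) {x1 x x2 v : ℝ} (h1 : x1 ≤ x) (h2 : x ≤ x2)
    (a1 : v ≤ |g x1|) (a2 : v ≤ |g x2|) (hx : |g x| < v) :
    ∃ b1 b2, x1 ≤ b1 ∧ b1 < x ∧ x < b2 ∧ b2 ≤ x2 ∧ v ≤ |g b1| ∧ v ≤ |g b2| ∧
      ∀ y ∈ Set.Ioo b1 b2, |g y| < v := by
  have hcl : IsClosed {y | v ≤ |g y|} := isClosed_le continuous_const hg.abs
  obtain ⟨b1, hb1⟩ := ((isCompact_Icc (a := x1) (b := x)).inter_right hcl).exists_isGreatest
    ⟨x1, ⟨le_rfl, h1⟩, a1⟩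
  obtain ⟨b2, hb2⟩ := ((isCompact_Icc (a := x) (b := x2)).inter_right hcl).exists_isLeast
    ⟨x2, ⟨h2, le_rfl⟩, a2⟩
  have e1 : v ≤ |g b1| := hb1.1.2
  have e2 : v ≤ |g b2| := hb2.1.2
  refine ⟨b1, b2, hb1.1.1.1, lt_of_le_of_ne hb1.1.1.2 fun e => ?_,
    lt_of_le_of_ne hb2.1.1.1 fun e => ?_, hb2.1.1.2, e1, e2, fun y hy => ?_⟩
  · rw [e] at e1; linarith
  · rw [← e] at e2; linarith
  · by_contra a
    rcases le_total y x with h | h
    · exact absurd (hb1.2 ⟨⟨hb1.1.1.1.trans hy.1.le, h⟩, not_lt.1 a⟩) (not_le.2 hy.1)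
    · exact absurd (hb2.2 ⟨⟨h, hy.2.le.trans hb2.1.1.2⟩, not_lt.1 a⟩) (not_le.2 hy.2)

end Hr12A

open Hr12A in
theorem p_HR12 :
    S_HR12 := by
  refine ⟨2, fun d S D _ _ hS => ?_⟩
  obtain ⟨CV, hCV, hV⟩ := exists_Vd_bound d (2 * D.Lam + 1)
  obtain ⟨c1, hc1, hc11, -, -, hgap, -⟩ := hS.exists_slack
  have hL := hS.Lam_pos
  set c : ℝ := min (min (1 / 4) (1 / (2 * CV))) (c1 / (2 * (1 + D.Lam))) with hc
  have hc0 : 0 < c := lt_min (lt_min (by norm_num) (by positivity)) (by positivity)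
  have hca : c ≤ 1 / 4 := (min_le_left _ _).trans (min_le_left _ _)
  have hcb : c * (2 * CV) ≤ 1 := by
    rw [← le_div_iff₀ (by positivity)]
    exact (min_le_left _ _).trans (min_le_right _ _)
  have hcc : c * (2 * (1 + D.Lam)) ≤ c1 := by
    rw [← le_div_iff₀ (by positivity)]
    exact min_le_right _ _
  refine ⟨c, hc0, fun ρ u T v t hC hv hv1 ht htv hP => Or.inl ?_⟩
  obtain ⟨⟨-, -, -, hq⟩, hQL, ⟨-, hTH⟩, ⟨hTV1, hTV2⟩, hMU1, hMU2, -⟩ := hP
  have hv2 : v ^ 2 ≤ v := by nlinarith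
  have htc : t ≤ c * v := htv.trans (mul_le_mul_of_nonneg_left hv2 hc0.le)
  have ht4 : t ≤ v / 4 := by nlinarith
  have ht1 : t ≤ 1 := by linarith
  have h3 : ∀ y, |y| ≤ 2 * D.Lam + 1 → |ev ρ.q 3 y| ≤ CV / v := fun y hy => by
    refine ((hV 3 y hy).2 ρ.q).trans ?_
    rw [le_div_iff₀ hv]
    nlinarith [norm_nonneg ρ.q]
  have h2 : ∀ z, ρ.IsT u.1 z → ∀ x, |x - z| ≤ t → v / 2 ≤ |ev ρ.q 2 x| := fun z hz x hx => by
    have a1 : |z| ≤ D.Lam / 3 := hC.fac.abs_node (hC.fac.Z_mem hz.1)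
    have a2 := mv_le (hasDerivAt_ev ρ.q 2) (x := z) (y := x) (B := CV / v) fun y hy => h3 y (by
      have b1 := (Set.abs_sub_left_of_mem_uIcc hy).trans hx
      have b2 := abs_add_le z (y - z)
      rw [add_sub_cancel] at b2
      linarith)
    have a3 : CV / v * |x - z| ≤ v / 2 := by
      refine (mul_le_mul_of_nonneg_left (hx.trans htv) (by positivity)).trans ?_
      rw [div_mul_eq_mul_div, div_le_iff₀ hv]
      nlinarith [sq_nonneg v]
    have a4 := hTH z hz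
    have a5 := abs_sub_abs_le_abs_sub (ev ρ.q 2 z) (ev ρ.q 2 x)
    rw [abs_sub_comm] at a5
    linarith
  refine ⟨fun z hz => ⟨?_, ?_, ?_, fun x hx => ?_⟩, fun x hx w hw hxw => ?_⟩
  · linarith [hMU1 z hz.mem_TF]
  · linarith [(hMU2 z hz).1]
  · linarith [(hMU2 z hz).2]
  · linarith [h2 z hz x hx]
  · by_contra hcon
    rw [not_or, not_le] at hcon
    obtain ⟨hx1, hno⟩ := hcon
    have hx' := abs_le.1 hx
    have htt : t ^ 2 ≤ t := by nlinarith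
    obtain ⟨x1, hx1I, a1⟩ := hQL (x - D.Lam) (by linarith) (by linarith)
    obtain ⟨x2, hx2I, a2⟩ := hQL x (by linarith) hx'.2
    obtain ⟨b1, b2, e1, e2, e3, e4, e5, e6, e7⟩ := window (continuous_ev ρ.q 1)
      (x := x) (by linarith [hx1I.2]) hx2I.1 a1 a2 (by linarith)
    have hin : ∀ y ∈ Set.Ioo b1 b2, |y - x| ≤ D.Lam ∧ |y| < 2 * D.Lam := fun y hy => by
      rw [abs_le, abs_lt]
      refine ⟨⟨?_, ?_⟩, ?_, ?_⟩ <;> linarith [hy.1, hy.2, hx1I.1, hx2I.2]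
    obtain ⟨z, hzI, hz0, hzb⟩ := zero_near (hasDerivAt_ev ρ.q 1) (continuous_ev ρ.q 2) e2 e3
      (fun y hy a => absurd (hTV2 y (hin y hy).2 a) (not_le.2 (e7 y hy))) e5 e6 (by linarith)
    have f1 := mv_le (hasDerivAt_ev ρ.q 0) (x := x) (y := z) (B := t) fun y hy =>
      (hzb y hy).trans (hx1.le.trans htt)
    have f2 : |ev ρ.q 0 z - w| ≤ t * (1 + D.Lam) := by
      have g1 := abs_sub_le (ev ρ.q 0 z) (ev ρ.q 0 x) w
      have g2 := mul_le_mul_of_nonneg_left (hin z hzI).1 ht.le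
      linarith
    have f3 : t * (1 + D.Lam) ≤ c1 * v / 2 := by
      have g1 := mul_le_mul_of_nonneg_right htc (by linarith : 0 ≤ 1 + D.Lam)
      have g2 := mul_le_mul_of_nonneg_right hcc hv.le
      nlinarith
    by_cases hT : ρ.IsT u.1 z
    · refine hno ⟨z, hT, ?_, ?_⟩
      · by_contra a
        rw [not_le] at a
        obtain ⟨y, hy, hyz⟩ : ∃ y ∈ Set.uIcc x z, |y - z| = t := by
          rcases le_total x z with h | h
          · rw [abs_of_nonpos (by linarith)] at a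
            exact ⟨z - t, Set.mem_uIcc_of_le (by linarith) (by linarith), by
              rw [sub_sub_cancel_left, abs_neg, abs_of_pos ht]⟩
          · rw [abs_of_nonneg (by linarith)] at a
            exact ⟨z + t, Set.mem_uIcc_of_ge (by linarith) (by linarith), by
              rw [add_sub_cancel_left, abs_of_pos ht]⟩
        have g1 := mv_ge (hasDerivAt_ev ρ.q 1) (x := z) (y := y) (B := v / 2) fun s hs =>
          h2 z hT s ((Set.abs_sub_left_of_mem_uIcc hs).trans hyz.le)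
        rw [hz0, sub_zero, hyz] at g1
        have g2 := hzb y hy
        nlinarith
      · by_contra a
        have g1 := hgap _ (D.ThA_of_abs (hC.bas.abs_atom hT.1)) w hw a
        nlinarith
    · have g1 := hTV1 z (hin z hzI).2 hz0 hT w hw
      nlinarith

end Pool.Agent.P.MP_a0f0ad_al.Fi
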