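import Pool.Agent.P.MP_a0f0ad_al.Fi.H.Iface2
import Pool.Agent.P.MP_a0f0ad_al.Fi.V.Iface

/-! Step HS0 of the filiform project. -/

namespace Pool.Agent.P.MP_a0f0ad_al.Fi

open Finset MeasureTheory Polynomial Filter Topology
open scoped Classical

namespace Hs0A

variable {d : ℕ}

theorem box {a : ℝ} {r : Fin d → ℝ} (ha : 0 ≤ a) (hr : ∀ j, 0 ≤ r j) :
    volume {u : E d | |u.1| ≤ a ∧ ∀ j, |u.2 j| ≤ r j} = ENNReal.ofReal (2 * a * ∏ j, 2 * r j) := by
  have e : {u : E d | |u.1| ≤ a ∧ ∀ j, |u.2 j| ≤ r j} = Set.Icc (-a) a ×ˢ Set.Icc (-r) r := by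
    ext u
    simp only [Set.mem_ofPred_eq, Set.mem_prod, Set.mem_Icc, abs_le, Pi.le_def, Pi.neg_apply,
      forall_and]
  rw [e, Measure.volume_eq_prod, Measure.prod_prod, Real.volume_Icc, Real.volume_Icc_pi,
    ENNReal.ofReal_mul (by positivity),
    ENNReal.ofReal_prod_of_nonneg fun j _ => mul_nonneg zero_le_two (hr j)]
  simp only [Pi.neg_apply, sub_neg_eq_add, two_mul]

theorem ell_nonneg (u : E d) : 0 ≤ ell u := (abs_nonneg _).trans (le_max_left _ _)

theorem coord {u : E d} {l : ℝ} (h : ell u ≤ l) (l1 : l ≤ 1) {j : Fin d} (hj : (j : ℕ) ≠ 0) :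
    |u.2 j| ≤ l := by
  have h1 : |u.2 j| ^ (((j : ℕ) : ℝ)⁻¹) ≤ l := by
    refine le_trans ?_ ((le_max_right _ _).trans h)
    have := le_ciSup (f := fun j : Fin d => if (j : ℕ) = 0 then (0 : ℝ) else
      |u.2 j| ^ (((j : ℕ) : ℝ)⁻¹)) (Set.finite_range _).bddAbove j
    rwa [if_neg hj] at this
  have h2 := pow_le_pow_left₀ (by positivity) h1 j
  rw [Real.rpow_inv_natCast_pow (abs_nonneg _) hj] at h2
  exact h2.trans (pow_le_of_le_one ((ell_nonneg u).trans h) l1 hj)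

theorem thin (hd : d ≠ 0) {L s : ℝ} (hL : 0 ≤ L) (s0 : 0 < s) (s1 : s ≤ 1) :
    volume {u : E d | ‖u‖ ≤ L ∧ ell u ^ d < s} ≤ ENNReal.ofReal (2 * L * 2 ^ d * s) := by
  obtain ⟨n, rfl⟩ := Nat.exists_eq_succ_of_ne_zero hd
  set l : ℝ := s ^ (((n + 1 : ℕ) : ℝ)⁻¹) with hl
  have l0 : 0 ≤ l := by positivity
  have l1 : l ≤ 1 := Real.rpow_le_one s0.le s1 (by positivity)
  have l2 : l ^ (n + 1) = s := Real.rpow_inv_natCast_pow s0.le hd
  have hb := box (a := l) (r := fun j : Fin (n + 1) => if (j : ℕ) = 0 then L else l) l0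
    fun j => by split_ifs <;> assumption
  refine (measure_mono fun u hu => ?_).trans (hb.trans ?_).le
  · have h1 : ell u ≤ l := (lt_of_pow_lt_pow_left₀ (n + 1) l0 (l2 ▸ hu.2)).le
    refine ⟨(le_max_left _ _).trans h1, fun j => ?_⟩
    split_ifs with hj
    · exact (norm_le_pi_norm u.2 j).trans ((norm_snd_le u).trans hu.1)
    · exact coord h1 l1 hj
  · rw [Fin.prod_univ_succ, ← l2]
    simp only [Fin.val_zero, if_true, Fin.val_succ, Nat.add_eq_zero_iff, one_ne_zero, and_false,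
      if_false, prod_const, card_univ, Fintype.card_fin, Nat.succ_eq_add_one]
    refine congrArg _ ?_
    ring

theorem slab {L s : ℝ} (hL : 0 ≤ L) (s0 : 0 ≤ s) :
    volume {u : E d | ‖u‖ ≤ L ∧ |u.1| ≤ s} ≤ ENNReal.ofReal (2 * (2 * L) ^ d * s) := by
  refine (measure_mono fun u hu => ?_).trans
    ((box (a := s) (r := fun _ : Fin d => L) s0 fun _ => hL).trans ?_).le
  · exact ⟨hu.2, fun j => (norm_le_pi_norm u.2 j).trans ((norm_snd_le u).trans hu.1)⟩
  · simp only [prod_const, card_univ, Fintype.card_fin]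
    refine congrArg _ ?_
    ring

end Hs0A

open Hs0A in
theorem p_HS0 (hMARK : S_MARK) (hPEN : S_PEN) (hHOM : S_HOM) (hPUB : S_PUB) (hHB1 : S_HB1) :
    S_HS0 := by
  refine ⟨2, two_pos, fun d S D h6 he hD n c hc => ?_⟩
  obtain ⟨L, L0, hL⟩ := hc.bdd.exists_pos_norm_le
  obtain ⟨k, k0, hk⟩ := (hHOM d S D hD).2.2.2.2 1
  obtain ⟨C, C0, hC⟩ := hMARK d (D.Lam / 3)
  have Q0 := hD.Qpos
  set s₀ : ℝ := min (k ^ d) (k ^ d / (C * D.Q)) with hs₀
  have p0 : 0 < s₀ := by positivity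
  refine ⟨2 * (2 * L) ^ d + 2 * L * 2 ^ d + 2 * (2 * L) ^ d * L / s₀, fun s s0 s1 => ?_⟩
  have a1 : 0 ≤ 2 * (2 * L) ^ d * s := by positivity
  have a2 : 0 ≤ 2 * L * 2 ^ d * s := by positivity
  have a3 : 0 ≤ 2 * (2 * L) ^ d * L / s₀ * s := by positivity
  rcases le_total s s₀ with hs | hs
  · refine (measure_mono (t := {u : E d | ‖u‖ ≤ L ∧ |u.1| ≤ s} ∪ {u | ‖u‖ ≤ L ∧ ell u ^ d < s})
      fun u hu => ?_).trans ((measure_union_le _ _).trans
        ((add_le_add (slab L0.le s0.le) (thin (by omega) L0.le s0 s1)).trans ?_))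
    · by_contra hn
      simp only [Set.mem_union, Set.mem_ofPred_eq, hL u hu.1, true_and, not_or, not_le,
        not_lt] at hn
      have b : (c.rd u).Bas D u := (hc.enc u hu.1).2.2.2
      have f := hHB1 d S D hD _ u b
      obtain ⟨r, e, -⟩ := b.opt
      have ss : s ^ 2 ≤ s := by nlinarith only [s0, s1]
      have h1 := hk u _ _ r.1 b.ha.le r.2.1 r.2.2.1
        (((hPUB d S D hD u _ b.ha.le r).1.trans e).trans_le b.hN)
      have h2 : k ^ d * s ≤ ((c.rd u).M - (c.rd u).m) ^ d :=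
        (mul_le_mul_of_nonneg_left hn.2 (by positivity)).trans ((mul_pow _ _ _).symm.trans_le
          (pow_le_pow_left₀ (mul_nonneg k0.le (ell_nonneg u)) h1 d))
      have h3 := (hC _ _ _ _ r.2.2.1 f.lo f.hi r.2.2.2.1).1
      have h4 := mul_le_mul_of_nonneg_left h2 (norm_nonneg (c.rd u).q)
      have h5 : s * (C * D.Q) ≤ k ^ d := (le_div_iff₀ (by positivity)).1 (hs.trans (min_le_right _ _))
      have h6 := mul_le_mul_of_nonneg_right (hs.trans (min_le_left _ _)) s0.le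
      have h7 := mul_le_mul_of_nonneg_left (h4.trans h3) s0.le
      refine hu.2 ⟨ss.trans (hn.1.le.trans_eq (abs_of_pos b.ha)), ss.trans hn.2,
        by linarith only [h2, h6], le_of_mul_le_mul_left (a := k ^ d) ?_ (by positivity)⟩
      linarith only [h5, h7]
    · rw [← ENNReal.ofReal_add a1 a2]
      exact ENNReal.ofReal_le_ofReal (by linarith)
  · refine (measure_mono (t := {u : E d | ‖u‖ ≤ L ∧ |u.1| ≤ L}) fun u hu =>
      ⟨hL u hu.1, (norm_fst_le u).trans (hL u hu.1)⟩).trans ((slab L0.le L0.le).trans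
        (ENNReal.ofReal_le_ofReal ?_))
    have : 2 * (2 * L) ^ d * L ≤ 2 * (2 * L) ^ d * L / s₀ * s := by
      rw [div_mul_eq_mul_div, le_div_iff₀ p0]
      exact mul_le_mul_of_nonneg_left hs (by positivity)
    linarith

end Pool.Agent.P.MP_a0f0ad_al.Fi
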