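import Pool.Agent.P.MP_a0f0ad_al.Fi.H.Iface2
import Pool.Agent.P.MP_a0f0ad_al.Fi.S.Iface
import Pool.Agent.P.MP_a0f0ad_al.Fi.H.Iface
import Pool.Agent.P.MP_a0f0ad_al.Fi.H.Defn
import Pool.Agent.P.MP_a0f0ad_al.Fi.Z.Bl

/-! Step HSA of the filiform project. -/

namespace Pool.Agent.P.MP_a0f0ad_al.Fi

open Finset MeasureTheory Polynomial Filter Topology
open scoped Classical

namespace HsaA

open DefnA

variable {d n : ℕ} {X : Type} [NormedAddCommGroup X] [NormedSpace ℝ X] [Fact S_PROJ]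
  [FiniteDimensional ℝ X]

theorem df_lp0 (D : LD d) : DF D.lp := by
  refine (DF.sum (range (D.n + 1)) fun k => DF.indicator (sa_idx D IsPM.id k)
    (f := fun w : ℝ => (1 - ((D.A k).b : ℝ) * w) / ((D.A k).a : ℝ)) (by fun_prop)).congr
    fun w => ?_
  exact split D (fun w => w) (fun k w => (1 - ((D.A k).b : ℝ) * w) / ((D.A k).a : ℝ)) w

theorem df_om (D : LD d) {φ : X → ℝ} (h : DF φ) : DF fun z => D.om (φ z) :=
  ((df_lp0 D).comp h).add ((df_lp0 D).comp h.neg)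

theorem dp_ThA (D : LD d) {φ : X → ℝ} (h : DF φ) : DP fun z => φ z ∈ D.ThA := by
  have : Finite D.ThA := D.finite_ThA
  exact (DP.ex_fin fun w : D.ThA => DP.eq h (DF.const (w : ℝ))).congr fun z =>
    ⟨fun a => ⟨⟨_, a⟩, rfl⟩, fun ⟨w, a⟩ => a ▸ w.2⟩

theorem dp_Pts (D : LD d) {q : X → Fin d → ℝ} {a y : X → ℝ} (hq : DF q) (ha : DF a)
    (hy : DF y) : DP fun z => y z ∈ D.Pts (q z) (a z) := by
  have h := dp_ThA D (df_ev hq hy 0)
  exact DP.and (by fun_prop) ((DP.eq hy (DF.const 0)).or ((DP.eq hy ha).or (h.or (by fun_prop))))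

theorem df_Vd {x : X → ℝ} (hx : DF x) (k : ℕ) : DF fun z => (Vd k (x z) : Fin d → ℝ) :=
  (IsPM.df (IsPM.pi fun j => pm_Vd IsPM.id k j)).comp hx

variable {jm jM : Fin n} {Zs : Finset (Fin n)} {q : X → Fin d → ℝ} {x μ : X → Fin n → ℝ}

theorem df_mu (hx : DF x) (hμ : DF μ) {y : X → ℝ} (hy : DF y) :
    DF fun z => (mkrd jm jM Zs (q z) (x z) (μ z)).mu (y z) :=
  DF.sum univ fun j => DF.ite (DP.eq ((DF.apply j).comp hx) hy) ((DF.apply j).comp hμ)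
    (DF.const 0)

theorem df_muAt (hx : DF x) (hμ : DF μ) {y : X → ℝ} (hy : DF y) :
    DF fun z => (mkrd jm jM Zs (q z) (x z) (μ z)).muAt (y z) := by
  have h : DP fun z => y z ∈ Zs.image (x z) :=
    (DP.ex_fin fun j => (DP.const (j ∈ Zs)).and (DP.eq ((DF.apply j).comp hx) hy)).congr
      fun z => mem_image
  exact DF.ite h (df_mu hx hμ hy) (DF.const 0)

theorem df_DM (D : LD d) (hq : DF q) (hx : DF x) (hμ : DF μ) :
    DF fun z => (mkrd jm jM Zs (q z) (x z) (μ z)).DM D := by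
  have h := (DF.apply jM).comp hx
  exact (df_om D (df_ev hq h 0)).sub ((df_muAt hx hμ h).mul (df_ev hq h 1))

theorem df_Dm (D : LD d) (hq : DF q) (hx : DF x) (hμ : DF μ) :
    DF fun z => (mkrd jm jM Zs (q z) (x z) (μ z)).Dm D := by
  have h := (DF.apply jm).comp hx
  exact (df_om D (df_ev hq h 0)).add ((df_muAt hx hμ h).mul (df_ev hq h 1))

theorem dp_mono (hx : DF x) : DP fun z => StrictMono (x z) :=
  DP.all_fin fun i => DP.all_fin fun j => (DP.const (i < j)).imp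
    (DP.lt ((DF.apply i).comp hx) ((DF.apply j).comp hx))

theorem dp_Rep (D : LD d) {u : X → E d}
    (hY : DF fun x : (Fin d → ℝ) × ℝ × ℝ × ℝ => D.Yq x.1 x.2.1 x.2.2.1 x.2.2.2)
    (hu : DF u) (hq : DF q) (hx : DF x) (hμ : DF μ) :
    DP fun z => StrictMono (x z) ∧ (mkrd jm jM Zs (q z) (x z) (μ z)).Rep D (u z) := by
  have hj : ∀ j, DF fun z => x z j := fun j => (DF.apply j).comp hx
  have h1 : DP fun z => ∀ j, j ∈ Zs → x z jm ≤ x z j ∧ x z j ≤ x z jM ∧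
      |ev (q z) 0 (x z j)| = D.Q ∧
      0 < (mkrd jm jM Zs (q z) (x z) (μ z)).mu (x z j) * ev (q z) 0 (x z j) :=
    DP.all_fin fun j => (DP.const _).imp ((DP.le (hj _) (hj _)).and ((DP.le (hj _) (hj _)).and
      ((DP.eq (df_ev hq (hj _) 0).abs (DF.const _)).and
        (DP.lt (DF.const _) ((df_mu hx hμ (hj _)).mul (df_ev hq (hj _) 0))))))
  have h2 : DP fun z => (u z).2 = D.Yq (q z) (x z jm) (x z jM) (u z).1 +
      ∑ j ∈ Zs, (mkrd jm jM Zs (q z) (x z) (μ z)).mu (x z j) • Vd 0 (x z j) :=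
    DP.eq hu.snd ((hY.comp (hq.prodMk ((hj jm).prodMk ((hj jM).prodMk hu.fst)))).add
      (DF.sum Zs fun j => (df_mu hx hμ (hj j)).smul (df_Vd (hj j) 0)))
  refine ((dp_mono hx).and ((DP.le (hj jm) (DF.const 0)).and ((DP.le hu.fst (hj jM)).and
    ((DP.lt (hj jm) (hj jM)).and ((dp_feas D hq (hj jm) (hj jM)).and (h1.and h2)))))).congr
    fun z => and_congr_right fun hm => ?_
  refine and_congr Iff.rfl (and_congr Iff.rfl (and_congr Iff.rfl (and_congr Iff.rfl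
    (and_congr forall_mem_image ?_))))
  rw [← sum_image (f := fun y => (mkrd jm jM Zs (q z) (x z) (μ z)).mu y • Vd 0 y)
    hm.injective.injOn]
  exact Iff.rfl

end HsaA

open HsaA DefnA in
theorem p_HSA (hPROJ : S_PROJ) (hDEFN : S_DEFN) :
    S_HSA := by
  intro d S D hD n jm jM Zs
  have : Fact S_PROJ := ⟨hPROJ⟩
  obtain ⟨hB, hY, -, hN, hG⟩ := hDEFN d S D hD
  have hu : DF fun p : E d × (Fin d → ℝ) × (Fin n → ℝ) × (Fin n → ℝ) => p.1 := DF.id.fst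
  have hq : DF fun p : E d × (Fin d → ℝ) × (Fin n → ℝ) × (Fin n → ℝ) => p.2.1 := DF.id.snd.fst
  have hx : DF fun p : E d × (Fin d → ℝ) × (Fin n → ℝ) × (Fin n → ℝ) => p.2.2.1 :=
    DF.id.snd.snd.fst
  have hμ : DF fun p : E d × (Fin d → ℝ) × (Fin n → ℝ) × (Fin n → ℝ) => p.2.2.2 :=
    DF.id.snd.snd.snd
  have hm := (DF.apply jm).comp hx
  have hM := (DF.apply jM).comp hx
  have h0 := hN.df.comp hu
  have g1 : DP fun p : E d × (Fin d → ℝ) × (Fin n → ℝ) × (Fin n → ℝ) =>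
      ∃ g : E d, (0 < p.1.1 ∧ Grad D.NN g p.1) ∧ g.2 = p.2.1 :=
    DP.ex ((DP.mem hG (DF.id.fst.fst.prodMk DF.id.snd)).and
      (DP.eq DF.id.snd.snd DF.id.fst.snd.fst))
  have g2 : DP fun p : E d × (Fin d → ℝ) × (Fin n → ℝ) × (Fin n → ℝ) =>
      ∀ y, y ∈ D.Pts p.2.1 p.1.1 ↔ ∃ j, p.2.2.1 j = y :=
    DP.all ((dp_Pts D DF.id.fst.snd.fst DF.id.fst.fst.fst DF.id.snd).iff
      (DP.ex_fin fun j => DP.eq ((DF.apply j).comp DF.id.fst.snd.snd.fst) DF.id.snd))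
  have g3 : DP fun p : E d × (Fin d → ℝ) × (Fin n → ℝ) × (Fin n → ℝ) =>
      ∀ j, j ∉ Zs → p.2.2.2 j = 0 :=
    DP.all_fin fun j => (DP.const _).imp (DP.eq ((DF.apply j).comp hμ) (DF.const 0))
  have g4 : DP fun p : E d × (Fin d → ℝ) × (Fin n → ℝ) × (Fin n → ℝ) => Nonconst p.2.1 :=
    DP.ex_fin fun j => (DP.const _).and (DP.ne ((DF.apply j).comp hq) (DF.const 0))
  have g5 := DP.eq ((saf_univ.1 hB).comp (hq.prodMk (hm.prodMk (hM.prodMk hu)))) h0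
  have dM := df_DM (jm := jm) (jM := jM) (Zs := Zs) D hq hx hμ
  have dm := df_Dm (jm := jm) (jM := jM) (Zs := Zs) D hq hx hμ
  have g6 := (DP.le (DF.const 0) dM).and (((DP.lt hu.fst hM).imp (DP.eq dM (DF.const 0))).and
    ((DP.le (DF.const 0) dm).and ((DP.lt hm (DF.const 0)).imp (DP.eq dm (DF.const 0)))))
  refine ((DP.lt (DF.const 0) hu.fst).and (g1.and (g2.and (g3.and (g4.and
    ((dp_Rep (jm := jm) (jM := jM) (Zs := Zs) D (saf_univ.1 hY) hu hq hx hμ).and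
      ((DP.le h0 (DF.const 1)).and (g5.and g6)))))))).congr fun p => ?_
  constructor
  · rintro ⟨⟨g, a1, a2⟩, b1, b2, b3, b4, b5, b6, b7, b8, b9, c1, c2, c3, -⟩
    rw [Set.indicator_of_mem (s := {u : E d | 0 < u.1}) b4]
    exact ⟨b4, ⟨g, ⟨b4, a1⟩, a2⟩, b2, b3, b6, ⟨b1, b7⟩, b5, b8, b9, c1, c2, c3⟩
  · rintro ⟨b4, ⟨g, ⟨-, a1⟩, a2⟩, b2, b3, b6, ⟨b1, b7⟩, b5, b8, b9, c1, c2, c3⟩
    rw [Set.indicator_of_mem (s := {u : E d | 0 < u.1}) b4] at b5 b8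
    exact ⟨⟨g, a1, a2⟩, b1, b2, b3, b4, b5, b6, b7, b8, b9, c1, c2, c3, rfl⟩

end Pool.Agent.P.MP_a0f0ad_al.Fi
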