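import Pool.Agent.P.MP_a0f0ad_al.Fi.H.Iface2

/-! Step HSTEP of the filiform project. -/

namespace Pool.Agent.P.MP_a0f0ad_al.Fi

open Finset MeasureTheory Polynomial Filter Topology
open scoped Classical

namespace HstepA

theorem add {x y : ENNReal} {a b c : ℝ} (h : x ≤ ENNReal.ofReal a) (h' : y ≤ ENNReal.ofReal b)
    (e : |a| + |b| ≤ c) : x + y ≤ ENNReal.ofReal c := by
  refine (add_le_add (h.trans (ENNReal.ofReal_le_ofReal (le_abs_self a)))
    (h'.trans (ENNReal.ofReal_le_ofReal (le_abs_self b)))).trans ?_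
  rw [← ENNReal.ofReal_add (abs_nonneg a) (abs_nonneg b)]
  exact ENNReal.ofReal_le_ofReal e

end HstepA

theorem p_HSTEP (hHCTX : S_HCTX) (hHHIT1 : S_HHIT1) (hHHIT2 : S_HHIT2) :
    S_HSTEP := by
  constructor
  · rintro P Q ⟨k, hk, hP⟩ ⟨j, hI⟩
    refine ⟨k * j + 2, by omega, fun d S D hd he hS n c hc => ?_⟩
    obtain ⟨C0, h0⟩ := hP d S D hd he hS n c hc
    obtain ⟨a, a0, ha⟩ := hI d S D hd he hS
    obtain ⟨C1, h1⟩ := hHHIT1 d S D hS n c hc
    obtain ⟨C2, h2⟩ := hHHIT2 d S D hS n c hc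
    have hU : volume c.U ≠ ⊤ := hc.bdd.measure_lt_top.ne
    have u0 : 0 ≤ (volume c.U).toReal := ENNReal.toReal_nonneg
    refine ⟨|C0| + (|C1| + |C2|) + (volume c.U).toReal / a, fun s s0 s1 => ?_⟩
    rcases le_total a s with e | e
    · refine (measure_mono fun u hu => hu.1).trans ?_
      rw [← ENNReal.ofReal_toReal hU]
      refine ENNReal.ofReal_le_ofReal ?_
      rw [ENNReal.toReal_ofReal u0, add_mul]
      refine le_add_of_nonneg_of_le (by positivity) ?_
      rw [div_mul_eq_mul_div, le_div_iff₀ a0]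
      exact mul_le_mul_of_nonneg_left e u0
    · have v0 : 0 < s ^ k := by positivity
      have t0 : 0 < s ^ (k * j + 2) := by positivity
      have l0 : 0 < a * (s ^ k) ^ j := by positivity
      have e1 : s ^ (k * j + 2) ≤ s * (a * (s ^ k) ^ j) := by
        rw [pow_add, pow_mul, pow_two, mul_comm, mul_assoc]
        gcongr
      have e2 : s ^ (k * j + 2) ≤ a * (s ^ k) ^ j := e1.trans (mul_le_of_le_one_left l0.le s1)
      have e3 : ∀ C : ℝ, |C * s ^ (k * j + 2) / (a * (s ^ k) ^ j)| ≤ |C| * s := fun C => by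
        rw [mul_div_assoc, abs_mul, abs_of_pos (div_pos t0 l0)]
        exact mul_le_mul_of_nonneg_left ((div_le_iff₀ l0).2 e1) (abs_nonneg C)
      have b1 := HstepA.add (h1 _ _ t0 l0) (h2 _ _ t0 l0) (add_le_add (e3 C1) (e3 C2))
      refine le_trans ?_ (HstepA.add (h0 s s0 s1) b1 ?_)
      · refine le_trans (measure_mono_ae ?_) ((measure_union_le _ _).trans
          (add_le_add le_rfl (measure_union_le _ _)))
        filter_upwards [hHCTX d S D hS n c hc] with u hu h
        by_cases e4 : P d D (c.rd u) u (c.tan u) (s ^ k)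
        · rcases ha _ _ _ _ _ (hu h.1) v0 (pow_le_one₀ s0.le s1) t0 e2 e4 with e5 | e5 | e5
          · exact absurd e5 h.2
          · exact Or.inr (Or.inl ⟨h.1, e5⟩)
          · exact Or.inr (Or.inr ⟨h.1, hu h.1, e5⟩)
        · exact Or.inl ⟨h.1, e4⟩
      · rw [abs_mul, abs_of_pos s0, abs_of_nonneg (a := _ + _) (by positivity), add_mul, add_mul,
          add_mul]
        exact le_add_of_nonneg_right (by positivity)
  · rintro P Q mP mQ ⟨k, hk, hP⟩ ⟨k', -, hQ⟩
    refine ⟨k + k', by omega, fun d S D hd he hS n c hc => ?_⟩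
    obtain ⟨C, h⟩ := hP d S D hd he hS n c hc
    obtain ⟨C', h'⟩ := hQ d S D hd he hS n c hc
    refine ⟨|C| + |C'|, fun s s0 s1 => le_trans ?_ (HstepA.add (h s s0 s1) (h' s s0 s1) ?_)⟩
    · refine le_trans (measure_mono fun u hu => ?_) (measure_union_le _ _)
      have t0 : 0 < s ^ (k + k') := by positivity
      rcases not_and_or.1 hu.2 with e | e
      · exact Or.inl ⟨hu.1, fun e' => e (mP _ _ _ _ _ _ _ t0
          (pow_le_pow_of_le_one s0.le s1 (by omega)) e')⟩
      · exact Or.inr ⟨hu.1, fun e' => e (mQ _ _ _ _ _ _ _ t0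
          (pow_le_pow_of_le_one s0.le s1 (by omega)) e')⟩
    · rw [abs_mul, abs_mul, abs_of_pos s0, add_mul]

end Pool.Agent.P.MP_a0f0ad_al.Fi
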