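import Pool.Agent.P.MP_a0f0ad_al.Fi.H.Iface2
import Pool.Agent.P.MP_a0f0ad_al.Fi.H.Tool

/-! Step HTANS of the filiform project. -/

namespace Pool.Agent.P.MP_a0f0ad_al.Fi

open Finset MeasureTheory Polynomial Filter Topology
open scoped Classical

namespace HtansA

variable {d : ℕ} {S : Finset (G d)} {D : LD d} {ρ : RD d} {u : E d} {T : Tan d}

theorem ev_z (k : ℕ) (x : ℝ) : ev (0 : Fin d → ℝ) k x = 0 := by simp [ev, dot]

theorem exists_ne {q : Fin d → ℝ} (hq : Nonconst q) (y : ℝ) : ∃ k, ev q (k + 1) y ≠ 0 := by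
  by_contra hc
  push Not at hc
  refine lt_irrefl _ (lt_rootMultiplicity_of_isRoot_iterate_derivative (t := y)
    ((nonconst_iff q).1 hq) fun m _ => ?_)
  have := hc m
  rwa [ev_eq_eval, Function.iterate_succ_apply] at this

theorem inj (hS : D.Spec S) (hW : CtxW D ρ u T) (hF : ρ.Fac D u) {h : E d} (h1 : T.Dq h = 0)
    (h2 : h.1 = 0) (h3 : ∀ z ∈ ρ.TF u.1, T.Dm z h = 0) : h = 0 := by
  have hx : ∀ y ∈ ρ.N D u.1, T.Dx y h = 0 := by
    intro y hy
    have e := exists_ne hW.hq y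
    have e1 := Nat.find_spec e
    have e2 : T.Dev ρ (Nat.find e) y h = 0 := by
      rcases hk : Nat.find e with _ | k
      · exact hW.dval y (hF.node_lt hS hy) (hF.rng y hy).2.2 h
      · exact hW.dk y (hF.node_pts hS hy) _ (by omega)
          (not_not.1 (Nat.find_min e (by omega))) h
    rw [Tan.Dev, h1, ev_z, zero_add] at e2
    exact (mul_eq_zero.1 e2).resolve_left e1
  have hm : ∀ z ∈ ρ.Z, T.Dm z h = 0 := by
    intro z hz
    by_cases c : z ∈ ρ.TF u.1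
    · exact h3 z c
    rw [RD.mem_TF, not_and, not_or] at c
    have e := hW.dW z hz (c hz).1 (c hz).2 h
    rw [Tan.Dmq, Tan.Dev, h1, ev_z, hx z (hF.Z_mem hz), mul_zero, add_zero, mul_zero,
      add_zero] at e
    exact (mul_eq_zero.1 e).resolve_right (c hz).2
  refine Prod.ext h2 ?_
  rw [hW.dy h, Finset.sum_eq_zero, Finset.sum_eq_zero, add_zero, Prod.snd_zero]
  · intro z hz
    rw [hm z hz, hx z (hF.Z_mem hz), mul_zero, zero_smul, zero_smul, add_zero]
  · intro y hy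
    rcases mem_insert.1 hy with rfl | hy
    · rw [hW.da, h2, mul_zero, zero_smul]
    · rw [hx y hy, mul_zero, zero_smul]

/-- the derivative of the parameters -/
noncomputable def Lm (T : Tan d) (A : Finset ℝ) : E d →ₗ[ℝ] (Fin d → ℝ) × ℝ × (A → ℝ) :=
  T.Dq.toLinearMap.prod
    ((LinearMap.fst ℝ ℝ (Fin d → ℝ)).prod (LinearMap.pi fun z => (T.Dm z).toLinearMap))

/-- the constraints -/
noncomputable def Th (d : ℕ) (A : Finset ℝ) (c : ℝ → ℝ) :
    ((Fin d → ℝ) × ℝ × (A → ℝ)) →ₗ[ℝ] A → ℝ where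
  toFun v z := ev v.1 0 z + c z * v.2.1
  map_add' v v' := by
    funext z
    simp only [Prod.fst_add, Prod.snd_add, ev_add, Pi.add_apply]
    ring
  map_smul' r v := by
    funext z
    simp only [Prod.smul_fst, Prod.smul_snd, ev_smul, Pi.smul_apply, smul_eq_mul, RingHom.id_apply]
    ring

theorem rank_Th {A : Finset ℝ} (hA : A.card ≤ d) (c : ℝ → ℝ) :
    Module.finrank ℝ (LinearMap.ker (Th d A c)) = d + 1 := by
  have h1 : LinearMap.range (Th d A c) = ⊤ := by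
    refine LinearMap.range_eq_top.2 fun r => ?_
    have hi : Set.InjOn (Subtype.val : A → ℝ) (univ : Finset A) := Subtype.val_injective.injOn
    have h2 := Lagrange.degree_interpolate_lt r hi
    rw [card_univ, Fintype.card_coe] at h2
    refine ⟨(cf d (Lagrange.interpolate univ Subtype.val r), 0, 0), funext fun z => ?_⟩
    change ev _ 0 z + c z * 0 = _
    rw [ev_cf (h2.trans_le (by exact_mod_cast hA)), mul_zero, add_zero]
    exact Lagrange.eval_interpolate_at_node r hi (mem_univ z)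
  have h2 := LinearMap.finrank_range_add_finrank_ker (Th d A c)
  rw [h1, finrank_top] at h2
  simp only [Module.finrank_prod, Module.finrank_fintype_fun_eq_card, Module.finrank_self,
    Fintype.card_fin] at h2
  omega

theorem surj (hS : D.Spec S) (hW : CtxW D ρ u T) (hF : ρ.Fac D u) (g : Fin d → ℝ) (da : ℝ)
    (ν : ℝ → ℝ) (hg : ∀ z ∈ ρ.TF u.1, ev g 0 z + (if z = u.1 then ev ρ.q 1 z * da else 0) = 0) :
    ∃ h : E d, T.Dq h = g ∧ h.1 = da ∧ ∀ z ∈ ρ.TF u.1, T.Dm z h = ν z := by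
  have e : LinearMap.range (Lm T (ρ.TF u.1)) =
      LinearMap.ker (Th d (ρ.TF u.1) fun z => if z = u.1 then ev ρ.q 1 z else 0) := by
    refine Submodule.eq_of_le_of_finrank_eq ?_ ?_
    · rintro _ ⟨h, rfl⟩
      funext ⟨z, hz⟩
      have hN := hF.Z_mem (ρ.TF_subset _ hz)
      refine Eq.trans ?_ (hW.dval z (hF.node_lt hS hN) (hF.rng z hN).2.2 h)
      change ev (T.Dq h) 0 z + (if z = u.1 then ev ρ.q 1 z else 0) * h.1 =
        ev (T.Dq h) 0 z + ev ρ.q 1 z * T.Dx z h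
      split_ifs with c
      · rw [c, hW.da]
      · rcases (RD.mem_TF.1 hz).2 with (a | a) | a
        · rw [a.1, hW.d0, mul_zero, zero_mul]
        · exact absurd a.1 c
        · rw [a, zero_mul, zero_mul]
    · rw [rank_Th ((card_le_card (ρ.TF_subset _)).trans hF.cardZ), LinearMap.finrank_range_of_inj]
      · simp [add_comm]
      · refine (injective_iff_map_eq_zero _).2 fun h hh => ?_
        exact inj hS hW hF (congrArg Prod.fst hh) (congrArg (fun v => v.2.1) hh)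
          fun z hz => congrFun (congrArg (fun v => v.2.2) hh) ⟨z, hz⟩
  obtain ⟨h, hh⟩ : (g, da, fun z : ρ.TF u.1 => ν z) ∈ LinearMap.range (Lm T (ρ.TF u.1)) := by
    rw [e]
    funext ⟨z, hz⟩
    refine Eq.trans ?_ (hg z hz)
    change ev g 0 z + (if z = u.1 then ev ρ.q 1 z else 0) * da = _
    rw [ite_mul, zero_mul]
  exact ⟨h, congrArg Prod.fst hh, congrArg (fun v => v.2.1) hh,
    fun z hz => congrFun (congrArg (fun v => v.2.2) hh) ⟨z, hz⟩⟩

theorem dir (hS : D.Spec S) (hW : CtxW D ρ u T) (hF : ρ.Fac D u) (hc : (ρ.TF u.1).card < d) :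
    ∃ h : E d, (∀ y, y = 0 ∨ y = u.1 → T.Dx y h = 0) ∧ (∀ y ∉ ρ.TF u.1, ev (T.Dq h) 0 y ≠ 0) ∧
      ∀ z ∈ ρ.TF u.1, ev (T.Dq h) 1 z ≠ 0 := by
  have hd : (Lagrange.nodal (ρ.TF u.1) id).degree < d := by
    rw [Lagrange.degree_nodal]
    exact_mod_cast hc
  obtain ⟨h, h1, h2, -⟩ := surj hS hW hF (cf d (Lagrange.nodal (ρ.TF u.1) id)) 0 0 fun z hz => by
    rw [mul_zero, ite_self, add_zero, ev_cf hd]
    exact Lagrange.eval_nodal_at_node (v := id) hz
  refine ⟨h, ?_, fun y hy => ?_, fun z hz => ?_⟩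
  · rintro y (rfl | rfl)
    · exact hW.d0 h
    · rw [hW.da, h2]
  · rw [h1, ev_cf hd]
    exact Lagrange.eval_nodal_not_at_node fun i hi e => hy (e ▸ hi)
  · rw [h1, ev_cf hd, Function.iterate_one]
    refine (Lagrange.eval_nodal_derivative_eval_node_eq (v := id) hz).trans_ne ?_
    exact Lagrange.eval_nodal_not_at_node fun i hi e => (mem_erase.1 hi).1 e.symm

theorem cases_TF {a z : ℝ} (hz : z ∈ ρ.TF a) : z ∈ ρ.TT a ∨ ρ.Pin a z := by
  by_cases c : ρ.Pin a z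
  · exact .inr c
  · exact .inl (RD.mem_TT.2 ⟨(RD.mem_TF.1 hz).1, c, (RD.mem_TF.1 hz).2.resolve_left c⟩)

theorem card2 (a : ℝ) : (ρ.TF a).card ≤ (ρ.TT a).card + 2 := by
  have : ρ.TF a ⊆ insert 0 (insert a (ρ.TT a)) := fun z hz => by
    rcases cases_TF hz with c | c | c
    · simp [c]
    · simp [c.1]
    · simp [c.1]
  exact (card_le_card this).trans ((card_insert_le _ _).trans
    (Nat.succ_le_succ (card_insert_le _ _)))

theorem card1 {a y : ℝ} (hy : y = 0 ∨ y = a) (h : ¬ (y ∈ ρ.Z ∧ ρ.Pin a y)) :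
    (ρ.TF a).card ≤ (ρ.TT a).card + 1 := by
  have : ρ.TF a ⊆ insert (a - y) (ρ.TT a) := fun z hz => by
    rcases cases_TF hz with c | c
    · exact mem_insert_of_mem c
    have e : z ≠ y := fun e => h (e ▸ ⟨(RD.mem_TF.1 hz).1, c⟩)
    refine mem_insert.2 (.inl ?_)
    rcases c with c | c <;> rcases hy with b | b
    · exact absurd (c.1.trans b.symm) e
    · rw [c.1, b, sub_self]
    · rw [c.1, b, sub_zero]
    · exact absurd (c.1.trans b.symm) e
  exact (card_le_card this).trans (card_insert_le _ _)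

theorem nd1 (hS : D.Spec S) (hW : CtxW D ρ u T) (hF : ρ.Fac D u) (y : ℝ) (h1 : |y| < 2 * D.Lam)
    (h2 : ev ρ.q 0 y ∈ D.ThA) (h3 : ev ρ.q 1 y = 0) : ρ.IsT u.1 y := by
  by_contra hT
  obtain ⟨f1, f2⟩ := hW.hq.finite_crit
  have f3 := Set.ncard_le_ncard (s := (insert y (ρ.TT u.1) : Finset ℝ)) (fun z hz => by
    rcases mem_insert.1 (mem_coe.1 hz) with rfl | hz
    · exact h3
    · exact (RD.mem_TT.1 hz).2.2) f1
  rw [Set.ncard_coe_finset, card_insert_of_notMem (mt RD.mem_TT.1 hT)] at f3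
  obtain ⟨h, a1, a2, a3⟩ := dir hS hW hF (by have := card2 (ρ := ρ) u.1; omega)
  by_cases c : y ∈ ρ.TF u.1
  · have e := hW.dk y (D.mem_Pts h1 h2) 1 le_rfl h3 h
    rw [Tan.Dev, a1 y (((cases_TF c).resolve_left (mt RD.mem_TT.1 hT)).imp And.left And.left),
      mul_zero, add_zero] at e
    exact a3 y c e
  · have e := hW.dval y h1 h2 h
    rw [Tan.Dev, zero_add, h3, zero_mul, add_zero] at e
    exact a2 y c e

theorem nd2 (hS : D.Spec S) (hW : CtxW D ρ u T) (hF : ρ.Fac D u) (z : ℝ) (hz : ρ.IsT u.1 z) :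
    ev ρ.q 2 z ≠ 0 ∧ z ≠ 0 ∧ z ≠ u.1 := by
  have e := hW.dk z (hF.node_pts hS (hF.Z_mem hz.1)) 1 le_rfl hz.2.2
  have k : ¬ (z = 0 ∨ z = u.1) := fun c => by
    have b1 := card1 c fun b => hz.2.1 b.2
    have b2 := hF.cardT
    obtain ⟨h, a1, -, a3⟩ := dir hS hW hF (by omega)
    have e1 := e h
    rw [Tan.Dev, a1 z c, mul_zero, add_zero] at e1
    exact a3 z hz.mem_TF e1
  refine ⟨fun c => ?_, not_or.1 k⟩
  have h0 := (nonconst_iff _).1 hW.hq
  have b1 : (ρ.TT u.1).card + 3 ≤ d := by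
    by_contra b
    have b2 := hW.hq.natDegree
    have b3 := natDegree_derivative_lt b2.1
    refine h0 (eq_zero_of_zeros (n := (ρ.TT u.1).card + 1) ((natDegree_lt_iff_degree_lt h0).1
      (by omega)) (ρ.TT u.1) {z} (singleton_subset_iff.2 (RD.mem_TT.2 hz)) (fun x hx => ?_)
      (fun x hx => ?_) (by rw [card_singleton]))
    · exact (ev_eq_eval ρ.q 1 x).symm.trans (RD.mem_TT.1 hx).2.2
    · rw [mem_singleton.1 hx]
      exact (ev_eq_eval ρ.q 2 z).symm.trans c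
  obtain ⟨h, -, -, a3⟩ := dir hS hW hF (by have := card2 (ρ := ρ) u.1; omega)
  have e1 := e h
  rw [Tan.Dev, c, zero_mul, add_zero] at e1
  exact a3 z hz.mem_TF e1

theorem nd3 (hS : D.Spec S) (hW : CtxW D ρ u T) (hF : ρ.Fac D u) (y : ℝ) (h1 : y = 0 ∨ y = u.1)
    (h2 : ev ρ.q 0 y ∈ D.ThA) : y ∈ ρ.Z ∧ ρ.Pin u.1 y := by
  by_contra c
  have ha := hW.ha
  have hm := hW.toBas.rep.1
  have hM := hW.toBas.rep.2.1
  by_cases hz : y ∈ ρ.Z
  · have hp : ¬ ρ.Pin u.1 y := fun b => c ⟨hz, b⟩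
    have e : ρ.m < y ∧ y < ρ.M := by
      rcases h1 with b | b
      · have : ρ.m ≠ 0 := fun b' => hp (.inl ⟨b, b'⟩)
        exact ⟨b ▸ lt_of_le_of_ne hm this, by linarith⟩
      · have : ρ.M ≠ u.1 := fun b' => hp (.inr ⟨b, b'⟩)
        exact ⟨by linarith, b ▸ lt_of_le_of_ne hM this.symm⟩
    exact not_or.2 (nd2 hS hW hF y ⟨hz, hp, hF.inner y hz e.1 e.2⟩).2 h1
  have b1 := card1 h1 c
  have b2 := hF.cardT
  obtain ⟨h, a1, a2, -⟩ := dir hS hW hF (by omega)
  have b3 : |y| < 2 * D.Lam := by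
    rcases h1 with b | b <;> rw [b]
    · exact (RD.zero_pts hS ρ.q u.1).1
    · exact (hF.a_pts hS hW.toBas).1
  have e := hW.dval y b3 h2 h
  rw [Tan.Dev, a1 y h1, mul_zero, add_zero] at e
  exact a2 y (fun b => hz (ρ.TF_subset _ b)) e

end HtansA

open HtansA

theorem p_HTANS (hHB1 : S_HB1) :
    S_HTANS := by
  intro d S D hS ρ u T hW
  have hF := hHB1 d S D hS ρ u hW.toBas
  exact ⟨hW, hF, surj hS hW hF, nd1 hS hW hF, nd2 hS hW hF, nd3 hS hW hF⟩

end Pool.Agent.P.MP_a0f0ad_al.Fi
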