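import Pool.Agent.P.MP_a0f0ad_al.Fi.H.Iface2
import Pool.Agent.P.MP_a0f0ad_al.Fi.H.Tool

/-! Step HTANW of the filiform project. -/

namespace Pool.Agent.P.MP_a0f0ad_al.Fi

open Finset MeasureTheory Polynomial Filter Topology
open scoped Classical

namespace HtanwA

theorem om_abs {d : ℕ} (D : LD d) {w : ℝ} (h : |w| = D.Q) : D.om w = D.om D.Q := by
  rcases abs_cases w with a | a
  · rw [← h, a.1]
  · rw [← h, a.1]
    simp only [LD.om, neg_neg]
    ring

end HtanwA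

theorem p_HTANW (hHB1 : S_HB1) (hHGAP : S_HGAP) (hHDY : S_HDY) :
    S_HTANW := by
  intro d S D hS n c hc u hu hG
  have hb := hc.bas hu
  have hF := hHB1 d S D hS _ _ hb
  obtain ⟨-, g0, ga⟩ := hHGAP d D n c hc u hu
  have hval : ∀ y ∈ D.Pts (c.q u) u.1, ∀ (k : ℕ) (w : ℝ), w ∈ D.ThA ∨ w = 0 →
      ev (c.q u) k y = w → ∀ h, (c.tan u).Dev (c.rd u) k y h = 0 := by
    intro y hy k w hw e h
    obtain ⟨j, rfl⟩ := (hc.pts hu y).1 hy
    obtain ⟨L, h1, h2⟩ := hc.hev hu k j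
    rw [← h2]
    exact deriv_zero_of_const h1 (hG j k w hw e) h
  refine ⟨hb, hHDY d S D hS n c hc u hu, fun h => ?_, fun h => ?_, fun y hy hw h => ?_,
    fun y hy k _ e h => hval y hy k 0 (Or.inr rfl) e h, fun z hz hp h1 h => ?_⟩
  · obtain ⟨j, e⟩ := (hc.pts hu 0).1 (RD.zero_pts hS _ _)
    have := deriv_zero_of_const (hc.hx hu j) (g0 j e) h
    rwa [e] at this
  · obtain ⟨j, e⟩ := (hc.pts hu u.1).1 (hF.a_pts hS hb)
    have h1 := (hc.hx hu j).sub (hasFDerivAt_fst (𝕜 := ℝ) (p := u))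
    have := deriv_zero_of_const (w := 0) h1 ((ga j e).mono fun v hv => sub_eq_zero.2 hv) h
    rw [e] at this
    simpa [sub_eq_zero] using this
  · exact hval y (D.mem_Pts hy hw) 0 _ (Or.inl hw) rfl h
  · obtain ⟨j, hj, rfl⟩ := mem_image.1 hz
    obtain ⟨L, k1, k2⟩ := hc.hmq hu j
    rw [← k2]
    have hx : ∀ i, ContinuousAt (fun v => c.x v i) u := fun i => (hc.hx hu i).continuousAt
    have hom : ∀ v ∈ c.U, D.om (ev (c.q v) 0 (c.x v j)) = D.om D.Q := fun v hv =>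
      HtanwA.om_abs D ((hc.bas hv).abs_atom ((hc.mem_Z hv j).2 hj))
    rcases (hF.wait _ hz hp h1).1 with ⟨e, lt⟩ | ⟨e, lt⟩
    · obtain rfl : j = c.jm := hc.inj hu e
      refine deriv_zero_of_const (w := -D.om D.Q) k1 ?_ h
      filter_upwards [hc.near hu, (hx c.jm).eventually_lt continuousAt_const lt] with v hv hl
      have := (hc.bas hv).opt.2.2.2.2.2.1 hl
      simp only [RD.Dm, Ch.rd_q, Ch.rd_m, hc.muAt hv, hom v hv] at this
      linarith
    · obtain rfl : j = c.jM := hc.inj hu e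
      refine deriv_zero_of_const (w := D.om D.Q) k1 ?_ h
      filter_upwards [hc.near hu, continuousAt_fst.eventually_lt (hx c.jM) lt] with v hv hl
      have := (hc.bas hv).opt.2.2.2.1 hl
      simp only [RD.DM, Ch.rd_q, Ch.rd_M, hc.muAt hv, hom v hv] at this
      linarith

end Pool.Agent.P.MP_a0f0ad_al.Fi
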