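import Pool.Agent.P.MP_a0f0ad_al.Fi.H.Iface2
import Pool.Agent.P.MP_a0f0ad_al.Fi.H.ToolP

/-! Step HTH of the filiform project. -/

namespace Pool.Agent.P.MP_a0f0ad_al.Fi

open Finset MeasureTheory Polynomial Filter Topology
open scoped Classical

namespace HthA

/-- the cluster of a node -/
theorem cluster (hHB2 : S_HB2) (hHCLUS : S_HCLUS) {d : ℕ} {S : Finset (G d)} {D : LD d}
    (hS : D.Spec S) : ∃ κ : ℝ, 0 < κ ∧ ∀ (ρ : RD d) (u : E d) (T : Tan d) (v y : ℝ),
      Ctx D ρ u T → 0 < v → v ≤ 1 → v ≤ (ρ.M - ρ.m) ^ d → pQL d D ρ u T v → y ∈ ρ.N D u.1 →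
      ∃ (K : Finset ℝ) (W r1 : ℝ[X]), K ⊆ ρ.N D u.1 ∧ y ∈ K ∧
        (∀ x ∈ K, ev ρ.q 0 x = ev ρ.q 0 y) ∧ derivative (pol ρ.q) = W * r1 ∧
        (∀ x ∈ ρ.N D u.1, x ∉ K → κ * v ≤ |W.eval x|) ∧ (∀ x ∈ K, κ * v ^ 2 ≤ |r1.eval x|) ∧
        nr (2 * D.Lam + 4) r1 ≤ nr (2 * D.Lam + 4) (derivative (pol ρ.q)) ∧
        r1.natDegree + (K.filter (ρ.IsT u.1)).card + K.card < d := by
  obtain ⟨c1, C1, hc1, hc11, -, H⟩ := hHB2 d S D hS
  have hL := hS.Lam_pos
  obtain ⟨cc, hcc, HC⟩ := hHCLUS d ⌈C1⌉₊ D.Lam hL.le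
  refine ⟨min 1 cc * (cc * c1) ^ d, by positivity, fun ρ u T v y h hv hv1 hl hQL hy => ?_⟩
  obtain ⟨h1, -, -, h4⟩ := H ρ u h.bas h.fac
  obtain ⟨x1, hx1, hx2⟩ := hQL 0 (by linarith) hL.le
  have hmM : 0 < ρ.M - ρ.m := sub_pos.2 h.bas.rep.2.2.1
  have hdeg := natDegree_der_pol h.bas.hq
  obtain ⟨r, δ, W, r1, a1, a2, a3, a4, a5, a6, a7, a8, a9⟩ := HC (derivative (pol ρ.q)) (ρ.N D u.1)
    y x1 (min 1 (c1 * (ρ.M - ρ.m))) v (by omega) (by exact_mod_cast h1.trans (Nat.le_ceil _))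
    (by linarith [h.fac.abs_node hy]) (abs_le.2 ⟨by linarith [hx1.1], by linarith [hx1.2]⟩)
    (by positivity) (min_le_left _ _) hv (by rwa [← ev1])
  have hδ : 0 < δ := lt_of_lt_of_le (by positivity) a1
  have hδd : (cc * c1) ^ d * v ≤ δ ^ d := by
    refine le_trans ?_ (pow_le_pow_left₀ (by positivity) a1 d)
    rw [mul_pow, mul_pow, mul_assoc]
    refine mul_le_mul_of_nonneg_left ?_ (by positivity)
    rcases min_choice 1 (c1 * (ρ.M - ρ.m)) with e | e <;> rw [e]
    · rw [one_pow]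
      exact mul_le_one₀ (pow_le_one₀ hc1.le hc11) hv.le hv1
    · rw [mul_pow]
      exact mul_le_mul_of_nonneg_left hl (by positivity)
  set K := (ρ.N D u.1).filter fun x => |x - y| ≤ r with hK
  have hKv : ∀ x ∈ K, ev ρ.q 0 x = ev ρ.q 0 y := fun x hx => by
    by_contra e
    have := h4 x (mem_filter.1 hx).1 y hy e
    linarith [(mem_filter.1 hx).2, min_le_right 1 (c1 * (ρ.M - ρ.m))]
  have hr1 : ∀ x, |x - y| ≤ r → ev ρ.q 1 x = 0 → W.eval x = 0 := fun x hx e => by
    have h0 : 0 < |r1.eval x| := lt_of_lt_of_le (by positivity) (a8 x hx)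
    rw [ev1, a4, eval_mul] at e
    exact (mul_eq_zero.1 e).resolve_right (abs_pos.1 h0)
  refine ⟨K, W, r1, filter_subset _ _, mem_filter.2 ⟨hy, by simpa using a2⟩, hKv, a4,
    fun x hx hx' => ?_, fun x hx => ?_, a9, ?_⟩
  · refine le_trans ?_ (hδd.trans (a7 x ((a6 x hx).resolve_left fun e => hx' (mem_filter.2 ⟨hx, e⟩))))
    gcongr
    exact mul_le_of_le_one_left (by positivity) (min_le_left _ _)
  · refine le_trans ?_ (a8 x (mem_filter.1 hx).2)
    calc min 1 cc * (cc * c1) ^ d * v ^ 2 = min 1 cc * v * ((cc * c1) ^ d * v) := by ring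
      _ ≤ cc * v * δ ^ d := by gcongr; exact min_le_right _ _
  · obtain ⟨B, b1, b2, b3⟩ := exists_crit ρ.q h.bas.hq hKv
    have hd : Disjoint B (K.filter (ρ.IsT u.1)) := b2.mono_right (filter_subset _ _)
    have hc := card_le_natDegree (A := B ∪ K.filter (ρ.IsT u.1)) a5.ne_zero fun x hx => by
      rcases mem_union.1 hx with hx | hx
      · obtain ⟨e, s, hs, t, ht, h5, h6⟩ := b3 x hx
        have h7 := abs_le.1 (mem_filter.1 hs).2
        have h8 := abs_le.1 (mem_filter.1 ht).2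
        exact hr1 x (abs_le.2 ⟨by linarith, by linarith⟩) e
      · exact hr1 x (mem_filter.1 (mem_filter.1 hx).1).2 (mem_filter.1 hx).2.2.2
    rw [card_union_of_disjoint hd] at hc
    have hne : r1 ≠ 0 := fun e => (nonconst_iff _).1 h.bas.hq (by rw [a4, e, mul_zero])
    rw [a4, a5.natDegree_mul' hne] at hdeg
    omega

end HthA

theorem p_HTH (hHB2 : S_HB2) (hHDIRX : S_HDIRX) (hHCLUS : S_HCLUS) :
    S_HTH := by
  refine ⟨6, fun d S D hd _ hS => ?_⟩
  obtain ⟨κ, hκ, HK⟩ := HthA.cluster hHB2 hHCLUS hS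
  obtain ⟨CD, hCD, HD⟩ := hHDIRX d S D hS
  have hL := hS.Lam_pos
  set R := 2 * D.Lam + 4 with hR
  have hR1 : 1 ≤ R := by linarith
  set C3 := (2 * R) ^ d * (2 * R) ^ d with hC3
  set C4 := d * R ^ d * d * C3 + C3 / κ with hC4
  have hC30 : 0 < C3 := by positivity
  have hC40 : 0 < C4 := by positivity
  refine ⟨κ / (R ^ d * R ^ d * (CD * C4)), by positivity, fun ρ u T v t h hv hv1 ht htv hP => ?_⟩
  obtain ⟨⟨-, -, hl, hq⟩, hQL, hPR⟩ := hP
  -- the direction attached to a node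
  have key : ∀ y ∈ ρ.N D u.1, ∀ k, (¬ ρ.IsT u.1 y ∧ k = 1) ∨ (ρ.IsT u.1 y ∧ k = 2) →
      Big (T.Dev ρ k y) (κ / (R ^ d * R ^ d * (CD * C4)) * v ^ 6) := by
    intro y hy k hk
    obtain ⟨K, W, r1, a1, a2, a3, a4, a5, a6, a7, a8⟩ := HK ρ u T v y h hv hv1 hl hQL hy
    set KT := K.filter (ρ.IsT u.1) with hKT
    have hKT1 : KT ⊆ K := filter_subset _ _
    have hnode : ∀ x ∈ ρ.N D u.1, |x| ≤ R := fun x hx => by linarith [h.fac.abs_node hx]
    have hw : ∀ A ⊆ K, nr R (wA A) ≤ (2 * R) ^ d := fun A hA =>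
      (nr_wA_le (by linarith) fun x hx => hnode x (a1 (hA hx))).trans
        (pow_le_pow_right₀ (by linarith) (by have := card_le_card hA; omega))
    have hww : nr R (wA KT * wA K) ≤ C3 := (nr_mul_le (by linarith) _ _).trans
      (mul_le_mul (hw _ hKT1) (hw _ Subset.rfl) (nr_nonneg (by linarith) _) (by positivity))
    set G := r1 * (wA KT * wA K) with hG
    have hdeg : G.degree < (d : WithBot ℕ) := degree_lt_of_natDegree (natDegree_mul_le.trans_lt (by
      have := natDegree_mul_le (p := wA KT) (q := wA K)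
      rw [natDegree_wA, natDegree_wA] at this
      omega))
    have hout : ∀ x ∈ ρ.N D u.1, x ∉ K → ∀ s : ℝ,
        |s * (wA KT * wA K).eval x| ≤ C4 / v * |W.eval x * s| := fun x hx hx' s => by
      rw [abs_mul, abs_mul]
      calc |s| * |(wA KT * wA K).eval x| ≤ |s| * C3 :=
            mul_le_mul_of_nonneg_left ((abs_eval_le (hnode x hx) _).trans hww) (abs_nonneg _)
        _ = C3 / κ / v * (κ * v * |s|) := by field_simp
        _ ≤ C4 / v * (|W.eval x| * |s|) := by
            gcongr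
            · exact le_add_of_nonneg_left (by positivity)
            · exact a5 x hx hx'
    obtain ⟨w, c0, -, -, b3, -, b5, b6, b7, b8⟩ := HD ρ u T v (C4 / v) (cf d G) ∅ h hv hv1 hq (by
        refine (norm_cf_le_nr hR1 d G).trans ((nr_mul_le (by linarith) _ _).trans ?_)
        rw [le_div_iff₀ hv]
        calc nr R r1 * nr R (wA KT * wA K) * v ≤ d * R ^ d * (d * ‖ρ.q‖) * C3 * v := by
              gcongr
              · exact nr_nonneg (by linarith) _
              · exact a7.trans (nr_der_pol_le hR1 _)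
          _ = d * R ^ d * d * C3 * (v * ‖ρ.q‖) := by ring
          _ ≤ d * R ^ d * d * C3 * 1 := by gcongr
          _ ≤ C4 := by rw [mul_one]; exact le_add_of_nonneg_right (by positivity))
      (by simp) (fun z hz => by
        have hzN := h.fac.Z_mem hz.1
        rw [ev_cf0 hdeg, ev_cf1 hdeg]
        by_cases hzK : z ∈ K
        · have e1 := eval_wA_eq_zero.2 hzK
          have e2 := eval_wA_eq_zero.2 (show z ∈ KT from mem_filter.2 ⟨hzK, hz⟩)
          simp only [hG, derivative_mul, eval_add, eval_mul, e1, e2, mul_zero, zero_mul, add_zero,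
            abs_zero, true_and]
          positivity
        · have e0 : W.eval z ≠ 0 := abs_pos.1 (lt_of_lt_of_le (by positivity) (a5 z hzN hzK))
          have e1 : r1.eval z = 0 := by
            have := hz.2.2
            rw [ev1, a4, eval_mul] at this
            exact (mul_eq_zero.1 this).resolve_left e0
          refine ⟨by rw [hG, eval_mul, e1, zero_mul], ?_⟩
          rw [ev2, a4, hG, derivative_mul, derivative_mul (f := W), eval_add, eval_add,
            eval_mul (p := r1), eval_mul (p := derivative W), e1, zero_mul, mul_zero, add_zero,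
            zero_add, eval_mul, eval_mul (p := W)]
          exact hout z hzN hzK _)
      (fun x hx _ _ => by
        rw [ev_cf0 hdeg]
        by_cases hxK : x ∈ K
        · simp only [hG, eval_mul, eval_wA_eq_zero.2 hxK, mul_zero, abs_zero]
          positivity
        · rw [ev1, a4, hG, eval_mul, eval_mul (p := W)]
          exact hout x hx hxK _)
    rw [sum_empty, add_zero] at b8
    have hn : ‖w‖ ≤ CD * C4 / v ^ 2 := by
      have e : CD * C4 / v ^ 2 = CD * (C4 / v) / v := by field_simp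
      rw [e]
      exact norm_E_le (by rwa [le_div_iff₀' hv]) (by rwa [le_div_iff₀' hv])
    set Sv := (ρ.N D u.1).filter fun y' => ev ρ.q 0 y' = ev ρ.q 0 y with hSv
    have hKS : K ⊆ Sv := fun x hx => mem_filter.2 ⟨a1 hx, a3 x hx⟩
    have hpd : ∀ A ⊆ K, v / R ^ d ≤ pd A y := fun A hA => by
      rw [div_le_iff₀' (by positivity)]
      refine (hPR y hy).trans ((pd_le_subset hR1 (hA.trans hKS) fun x hx => ?_).trans ?_)
      · have e1 := h.fac.abs_node hy
        have e2 := h.fac.abs_node (mem_filter.1 hx).1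
        linarith [abs_sub y x]
      · exact mul_le_mul_of_nonneg_right (pow_le_pow_right₀ hR1
          (card_level_lt h.bas.hq fun x hx => (mem_filter.1 hx).2).le) (pd_pos _ _).le
    have hlow : κ * v ^ 2 * (v / R ^ d * (v / R ^ d)) ≤
        |r1.eval y * ((wA (KT.erase y)).eval y * (wA (K.erase y)).eval y)| := by
      rw [abs_mul, abs_mul, abs_eval_erase, abs_eval_erase]
      exact mul_le_mul (a6 y a2) (mul_le_mul (hpd _ hKT1) (hpd _ Subset.rfl) (by positivity)
        (pd_pos _ _).le) (by positivity) (abs_nonneg _)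
    refine Big.of_le w (a := κ * v ^ 2 * (v / R ^ d * (v / R ^ d))) (by positivity) (by positivity)
      hn (hlow.trans ?_) (le_of_eq (by field_simp))
    have e1 := eval_wA_eq_zero.2 a2
    rcases hk with ⟨hT, rfl⟩ | ⟨hT, rfl⟩
    · have e2 : KT.erase y = KT := erase_eq_of_notMem fun e => hT (mem_filter.1 e).2
      rw [Tan.Dev, b3, b5 y (h.fac.node_lt hS hy) (h.fac.rng y hy).2.2 hT, ev_cf0 hdeg,
        ev_cf1 hdeg, e2, ← eval_der_wA a2]
      simp only [hG, derivative_mul, eval_add, eval_mul, e1, mul_zero, zero_add,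
        zero_div, sub_zero]
      exact le_of_eq (congrArg _ (by ring))
    · have hyT : y ∈ KT := mem_filter.2 ⟨a2, hT⟩
      rw [Tan.Dev, b3, b6 y hT, ev_cf1 hdeg, ev_cf2 hdeg, hG, wA_erase hyT, wA_erase a2]
      simp only [derivative_mul, derivative_add, derivative_X_sub_C, eval_add,
        eval_mul, eval_sub, eval_X, eval_C, sub_self, zero_mul, mul_zero,
        add_zero, zero_add, one_mul, zero_div, sub_zero]
      rw [show ∀ a b c e : ℝ, a * (b + b) - c * e + e * c = 2 * (a * b) from fun _ _ _ _ => by ring,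
        abs_mul (2 : ℝ), abs_two]
      linarith [abs_nonneg (r1.eval y * ((wA (KT.erase y)).eval y * (wA (K.erase y)).eval y))]
  by_contra hn
  rw [not_or, not_or] at hn
  refine hn.1 ⟨fun y hy hT => ?_, fun z hz => ?_⟩
  · by_contra e
    exact hn.2.1 (Or.inr (Or.inl ⟨y, h.fac.node_pts hS hy, 1, one_le_two, 0, Or.inr rfl,
      by rw [sub_zero]; exact (not_le.1 e).le, key y hy 1 (Or.inl ⟨hT, rfl⟩)⟩))
  · by_contra e
    have hy := h.fac.Z_mem hz.1
    exact hn.2.1 (Or.inr (Or.inl ⟨z, h.fac.node_pts hS hy, 2, le_rfl, 0, Or.inr rfl,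
      by rw [sub_zero]; exact (not_le.1 e).le, key z hy 2 (Or.inr ⟨hz, rfl⟩)⟩))

end Pool.Agent.P.MP_a0f0ad_al.Fi
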