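import Pool.Agent.P.MP_a0f0ad_al.Fi.H.Iface2
import Pool.Agent.P.MP_a0f0ad_al.Fi.H.Tool
import Pool.Agent.P.MP_a0f0ad_al.Fi.H.ToolP

/-! Step HTV of the filiform project. -/

namespace Pool.Agent.P.MP_a0f0ad_al.Fi

open Finset MeasureTheory Polynomial Filter Topology
open scoped Classical

namespace HtvA

variable {d : ℕ}

/-- an inflection point is far from a point of large curvature -/
theorem far2 {q : Fin d → ℝ} {L K v x z : ℝ} (hK : ∀ y, |y| ≤ L → |ev q 3 y| ≤ K)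
    (hx : |x| ≤ L) (hz : |z| ≤ L) (h0 : ev q 2 x = 0) (hv : v ≤ |ev q 2 z|) :
    v ≤ K * |x - z| := by
  have h := (convex_Icc (-L) L).norm_image_sub_le_of_norm_hasDerivWithin_le
    (f := ev q 2) (f' := ev q 3) (C := K) (fun y _ => (hasDerivAt_ev q 2 y).hasDerivWithinAt)
    (fun y hy => hK y (abs_le.2 hy)) (abs_le.1 hx) (abs_le.1 hz)
  rw [h0, sub_zero, Real.norm_eq_abs, Real.norm_eq_abs, abs_sub_comm] at h
  exact hv.trans h

/-- so is another critical point -/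
theorem far1 {q : Fin d → ℝ} {L K v x z : ℝ} (hK : ∀ y, |y| ≤ L → |ev q 3 y| ≤ K)
    (hx : |x| ≤ L) (hz : |z| ≤ L) (h0 : ev q 1 x = 0) (h1 : ev q 1 z = 0) (hne : x ≠ z)
    (hv : v ≤ |ev q 2 z|) : v ≤ K * |x - z| := by
  have hK0 : 0 ≤ K := (abs_nonneg _).trans (hK x hx)
  rw [abs_le] at hx
  have hz' := abs_le.1 hz
  rcases lt_or_gt_of_ne hne with h | h
  · obtain ⟨c, hc, hc0⟩ := exists_hasDerivAt_eq_zero h (continuous_ev q 1).continuousOn
      (h0.trans h1.symm) fun y _ => hasDerivAt_ev q 1 y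
    refine (far2 hK (abs_le.2 ⟨by linarith [hc.1], by linarith [hc.2]⟩) hz hc0 hv).trans
      (mul_le_mul_of_nonneg_left ?_ hK0)
    rw [abs_of_neg (sub_neg.2 hc.2), abs_of_neg (sub_neg.2 h)]
    linarith [hc.1]
  · obtain ⟨c, hc, hc0⟩ := exists_hasDerivAt_eq_zero h (continuous_ev q 1).continuousOn
      (h1.trans h0.symm) fun y _ => hasDerivAt_ev q 1 y
    refine (far2 hK (abs_le.2 ⟨by linarith [hc.1], by linarith [hc.2]⟩) hz hc0 hv).trans
      (mul_le_mul_of_nonneg_left ?_ hK0)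
    rw [abs_of_pos (sub_pos.2 hc.1), abs_of_pos (sub_pos.2 h)]
    linarith [hc.2]

/-- a variation of the dual polynomial by a polynomial that vanishes at the touching atoms -/
theorem dir (hX : S_HDIRX) (d : ℕ) (S : Finset (G d)) (D : LD d) (hS : D.Spec S) (N0 : ℝ)
    (hN : 0 < N0) : ∃ C : ℝ, 0 < C ∧ ∀ (ρ : RD d) (u : E d) (T : Tan d) (v : ℝ) (g : Fin d → ℝ),
      Ctx D ρ u T → 0 < v → v ≤ 1 → v * ‖ρ.q‖ ≤ 1 → pTH d D ρ u T v → ‖g‖ ≤ N0 →
      (∀ z, ρ.IsT u.1 z → ev g 0 z = 0) →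
      ∃ h : E d, ‖h‖ ≤ C / v ^ 2 ∧ ∀ k y, ev ρ.q (k + 1) y = 0 → T.Dev ρ k y h = ev g k y := by
  obtain ⟨C, hC, hh⟩ := hX d S D hS
  obtain ⟨CV, hCV, hb⟩ := exists_Vd_bound d (2 * D.Lam)
  have hCV0 : 0 < CV := zero_lt_one.trans_le hCV
  refine ⟨C * (CV * N0), by positivity, fun ρ u T v g hc hv hv1 hq hTH hg hz => ?_⟩
  have hB : 0 ≤ CV * N0 / v := by positivity
  have hev : ∀ k, ∀ y ∈ ρ.N D u.1, ∀ w, v ≤ w → |ev g k y| ≤ CV * N0 / v * w := by
    intro k y hy w hw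
    have h1 := (hb k y (hc.fac.node_lt hS hy).le).2 g
    calc |ev g k y| ≤ CV * N0 := h1.trans (mul_le_mul_of_nonneg_left hg hCV0.le)
      _ = CV * N0 / v * v := by field_simp
      _ ≤ _ := mul_le_mul_of_nonneg_left hw hB
  have hgB : ‖g‖ ≤ CV * N0 / v := by
    rw [le_div_iff₀ hv]
    nlinarith [norm_nonneg g]
  obtain ⟨h, c0, -, -, hq', -, -, -, h1, h2⟩ := hh ρ u T v (CV * N0 / v) g ∅ hc hv hv1 hq hgB
    (by simp) (fun z hT => ⟨hz z hT, hev 1 z (hc.fac.Z_mem hT.1) _ (hTH.2 z hT)⟩)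
    (fun y hy _ hT => hev 0 y hy _ (hTH.1 y hy hT))
  rw [sum_empty, add_zero] at h2
  have e : C * (CV * N0) / v ^ 2 = C * (CV * N0 / v) / v := by field_simp
  refine ⟨h, ?_, fun k y hy => ?_⟩
  · rw [e]
    exact norm_E_le ((le_div_iff₀' hv).2 h1) ((le_div_iff₀' hv).2 h2)
  · simp [Tan.Dev, hq', hy]

end HtvA

open HtvA in
theorem p_HTV (hHDIRX : S_HDIRX) :
    S_HTV := by
  refine ⟨5, fun d S D _ _ hS => ?_⟩
  have hL := hS.Lam_pos
  set R : ℝ := max 1 (2 * D.Lam) with hR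
  have hR1 : 1 ≤ R := le_max_left _ _
  have hR2 : 2 * D.Lam ≤ R := le_max_right _ _
  have hR0 : 0 < R := zero_lt_one.trans_le hR1
  obtain ⟨C, hC, hdir⟩ := dir hHDIRX d S D hS ((2 * R) ^ d) (by positivity)
  obtain ⟨CV, hCV, hb⟩ := exists_Vd_bound d (2 * D.Lam)
  have hCV0 : 0 < CV := zero_lt_one.trans_le hCV
  set a0 : ℝ := 1 / (CV * R ^ d * 2 ^ d) with ha0
  have ha : 0 < a0 := by positivity
  refine ⟨min 1 (a0 / C), lt_min one_pos (by positivity), ?_⟩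
  rintro ρ u T v t hc hv hv1 ht htc ⟨hS0, hQL, hP0, hTH⟩
  have hq : v * ‖ρ.q‖ ≤ 1 := hS0.2.2.2
  have hnode : ∀ z ∈ ρ.Z, |z| ≤ D.Lam / 3 := fun z hz => hc.fac.abs_node (hc.fac.Z_mem hz)
  have hTZ : ∀ z ∈ ρ.TT u.1, z ∈ ρ.Z := fun z hz => (RD.mem_TT.1 hz).1
  have hcard := hc.fac.cardT
  have hK : ∀ y, |y| ≤ 2 * D.Lam → |ev ρ.q 3 y| ≤ CV / v := fun y hy => by
    rw [le_div_iff₀ hv]
    nlinarith [(hb 3 y hy).2 ρ.q, norm_nonneg ρ.q]
  have hRd : 1 ≤ R ^ d := one_le_pow₀ hR1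
  have hW : ∀ x : ℝ, (∀ z ∈ ρ.TT u.1, v ≤ CV / v * |x - z|) →
      a0 * v ^ 3 ≤ |(wA (ρ.TT u.1)).eval x| := by
    intro x hx
    have h1 := le_prod_dist (A := ρ.TT u.1) (y := x) (δ := v ^ 2 / CV) (p := v / R ^ d)
      ((div_le_one hCV0).2 (by nlinarith)) (by positivity)
      ((div_le_one (by positivity)).2 (hv1.trans hRd))
      (fun z hz => by
        have := hx z hz
        rw [div_mul_eq_mul_div, le_div_iff₀ hv] at this
        rw [div_le_iff₀ hCV0]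
        nlinarith)
      (fun z hz => by
        have h2 := pd_le_subset (y := z) hR1 (RD.TT_subset_TF (ρ := ρ) u.1) fun z' hz' => by
          have h3 := abs_le.1 (hnode z (hTZ z hz))
          have h4 := abs_le.1 (hnode z' (RD.TF_subset _ hz'))
          rw [abs_le]; constructor <;> linarith [h3.1, h3.2, h4.1, h4.2]
        have h3 : R ^ (ρ.TF u.1).card ≤ R ^ d :=
          pow_le_pow_right₀ hR1 ((card_le_card (RD.TF_subset _)).trans hc.fac.cardZ)
        rw [div_le_iff₀' (by positivity)]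
        exact (hP0 z (RD.TT_subset_TF _ hz)).trans
          (h2.trans (mul_le_mul_of_nonneg_right h3 (pd_pos _ _).le)))
    rw [abs_eval_wA]
    refine le_trans ?_ h1
    have h2 : (2 : ℝ) ^ (ρ.TT u.1).card ≤ 2 ^ d := pow_le_pow_right₀ one_le_two (by omega)
    calc a0 * v ^ 3 = v ^ 2 / CV * (v / R ^ d) / 2 ^ d := by rw [ha0]; field_simp
      _ ≤ _ := div_le_div_of_nonneg_left (by positivity) (by positivity) h2
  have hzL : ∀ z ∈ ρ.TT u.1, |z| ≤ 2 * D.Lam := fun z hz => by linarith [hnode z (hTZ z hz)]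
  have hnW : nr R (wA (ρ.TT u.1)) ≤ (2 * R) ^ (ρ.TT u.1).card :=
    nr_wA_le hR0.le fun z hz => (hzL z hz).trans hR2
  have h2R : 1 ≤ 2 * R := by linarith
  have hl0 : 0 ≤ min 1 (a0 / C) * v ^ 5 := by
    have : 0 < min 1 (a0 / C) := lt_min one_pos (by positivity)
    positivity
  have hl : min 1 (a0 / C) * v ^ 5 * (C / v ^ 2) ≤ a0 * v ^ 3 := by
    calc min 1 (a0 / C) * v ^ 5 * (C / v ^ 2) ≤ a0 / C * v ^ 5 * (C / v ^ 2) := by
          gcongr
          exact min_le_right _ _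
      _ = a0 * v ^ 3 := by field_simp
  have hav : 0 < a0 * v ^ 3 := by positivity
  by_contra hcon
  rw [not_or, not_or] at hcon
  refine hcon.1 ⟨fun c hc1 hc2 hc3 w hw => ?_, fun x hx1 hx2 => ?_⟩
  · by_contra hlt
    have hdeg : (wA (ρ.TT u.1)).degree < d :=
      degree_lt_of_natDegree (by rw [natDegree_wA]; omega)
    obtain ⟨h, hh, hD⟩ := hdir ρ u T v (cf d (wA (ρ.TT u.1))) hc hv hv1 hq hTH
      ((norm_cf_le_nr hR1 d _).trans (hnW.trans (pow_le_pow_right₀ h2R (by omega))))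
      fun z hz => by rw [ev_cf0 hdeg, eval_wA_eq_zero]; exact RD.mem_TT.2 hz
    refine hcon.2.1 (Or.inr (Or.inl ⟨c, ⟨hc1, Or.inr (Or.inr (Or.inr (Or.inl hc2)))⟩, 0,
      by norm_num, w, Or.inl hw, (not_le.1 hlt).le, Big.of_le h hav hl0 hh ?_ hl⟩))
    rw [hD 0 c hc2, ev_cf0 hdeg]
    refine hW c fun z hz => ?_
    have hz' := RD.mem_TT.1 hz
    exact far1 hK hc1.le (hzL z hz) hc2 hz'.2.2 (fun e => hc3 (e ▸ hz')) (hTH.2 z hz')
  · by_contra hlt
    by_cases hall : ∃ x', ev ρ.q 2 x' ≠ 0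
    · have hdeg : ((X - Polynomial.C x) * wA (ρ.TT u.1) : ℝ[X]).degree < (d : WithBot ℕ) := by
        refine degree_lt_of_natDegree (natDegree_mul_le.trans_lt ?_)
        rw [natDegree_X_sub_C, natDegree_wA]; omega
      have hn : nr R ((X - Polynomial.C x) * wA (ρ.TT u.1)) ≤ (2 * R) ^ d := by
        refine (nr_mul_le hR0.le _ _).trans ?_
        refine (mul_le_mul (nr_X_sub_C_le hR0.le (hx1.le.trans hR2)) hnW (nr_nonneg hR0.le _)
          (by positivity)).trans ?_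
        rw [← pow_succ']
        exact pow_le_pow_right₀ h2R (by omega)
      obtain ⟨h, hh, hD⟩ := hdir ρ u T v (cf d ((X - Polynomial.C x) * wA (ρ.TT u.1))) hc hv hv1
        hq hTH ((norm_cf_le_nr hR1 d _).trans hn) fun z hz => by
          rw [ev_cf0 hdeg, eval_mul, eval_wA_eq_zero.2 (RD.mem_TT.2 hz), mul_zero]
      refine hcon.2.1 (Or.inr (Or.inl ⟨x, ⟨hx1, Or.inr (Or.inr (Or.inr (Or.inr ⟨hx2, hall⟩)))⟩, 1,
        by norm_num, 0, Or.inr rfl, by rw [sub_zero]; exact (not_le.1 hlt).le,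
        Big.of_le h hav hl0 hh ?_ hl⟩))
      rw [hD 1 x hx2, ev_cf1 hdeg]
      have e : (derivative ((X - Polynomial.C x) * wA (ρ.TT u.1))).eval x =
          (wA (ρ.TT u.1)).eval x := by simp [derivative_mul]
      rw [e]
      exact hW x fun z hz => far2 hK hx1.le (hzL z hz) hx2 (hTH.2 z (RD.mem_TT.1 hz))
    · push Not at hall
      obtain ⟨x', -, hx'⟩ := hQL 0 (by linarith) hL.le
      have hconst : ev ρ.q 1 x' = ev ρ.q 1 x :=
        is_const_of_deriv_eq_zero (fun y => (hasDerivAt_ev ρ.q 1 y).differentiableAt)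
          (fun y => (hasDerivAt_ev ρ.q 1 y).deriv.trans (hall y)) x' x
      refine hlt (htc.trans ?_)
      rw [← hconst]
      refine le_trans ?_ hx'
      calc min 1 (a0 / C) * v ^ 5 ≤ 1 * v ^ 5 := by gcongr; exact min_le_left _ _
        _ ≤ v := by rw [one_mul]; exact pow_le_of_le_one hv.le hv1 (by norm_num)

end Pool.Agent.P.MP_a0f0ad_al.Fi
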