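import Pool.Agent.P.MP_a0f0ad_al.Fi.H.Iface2
import Pool.Agent.P.MP_a0f0ad_al.Fi.H.Tool

/-! Step HUNI of the filiform project. -/

namespace Pool.Agent.P.MP_a0f0ad_al.Fi

open Finset MeasureTheory Polynomial Filter Topology
open scoped Classical

theorem HuniA.rep {d : ℕ} {D : LD d} {u : E d} {n : ℕ} {jm jM : Fin n} {Zs : Finset (Fin n)}
    {q : Fin d → ℝ} {x μ : Fin n → ℝ} (h : Enc D u jm jM Zs q x μ) :
    u.2 = D.Yq q (x jm) (x jM) u.1 + ∑ j ∈ Zs, μ j • Vd 0 (x j) := by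
  have e : u.2 = D.Yq q (x jm) (x jM) u.1 +
      ∑ z ∈ Zs.image x, (∑ j, if x j = z then μ j else 0) • Vd 0 z := h.2.2.2.rep.2.2.2.2.2
  rw [sum_image fun _ _ _ _ e => h.1.injective e] at e
  simpa only [sum_ite_inj h.1.injective] using e

theorem p_HUNI (hHB1 : S_HB1) :
    S_HUNI := by
  intro d S D hS u n jm jM Zs q x μ x' μ' h h'
  obtain rfl : x = x' := (h.1.range_inj h'.1).1
    (Set.ext fun y => (h.2.1 y).symm.trans (h'.2.1 y))
  refine ⟨rfl, funext fun j => ?_⟩
  by_cases hj : j ∈ Zs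
  swap
  · rw [h.2.2.1 j hj, h'.2.2.1 j hj]
  have e := add_left_cancel ((HuniA.rep h).symm.trans (HuniA.rep h'))
  have hc : Zs.card ≤ d := by
    have := (hHB1 d S D hS _ u h.2.2.2).cardZ
    rwa [show (mkrd jm jM Zs q x μ).Z = Zs.image x from rfl,
      card_image_of_injective _ h.1.injective] at this
  set P : ℝ[X] := ∏ i ∈ Zs.erase j, (X - C (x i)) with hP
  have hd : P.degree < d := by
    have h1 := card_pos.2 ⟨j, hj⟩
    rw [hP, degree_prod, sum_congr rfl fun i _ => degree_X_sub_C (x i), sum_const,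
      card_erase_of_mem hj, nsmul_one]
    exact_mod_cast (by omega : Zs.card - 1 < d)
  have key : ∀ ν : Fin n → ℝ,
      dot (cf d P) (∑ i ∈ Zs, ν i • Vd 0 (x i)) = ν j * P.eval (x j) := fun ν => by
    have k : ∀ i, dot (cf d P) (ν i • Vd 0 (x i)) = ν i * P.eval (x i) := fun i => by
      rw [dot_smul_right]
      exact congrArg _ (ev_cf hd 0 (x i))
    rw [dot_sum_right, sum_congr rfl fun i _ => k i]
    refine sum_eq_single_of_mem j hj fun i hi hne => ?_
    rw [hP, eval_prod, prod_eq_zero (mem_erase.2 ⟨hne, hi⟩) (by simp), mul_zero]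
  have h0 : P.eval (x j) ≠ 0 := by
    rw [hP, eval_prod]
    refine prod_ne_zero_iff.2 fun i hi => ?_
    simpa [sub_eq_zero, h.1.injective.eq_iff] using (mem_erase.1 hi).1.symm
  exact mul_right_cancel₀ h0 (by rw [← key, ← key, e])

end Pool.Agent.P.MP_a0f0ad_al.Fi
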