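import Pool.Agent.P.MP_a0f0ad_al.Fi.H.Hnrm
import Pool.Agent.P.MP_a0f0ad_al.Fi.H.Hsa
import Pool.Agent.P.MP_a0f0ad_al.Fi.H.Hb1
import Pool.Agent.P.MP_a0f0ad_al.Fi.H.Huni
import Pool.Agent.P.MP_a0f0ad_al.Fi.H.Henc
import Pool.Agent.P.MP_a0f0ad_al.Fi.H.Hcov
import Pool.Agent.P.MP_a0f0ad_al.Fi.H.Hgen
import Pool.Agent.P.MP_a0f0ad_al.Fi.H.Hgap
import Pool.Agent.P.MP_a0f0ad_al.Fi.H.Hdint
import Pool.Agent.P.MP_a0f0ad_al.Fi.H.Hdy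
import Pool.Agent.P.MP_a0f0ad_al.Fi.H.Htanw
import Pool.Agent.P.MP_a0f0ad_al.Fi.H.Htans
import Pool.Agent.P.MP_a0f0ad_al.Fi.H.Hctx
import Pool.Agent.P.MP_a0f0ad_al.Fi.H.Hhit1
import Pool.Agent.P.MP_a0f0ad_al.Fi.H.Hfa
import Pool.Agent.P.MP_a0f0ad_al.Fi.H.Hjmp
import Pool.Agent.P.MP_a0f0ad_al.Fi.H.Hdi
import Pool.Agent.P.MP_a0f0ad_al.Fi.H.Hhit2
import Pool.Agent.P.MP_a0f0ad_al.Fi.H.Hstep
import Pool.Agent.P.MP_a0f0ad_al.Fi.H.Hmono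
import Pool.Agent.P.MP_a0f0ad_al.Fi.H.Hs0
import Pool.Agent.P.MP_a0f0ad_al.Fi.H.Hbg
import Pool.Agent.P.MP_a0f0ad_al.Fi.H.Hnra
import Pool.Agent.P.MP_a0f0ad_al.Fi.H.Hnrc
import Pool.Agent.P.MP_a0f0ad_al.Fi.H.Hb2
import Pool.Agent.P.MP_a0f0ad_al.Fi.H.Hden
import Pool.Agent.P.MP_a0f0ad_al.Fi.H.Hql
import Pool.Agent.P.MP_a0f0ad_al.Fi.H.Hdir0
import Pool.Agent.P.MP_a0f0ad_al.Fi.H.Hp0
import Pool.Agent.P.MP_a0f0ad_al.Fi.H.Hdirx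
import Pool.Agent.P.MP_a0f0ad_al.Fi.H.Hmd
import Pool.Agent.P.MP_a0f0ad_al.Fi.H.Hj
import Pool.Agent.P.MP_a0f0ad_al.Fi.H.Hclus
import Pool.Agent.P.MP_a0f0ad_al.Fi.H.Hpc
import Pool.Agent.P.MP_a0f0ad_al.Fi.H.Hpr
import Pool.Agent.P.MP_a0f0ad_al.Fi.H.Hth
import Pool.Agent.P.MP_a0f0ad_al.Fi.H.Htv
import Pool.Agent.P.MP_a0f0ad_al.Fi.H.Hmu
import Pool.Agent.P.MP_a0f0ad_al.Fi.H.Hr12
import Pool.Agent.P.MP_a0f0ad_al.Fi.H.Hr3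
import Pool.Agent.P.MP_a0f0ad_al.Fi.H.Hg1
import Pool.Agent.P.MP_a0f0ad_al.Fi.H.Hg2
import Pool.Agent.P.MP_a0f0ad_al.Fi.H.Hchs
import Pool.Agent.P.MP_a0f0ad_al.Fi.H.Hchp
import Pool.Agent.P.MP_a0f0ad_al.Fi.H.Hpart
import Pool.Agent.P.MP_a0f0ad_al.Fi.H.Hg6l
import Pool.Agent.P.MP_a0f0ad_al.Fi.H.Hg6r
import Pool.Agent.P.MP_a0f0ad_al.Fi.H.Hall
import Pool.Agent.P.MP_a0f0ad_al.Fi.H.Iface
import Pool.Agent.P.MP_a0f0ad_al.Fi.S.Iface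
import Pool.Agent.P.MP_a0f0ad_al.Fi.V.Iface
import Pool.Agent.P.MP_a0f0ad_al.Fi.N.Iface
import Pool.Agent.P.MP_a0f0ad_al.Fi.T.Iface

/-! Step GOOD of the filiform project. -/

namespace Pool.Agent.P.MP_a0f0ad_al.Fi

open Finset MeasureTheory

theorem p_GOOD (hPROJ : S_PROJ) (_hUF : S_UF) (hNULL : S_NULL) (hCHOICE : S_CHOICE) (_hENUM : S_ENUM) (hDIFF : S_DIFF) (hTAIL : S_TAIL) (hDEFN : S_DEFN) (hMARK : S_MARK) (hPEN : S_PEN) (hHOM : S_HOM) (hPUB : S_PUB) (hQLOW : S_QLOW) (hTCP : S_TCP) :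
    S_GOOD := by
  have hHNRM : S_HNRM := p_HNRM
  have hHSA : S_HSA := p_HSA hPROJ hDEFN
  have hHB1 : S_HB1 := p_HB1 hPEN hHOM hPUB
  have hHUNI : S_HUNI := p_HUNI hHB1
  have hHENC : S_HENC := p_HENC hHB1 hHNRM
  have hHCOV : S_HCOV := p_HCOV hPROJ hCHOICE hDIFF hHOM hHSA hHUNI hHENC
  have hHGEN : S_HGEN := p_HGEN hPROJ hNULL
  have hHGAP : S_HGAP := p_HGAP
  have hHDINT : S_HDINT := p_HDINT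
  have hHDY : S_HDY := p_HDY hHB1 hHGAP hHDINT
  have hHTANW : S_HTANW := p_HTANW hHB1 hHGAP hHDY
  have hHTANS : S_HTANS := p_HTANS hHB1
  have hHCTX : S_HCTX := p_HCTX hHGEN hHTANW hHTANS
  have hHHIT1 : S_HHIT1 := p_HHIT1 hPROJ hTAIL
  have hHFA : S_HFA := p_HFA
  have hHJMP : S_HJMP := p_HJMP
  have hHDI : S_HDI := p_HDI hHJMP hHGAP hHDINT hHFA
  have hHHIT2 : S_HHIT2 := p_HHIT2 hPROJ hTAIL hDEFN hHFA hHDI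
  have hHSTEP : S_HSTEP := p_HSTEP hHCTX hHHIT1 hHHIT2
  have hHMONO : S_HMONO := p_HMONO
  have hHS0 : S_HS0 := p_HS0 hMARK hPEN hHOM hPUB hHB1
  have hHBG : S_HBG := p_HBG hPROJ hTAIL hHB1
  have hHNRA : S_HNRA := p_HNRA
  have hHNRC : S_HNRC := p_HNRC hPROJ hCHOICE hDIFF hHCTX hHNRA
  have hHB2 : S_HB2 := p_HB2 hMARK
  have hHDEN : S_HDEN := p_HDEN hHB2
  have hHQL : S_HQL := p_HQL hMARK hQLOW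
  have hHDIR0 : S_HDIR0 := p_HDIR0
  have hHP0 : S_HP0 := p_HP0 hHDIR0
  have hHDIRX : S_HDIRX := p_HDIRX hHB2
  have hHMD : S_HMD := p_HMD hHB2 hHDIRX
  have hHJ : S_HJ := p_HJ hHJMP
  have hHCLUS : S_HCLUS := p_HCLUS
  have hHPC : S_HPC := p_HPC hHB2 hHJ hHDIRX hHCLUS
  have hHPR : S_HPR := p_HPR
  have hHTH : S_HTH := p_HTH hHB2 hHDIRX hHCLUS
  have hHTV : S_HTV := p_HTV hHDIRX
  have hHMU : S_HMU := p_HMU hHB2 hHDIR0 hHDIRX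
  have hHR12 : S_HR12 := p_HR12
  have hHR3 : S_HR3 := p_HR3 hHB2 hHDIR0 hHDIRX
  have hHG1 : S_HG1 := p_HG1 hHDIR0
  have hHG2 : S_HG2 := p_HG2 hTCP hHDIRX
  have hHCHS : S_HCHS := p_HCHS
  have hHCHP : S_HCHP := p_HCHP hHCHS
  have hHPART : S_HPART := p_HPART
  have hHG6L : S_HG6L := p_HG6L hHCHP hHPART
  have hHG6R : S_HG6R := p_HG6R hHCHP hHPART
  exact p_HALL hHNRM hHCOV hHSTEP hHMONO hHS0 hHBG hHNRC hHDEN hHQL hHP0 hHMD hHPC hHPR hHTH hHTV hHMU hHR12 hHR3 hHG1 hHG2 hHG6L hHG6R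

end Pool.Agent.P.MP_a0f0ad_al.Fi
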