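import Pool.Agent.P.MP_a0f0ad_al.Fi.H.Iface2
import Pool.Agent.P.MP_a0f0ad_al.Fi.H.Tool

/-! Step HDIRX of the filiform project. -/

namespace Pool.Agent.P.MP_a0f0ad_al.Fi

open Finset MeasureTheory Polynomial Filter Topology
open scoped Classical

namespace HdirxA

theorem exists_der {d : ℕ} (q : Fin d → ℝ) :
    ∃ q1 : Fin d → ℝ, ∀ k x, ev q1 k x = ev q (k + 1) x :=
  ⟨cf d (derivative (pol q)), fun k x => by
    rw [ev_cf (degree_derivative_le.trans_lt (degree_pol_lt q)), ev_eq_eval,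
      Function.iterate_succ_apply]⟩

theorem ratio {a b B : ℝ} (hb : b ≠ 0) (h : |a| ≤ B * |b|) : |a / b| ≤ B := by
  rwa [abs_div, div_le_iff₀ (abs_pos.2 hb)]

theorem two {a b B : ℝ} (ha : |a| ≤ B) (hb : |b| ≤ B) : |a - b| ≤ 2 * B :=
  (abs_sub a b).trans (by linarith)

theorem sum_le {ι M : Type} [SeminormedAddCommGroup M] {s : Finset ι} {f : ι → M} {v b n : ℝ}
    (hv : 0 ≤ v) (hb : 0 ≤ b) (hn : (s.card : ℝ) ≤ n) (h : ∀ i ∈ s, v * ‖f i‖ ≤ b) :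
    v * ‖∑ i ∈ s, f i‖ ≤ n * b := by
  refine (mul_le_mul_of_nonneg_left (norm_sum_le _ _) hv).trans ?_
  rw [mul_sum]
  refine (sum_le_card_nsmul _ _ b h).trans ?_
  rw [nsmul_eq_mul]
  exact mul_le_mul_of_nonneg_right hn hb

end HdirxA

open HdirxA in
theorem p_HDIRX (hHB2 : S_HB2) :
    S_HDIRX := by
  intro d S D hS
  obtain ⟨c, C, c0', -, C1, hC⟩ := hHB2 d S D hS
  obtain ⟨V, V1, hV⟩ := exists_Vd_bound d D.Lam
  have Qi := inv_pos.2 hS.Qpos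
  have L0 := hS.Lam_pos
  refine ⟨2 + (C + 1) * (C * 2 * V) + d * (D.Q⁻¹ * (2 * V) / c * V + D.Q⁻¹ * 2 * V),
    by positivity, fun ρ u T v B g SS H v0 v1 hq hg hSS hT hN => ?_⟩
  obtain ⟨cN, cJ, cq, -⟩ := hC ρ u H.bas H.fac
  have B0 : 0 ≤ B := (norm_nonneg _).trans hg
  obtain ⟨q1, hq1⟩ := exists_der ρ.q
  have ZS : ∀ z ∈ ρ.Z, z ∉ SS := fun z hz a => (hSS z a).2.ne (H.bas.abs_atom hz)
  have rat : ∀ y ∈ ρ.N D u.1, y ∉ SS → ¬ ρ.IsT u.1 y → |ev g 0 y / ev ρ.q 1 y| ≤ B :=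
    fun y a b e => ratio (H.node_ne hS a e) (hN y a b e)
  have pin : ∀ y, y = 0 ∨ y = u.1 → y ∈ ρ.Z →
      ev ρ.q 1 y ≠ 0 ∧ |ev g 0 y / ev ρ.q 1 y| ≤ B := fun y a b =>
    ⟨H.node_ne hS (H.fac.Z_mem b) fun e => e.2.1 (H.pin_of_mem a b),
      rat y (H.fac.Z_mem b) (ZS y b) fun e => e.2.1 (H.pin_of_mem a b)⟩
  obtain ⟨c0, k1, k2, k3⟩ : ∃ c0 : ℝ, |c0| ≤ B ∧ ((0 : ℝ) ∉ ρ.Z → c0 = 0) ∧
      ((0 : ℝ) ∈ ρ.Z → c0 = ev g 0 0 / ev ρ.q 1 0) := by
    by_cases a : (0 : ℝ) ∈ ρ.Z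
    · exact ⟨_, (pin 0 (Or.inl rfl) a).2, fun b => absurd a b, fun _ => rfl⟩
    · exact ⟨0, by simpa using B0, fun _ => rfl, fun b => absurd b a⟩
  obtain ⟨da, k4, k5⟩ : ∃ da : ℝ, |da| ≤ 2 * B ∧
      (u.1 ∈ ρ.Z → da = c0 - ev g 0 u.1 / ev ρ.q 1 u.1) := by
    by_cases a : u.1 ∈ ρ.Z
    · exact ⟨_, two k1 (pin _ (Or.inr rfl) a).2, fun _ => rfl⟩
    · exact ⟨0, by simpa using B0, fun b => absurd b a⟩
  have e0 : ∀ k x, ev (g - c0 • q1) k x = ev g k x - c0 * ev ρ.q (k + 1) x := fun k x => by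
    rw [ev_sub, ev_smul, hq1]
  obtain ⟨h, h1, h2, h3⟩ := H.surj (g - c0 • q1) da (fun _ => 0) fun z hz => by
    obtain ⟨a, b⟩ := RD.mem_TF.1 hz
    rw [e0, zero_add]
    split_ifs with e
    · subst e
      have := (pin _ (Or.inr rfl) a).1
      rw [k5 a]
      field_simp
      ring
    · by_cases p : ρ.Pin u.1 z
      · obtain rfl : z = 0 := (p.resolve_right fun p => e p.1).1
        have := (pin _ (Or.inl rfl) a).1
        rw [k3 a]
        field_simp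
        ring
      · rw [(hT z ⟨a, p, b.resolve_left p⟩).1, b.resolve_left p]
        ring
  rw [← h1] at e0
  have x1 : ∀ y, |y| < 2 * D.Lam → ev ρ.q 0 y ∈ D.ThA → ¬ ρ.IsT u.1 y →
      T.Dx y h = c0 - ev g 0 y / ev ρ.q 1 y := fun y a b e => by
    have n : ev ρ.q 1 y ≠ 0 := fun n => e (H.nd1 y a b n)
    have := H.dval y a b h
    rw [Tan.Dev, e0, zero_add] at this
    field_simp
    linarith
  have x2 : ∀ z, ρ.IsT u.1 z → T.Dx z h = c0 - ev g 1 z / ev ρ.q 2 z := fun z a => by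
    have n := (H.nd2 z a).1
    have := H.dk z (H.fac.node_pts hS (H.fac.Z_mem a.1)) 1 le_rfl a.2.2 h
    rw [Tan.Dev, e0] at this
    field_simp
    linarith
  have x1' : ∀ y ∈ ρ.N D u.1, ¬ ρ.IsT u.1 y → T.Dx y h = c0 - ev g 0 y / ev ρ.q 1 y :=
    fun y a => x1 y (H.fac.node_lt hS a) (H.fac.rng y a).2.2
  have x3 : ∀ y ∈ ρ.N D u.1, y ∉ SS → |T.Dx y h| ≤ 2 * B := fun y a b => by
    by_cases e : ρ.IsT u.1 y
    · rw [x2 y e]
      exact two k1 (ratio (H.nd2 y e).1 (hT y e).2)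
    · rw [x1' y a e]
      exact two k1 (rat y a b e)
  have x4 : ∀ y ∈ insert u.1 (ρ.N D u.1), |y| ≤ D.Lam ∧
      |T.Dx y h + if y ∈ SS then ev g 0 y / ev ρ.q 1 y else 0| ≤ 2 * B := fun y a => by
    by_cases b : y ∈ ρ.N D u.1
    · refine ⟨by linarith [H.fac.abs_node b], ?_⟩
      split_ifs with e
      · rw [x1' y b fun t => ZS y t.1 e, sub_add_cancel]
        linarith
      · rw [add_zero]
        exact x3 y b e
    · obtain rfl := (mem_insert.1 a).resolve_right b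
      rw [if_neg fun e => b (hSS _ e).1, add_zero, H.da, h2]
      exact ⟨by linarith [H.fac.abs_a H.bas], k4⟩
  have x5 : ∀ z ∈ ρ.Z, v * |T.Dm z h| ≤ D.Q⁻¹ * (2 * V) / c * B := fun z a => by
    by_cases b : z ∈ ρ.TF u.1
    · rw [h3 z b, abs_zero, mul_zero]
      positivity
    obtain ⟨p, n⟩ := not_or.1 fun e => b (RD.mem_TF.2 ⟨a, e⟩)
    have zN := H.fac.Z_mem a
    have zL : |z| ≤ D.Lam := by linarith [H.fac.abs_node zN]
    have nT : ¬ ρ.IsT u.1 z := fun e => n e.2.2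
    have e := H.dW z a p n h
    rw [Tan.Dmq, Tan.Dev, e0, x1' z zN nT] at e
    have e1 : |T.Dm z h| * |ev ρ.q 1 z| =
        |ρ.mu z| * |ev ρ.q 2 z * (ev g 0 z / ev ρ.q 1 z) - ev g 1 z| := by
      rw [← abs_mul, ← abs_mul]
      congr 1
      linear_combination e
    have e2 : v * |ev ρ.q 2 z| ≤ V := by
      have := mul_le_mul_of_nonneg_left ((hV 2 z zL).2 ρ.q) v0.le
      nlinarith
    have e3 : v * |ev g 1 z| ≤ V * B :=
      (mul_le_of_le_one_left (abs_nonneg _) v1).trans (((hV 1 z zL).2 g).trans (by gcongr))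
    have e4 : v * |ev ρ.q 2 z * (ev g 0 z / ev ρ.q 1 z) - ev g 1 z| ≤ 2 * V * B := by
      have t := mul_le_mul e2 (rat z zN (ZS z a) nT) (abs_nonneg _) (by linarith)
      have := mul_le_mul_of_nonneg_left
        (abs_sub (ev ρ.q 2 z * (ev g 0 z / ev ρ.q 1 z)) (ev g 1 z)) v0.le
      rw [abs_mul] at this
      linarith
    have e5 := mul_le_mul (H.fac.abs_mu hS a) e4 (by positivity) Qi.le
    have e6 := mul_le_mul_of_nonneg_left (cq z a p n) (mul_nonneg v0.le (abs_nonneg (T.Dm z h)))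
    rw [div_mul_eq_mul_div, le_div_iff₀ c0']
    nlinarith
  have s1 : v * ‖∑ y ∈ insert u.1 (ρ.N D u.1), (ρ.J D u.1 y *
      (T.Dx y h + if y ∈ SS then ev g 0 y / ev ρ.q 1 y else 0)) • (Vd 0 y : Fin d → ℝ)‖ ≤
      (C + 1) * (C * (2 * B) * V) := by
    refine sum_le v0.le (by positivity) ?_ fun y a => ?_
    · have : ((insert u.1 (ρ.N D u.1)).card : ℝ) ≤ (ρ.N D u.1).card + 1 := by
        exact_mod_cast card_insert_le _ _
      linarith
    · refine (mul_le_of_le_one_left (norm_nonneg _) v1).trans ?_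
      rw [norm_smul, Real.norm_eq_abs, abs_mul]
      have := (hV 0 y (x4 y a).1).1
      have := (x4 y a).2
      have := cJ y
      gcongr
  have s2 : v * ‖∑ z ∈ ρ.Z, (T.Dm z h • (Vd 0 z : Fin d → ℝ) + (ρ.mu z * T.Dx z h) • Vd 1 z)‖ ≤
      d * (D.Q⁻¹ * (2 * V) / c * B * V + D.Q⁻¹ * (2 * B) * V) := by
    refine sum_le v0.le (by positivity) (by exact_mod_cast H.fac.cardZ) fun z a => ?_
    have zN := H.fac.Z_mem a
    have zL : |z| ≤ D.Lam := by linarith [H.fac.abs_node zN]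
    refine (mul_le_mul_of_nonneg_left (norm_add_le _ _) v0.le).trans ?_
    rw [mul_add, norm_smul, norm_smul, Real.norm_eq_abs, Real.norm_eq_abs, abs_mul, ← mul_assoc]
    refine add_le_add (mul_le_mul (x5 z a) (hV 0 z zL).1 (norm_nonneg _) (by positivity))
      ((mul_le_of_le_one_left (by positivity) v1).trans ?_)
    have := (hV 1 z zL).1
    have := H.fac.abs_mu hS a
    have := x3 z zN (ZS z a)
    gcongr
  have s3 : ∑ y ∈ SS, (ρ.J D u.1 y * (ev g 0 y / ev ρ.q 1 y)) • (Vd 0 y : Fin d → ℝ) =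
      ∑ y ∈ insert u.1 (ρ.N D u.1),
        (ρ.J D u.1 y * if y ∈ SS then ev g 0 y / ev ρ.q 1 y else 0) • Vd 0 y := by
    rw [← sum_subset (s₁ := SS) (fun y a => mem_insert_of_mem (hSS y a).1)
      fun y _ a => by rw [if_neg a, mul_zero, zero_smul]]
    exact sum_congr rfl fun y a => by rw [if_pos a]
  have p1 : 0 ≤ (C + 1) * (C * (2 * B) * V) := by positivity
  have p2 : 0 ≤ d * (D.Q⁻¹ * (2 * V) / c * B * V + D.Q⁻¹ * (2 * B) * V) := by positivity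
  refine ⟨h, c0, k1, k2, e0, h3, x1, x2, ?_, ?_⟩
  · rw [h2]
    have := mul_le_of_le_one_left (abs_nonneg da) v1
    linarith
  · rw [H.dy h, s3, add_right_comm, ← sum_add_distrib]
    simp only [← add_smul, ← mul_add]
    have := mul_le_mul_of_nonneg_left (norm_add_le
      (∑ y ∈ insert u.1 (ρ.N D u.1), (ρ.J D u.1 y *
        (T.Dx y h + if y ∈ SS then ev g 0 y / ev ρ.q 1 y else 0)) • (Vd 0 y : Fin d → ℝ))
      (∑ z ∈ ρ.Z, (T.Dm z h • (Vd 0 z : Fin d → ℝ) + (ρ.mu z * T.Dx z h) • Vd 1 z))) v0.le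
    linarith

end Pool.Agent.P.MP_a0f0ad_al.Fi
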