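import Pool.Agent.P.MP_a0f0ad_al.Fi.H.Iface2
import Pool.Agent.P.MP_a0f0ad_al.Fi.H.Tool

/-! Step HDY of the filiform project. -/

namespace Pool.Agent.P.MP_a0f0ad_al.Fi

open Finset MeasureTheory Polynomial Filter Topology
open scoped Classical

namespace HdyA

variable {d : ℕ} {S : Finset (G d)} {D : LD d} {ρ : RD d} {u : E d}

theorem cg {f g : ℝ → ℝ} {s t : ℝ} (h : s ≤ t) (hg : IntervalIntegrable g volume s t)
    (e : Set.EqOn g f (Set.Ioo s t)) :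
    IntervalIntegrable f volume s t ∧ ∫ x in s..t, f x = ∫ x in s..t, g x :=
  ⟨hg.congr_uIoo (by rwa [Set.uIoo_of_le h]), intervalIntegral.integral_congr_Ioo_of_le h e.symm⟩

theorem Yq_eq (hS : D.Spec S) {a : ℝ} (h1 : ρ.m ≤ 0) (h2 : 0 ≤ a) (h3 : a ≤ ρ.M) (i : Fin d) :
    D.Yq ρ.q ρ.m ρ.M a i = ∫ y in ρ.m..ρ.M, ρ.dens D a y * Vd 0 y i := by
  have v : Continuous fun y => (Vd 0 y : Fin d → ℝ) i := (continuous_apply i).comp (continuous_Vd 0)
  have i1 := hS.ii_kp (continuous_ev ρ.q 0) v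
  have i2 := hS.ii_kp (continuous_ev ρ.q 0).fun_neg v
  obtain ⟨a1, b1⟩ := cg (f := fun y => ρ.dens D a y * Vd 0 y i) h1 ((i1 _ _).sub (i2 _ _))
    fun y hy => by
      simp only [RD.dens, if_pos (show ρ.m < y ∧ y < ρ.M from ⟨hy.1, by linarith [hy.2]⟩),
        if_pos (Or.inl hy : (ρ.m < y ∧ y < 0) ∨ (a < y ∧ y < ρ.M)), sub_mul]
  obtain ⟨a2, b2⟩ := cg (f := fun y => ρ.dens D a y * Vd 0 y i) h2 (i1 _ _) fun y hy => by
    have : ¬((ρ.m < y ∧ y < 0) ∨ (a < y ∧ y < ρ.M)) := by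
      rintro (k | k)
      · exact k.2.not_gt hy.1
      · exact k.1.not_gt hy.2
    simp only [RD.dens, if_pos (show ρ.m < y ∧ y < ρ.M from
      ⟨by linarith [hy.1], by linarith [hy.2]⟩), if_neg this, sub_zero]
  obtain ⟨a3, b3⟩ := cg (f := fun y => ρ.dens D a y * Vd 0 y i) h3 ((i1 _ _).sub (i2 _ _))
    fun y hy => by
      simp only [RD.dens, if_pos (show ρ.m < y ∧ y < ρ.M from ⟨by linarith [hy.1], hy.2⟩),
        if_pos (Or.inr hy : (ρ.m < y ∧ y < 0) ∨ (a < y ∧ y < ρ.M)), sub_mul]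
  rw [← intervalIntegral.integral_add_adjacent_intervals (a1.trans a2) a3,
    ← intervalIntegral.integral_add_adjacent_intervals a1 a2, b1, b2, b3,
    intervalIntegral.integral_sub (i1 _ _) (i2 _ _), intervalIntegral.integral_sub (i1 _ _) (i2 _ _),
    LD.Yq, ← intervalIntegral.integral_add_adjacent_intervals (i1 _ a) (i1 a _),
    ← intervalIntegral.integral_add_adjacent_intervals (i1 _ 0) (i1 0 a)]
  ring

theorem kp_near (hS : D.Spec S) {φ : ℝ → ℝ} (hφ : Continuous φ) {y : ℝ}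
    (h : ¬∃ k < D.n, φ y = D.th k) : ∀ᶠ x in 𝓝 y, D.kp (φ x) = D.kp (φ y) :=
  (hφ.continuousAt.eventually (hS.idx_eventually fun k hk e => h ⟨k, hk, e⟩)).mono
    fun x hx => congrArg D.kap hx

theorem J_zero (hS : D.Spec S) (hb : ρ.Bas D u) (hf : ρ.Fac D u) {y : ℝ} (h1 : ρ.m ≤ y)
    (h2 : y ≤ ρ.M) (h0 : y ≠ 0) (hy : y ∉ insert u.1 (ρ.N D u.1)) : ρ.J D u.1 y = 0 := by
  rw [mem_insert, not_or] at hy
  have k1 : ρ.m < y := lt_of_le_of_ne h1 fun e =>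
    hy.2 (e ▸ (hf.endm (lt_of_le_of_ne hb.rep.1 (e ▸ h0))).2)
  have k2 : y < ρ.M := lt_of_le_of_ne h2 fun e =>
    hy.2 (e ▸ (hf.endM (lt_of_le_of_ne hb.rep.2.1 fun e' => hy.1 (e.trans e'.symm))).2)
  have hl : y ∉ ρ.lev D u.1 := fun a => hy.2 ((hf.memN y).2 (Or.inl a))
  have n1 := kp_near hS (continuous_ev ρ.q 0) fun a => hl (Or.inl ⟨k1, k2, a⟩)
  have key : ∀ᶠ x in 𝓝 y, ρ.dens D u.1 x = ρ.dens D u.1 y := by
    by_cases c : (ρ.m < y ∧ y < 0) ∨ (u.1 < y ∧ y < ρ.M)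
    · have n2 := kp_near hS (continuous_ev ρ.q 0).fun_neg fun a => hl (Or.inr (Or.inl ⟨c, a⟩))
      have n3 : ∀ᶠ x in 𝓝 y, (ρ.m < x ∧ x < 0) ∨ (u.1 < x ∧ x < ρ.M) :=
        (isOpen_Ioo.union isOpen_Ioo).mem_nhds c
      filter_upwards [n1, n2, n3, Ioo_mem_nhds k1 k2] with x a1 a2 a3 a4
      simp only [RD.dens, if_pos a3, if_pos c, if_pos (show ρ.m < x ∧ x < ρ.M from a4),
        if_pos (And.intro k1 k2), a1, a2]
    · have p1 : 0 < y := lt_of_le_of_ne (not_lt.1 fun a => c (Or.inl ⟨k1, a⟩)) h0.symm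
      have p2 : y < u.1 := lt_of_le_of_ne (not_lt.1 fun a => c (Or.inr ⟨a, k2⟩)) hy.1
      filter_upwards [n1, Ioo_mem_nhds p1 p2, Ioo_mem_nhds k1 k2] with x a1 a3 a4
      have : ¬((ρ.m < x ∧ x < 0) ∨ (u.1 < x ∧ x < ρ.M)) := by
        rintro (k | k)
        · exact k.2.not_gt a3.1
        · exact k.1.not_gt a3.2
      simp only [RD.dens, if_neg this, if_neg c, if_pos (show ρ.m < x ∧ x < ρ.M from a4),
        if_pos (And.intro k1 k2), a1]
  rw [RD.J, leftLim_of_eventually (key.filter_mono nhdsWithin_le_nhds),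
    rightLim_of_eventually (key.filter_mono nhdsWithin_le_nhds), sub_self]

theorem dens_out (hb : ρ.Bas D u) {y : ℝ} (h : ¬(ρ.m < y ∧ y < ρ.M)) : ρ.dens D u.1 y = 0 := by
  have : ¬((ρ.m < y ∧ y < 0) ∨ (u.1 < y ∧ y < ρ.M)) := by
    rintro (k | k)
    · exact h ⟨k.1, by linarith [k.2, hb.ha, hb.rep.2.1]⟩
    · exact h ⟨by linarith [k.1, hb.ha, hb.rep.1], k.2⟩
  simp only [RD.dens, if_neg this, if_neg h, sub_zero]

theorem gap (hB : S_HB1) (hG : S_HGAP) (hS : D.Spec S) {n : ℕ} {c : Ch d n} (hc : c.OK D)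
    (hu : u ∈ c.U) : ∃ β : Fin n → ℝ, ∀ᶠ v in 𝓝 u, StrictMono (c.x v) ∧
      ∀ i j : Fin n, (j : ℕ) = i + 1 → ∀ y ∈ Set.Ioo (c.x v i) (c.x v j),
        (c.rd v).dens D v.1 y = β i := by
  obtain ⟨g1, g2, g3⟩ := hG d D n c hc u hu
  have t : ∀ w, w ∉ D.ThA → ¬∃ k < D.n, w = D.th k := fun w hw ⟨k, hk, e⟩ =>
    hw (Or.inr (Or.inr ⟨k, hk, Or.inl e⟩))
  obtain ⟨b1, h1⟩ := g1 D.kp fun w hw => kp_near hS continuous_id (t w hw)
  obtain ⟨b2, h2⟩ := g1 (fun w => D.kp (-w)) fun w hw =>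
    kp_near hS continuous_neg (t _ fun a => hw (neg_neg w ▸ D.neg_mem_ThA a))
  obtain ⟨j0, e0⟩ := (hc.pts hu 0).1 (RD.zero_pts hS _ _)
  obtain ⟨ja, ea⟩ := (hc.pts hu u.1).1 ((hB d S D hS _ u (hc.bas hu)).a_pts hS (hc.bas hu))
  refine ⟨fun i => (if c.jm ≤ i ∧ i < c.jM then b1 i else 0) -
    if (c.jm ≤ i ∧ i < j0) ∨ (ja ≤ i ∧ i < c.jM) then b2 i else 0, ?_⟩
  filter_upwards [h1, h2, g2 j0 e0, g3 ja ea, hc.near hu] with v a1 a2 a3 a4 hv
  have m := hc.mono hv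
  refine ⟨m, fun i j e y hy => ?_⟩
  have l1 : ∀ k, c.x v k < y ↔ k ≤ i := fun k =>
    ⟨fun a => by have := Fin.lt_def.1 (m.lt_iff_lt.1 (a.trans hy.2)); rw [Fin.le_def]; omega,
      fun a => (m.monotone a).trans_lt hy.1⟩
  have l2 : ∀ k, y < c.x v k ↔ i < k := fun k =>
    ⟨fun a => m.lt_iff_lt.1 (hy.1.trans a), fun a => hy.2.trans_le (m.monotone
      (by have := Fin.lt_def.1 a; rw [Fin.le_def]; omega))⟩
  have l3 : y < 0 ↔ i < j0 := a3 ▸ l2 j0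
  have l4 : v.1 < y ↔ ja ≤ i := a4 ▸ l1 ja
  simp only [RD.dens, Ch.rd_m, Ch.rd_M, Ch.rd_q, l1, l2, l3, l4, a1 i j e y hy, a2 i j e y hy]

end HdyA

theorem p_HDY (hHB1 : S_HB1) (hHGAP : S_HGAP) (hHDINT : S_HDINT) :
    S_HDY := by
  intro d S D hS n c hc u hu h
  funext i
  have hb := hc.bas hu
  have hf := hHB1 d S D hS _ u hb
  have m := hc.mono hu
  have jj : c.jm < c.jM := m.lt_iff_lt.1 hb.rep.2.2.1
  obtain ⟨β, hβ⟩ := HdyA.gap hHB1 hHGAP hS hc hu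
  obtain ⟨L, hL, eL⟩ := hHDINT d n c.x (fun v => (c.rd v).dens D v.1) (fun _ => Pi.single i 1) β u
    (hc.diffx u hu) (differentiableAt_const _) hβ _ _ jj
  have hA := HasFDerivAt.fun_sum (u := c.Zs) fun j _ =>
    (hc.hm hu j).fun_mul ((hasDerivAt_Vd 0 i (c.x u j)).comp_hasFDerivAt u (hc.hx hu j))
  have hP := ((ContinuousLinearMap.proj (R := ℝ) (φ := fun _ : Fin d => ℝ) i).comp
    (ContinuousLinearMap.snd ℝ ℝ (Fin d → ℝ))).hasFDerivAt (x := u)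
  have e := hP.unique ((hL.fun_add hA).congr_of_eventuallyEq ((hc.near hu).mono fun v hv => by
    have r := (hc.bas hv).rep
    have := congrFun r.2.2.2.2.2 i
    rw [Pi.add_apply, HdyA.Yq_eq hS r.1 (hc.bas hv).ha.le r.2.1, hc.sum_Z hv,
      Finset.sum_apply] at this
    change v.2 i = _
    simpa only [ev, dot_single_left, hc.mu hv, Pi.smul_apply, smul_eq_mul, Function.comp_apply,
      Ch.rd_m, Ch.rd_M] using this))
  have e1 : h.2 i = _ := congrArg (fun A : E d →L[ℝ] ℝ => A h) e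
  have zM : Function.rightLim ((c.rd u).dens D u.1) (c.x u c.jM) = 0 :=
    rightLim_of_eventually (eventually_mem_nhdsWithin.mono fun y hy =>
      HdyA.dens_out hb fun a => a.2.not_gt hy)
  have zm : Function.leftLim ((c.rd u).dens D u.1) (c.x u c.jm) = 0 :=
    leftLim_of_eventually (eventually_mem_nhdsWithin.mono fun y hy =>
      HdyA.dens_out hb fun a => a.1.not_gt hy)
  have s1 : ∑ y ∈ insert u.1 ((c.rd u).N D u.1),
      (c.rd u).J D u.1 y * (c.tan u).Dx y h * Vd 0 y i =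
      ∑ y ∈ (univ.filter fun j => c.jm ≤ j ∧ j ≤ c.jM).image (c.x u),
        (c.rd u).J D u.1 y * (c.tan u).Dx y h * Vd 0 y i := by
    refine sum_subset (fun y hy => ?_) fun y hy hn => ?_
    · have a : y ∈ D.Pts (c.q u) u.1 ∧ c.x u c.jm ≤ y ∧ y ≤ c.x u c.jM := by
        rcases mem_insert.1 hy with rfl | a
        · exact ⟨hf.a_pts hS hb, hb.rep.1.trans hb.ha.le, hb.rep.2.1⟩
        · exact ⟨hf.node_pts hS a, (hf.rng y a).1, (hf.rng y a).2.1⟩
      obtain ⟨j, rfl⟩ := (hc.pts hu y).1 a.1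
      exact mem_image_of_mem _ (mem_filter.2 ⟨mem_univ _, m.le_iff_le.1 a.2.1, m.le_iff_le.1 a.2.2⟩)
    · obtain ⟨j, hj, rfl⟩ := mem_image.1 hy
      by_cases a : c.x u j = 0
      · rw [deriv_zero_of_const (hc.hx hu j) ((hHGAP d D n c hc u hu).2.1 j a), mul_zero, zero_mul]
      · rw [HdyA.J_zero hS hb hf (m.monotone (mem_filter.1 hj).2.1) (m.monotone (mem_filter.1 hj).2.2)
          a hn, zero_mul, zero_mul]
  have s2 : (univ.filter fun j => c.jm ≤ j ∧ j ≤ c.jM) =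
      insert c.jm (insert c.jM (univ.filter fun j => c.jm < j ∧ j < c.jM)) := by
    ext j
    have := Fin.lt_def.1 jj
    simp only [mem_filter, mem_univ, true_and, mem_insert, Fin.le_def, Fin.lt_def, Fin.ext_iff]
    omega
  rw [sum_image fun _ _ _ _ a => m.injective a, s2, sum_insert (a := c.jm) (by simp [jj.ne]),
    sum_insert (a := c.jM) (by simp)] at s1
  rw [e1, Pi.add_apply, Finset.sum_apply, hc.sum_Z hu, Finset.sum_apply]
  simp only [Pi.smul_apply, smul_eq_mul, s1]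
  simp only [Pi.smul_apply, smul_eq_mul, ContinuousLinearMap.add_apply, eL, fderiv_fun_const,
    Pi.zero_apply, ContinuousLinearMap.zero_apply, ev_zero, mul_zero,
    intervalIntegral.integral_zero, ← hc.Dx hu, RD.J, zM, zm, ev, dot_single_left,
    ContinuousLinearMap.sum_apply, ContinuousLinearMap.smul_apply, Pi.add_apply, hc.mu hu,
    Function.comp_apply, dot_zero_left]
  refine congrArg₂ _ ?_ (sum_congr rfl fun j _ => by ring)
  rw [sum_congr rfl fun j _ => mul_right_comm _ _ _]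
  ring

end Pool.Agent.P.MP_a0f0ad_al.Fi
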