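import Pool.Agent.P.MP_a0f0ad_al.Fi.H.Iface2
import Pool.Agent.P.MP_a0f0ad_al.Fi.Z.Bp

/-! Step HMONO of the filiform project. -/

namespace Pool.Agent.P.MP_a0f0ad_al.Fi

open Finset MeasureTheory Polynomial Filter Topology
open scoped Classical

namespace HmonoA

theorem mvt {d : ℕ} (q : Fin d → ℝ) {x z v : ℝ} (h1 : |x - z| ≤ v)
    (h2 : ∀ y, |y - z| ≤ v → v ≤ |ev q 2 y|) : v * |x - z| ≤ |ev q 1 x - ev q 1 z| := by
  have key : ∀ a b, a < b → (∀ y ∈ Set.Ioo a b, |y - z| ≤ v) →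
      v * |b - a| ≤ |ev q 1 b - ev q 1 a| := fun a b hab h => by
    obtain ⟨c, hc, e⟩ := exists_hasDerivAt_eq_slope (ev q 1) (ev q 2) hab
      (fun y _ => (hasDerivAt_ev q 1 y).continuousAt.continuousWithinAt)
      fun y _ => hasDerivAt_ev q 1 y
    have h3 := h2 c (h c hc)
    rwa [e, abs_div, le_div_iff₀ (abs_pos.2 (sub_pos.2 hab).ne')] at h3
  rw [abs_le] at h1
  rcases lt_trichotomy x z with h | rfl | h
  · rw [abs_sub_comm x, abs_sub_comm (ev q 1 x)]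
    exact key x z h fun y hy => abs_le.2 ⟨by linarith [hy.1], by linarith [hy.2]⟩
  · simp
  · exact key z x h fun y hy => abs_le.2 ⟨by linarith [hy.1], by linarith [hy.2]⟩

theorem r12 : Mono pR12 := by
  intro d D ρ u T v v' h0 h ⟨h1, h2⟩
  refine ⟨fun z hz => ?_, fun x hx w hw hv => ?_⟩
  · obtain ⟨a, b, c, e⟩ := h1 z hz
    exact ⟨h.trans a, by linarith, by linarith, fun x hx => h.trans (e x (hx.trans h))⟩
  rcases h2 x hx w hw (hv.trans h) with h3 | ⟨z, hz, h3, h4⟩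
  · exact Or.inl ((pow_le_pow_left₀ h0.le h 2).trans h3)
  refine (le_or_gt (v' ^ 2) |ev ρ.q 1 x|).imp_right fun h5 => ⟨z, hz, ?_, h4⟩
  have h6 := mvt ρ.q h3 (h1 z hz).2.2.2
  rw [hz.2.2, sub_zero] at h6
  by_contra h7
  push Not at h7
  nlinarith [mul_le_mul_of_nonneg_right h (abs_nonneg (x - z))]

end HmonoA

theorem p_HMONO :
    S_HMONO := by
  have m : ∀ {v v' a b : ℝ}, v' ≤ v → 0 ≤ a → v * a ≤ b → v' * a ≤ b := fun h ha hb =>
    (mul_le_mul_of_nonneg_right h ha).trans hb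
  refine ⟨fun P Q hP hQ d D ρ u T v v' h0 h H =>
      ⟨hP d D ρ u T v v' h0 h H.1, hQ d D ρ u T v v' h0 h H.2⟩,
    fun d D ρ u T v v' _ h H =>
      ⟨h.trans H.1, h.trans H.2.1, h.trans H.2.2.1, m h (norm_nonneg _) H.2.2.2⟩,
    fun d D ρ u T v v' _ h H => ⟨fun y hy k => m h (abs_nonneg _) (H.1 y hy k),
      fun y hy k => m h (abs_nonneg _) (H.2 y hy k)⟩,
    fun d D ρ u T v v' _ h H f e a b c => m h (norm_nonneg _) (H f e a b c),
    fun d D ρ u T v v' _ h H s a b => (H s a b).imp fun x hx => ⟨hx.1, h.trans hx.2⟩,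
    fun d D ρ u T v v' _ h H z a => h.trans (H z a),
    fun d D ρ u T v v' _ h H y a y' b c => h.trans (H y a y' b c),
    fun d D ρ u T v v' _ h H y a b => h.trans (H y a b),
    fun d D ρ u T v v' _ h H y a => h.trans (H y a),
    fun d D ρ u T v v' _ h H =>
      ⟨fun y a b => h.trans (H.1 y a b), fun z a => h.trans (H.2 z a)⟩,
    fun d D ρ u T v v' _ h H => ⟨fun c a b e w hw => h.trans (H.1 c a b e w hw),
      fun x a b => h.trans (H.2 x a b)⟩,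
    fun d D ρ u T v v' _ h H => ⟨fun z a => h.trans (H.1 z a),
      fun z a => ⟨h.trans (H.2.1 z a).1, h.trans (H.2.1 z a).2⟩,
      fun z a b => (add_le_add_right h _).trans (H.2.2 z a b)⟩,
    HmonoA.r12,
    fun d D ρ u T v v' _ h H x a => (H x a).imp
      (fun b => ⟨b.1, b.2.1, h.trans b.2.2.1, (add_le_add_right h _).trans b.2.2.2⟩)
      fun b w hw => h.trans (b w hw),
    fun d D ρ u T v v' _ h H a σ α m z M b c x hx => h.trans (H a σ α m z M b c x hx),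
    fun d D ρ u T v v' _ h H a α m z M b1 b2 b3 b4 b5 b6 b7 b8 b9 c1 c2 c3 c4 =>
      (H a α m z M b1 b2 b3 b4 b5 b6 b7 b8 b9 c1 c2 c3 c4).imp fun k hk => ⟨hk.1, h.trans hk.2⟩,
    fun d D ρ u T v v' _ h H a b α z b1 b2 b3 b4 b5 b6 b7 b8 =>
      (H a b α z b1 b2 b3 b4 b5 b6 b7 b8).imp_left fun ⟨f, f1, f2, f3⟩ => ⟨f, f1, f2, h.trans f3⟩,
    fun d D ρ u T v v' _ h H a b α z b1 b2 b3 b4 b5 b6 b7 b8 =>
      (H a b α z b1 b2 b3 b4 b5 b6 b7 b8).imp_left fun ⟨f, f1, f2, f3⟩ => ⟨f, f1, f2, h.trans f3⟩⟩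

end Pool.Agent.P.MP_a0f0ad_al.Fi
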