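import Pool.Agent.P.MP_a0f0ad_al.Fi.H.Iface2

/-! Step HNRM of the filiform project. -/

namespace Pool.Agent.P.MP_a0f0ad_al.Fi

open Finset MeasureTheory Polynomial Filter Topology
open scoped Classical

namespace HnrmA

variable {d : ℕ} (ρ : RD d) (D : LD d)

theorem mu {z : ℝ} (h : z ∈ ρ.Z) : ρ.nrm.mu z = ρ.mu z := if_pos h

theorem muAt (z : ℝ) : ρ.nrm.muAt z = ρ.muAt z := by
  by_cases h : z ∈ ρ.Z
  · exact if_pos h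
  · exact (if_neg h).trans (if_neg h).symm

theorem DM : ρ.nrm.DM D = ρ.DM D := by
  unfold RD.DM
  rw [muAt]
  rfl

theorem Dm : ρ.nrm.Dm D = ρ.Dm D := by
  unfold RD.Dm
  rw [muAt]
  rfl

theorem sum (f : ℝ → ℝ) : ∑ x ∈ ρ.nrm.Z, ρ.nrm.mu x * f x = ∑ x ∈ ρ.Z, ρ.mu x * f x :=
  sum_congr rfl fun x hx => by rw [mu ρ hx]

end HnrmA

open HnrmA in
theorem p_HNRM :
    S_HNRM := by
  intro d D ρ u
  have hpa : ρ.nrm.pa D u = ρ.pa D u := by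
    unfold RD.pa
    rw [HnrmA.DM]
    rfl
  refine ⟨hpa, fun h => ⟨h.ha, h.hN, h.hq, ?_⟩, fun pa v ⟨h0, h1, h2, h3⟩ => ⟨?_, ?_, ?_, ?_⟩⟩
  · obtain ⟨⟨a1, a2, a3, a4, a5, a6⟩, b⟩ := h.opt
    refine ⟨⟨a1, a2, a3, a4, fun z hz => ?_, a6.trans ?_⟩, ?_⟩
    · rw [mu ρ hz]
      exact a5 z hz
    · exact congrArg _ (sum_congr rfl fun x hx => by rw [mu ρ hx])
    · rw [hpa, HnrmA.DM, HnrmA.Dm]
      exact b
  · refine ⟨h0.ha, h0.hell, h0.hlen, h0.hq, fun z hz => ?_, h0.r2, fun x hx => ?_, h0.den⟩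
    · rw [← mu ρ hz.1]
      exact h0.r1 z hz
    · refine (h0.r3 x hx).imp_left fun h => ?_
      rw [← mu ρ h.1]
      exact h
  · refine fun he f hf hz => h1 he f hf fun z hz' => ?_
    rw [mu ρ hz']
    exact hz z hz'
  · intro a1 a2 α z a3 a4 a5 a6 a7 a8 a9 a10
    refine (h2 a1 a2 α z a3 a4 a5 a6 a7 a8 a9 a10).imp_left fun ⟨f, b1, b2, b3⟩ => ⟨f, b1, b2, ?_⟩
    rw [HnrmA.sum] at b3
    exact b3
  · intro a1 a2 α z a3 a4 a5 a6 a7 a8 a9 a10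
    refine (h3 a1 a2 α z a3 a4 a5 a6 a7 a8 a9 a10).imp_left fun ⟨f, b1, b2, b3⟩ => ⟨f, b1, b2, ?_⟩
    rw [HnrmA.sum] at b3
    exact b3

end Pool.Agent.P.MP_a0f0ad_al.Fi
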