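import Pool.Agent.P.MP_a0f0ad_al.Fi.H.Iface2
import Pool.Agent.P.MP_a0f0ad_al.Fi.H.Tool
import Pool.Agent.P.MP_a0f0ad_al.Fi.H.ToolP

/-! Step HR3 of the filiform project. -/

namespace Pool.Agent.P.MP_a0f0ad_al.Fi

open Finset MeasureTheory Polynomial Filter Topology
open scoped Classical

theorem p_HR3 (hHB2 : S_HB2) (hHDIR0 : S_HDIR0) (hHDIRX : S_HDIRX) :
    S_HR3 := by
  refine ⟨4, fun d S D hd _ hS => ?_⟩
  obtain ⟨c1, C1, -, -, hC1, h1⟩ := hHB2 d S D hS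
  obtain ⟨C2, hC2, h2⟩ := exists_Vd_bound d D.Lam
  obtain ⟨C3, hC3, h3⟩ := hHDIRX d S D hS
  have hd1 : (1 : ℝ) ≤ d := Nat.one_le_cast.2 (by omega)
  have h12 : 1 ≤ C1 * C2 := one_le_mul_of_one_le_of_one_le hC1 hC2
  have h3d : 0 < C3 * d := mul_pos hC3 (by linarith)
  obtain ⟨K, hK⟩ : ∃ K, K = C1 * C2 + C3 * d := ⟨_, rfl⟩
  have hK1 : 1 ≤ K := by linarith
  refine ⟨K⁻¹, inv_pos.2 (by linarith), fun ρ u T v t hc hv hv1 ht htv ⟨h0, hmu, hr⟩ => ?_⟩
  have hv2 : 0 < v ^ 2 := pow_pos hv 2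
  have hv21 : v ^ 2 ≤ 1 := pow_le_one₀ hv.le hv1
  have htv' : t ≤ v := htv.trans (by
    calc K⁻¹ * v ^ 4 ≤ 1 * v ^ 1 := mul_le_mul (inv_le_one_of_one_le₀ hK1)
          (pow_le_pow_of_le_one hv.le hv1 (by norm_num)) (pow_pos hv 4).le zero_le_one
      _ = v := by ring)
  have hL := hS.Lam_pos
  have ha : |u.1| ≤ D.Lam := (hc.fac.abs_a hc.bas).trans (by linarith)
  by_contra hn
  simp only [not_or] at hn
  refine hn.1 fun x hx => ?_
  by_cases hz : x ∈ ρ.Z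
  · have hp := hc.pin_of_mem hx hz
    exact Or.inl ⟨hz, hp, htv'.trans (hmu.1 x (RD.mem_TF.2 ⟨hz, Or.inl hp⟩)),
      by linarith [hmu.2.2 x hz hp]⟩
  refine Or.inr fun w hw => le_of_not_gt fun hlt => hn.2.1 (Or.inr (Or.inl ?_))
  have hx1 : |x| ≤ D.Lam := by
    rcases hx with rfl | rfl
    · rw [abs_zero]
      exact hL.le
    · exact ha
  have hq : v ^ 2 ≤ |ev ρ.q 1 x| := by
    rcases hr.2 x hx1 w hw (hlt.le.trans htv') with a | ⟨z, a, b, -⟩
    · exact a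
    · obtain ⟨-, e1, e2, -⟩ := hr.1 z a
      rw [abs_sub_comm] at b
      rcases hx with rfl | rfl
      · rw [sub_zero] at b
        linarith
      · linarith
  obtain ⟨h, e1, e2⟩ : ∃ h : E d, ‖h‖ ≤ K / v ^ 2 ∧ T.Dev ρ 0 x h = ev ρ.q 1 x := by
    rcases hx with rfl | rfl
    · have hB : 1 ≤ (d : ℝ) / v := (one_le_div hv).2 (hv1.trans hd1)
      obtain ⟨h, c0, -, a1, a2, -, -, -, a3, a4⟩ := h3 ρ u T v (d / v)
        (cf d (derivative (pol ρ.q))) ∅ hc hv hv1 h0.2.2.2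
        ((norm_cf_derivative (degree_pol_lt ρ.q)).trans (by
          rw [cf_pol, div_eq_mul_one_div]
          refine mul_le_mul_of_nonneg_left ((le_div_iff₀' hv).2 h0.2.2.2) (by linarith)))
        (fun y hy => absurd hy (notMem_empty y))
        (fun z a => by
          rw [ev_cf_der, ev_cf_der]
          exact ⟨a.2.2, le_mul_of_one_le_left (abs_nonneg _) hB⟩)
        (fun y _ _ _ => by
          rw [ev_cf_der]
          exact le_mul_of_one_le_left (abs_nonneg _) hB)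
      rw [sum_empty, add_zero] at a4
      have e : ∀ r : ℝ, v * r ≤ C3 * (d / v) → r ≤ K / v ^ 2 := fun r a => by
        rw [← mul_div_assoc, le_div_iff₀ hv] at a
        rw [le_div_iff₀ hv2]
        linarith
      refine ⟨h, norm_E_le (e _ a3) (e _ a4), ?_⟩
      rw [Tan.Dev, a2, a1 hz, hc.d0, ev_cf_der]
      ring
    · obtain ⟨h, a1, a2, -, -, a3⟩ := hHDIR0 d S D hS ρ u T hc 1 0 fun a => absurd a hz
      have e : C1 * C2 ≤ K / v ^ 2 := by
        rw [le_div_iff₀ hv2]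
        nlinarith
      refine ⟨h, (norm_E_le (by rw [a2, abs_one]; exact h12) ?_).trans e, ?_⟩
      · simp only [a3, Pi.zero_apply, zero_smul, sum_const_zero, add_zero, mul_one, norm_smul,
          Real.norm_eq_abs]
        exact mul_le_mul ((h1 ρ u hc.bas hc.fac).2.1 _) (h2 0 _ ha).1 (norm_nonneg _) (by linarith)
      · rw [Tan.Dev, a1, hc.da, a2, ev_zero]
        ring
  refine ⟨x, ⟨by linarith, hx.elim Or.inl fun a => Or.inr (Or.inl a)⟩, 0, Nat.zero_le _, w,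
    Or.inl hw, hlt.le, Big.of_le h hv2 (by positivity) e1 (e2 ▸ hq) (le_of_eq ?_)⟩
  field_simp

end Pool.Agent.P.MP_a0f0ad_al.Fi
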