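import Pool.Agent.P.MP_a0f0ad_al.Fi.H.Defs

/-! Chapter H: the steps of the proof of `S_GOOD`. -/

namespace Pool.Agent.P.MP_a0f0ad_al.Fi

open Finset MeasureTheory Polynomial Filter Topology
open scoped Classical

/-! ### elementary facts -/

-- deps: PEN HOM PUB
/-- elementary facts on optimal representations -/
def S_HB1 : Prop :=
  ∀ (d : ℕ) (S : Finset (G d)) (D : LD d), D.Spec S → ∀ (ρ : RD d) (u : E d), ρ.Bas D u →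
    ρ.Fac D u

-- deps: MARK
/-- uniform constants -/
def S_HB2 : Prop :=
  ∀ (d : ℕ) (S : Finset (G d)) (D : LD d), D.Spec S → ∃ c C : ℝ, 0 < c ∧ c ≤ 1 ∧ 1 ≤ C ∧
    ∀ (ρ : RD d) (u : E d), ρ.Bas D u → ρ.Fac D u →
      ((ρ.N D u.1).card : ℝ) ≤ C ∧ (∀ y, |ρ.J D u.1 y| ≤ C) ∧
      (∀ z ∈ ρ.Z, ¬ ρ.Pin u.1 z → ev ρ.q 1 z ≠ 0 → c ≤ |ev ρ.q 1 z|) ∧
      ∀ y ∈ ρ.N D u.1, ∀ y' ∈ ρ.N D u.1, ev ρ.q 0 y ≠ ev ρ.q 0 y' →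
        c * (ρ.M - ρ.m) ≤ |y - y'|

-- deps:
/-- one-sided values of step functions along a polynomial -/
def S_HJMP : Prop :=
  (∀ (d : ℕ) (q : Fin d → ℝ) (φ : ℝ → ℝ) (y l r : ℝ),
    (∀ᶠ w in 𝓝[<] (ev q 0 y), φ w = l) → (∀ᶠ w in 𝓝[>] (ev q 0 y), φ w = r) →
    (0 < ev q 1 y → (∀ᶠ x in 𝓝[<] y, φ (ev q 0 x) = l) ∧ ∀ᶠ x in 𝓝[>] y, φ (ev q 0 x) = r) ∧
    (ev q 1 y < 0 → (∀ᶠ x in 𝓝[<] y, φ (ev q 0 x) = r) ∧ ∀ᶠ x in 𝓝[>] y, φ (ev q 0 x) = l)) ∧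
  ∀ (d : ℕ) (S : Finset (G d)) (D : LD d), D.Spec S → ∀ w : ℝ,
    (∃ l r, (∀ᶠ x in 𝓝[<] w, D.kp x = l) ∧ ∀ᶠ x in 𝓝[>] w, D.kp x = r) ∧
    (∃ l r, (∀ᶠ x in 𝓝[<] w, D.kp (-x) = l) ∧ ∀ᶠ x in 𝓝[>] w, D.kp (-x) = r) ∧
    ∃ l r, (∀ᶠ x in 𝓝[<] w, D.be x = l) ∧ (∀ᶠ x in 𝓝[>] w, D.be x = r) ∧ r - l = D.Jb w

-- deps: HJMP
/-- levels of the same kind have the same jump -/
def S_HJ : Prop :=
  ∀ (d : ℕ) (S : Finset (G d)) (D : LD d), D.Spec S → ∀ (ρ : RD d) (u : E d) (T : Tan d),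
    Ctx D ρ u T → ∀ y ∈ ρ.N D u.1, ∀ y' ∈ ρ.N D u.1, |ev ρ.q 0 y| < D.Q → ρ.Cls u.1 y y' →
      ρ.J D u.1 y = ρ.J D u.1 y'

/-! ### charts -/

-- deps: PROJ DEFN
/-- the encoded representations form a semialgebraic set -/
def S_HSA : Prop :=
  ∀ (d : ℕ) (S : Finset (G d)) (D : LD d), D.Spec S → ∀ (n : ℕ) (jm jM : Fin n)
    (Zs : Finset (Fin n)),
    SA {p : E d × (Fin d → ℝ) × (Fin n → ℝ) × (Fin n → ℝ) |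
      (∃ g : E d, Grad D.NN g p.1 ∧ g.2 = p.2.1) ∧ Enc D p.1 jm jM Zs p.2.1 p.2.2.1 p.2.2.2}

-- deps: HB1
/-- the type and the dual polynomial determine the data -/
def S_HUNI : Prop :=
  ∀ (d : ℕ) (S : Finset (G d)) (D : LD d), D.Spec S → ∀ (u : E d) (n : ℕ) (jm jM : Fin n)
    (Zs : Finset (Fin n)) (q : Fin d → ℝ) (x μ x' μ' : Fin n → ℝ),
    Enc D u jm jM Zs q x μ → Enc D u jm jM Zs q x' μ' → x = x' ∧ μ = μ'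

-- deps:
/-- the masses off the atoms do not matter -/
def S_HNRM : Prop :=
  ∀ (d : ℕ) (D : LD d) (ρ : RD d) (u : E d), ρ.nrm.pa D u = ρ.pa D u ∧
    (ρ.Bas D u → ρ.nrm.Bas D u) ∧ ∀ pa v, ρ.nrm.Good D u pa v → ρ.Good D u pa v

-- deps: HB1 HNRM
/-- every representation can be encoded -/
def S_HENC : Prop :=
  ∀ (d : ℕ) (S : Finset (G d)) (D : LD d), D.Spec S → ∃ n0 : ℕ, ∀ (ρ : RD d) (u : E d),
    ρ.Bas D u → ∃ n ≤ n0, ∃ (jm jM : Fin n) (Zs : Finset (Fin n)) (x μ : Fin n → ℝ),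
      Enc D u jm jM Zs ρ.q x μ ∧ mkrd jm jM Zs ρ.q x μ = ρ.nrm

-- deps: PROJ CHOICE DIFF HOM HSA HUNI HENC
/-- finitely many charts cover almost all representations -/
def S_HCOV : Prop :=
  ∀ (d : ℕ) (S : Finset (G d)) (D : LD d), D.Spec S →
    ∃ (ι : Type) (_ : Fintype ι) (n : ι → ℕ) (c : ∀ i, Ch d (n i)), (∀ i, (c i).OK D) ∧
      ∀ᵐ u : E d, ∀ (p : E d) (ρ : RD d), Grad D.NN p u → ρ.q = p.2 → ρ.Bas D u →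
        ∃ i, u ∈ (c i).U ∧ (c i).rd u = ρ.nrm

-- deps: PROJ NULL
/-- almost every point is generic -/
def S_HGEN : Prop :=
  ∀ (d : ℕ) (D : LD d) (n : ℕ) (c : Ch d n), c.OK D → ∀ᵐ u : E d, c.Gen D u

-- deps:
/-- step functions are constant between consecutive marked points -/
def S_HGAP : Prop :=
  ∀ (d : ℕ) (D : LD d) (n : ℕ) (c : Ch d n), c.OK D → ∀ u0 ∈ c.U,
    (∀ φ : ℝ → ℝ, (∀ w, w ∉ D.ThA → ∀ᶠ w' in 𝓝 w, φ w' = φ w) →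
      ∃ β : Fin n → ℝ, ∀ᶠ u in 𝓝 u0, ∀ i j : Fin n, (j : ℕ) = i + 1 →
        ∀ y ∈ Set.Ioo (c.x u i) (c.x u j), φ (ev (c.q u) 0 y) = β i) ∧
    (∀ j, c.x u0 j = 0 → ∀ᶠ u in 𝓝 u0, c.x u j = 0) ∧
    ∀ j, c.x u0 j = u0.1 → ∀ᶠ u in 𝓝 u0, c.x u j = u.1

-- deps:
/-- the derivative of the integral of a moving step function times a polynomial -/
def S_HDINT : Prop :=
  ∀ (d n : ℕ) (x : E d → Fin n → ℝ) (F : E d → ℝ → ℝ) (f : E d → Fin d → ℝ) (β : Fin n → ℝ)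
    (u0 : E d), DifferentiableAt ℝ x u0 → DifferentiableAt ℝ f u0 →
    (∀ᶠ u in 𝓝 u0, StrictMono (x u) ∧ ∀ i j : Fin n, (j : ℕ) = i + 1 →
      ∀ y ∈ Set.Ioo (x u i) (x u j), F u y = β i) →
    ∀ j1 j2 : Fin n, j1 < j2 → ∃ L : E d →L[ℝ] ℝ,
      HasFDerivAt (fun u => ∫ y in x u j1..x u j2, F u y * ev (f u) 0 y) L u0 ∧ ∀ h, L h =
        (∫ y in x u0 j1..x u0 j2, F u0 y * ev (fderiv ℝ f u0 h) 0 y) +
          Function.leftLim (F u0) (x u0 j2) * ev (f u0) 0 (x u0 j2) *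
            fderiv ℝ (fun u => x u j2) u0 h -
          Function.rightLim (F u0) (x u0 j1) * ev (f u0) 0 (x u0 j1) *
            fderiv ℝ (fun u => x u j1) u0 h +
          ∑ j ∈ univ.filter (fun j => j1 < j ∧ j < j2),
            (Function.leftLim (F u0) (x u0 j) - Function.rightLim (F u0) (x u0 j)) *
              ev (f u0) 0 (x u0 j) * fderiv ℝ (fun u => x u j) u0 h

-- deps: HB1 HGAP HDINT
/-- the differentiated representation formula -/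
def S_HDY : Prop :=
  ∀ (d : ℕ) (S : Finset (G d)) (D : LD d), D.Spec S → ∀ (n : ℕ) (c : Ch d n), c.OK D →
    ∀ u ∈ c.U, ∀ h : E d, h.2 =
      ∑ y ∈ insert u.1 ((c.rd u).N D u.1),
          ((c.rd u).J D u.1 y * (c.tan u).Dx y h) • (Vd 0 y : Fin d → ℝ) +
        ∑ z ∈ (c.rd u).Z, ((c.tan u).Dm z h • (Vd 0 z : Fin d → ℝ) +
          ((c.rd u).mu z * (c.tan u).Dx z h) • (Vd 1 z : Fin d → ℝ))

-- deps: HB1 HGAP HDY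
/-- the differentiated node equations -/
def S_HTANW : Prop :=
  ∀ (d : ℕ) (S : Finset (G d)) (D : LD d), D.Spec S → ∀ (n : ℕ) (c : Ch d n), c.OK D →
    ∀ u ∈ c.U, c.Gen D u → CtxW D (c.rd u) u (c.tan u)

-- deps: HB1
/-- the dimension count -/
def S_HTANS : Prop :=
  ∀ (d : ℕ) (S : Finset (G d)) (D : LD d), D.Spec S → ∀ (ρ : RD d) (u : E d) (T : Tan d),
    CtxW D ρ u T → Ctx D ρ u T

-- deps: HGEN HTANW HTANS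
/-- almost every point of a chart is nondegenerate -/
def S_HCTX : Prop :=
  ∀ (d : ℕ) (S : Finset (G d)) (D : LD d), D.Spec S → ∀ (n : ℕ) (c : Ch d n), c.OK D →
    ∀ᵐ u : E d, u ∈ c.U → Ctx D (c.rd u) u (c.tan u)

-- deps: PROJ TAIL
/-- the tail estimate for distances, values and masses -/
def S_HHIT1 : Prop :=
  ∀ (d : ℕ) (S : Finset (G d)) (D : LD d), D.Spec S → ∀ (n : ℕ) (c : Ch d n), c.OK D →
    ∃ C : ℝ, ∀ t l : ℝ, 0 < t → 0 < l →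
      volume {u | u ∈ c.U ∧ Hit1 D (c.rd u) u (c.tan u) t l} ≤ ENNReal.ofReal (C * t / l)

-- deps:
/-- the test polynomials depend polynomially on their roots -/
def S_HFA : Prop :=
  ∀ (d n : ℕ) (A : Finset (Fin n)) (k : ℕ),
    IsPM (fun x : Fin n → ℝ => cf d (X ^ k * ∏ j ∈ A, (X - C (x j)))) ∧
    ∀ x : Fin n → ℝ, ∃ L : (Fin n → ℝ) →L[ℝ] (Fin d → ℝ),
      HasFDerivAt (fun x : Fin n → ℝ => cf d (X ^ k * ∏ j ∈ A, (X - C (x j)))) L x ∧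
      ∀ h, L h = -∑ j ∈ A, h j • cf d (X ^ k * ∏ i ∈ A.erase j, (X - C (x i)))

-- deps: HJMP HGAP HDINT HFA
/-- the derivative of the competition integrals -/
def S_HDI : Prop :=
  ∀ (d : ℕ) (S : Finset (G d)) (D : LD d), D.Spec S → ∀ (n : ℕ) (c : Ch d n), c.OK D →
    ∀ u0 ∈ c.U, ∀ (A : Finset (Fin n)) (k : ℕ) (j1 j2 : Fin n), j1 < j2 →
      ∃ L : E d →L[ℝ] ℝ, HasFDerivAt (fun u => D.Ib (c.q u)
        (cf d (X ^ k * ∏ j ∈ A, (X - C (c.x u j)))) (c.x u j1) (c.x u j2)) L u0 ∧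
      (Ctx D (c.rd u0) u0 (c.tan u0) → |ev (c.q u0) 0 (c.x u0 j1)| = D.Q →
        |ev (c.q u0) 0 (c.x u0 j2)| = D.Q → ∀ Lv, D.IsLv (c.q u0) (c.x u0 j1) (c.x u0 j2) Lv →
        ∀ h, L h = (c.tan u0).DI (c.rd u0) D (A.image (c.x u0)) k (c.x u0 j1) (c.x u0 j2) Lv h)

-- deps: PROJ TAIL DEFN HFA HDI
/-- the tail estimate for the competition of two ranges -/
def S_HHIT2 : Prop :=
  ∀ (d : ℕ) (S : Finset (G d)) (D : LD d), D.Spec S → ∀ (n : ℕ) (c : Ch d n), c.OK D →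
    ∃ C : ℝ, ∀ t l : ℝ, 0 < t → 0 < l →
      volume {u | u ∈ c.U ∧ Ctx D (c.rd u) u (c.tan u) ∧ Hit2 D (c.rd u) u (c.tan u) t l} ≤
        ENNReal.ofReal (C * t / l)

-- deps: HCTX HHIT1 HHIT2
/-- the two rules for small exceptional sets -/
def S_HSTEP : Prop :=
  (∀ P Q : Prd, Sm P → Imp P Q → Sm Q) ∧
    ∀ P Q : Prd, Mono P → Mono Q → Sm P → Sm Q → Sm (P.and Q)

-- deps:
/-- all stage predicates are monotone -/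
def S_HMONO : Prop :=
  (∀ P Q : Prd, Mono P → Mono Q → Mono (P.and Q)) ∧ Mono pS0 ∧ Mono pBG ∧ Mono pDEN ∧
    Mono pQL ∧ Mono pP0 ∧ Mono pMD ∧ Mono pPC ∧ Mono pPR ∧ Mono pTH ∧ Mono pTV ∧ Mono pMU ∧
    Mono pR12 ∧ Mono pR3 ∧ Mono pG1 ∧ Mono pG2 ∧ Mono pG6L ∧ Mono pG6R

-- deps: MARK PEN HOM PUB HB1
/-- height, range and size of the dual polynomial -/
def S_HS0 : Prop := Sm pS0

-- deps: PROJ TAIL HB1
/-- bounded functions have bounded gradients -/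
def S_HBG : Prop := Sm pBG

-- deps:
/-- the algebra of non-resonance -/
def S_HNRA : Prop :=
  ∀ (d : ℕ) (S : Finset (G d)) (D : LD d), D.Spec S → ∀ (ρ : RD d) (u : E d) (T : Tan d),
    Ctx D ρ u T → d < ρ.eN D u.1 → ∀ (f : Fin d → ℝ) (Df : E d → Fin d → ℝ),
    (∀ y ∈ ρ.N D u.1, ∀ h, ev (Df h) 0 y + ev f 1 y * T.Dx y h = 0) →
    (∀ z, ρ.IsT u.1 z → ev f 1 z = 0 ∧ ∀ h, ev (Df h) 1 z + ev f 2 z * T.Dx z h = 0) →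
    (∀ z ∈ ρ.Z, ¬ ρ.Pin u.1 z → ∀ h,
      T.Dm z h * ev f 1 z + ρ.mu z * (ev (Df h) 1 z + ev f 2 z * T.Dx z h) = 0) →
    ∃ c0 c1 : ℝ, ∀ x, ev f 0 x = c0 + c1 * ev ρ.q 0 x

-- deps: PROJ CHOICE DIFF HCTX HNRA
/-- non-resonance almost everywhere -/
def S_HNRC : Prop :=
  ∀ (d : ℕ) (S : Finset (G d)) (D : LD d), D.Spec S → ∀ (n : ℕ) (c : Ch d n), c.OK D →
    ∀ᵐ u : E d, u ∈ c.U → d < (c.rd u).eN D u.1 → (c.rd u).NR D u.1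

/-! ### directions -/

-- deps:
/-- variations that fix the dual polynomial -/
def S_HDIR0 : Prop :=
  ∀ (d : ℕ) (S : Finset (G d)) (D : LD d), D.Spec S → ∀ (ρ : RD d) (u : E d) (T : Tan d),
    Ctx D ρ u T → ∀ (da : ℝ) (ν : ℝ → ℝ), (u.1 ∈ ρ.Z → da = 0) →
    ∃ h : E d, T.Dq h = 0 ∧ h.1 = da ∧ (∀ z ∈ ρ.TF u.1, T.Dm z h = ν z) ∧
      (∀ y, |y| < 2 * D.Lam → ev ρ.q 0 y ∈ D.ThA → T.Dx y h = 0) ∧
      h.2 = (ρ.J D u.1 u.1 * da) • (Vd 0 u.1 : Fin d → ℝ) +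
        ∑ z ∈ ρ.TF u.1, ν z • (Vd 0 z : Fin d → ℝ)

-- deps: HB2
/-- variations of the dual polynomial -/
def S_HDIRX : Prop :=
  ∀ (d : ℕ) (S : Finset (G d)) (D : LD d), D.Spec S → ∃ C : ℝ, 0 < C ∧
    ∀ (ρ : RD d) (u : E d) (T : Tan d) (v B : ℝ) (g : Fin d → ℝ) (SS : Finset ℝ), Ctx D ρ u T →
      0 < v → v ≤ 1 → v * ‖ρ.q‖ ≤ 1 → ‖g‖ ≤ B →
      (∀ y ∈ SS, y ∈ ρ.N D u.1 ∧ |ev ρ.q 0 y| < D.Q) →
      (∀ z, ρ.IsT u.1 z → ev g 0 z = 0 ∧ |ev g 1 z| ≤ B * |ev ρ.q 2 z|) →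
      (∀ y ∈ ρ.N D u.1, y ∉ SS → ¬ ρ.IsT u.1 y → |ev g 0 y| ≤ B * |ev ρ.q 1 y|) →
      ∃ (h : E d) (c0 : ℝ), |c0| ≤ B ∧ ((0 : ℝ) ∉ ρ.Z → c0 = 0) ∧
        (∀ k x, ev (T.Dq h) k x = ev g k x - c0 * ev ρ.q (k + 1) x) ∧
        (∀ z ∈ ρ.TF u.1, T.Dm z h = 0) ∧
        (∀ y, |y| < 2 * D.Lam → ev ρ.q 0 y ∈ D.ThA → ¬ ρ.IsT u.1 y →
          T.Dx y h = c0 - ev g 0 y / ev ρ.q 1 y) ∧
        (∀ z, ρ.IsT u.1 z → T.Dx z h = c0 - ev g 1 z / ev ρ.q 2 z) ∧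
        v * |h.1| ≤ C * B ∧
        v * ‖h.2 + ∑ y ∈ SS, (ρ.J D u.1 y * (ev g 0 y / ev ρ.q 1 y)) • Vd 0 y‖ ≤ C * B

-- deps:
/-- a cluster of roots separated from the other roots by an empty annulus -/
def S_HCLUS : Prop :=
  ∀ (D0 n0 : ℕ) (L : ℝ), 0 ≤ L → ∃ c : ℝ, 0 < c ∧ ∀ (p : ℝ[X]) (Nd : Finset ℝ) (x0 x1 l v : ℝ),
    p.natDegree ≤ D0 → Nd.card ≤ n0 → |x0| ≤ L → |x1| ≤ L → 0 < l → l ≤ 1 → 0 < v →
    v ≤ |p.eval x1| →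
    ∃ (r δ : ℝ) (w r1 : ℝ[X]), c * l ≤ δ ∧ 0 ≤ r ∧ r + δ ≤ l ∧ p = w * r1 ∧ w.Monic ∧
      (∀ y ∈ Nd, |y - x0| ≤ r ∨ r + δ ≤ |y - x0|) ∧
      (∀ x, r + δ ≤ |x - x0| → δ ^ D0 ≤ |w.eval x|) ∧
      (∀ x, |x - x0| ≤ r → c * v * δ ^ D0 ≤ |r1.eval x|) ∧
      nr (2 * L + 4) r1 ≤ nr (2 * L + 4) p

/-! ### the stages -/

-- deps: HB2
def S_HDEN : Prop := Imp pBG pDEN

-- deps: MARK QLOW
def S_HQL : Prop := Imp pDEN pQL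

-- deps: HDIR0
def S_HP0 : Prop := Imp pBG pP0

-- deps: HB2 HDIRX
def S_HMD : Prop := Imp pS0 pMD

-- deps: HB2 HJ HDIRX HCLUS
def S_HPC : Prop := Imp (pS0.and (pBG.and pQL)) pPC

-- deps:
def S_HPR : Prop := Imp (pMD.and (pP0.and pPC)) pPR

-- deps: HB2 HDIRX HCLUS
def S_HTH : Prop := Imp (pS0.and (pQL.and pPR)) pTH

-- deps: HDIRX
def S_HTV : Prop := Imp (pS0.and (pQL.and (pP0.and pTH))) pTV

-- deps: HB2 HDIR0 HDIRX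
def S_HMU : Prop := Imp (pS0.and (pP0.and pTH)) pMU

-- deps:
def S_HR12 : Prop := Imp (pS0.and (pQL.and (pTH.and (pTV.and pMU)))) pR12

-- deps: HB2 HDIR0 HDIRX
def S_HR3 : Prop := Imp (pS0.and (pMU.and pR12)) pR3

-- deps: HDIR0
def S_HG1 : Prop := Imp pP0 pG1

-- deps: TCP HDIRX
def S_HG2 : Prop := Imp (pS0.and (pTH.and pR12)) pG2

-- deps:
/-- an equioscillating polynomial of odd degree is odd -/
def S_HCHS : Prop :=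
  ∀ (d : ℕ) (q : Fin d → ℝ) (Q α M : ℝ) (Z : Finset ℝ), Even d → Nonconst q → 0 < Q →
    (∀ x ∈ Set.Icc α M, |ev q 0 x| ≤ Q) → |ev q 0 α| = Q → |ev q 0 M| = Q → α < M →
    Z.card + 2 = d → (∀ x ∈ Z, α < x ∧ x < M ∧ |ev q 0 x| = Q ∧ ev q 1 x = 0) →
    ∀ x, ev q 0 (α + M - x) = -ev q 0 x

-- deps: HCHS
/-- in the equioscillating case the competition is carried by the atoms -/
def S_HCHP : Prop :=
  ∀ (d : ℕ) (S : Finset (G d)) (D : LD d), Even d → D.Spec S → D.om D.Q = 0 →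
    ∀ (q : Fin d → ℝ) (α m z M : ℝ) (Z : Finset ℝ), Nonconst q → α < m → z < M →
      D.Feas q α M → |ev q 0 α| = D.Q → |ev q 0 M| = D.Q → m ∈ Z → z ∈ Z → Z.card + 2 = d →
      (∀ x ∈ Z, m ≤ x ∧ x ≤ z ∧ |ev q 0 x| = D.Q ∧ ev q 1 x = 0) →
      (∫ x in α..m, D.om (ev q 0 x)) = (∫ x in z..M, D.om (ev q 0 x)) ∧
      ∀ f : Fin d → ℝ, D.Phi q f α m z M = ∑ x ∈ Z, ev f 0 x *
        (D.Phi q (fA d (Z.erase x) 0) α m z M / ev (fA d (Z.erase x) 0) 0 x)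

-- deps:
/-- the partner representation -/
def S_HPART : Prop :=
  ∀ (d : ℕ) (S : Finset (G d)) (D : LD d), 6 ≤ d → D.Spec S → D.om D.Q = 0 →
    ∀ (ρ : RD d) (u : E d) (m1 M1 : ℝ) (μ1 : ℝ → ℝ), ρ.Bas D u → u.1 < ρ.M →
      (∀ x ∈ ρ.Z, ρ.IsT u.1 x ∧ m1 ≤ x ∧ x ≤ M1 ∧ 0 < μ1 x * ev ρ.q 0 x) → ρ.Z.card + 2 = d →
      m1 < 0 → u.1 < M1 → D.Feas ρ.q m1 M1 → |ev ρ.q 0 m1| = D.Q → |ev ρ.q 0 M1| = D.Q →
      (∫ x in ρ.M..M1, D.om (ev ρ.q 0 x)) + (∫ x in m1..ρ.m, D.om (ev ρ.q 0 x)) = 0 →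
      (∀ f : Fin d → ℝ, D.Ib ρ.q f ρ.M M1 + D.Ib ρ.q f m1 ρ.m =
        ∑ x ∈ ρ.Z, (ρ.mu x - μ1 x) * ev f 0 x) →
      d < ρ.eN D u.1 ∧ ∃ ρ' : RD d, ρ'.Opt D u (ρ.pa D u) ∧ ρ'.q = ρ.q ∧ ρ'.m = m1 ∧ ρ'.M = M1 ∧
        d < ρ'.eN D u.1

-- deps: HCHP HPART
def S_HG6L : Prop := Imp (pG1.and pG2) pG6L

-- deps: HCHP HPART
def S_HG6R : Prop := Imp (pG1.and pG2) pG6R

-- deps: HNRM HCOV HSTEP HMONO HS0 HBG HNRC HDEN HQL HP0 HMD HPC HPR HTH HTV HMU HR12 HR3 HG1 HG2 HG6L HG6R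
/-- the assembly -/
def S_HALL : Prop := S_GOOD

end Pool.Agent.P.MP_a0f0ad_al.Fi
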