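import Pool.Agent.P.MP_a0f0ad_al.Fi.H.Iface
import Pool.Agent.P.MP_a0f0ad_al.Fi.S.Iface
import Pool.Agent.P.MP_a0f0ad_al.Fi.V.Iface
import Pool.Agent.P.MP_a0f0ad_al.Fi.W.Iface

/-! Step OSCN of the filiform project. -/

namespace Pool.Agent.P.MP_a0f0ad_al.Fi

open Finset MeasureTheory

namespace OscnA

variable {d : ℕ}

theorem ell_nonneg (u : E d) : 0 ≤ ell u := le_trans (abs_nonneg _) (le_max_left _ _)

theorem ell_pos (hd : 2 ≤ d) {u : E d} {v : ℝ} (hv : 0 < v) (h : v ≤ ell u ^ d) : 0 < ell u := by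
  rcases (ell_nonneg u).lt_or_eq with h1 | h1
  · exact h1
  · rw [← h1, zero_pow (by omega)] at h
    linarith

theorem pow_ge {l v : ℝ} (hl : 0 < l) (hv1 : v ≤ 1) (h : v ≤ l ^ d) {j : ℕ} (hj : j ≤ d) :
    v ≤ l ^ j := by
  rcases le_total l 1 with h1 | h1
  · exact h.trans (pow_le_pow_of_le_one hl.le h1 hj)
  · exact hv1.trans (one_le_pow₀ h1)

theorem ell_half (hd : 2 ≤ d) {u u' : E d} {v r : ℝ} (hv : 0 < v) (hv1 : v ≤ 1)
    (hr : 2 * r ≤ v) (h : v ≤ ell u ^ d) (hu : ‖u' - u‖ ≤ r) : ell u / 2 ≤ ell u' := by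
  have hl := ell_pos hd hv h
  have : Nonempty (Fin d) := ⟨⟨0, by omega⟩⟩
  rcases max_cases |u.1|
    (⨆ j : Fin d, if (j : ℕ) = 0 then (0 : ℝ) else |u.2 j| ^ (((j : ℕ) : ℝ)⁻¹)) with h1 | h1
  · have e1 : ell u = |u.1| := h1.1
    have h2 : |u'.1 - u.1| ≤ r := by
      have := norm_fst_le (u' - u)
      rw [Real.norm_eq_abs] at this
      exact this.trans hu
    have h3 := pow_ge hl hv1 h (j := 1) (by omega)
    rw [pow_one] at h3
    have h4 : |u.1| - |u'.1| ≤ r := by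
      have := abs_sub_abs_le_abs_sub u.1 u'.1
      rw [abs_sub_comm] at this
      linarith
    have h5 : |u'.1| ≤ ell u' := le_max_left _ _
    linarith
  · obtain ⟨j, hj⟩ := exists_eq_ciSup_of_finite
      (f := fun j : Fin d => if (j : ℕ) = 0 then (0 : ℝ) else |u.2 j| ^ (((j : ℕ) : ℝ)⁻¹))
    have e1 : ell u = if (j : ℕ) = 0 then (0 : ℝ) else |u.2 j| ^ (((j : ℕ) : ℝ)⁻¹) := by
      rw [hj]; exact h1.1
    have hj0 : (j : ℕ) ≠ 0 := by
      intro h0
      rw [if_pos h0] at e1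
      linarith
    rw [if_neg hj0] at e1
    have e2 : ell u ^ (j : ℕ) = |u.2 j| := by
      rw [e1]; exact Real.rpow_inv_natCast_pow (abs_nonneg _) hj0
    have h3 := pow_ge hl hv1 h (j := j) j.2.le
    have h2 : |u'.2 j - u.2 j| ≤ r := by
      have h5 := norm_le_pi_norm (u' - u).2 j
      rw [Real.norm_eq_abs] at h5
      exact h5.trans ((norm_snd_le _).trans hu)
    have h4 : |u.2 j| - |u'.2 j| ≤ r := by
      have := abs_sub_abs_le_abs_sub (u.2 j) (u'.2 j)
      rw [abs_sub_comm] at this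
      linarith
    have h5 : (ell u / 2) ^ (j : ℕ) ≤ |u'.2 j| := by
      rw [div_pow]
      have h6 : (2 : ℝ) ≤ 2 ^ (j : ℕ) := by
        calc (2 : ℝ) = 2 ^ 1 := (pow_one _).symm
          _ ≤ 2 ^ (j : ℕ) := pow_le_pow_right₀ (by norm_num) (by omega)
      have h7 : ell u ^ (j : ℕ) / 2 ^ (j : ℕ) ≤ ell u ^ (j : ℕ) / 2 :=
        div_le_div_of_nonneg_left (by positivity) (by norm_num) h6
      linarith
    have h6 : ell u / 2 ≤ |u'.2 j| ^ (((j : ℕ) : ℝ)⁻¹) := by
      have h7 := Real.rpow_le_rpow (by positivity) h5 (z := ((j : ℕ) : ℝ)⁻¹) (by positivity)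
      rwa [Real.pow_rpow_inv_natCast (by positivity) hj0] at h7
    have h7 := le_ciSup (f := fun j : Fin d =>
      if (j : ℕ) = 0 then (0 : ℝ) else |u'.2 j| ^ (((j : ℕ) : ℝ)⁻¹)) (Finite.bddAbove_range _) j
    rw [if_neg hj0] at h7
    exact h6.trans (h7.trans (le_max_right _ _))

theorem exists_pair (L : E d →L[ℝ] ℝ) : ∃ p : E d, ∀ h, L h = pair p h := by
  refine ⟨(L (1, 0), fun j => L (0, Pi.single j 1)), fun h => ?_⟩
  have e : h = h.1 • ((1, 0) : E d) + ∑ j, h.2 j • ((0, Pi.single j 1) : E d) := by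
    refine Prod.ext ?_ ?_
    · simp [Prod.fst_sum]
    · funext i
      simp [Prod.snd_sum, Finset.sum_apply, Pi.single_apply]
  conv_lhs => rw [e]
  rw [map_add, map_sum, map_smul]
  simp only [map_smul, smul_eq_mul, pair, dot]
  rw [mul_comm h.1]
  congr 1
  exact Finset.sum_congr rfl fun j _ => mul_comm _ _

end OscnA

open OscnA in
theorem p_OSCN (hOSC : S_OSC) (hDEFN : S_DEFN) (hHOM : S_HOM) (hLIP : S_LIP) :
    S_OSCN := by
  intro d S D hd hD
  obtain ⟨L, hL⟩ := (hHOM d S D hD).2.2.2.1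
  obtain ⟨C1, hC1, hlip⟩ := hLIP d S D (L + 1) hd hD
  have hH : (volume : Measure (E d)).IsAddHaarMeasure :=
    inferInstanceAs (((volume : Measure ℝ).prod (volume : Measure (Fin d → ℝ))).IsAddHaarMeasure)
  obtain ⟨C0, hC0⟩ := hOSC (E d) volume {u : E d | 0 < u.1} D.NN
    (isOpen_lt continuous_const continuous_fst) (hDEFN d S D hD).2.2.2.1 L
  have hM : 0 < max C0 1 := lt_of_lt_of_le one_pos (le_max_right _ _)
  refine ⟨2 + max C0 1 * (1 + C1 * 2 ^ d), by positivity, ?_⟩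
  intro v r e hv hv1 hr hCr he he1
  have h2r : 2 * r ≤ v := by
    have : 0 ≤ max C0 1 * (1 + C1 * 2 ^ d) * r := by positivity
    nlinarith
  have hK : 0 < C1 * 2 ^ d / v := by positivity
  refine le_trans (measure_mono ?_) ((hC0 r e (C1 * 2 ^ d / v) hr (by linarith) he hK).trans ?_)
  · rintro u ⟨hu1, hu2, hu3, hu4⟩
    have huL : ‖u‖ ≤ L := hL u (by linarith) (by linarith)
    have hl := ell_pos hd hv hu2
    have hball : ∀ y ∈ Metric.closedBall u r,
        0 < y.1 ∧ ‖y‖ ≤ L + 1 ∧ ell u / 2 ≤ ell y := by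
      intro y hy
      rw [mem_closedBall_iff_norm] at hy
      refine ⟨?_, ?_, ell_half hd hv hv1 h2r hu2 hy⟩
      · have h2 : |y.1 - u.1| ≤ r := by
          have := norm_fst_le (y - u)
          rw [Real.norm_eq_abs] at this
          exact this.trans hy
        have := (abs_le.1 h2).1
        linarith
      · have := norm_sub_norm_le y u
        linarith
    refine ⟨huL, fun y hy => (hball y hy).1, ?_, ?_⟩
    · intro y hy z hz
      obtain ⟨y1, y2, y3⟩ := hball y hy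
      obtain ⟨z1, z2, z3⟩ := hball z hz
      have hz0 : 0 < ell z := by linarith
      refine (hlip z y z1.le z2 hz0 y1.le y2 (by linarith)).trans ?_
      refine mul_le_mul_of_nonneg_right ?_ (norm_nonneg _)
      have h1 : (ell u / 2) ^ d ≤ ell z ^ d := pow_le_pow_left₀ (by positivity) z3 d
      rw [div_pow, div_le_iff₀ (by positivity)] at h1
      rw [div_le_div_iff₀ (by positivity) hv]
      have h2 : v ≤ ell z ^ d * 2 ^ d := hu2.trans h1
      nlinarith
    · rintro ⟨hdiff, hosc⟩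
      obtain ⟨p, hp⟩ := exists_pair (fderiv ℝ D.NN u)
      refine hu4 ⟨p, ⟨_, hdiff.hasFDerivAt, hp⟩, fun u' hu' => ?_⟩
      rw [← hp]
      exact hosc u' (mem_closedBall_iff_norm.2 hu')
  · refine ENNReal.ofReal_le_ofReal ?_
    have hev : 0 < e * v := mul_pos he hv
    have hev1 : e * v ≤ 1 := mul_le_one₀ he1 hv.le hv1
    have h1 : r + r * (C1 * 2 ^ d / v) / e ≤ (1 + C1 * 2 ^ d) * r / (e * v) := by
      have h2 : r ≤ r / (e * v) := by
        rw [le_div_iff₀ hev]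
        nlinarith
      have h3 : (1 + C1 * 2 ^ d) * r / (e * v) = r / (e * v) + r * (C1 * 2 ^ d / v) / e := by
        field_simp
      rw [h3]
      linarith
    have h0 : 0 ≤ r + r * (C1 * 2 ^ d / v) / e := by positivity
    calc C0 * (r + r * (C1 * 2 ^ d / v) / e)
        ≤ max C0 1 * (r + r * (C1 * 2 ^ d / v) / e) :=
          mul_le_mul_of_nonneg_right (le_max_left _ _) h0
      _ ≤ max C0 1 * ((1 + C1 * 2 ^ d) * r / (e * v)) := mul_le_mul_of_nonneg_left h1 hM.le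
      _ = max C0 1 * (1 + C1 * 2 ^ d) * r / (e * v) := by ring
      _ ≤ (2 + max C0 1 * (1 + C1 * 2 ^ d)) * r / (e * v) := by
          refine div_le_div_of_nonneg_right ?_ hev.le
          nlinarith

end Pool.Agent.P.MP_a0f0ad_al.Fi
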